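import Pool.Agent.Helper202_BG.Stmts
import Pool.Agent.H854R3.NE.Dens2

/-!
Task A: in an algebra with a multilinear identity every non-nilpotent element is detected by an
absolutely irreducible representation of bounded size over an extension field.
-/

set_option autoImplicit false

namespace Pool.Agent.Helper202_BG

namespace TA

open Polynomial Pool.Agent.H854R3.NE

/-- a multilinear map vanishing on a set vanishes on its span -/
theorem multilin_span {k V W : Type} [Field k] [AddCommGroup V] [Module k V] [AddCommGroup W]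
    [Module k W] {m : ℕ} (g : MultilinearMap k (fun _ : Fin m => V) W)
    (E : Set V) (h : ∀ X : Fin m → V, (∀ j, X j ∈ E) → g X = 0)
    (X : Fin m → V) (hX : ∀ j, X j ∈ Submodule.span k E) : g X = 0 := by
  classical
  have key : ∀ s : Finset (Fin m), ∀ X : Fin m → V, (∀ j, j ∉ s → X j ∈ E) →
      (∀ j, X j ∈ Submodule.span k E) → g X = 0 := by
    intro s
    induction s using Finset.induction_on with
    | empty => intro X hX _; exact h X (fun j => hX j (by simp))
    | insert i s his ih =>
      intro X hX hX'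
      have h1 : ∀ y ∈ Submodule.span k E, g (Function.update X i y) = 0 := by
        intro y hy
        induction hy using Submodule.span_induction with
        | mem y hy =>
          apply ih
          · intro j hj
            by_cases hji : j = i
            · subst hji; rwa [Function.update_self]
            · rw [Function.update_of_ne hji]
              exact hX j (by simp [hji, hj])
          · intro j
            by_cases hji : j = i
            · subst hji; rw [Function.update_self]; exact Submodule.subset_span hy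
            · rw [Function.update_of_ne hji]; exact hX' j
        | zero => exact g.map_update_zero X i
        | add y z _ _ h1 h2 => rw [g.map_update_add, h1, h2, add_zero]
        | smul a y _ h1 => rw [g.map_update_smul, h1, smul_zero]
      have := h1 (X i) (hX' i)
      rwa [Function.update_eq_self] at this
  exact key Finset.univ X (fun j hj => absurd (Finset.mem_univ j) hj) hX

/-- the multilinear map of an identity -/
noncomputable def mlmk {k Q : Type} [Field k] [Ring Q] [Algebra k Q] {m : ℕ}
    (nn : Equiv.Perm (Fin m) → k) : MultilinearMap k (fun _ : Fin m => Q) Q :=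
  ∑ π : Equiv.Perm (Fin m), nn π • ((MultilinearMap.mkPiAlgebraFin k m Q).domDomCongr π)

theorem mlmk_apply {k Q : Type} [Field k] [Ring Q] [Algebra k Q] {m : ℕ}
    (nn : Equiv.Perm (Fin m) → k) (X : Fin m → Q) :
    mlmk nn X = ∑ π, nn π • (List.ofFn fun i => X (π i)).prod := by
  simp only [mlmk, _root_.sum_apply, _root_.smul_apply,
      MultilinearMap.domDomCongr_apply, MultilinearMap.mkPiAlgebraFin_apply]

theorem identity_extk {k Q C : Type} [Field k] [Ring Q] [Algebra k Q] [Ring C] [Algebra k C]
    {m : ℕ} (nn : Equiv.Perm (Fin m) → k)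
    (ρ : C →ₐ[k] Q) (hid : ∀ a : Fin m → C, ∑ π, nn π • (List.ofFn fun i => a (π i)).prod = 0)
    (K : Set Q) (hK : ∀ κ ∈ K, ∀ κ' ∈ K, κ * κ' = κ' * κ) (hKρ : ∀ κ ∈ K, ∀ r, κ * ρ r = ρ r * κ)
    (t : Fin m → Q) (ht : ∀ j, t j ∈ Submodule.span k {z | ∃ r, ∃ κ ∈ K, z = ρ r * κ}) :
    ∑ π, nn π • (List.ofFn fun i => t (π i)).prod = 0 := by
  rw [← mlmk_apply]
  refine multilin_span _ _ ?_ t ht
  intro X hX
  choose r κ hκ hX using hX
  rw [mlmk_apply]
  have h1 : ∀ π : Equiv.Perm (Fin m), (List.ofFn fun i => X (π i)).prod =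
      ρ (List.ofFn fun i => r (π i)).prod * (List.ofFn κ).prod := by
    intro π
    have e1 : (List.ofFn fun i => X (π i)) = (List.ofFn π).map fun i => ρ (r i) * κ i := by
      rw [List.map_ofFn]
      congr 1
      funext i
      exact hX (π i)
    rw [e1, prod_split (fun i => ρ (r i)) κ (fun i j => hKρ _ (hκ i) _)]
    congr 1
    · rw [map_list_prod, List.map_ofFn, List.map_ofFn]
      rfl
    · have e2 : ((List.ofFn π).map κ).Perm (List.ofFn κ) := by
        rw [List.map_ofFn]
        exact Equiv.Perm.ofFn_comp_perm π κ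
      apply List.Perm.prod_eq' e2
      rw [List.map_ofFn, List.pairwise_ofFn]
      intro i j _
      exact hK _ (hκ _) _ (hκ _)
  simp only [h1]
  have h2 := congrArg (fun z => ρ z * (List.ofFn κ).prod) (hid r)
  simp only [map_sum, map_smul, Finset.sum_mul, zero_mul, map_zero] at h2
  rw [← h2]
  apply Finset.sum_congr rfl
  intro π _
  rw [smul_mul_assoc]

/-- a simple module over an algebra with a multilinear identity of degree `m` has dimension at most
`m` over its ring of endomorphisms -/
theorem rank_le_of_identity {k T M : Type} [Field k] [Ring T] [Algebra k T] [AddCommGroup M]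
    [Module T M] [Module k M] [IsScalarTower k T M]
    [IsSimpleModule T M] [DecidableEq (Module.End T M)] {m : ℕ}
    (nn : Equiv.Perm (Fin m) → k) (h0 : nn 1 = 1)
    (hid : ∀ t : Fin m → T, ∑ π, nn π • (List.ofFn fun i => t (π i)).prod = 0) :
    Module.rank (Module.End T M) M ≤ m := by
  classical
  by_contra hinf
  have h1 : ((m + 1 : ℕ) : Cardinal) ≤ Module.rank (Module.End T M) M := by
    rw [not_le] at hinf
    have := Order.succ_le_of_lt hinf
    rw [Cardinal.succ_natCast] at this
    exact_mod_cast this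
  obtain ⟨s, hs, hli⟩ := exists_finset_linearIndependent_of_le_rank h1
  let e : Fin (m + 1) ≃ s := (Fintype.equivFinOfCardEq (by simpa using hs)).symm
  let v : Fin (m + 1) → M := fun i => (e i : M)
  have hv : LinearIndependent (Module.End T M) v := by
    have h2 : LinearIndependent (Module.End T M) (fun i : s => (i : M)) := hli
    exact h2.comp e e.injective
  have hf : ∀ i : Fin m, ∃ f : M →ₗ[Module.End T M] M,
      ∀ j, f (v j) = if j = i.succ then v i.castSucc else 0 := by
    intro i
    obtain ⟨g, hg⟩ := LinearMap.exists_extend ((Module.Basis.span hv).constr ℤ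
      (fun j => if j = i.succ then v i.castSucc else 0))
    refine ⟨g, fun j => ?_⟩
    have h3 := congrArg (fun h => h (Module.Basis.span hv j)) hg
    simp only [LinearMap.comp_apply, Module.Basis.constr_basis] at h3
    rw [← h3]
    congr 1
    simp [Module.Basis.span_apply]
  choose f hf using hf
  have hr : ∀ i : Fin m, ∃ r : T, ∀ j, r • v j = if j = i.succ then v i.castSucc else 0 := by
    intro i
    obtain ⟨r, hr⟩ := jacobson_density (f i) (Finset.univ.image v)
    refine ⟨r, fun j => ?_⟩
    rw [← hr (v j) (Finset.mem_image_of_mem v (Finset.mem_univ j)), hf]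
  choose r hr using hr
  have h2 := hid r
  have h3 := congrArg (fun z => z • v (Fin.last m)) h2
  simp only [Finset.sum_smul, zero_smul] at h3
  have h4 : ∀ π : Equiv.Perm (Fin m),
      (nn π • (List.ofFn fun i => r (π i)).prod) • v (Fin.last m) =
      if π = 1 then v 0 else 0 := by
    intro π
    rw [smul_assoc, chain_prod v r hr π]
    by_cases h7 : π = 1
    · rw [if_pos h7, h7, h0, one_smul]
    · rw [if_neg h7, smul_zero]
  rw [Finset.sum_congr rfl (fun π _ => h4 π), Finset.sum_ite_eq' Finset.univ 1,
    if_pos (Finset.mem_univ _)] at h3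
  exact hv.ne_zero 0 h3

theorem detect {k : Type} [Field k] {R : Type} [Ring R] [Algebra k R] {d : ℕ}
    (nn : Equiv.Perm (Fin d) → k) (h0 : nn 1 = 1)
    (hid : ∀ a : Fin d → R, ∑ τ, nn τ • (List.ofFn fun i => a (τ i)).prod = 0)
    {β : R} (hβ : ∀ s : ℕ, β ^ s ≠ 0) : ∃ n, n ≤ d ∧ ∃ D : Rep k R n, D.ρ β ≠ 0 := by
  classical
  obtain ⟨M, i1, i2, hsimp, hM⟩ := exists_simple hβ
  let ik : Module k M := Module.compHom M (algebraMap k R[X])
  have itow : IsScalarTower k R[X] M := ⟨fun a q v => by
    change (a • q) • v = (algebraMap k R[X] a) • (q • v)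
    rw [Algebra.smul_def, mul_smul]⟩
  let ρ : R[X] →ₐ[k] Module.End k M := Algebra.lsmul k k M
  have hρ : ∀ q (v : M), ρ q v = q • v := fun q v => rfl
  let ρ0 : R →ₐ[k] Module.End k M := ρ.comp (Polynomial.CAlgHom)
  have hρ0 : ∀ r, ρ0 r = ρ (Polynomial.C r) := fun r => rfl
  obtain ⟨X', hX1, hX2, hX3⟩ := exists_comm_max (Set.range ρ)
  have hone : (1 : Module.End k M) ∈ X' :=
    hX3 1 (fun s _ => by rw [one_mul, mul_one]) (fun s _ => by rw [one_mul, mul_one])
  have hmul : ∀ a ∈ X', ∀ b ∈ X', a * b ∈ X' := by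
    intro a ha b hb
    apply hX3
    · intro s hs
      rw [mul_assoc, hX1 b hb s hs, ← mul_assoc, hX1 a ha s hs, mul_assoc]
    · intro s hs
      rw [mul_assoc, hX2 b hb s hs, ← mul_assoc, hX2 a ha s hs, mul_assoc]
  have hX : ρ X ∈ X' := by
    apply hX3
    · rintro _ ⟨q, rfl⟩
      rw [← map_mul, ← map_mul, X_mul]
    · intro ψ hψ
      exact (hX1 ψ hψ _ ⟨X, rfl⟩).symm
  have hmove : ∀ (r r' : R), ∀ κ ∈ X', ∀ κ' ∈ X',
      (ρ0 r * κ) * (ρ0 r' * κ') = ρ0 (r * r') * (κ * κ') := by
    intro r r' κ hκ κ' hκ'
    have e := hX1 κ hκ (ρ0 r') ⟨Polynomial.C r', rfl⟩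
    rw [map_mul, mul_assoc, ← mul_assoc κ, e]
    simp only [mul_assoc]
  let G : Set (Module.End k M) := {z | ∃ r : R, ∃ κ ∈ X', z = ρ0 r * κ}
  let T : Subalgebra k (Module.End k M) := (Submodule.span k G).toSubalgebra
    (Submodule.subset_span ⟨1, 1, hone, by rw [map_one, one_mul]⟩)
    (by
      intro x y hx hy
      induction hx using Submodule.span_induction with
      | mem x hx =>
        induction hy using Submodule.span_induction with
        | mem y hy =>
          obtain ⟨r, κ, hκ, rfl⟩ := hx
          obtain ⟨r', κ', hκ', rfl⟩ := hy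
          exact Submodule.subset_span ⟨r * r', κ * κ', hmul _ hκ _ hκ', hmove r r' κ hκ κ' hκ'⟩
        | zero => rw [mul_zero]; exact zero_mem _
        | add u v _ _ hu hv => rw [mul_add]; exact add_mem hu hv
        | smul a u _ hu => rw [mul_smul_comm]; exact Submodule.smul_mem _ _ hu
      | zero => rw [zero_mul]; exact zero_mem _
      | add u v _ _ hu hv => rw [add_mul]; exact add_mem hu hv
      | smul a u _ hu => rw [smul_mul_assoc]; exact Submodule.smul_mem _ _ hu)
  have hT : ∀ t ∈ T, t ∈ Submodule.span k G := fun t ht => ht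
  have hCT : ∀ r : R, ρ0 r ∈ T := fun r =>
    Submodule.subset_span ⟨r, 1, hone, by rw [mul_one]⟩
  have hXT : ∀ κ ∈ X', κ ∈ T := fun κ hκ =>
    Submodule.subset_span ⟨1, κ, hκ, by rw [map_one, one_mul]⟩
  have hρT : ∀ q : R[X], ρ q ∈ T := by
    intro q
    induction q using Polynomial.induction_on with
    | C a => exact hCT a
    | add p q hp hq => rw [map_add]; exact add_mem hp hq
    | monomial n a _ =>
      rw [map_mul, map_pow]
      exact mul_mem (hCT a) (pow_mem (hXT _ hX) _)
  have hsT : IsSimpleModule T M := by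
    rw [isSimpleModule_iff_toSpanSingleton_surjective]
    obtain ⟨hn, hs⟩ := isSimpleModule_iff_toSpanSingleton_surjective.1 hsimp
    refine ⟨hn, fun x hx y => ?_⟩
    obtain ⟨q, hq⟩ := hs x hx y
    exact ⟨⟨ρ q, hρT q⟩, hq⟩
  -- endomorphisms
  let toE : Module.End T M → Module.End k M := fun φ => φ.restrictScalars k
  have hend : ∀ φ : Module.End T M, toE φ ∈ X' := by
    intro φ
    have h1 : ∀ t ∈ T, toE φ * t = t * toE φ := by
      intro t ht
      ext v
      exact φ.map_smul (⟨t, ht⟩ : T) v
    apply hX3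
    · rintro _ ⟨q, rfl⟩
      exact h1 _ (hρT q)
    · intro ψ hψ
      exact h1 _ (hXT ψ hψ)
  have hcomm : ∀ φ ψ : Module.End T M, φ * ψ = ψ * φ := by
    intro φ ψ
    have h1 := hX2 _ (hend φ) _ (hend ψ)
    ext v
    exact congrArg (fun f : Module.End k M => f v) h1
  -- elements of X' are endomorphisms
  have hback : ∀ κ ∈ X', ∃ φ : Module.End T M, toE φ = κ := by
    intro κ hκ
    have h1 : ∀ t ∈ T, κ * t = t * κ := by
      intro t ht
      induction hT t ht using Submodule.span_induction with
      | mem x hx =>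
        obtain ⟨r, κ', hκ', rfl⟩ := hx
        have e := hX1 κ hκ (ρ0 r) ⟨Polynomial.C r, rfl⟩
        rw [← mul_assoc, e, mul_assoc, hX2 κ hκ κ' hκ', mul_assoc]
      | zero => rw [zero_mul, mul_zero]
      | add u v hu' hv' hu hv => rw [mul_add, add_mul, hu hu', hv hv']
      | smul a u hu' hu => rw [mul_smul_comm, smul_mul_assoc, hu hu']
    refine ⟨{ toFun := κ, map_add' := map_add κ, map_smul' := ?_ }, ?_⟩
    · intro t v
      exact congrArg (fun f : Module.End k M => f v) (h1 t t.2)
    · ext v
      rfl
  have hidT : ∀ t : Fin d → T, ∑ π, nn π • (List.ofFn fun i => t (π i)).prod = 0 := by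
    intro t
    have h1 := identity_extk nn ρ0 hid X' hX2
      (fun κ hκ r => hX1 κ hκ _ ⟨Polynomial.C r, rfl⟩) (fun j => (t j : Module.End k M))
      (fun j => hT _ (t j).2)
    apply Subtype.val_injective
    rw [AddSubmonoidClass.coe_finsetSum]
    change _ = (0 : Module.End k M)
    rw [← h1]
    apply Finset.sum_congr rfl
    intro π _
    have h2 : (((List.ofFn fun i => t (π i)).prod : T) : Module.End k M) =
        (List.ofFn fun i => (t (π i) : Module.End k M)).prod := by
      have := map_list_prod T.val (List.ofFn fun i => t (π i))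
      rw [List.map_ofFn] at this
      exact this
    rw [← h2]
    rfl
  let iD : DivisionRing (Module.End T M) := Module.End.instDivisionRing
  let iF : Field (Module.End T M) := { iD with mul_comm := hcomm }
  have hrank : Module.rank (Module.End T M) M ≤ d := rank_le_of_identity (k := k) nn h0 hidT
  have hfin : Module.Finite (Module.End T M) M :=
    Module.rank_lt_aleph0_iff.1 (hrank.trans_lt Cardinal.natCast_lt_aleph0)
  have hn : Module.finrank (Module.End T M) M ≤ d := Module.finrank_le_of_rank_le hrank
  let b := Module.finBasis (Module.End T M) M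
  have icomm : SMulCommClass T (Module.End T M) M := ⟨fun t φ v => (φ.map_smul t v).symm⟩
  let Ψ : T →+* Module.End (Module.End T M) M := Module.toModuleEnd (Module.End T M) M
  have hΨ : ∀ (t : T) (v : M), Ψ t v = t • v := fun t v => rfl
  let Θ := LinearMap.toMatrixAlgEquiv b
  have hsurj : Function.Surjective Ψ := by
    intro f
    obtain ⟨t, ht⟩ := jacobson_density f (Finset.univ.image b)
    refine ⟨t, b.ext fun i => ?_⟩
    rw [hΨ, ← ht _ (Finset.mem_image_of_mem b (Finset.mem_univ i))]
  let aL : Algebra k (Module.End T M) := Module.End.instAlgebra k T M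
  have haL : ∀ (a : k) (v : M), (algebraMap k (Module.End T M) a) • v = a • v := fun a v => rfl
  have hΨk : ∀ (a : k) (t : T), Ψ (a • t) = (algebraMap k (Module.End T M) a) • Ψ t := by
    intro a t
    ext v
    rfl
  let toT : R →ₐ[k] T := ρ0.codRestrict T hCT
  let ρ' : R →ₐ[k] Matrix (Fin (Module.finrank (Module.End T M) M))
      (Fin (Module.finrank (Module.End T M) M)) (Module.End T M) :=
    { toRingHom := (Θ.toRingEquiv.toRingHom.comp Ψ).comp toT.toRingHom
      commutes' := by
        intro a
        change Θ (Ψ (toT (algebraMap k R a))) = _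
        rw [AlgHom.commutes, Algebra.algebraMap_eq_smul_one, hΨk, map_one, map_smul, map_one,
          ← Algebra.algebraMap_eq_smul_one]
        rfl }
  have hρ' : ∀ r, ρ' r = Θ (Ψ (toT r)) := fun r => rfl
  have key : ∀ t ∈ Submodule.span k G, ∀ ht : t ∈ T,
      Θ (Ψ ⟨t, ht⟩) ∈ Submodule.span (Module.End T M) (Set.range ρ') := by
    intro t h
    induction h using Submodule.span_induction with
    | mem x hx =>
      obtain ⟨r, κ, hκ, rfl⟩ := hx
      obtain ⟨φ, rfl⟩ := hback κ hκ
      intro ht
      have e := hX1 _ (hend φ) (ρ0 r) ⟨Polynomial.C r, rfl⟩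
      have e1 : Ψ ⟨ρ0 r * toE φ, ht⟩ = φ • Ψ (toT r) := by
        ext v
        exact (congrArg (fun f : Module.End k M => f v) e).symm
      rw [e1, map_smul]
      exact Submodule.smul_mem _ φ (Submodule.subset_span ⟨r, hρ' r⟩)
    | zero =>
      intro ht
      have e1 : Ψ ⟨0, ht⟩ = 0 := map_zero Ψ
      rw [e1, map_zero]
      exact zero_mem _
    | add u v hu' hv' hu hv =>
      intro ht
      have e1 : Ψ ⟨u + v, ht⟩ = Ψ ⟨u, hu'⟩ + Ψ ⟨v, hv'⟩ := map_add Ψ ⟨u, hu'⟩ ⟨v, hv'⟩
      rw [e1, map_add]
      exact add_mem (hu hu') (hv hv')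
    | smul a u hu' hu =>
      intro ht
      have e1 : Ψ ⟨a • u, ht⟩ = (algebraMap k (Module.End T M) a) • Ψ ⟨u, hu'⟩ := hΨk a ⟨u, hu'⟩
      rw [e1, map_smul]
      exact Submodule.smul_mem _ _ (hu hu')
  refine ⟨_, hn, ⟨Module.End T M, iF, aL, ρ', ?_⟩, ?_⟩
  · rw [eq_top_iff]
    rintro x -
    obtain ⟨f, rfl⟩ := Θ.surjective x
    obtain ⟨⟨t, ht⟩, rfl⟩ := hsurj f
    exact key t ht ht
  · intro h
    have h1 : Θ (Ψ (toT β)) = 0 := h
    have h2 : Ψ (toT β) = 0 := by
      apply Θ.injective
      rw [h1, map_zero]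
    obtain ⟨v, hv⟩ := hM 1
    apply hv
    rw [pow_one]
    exact congrArg (fun f : Module.End (Module.End T M) M => f v) h2

end TA

theorem taskA : TaskA := by
  intro k _ R _ _ d hR β hβ
  obtain ⟨nn, h0, hid⟩ := hR
  exact TA.detect nn h0 hid hβ

end Pool.Agent.Helper202_BG
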