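import Pool.Agent.Helper202_BG.Stmts

/-!
Task B: in a prime left noetherian ring every nonzero element has a right multiple which is not
nilpotent.
-/

set_option autoImplicit false

namespace Pool.Agent.Helper202_BG

/-- Task B. -/
theorem taskB : TaskB := by
  intro R _ _ hP b hb
  have := hP.1
  by_contra hcon
  push Not at hcon
  let lann : R → Ideal R := fun a => LinearMap.ker (LinearMap.toSpanSingleton R R a)
  have mem_lann : ∀ a x, x ∈ lann a ↔ x * a = 0 := by
    intro a x
    simp [lann, LinearMap.toSpanSingleton_apply]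
  obtain ⟨I, ⟨a, ⟨⟨r, hr⟩, ha⟩, rfl⟩, hmax⟩ :=
    set_has_maximal_iff_noetherian.mpr (inferInstance : IsNoetherian R R)
      {I : Ideal R | ∃ a, ((∃ r, b * r = a) ∧ a ≠ 0) ∧ lann a = I}
      ⟨lann b, b, ⟨⟨1, mul_one b⟩, hb⟩, rfl⟩
  have key : ∀ x, a * x * a = 0 := by
    intro x
    by_contra hx
    have hax : a * x ≠ 0 := by
      intro h
      apply hx
      rw [h, zero_mul]
    have hex : ∃ s, (a * x) ^ s = 0 := by
      obtain ⟨s, hs⟩ := hcon (r * x)
      refine ⟨s, ?_⟩
      rw [← hr, mul_assoc]
      exact hs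
    classical
    have hfind := Nat.find_spec hex
    have hmin : ∀ m, m < Nat.find hex → (a * x) ^ m ≠ 0 := fun m hm => Nat.find_min hex hm
    generalize Nat.find hex = n at hfind hmin
    rcases n with _ | _ | m
    · rw [pow_zero] at hfind
      exact one_ne_zero hfind
    · rw [zero_add, pow_one] at hfind
      exact hax hfind
    · have h1 : (a * x) ^ (m + 1) ≠ 0 := hmin (m + 1) (by omega)
      have hle : lann a ≤ lann ((a * x) ^ (m + 1)) := by
        intro y hy
        rw [mem_lann] at hy ⊢
        rw [pow_succ', ← mul_assoc, ← mul_assoc, hy, zero_mul, zero_mul]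
      have hnlt := hmax (lann ((a * x) ^ (m + 1)))
        ⟨(a * x) ^ (m + 1), ⟨⟨r * x * (a * x) ^ m, by
          rw [pow_succ', ← hr]; simp only [mul_assoc]⟩, h1⟩, rfl⟩
      have heq : lann a = lann ((a * x) ^ (m + 1)) := by
        by_contra hne
        exact hnlt (lt_of_le_of_ne hle hne)
      have hmem : a * x ∈ lann a := by
        rw [heq, mem_lann, ← pow_succ']
        exact hfind
      exact hx ((mem_lann a (a * x)).mp hmem)
  rcases hP.2 a a key with h | h <;> exact ha h

end Pool.Agent.Helper202_BG
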