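import Pool.Agent.Helper202_BG.Stmts

/-!
Task C: a prime left noetherian ring with a polynomial identity has a separating family of
absolutely irreducible representations of one size.
-/

set_option autoImplicit false

namespace Pool.Agent.Helper202_BG

/-- Task C. -/
theorem taskC (hA : TaskA) (hB : TaskB) : TaskC := by
  intro k _ R _ _ _ d hd hP
  have := hP.1
  classical
  have hPd : ∃ j, ∀ b : R, (∀ n, n ≤ j → ∀ D : Rep k R n, D.ρ b = 0) → b = 0 := by
    refine ⟨d, fun b hb => ?_⟩
    by_contra hne
    obtain ⟨r, hr⟩ := hB R hP b hne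
    obtain ⟨n, hn, D, hD⟩ := hA k R d hd (b * r) hr
    apply hD
    rw [map_mul, hb n hn D, zero_mul]
  have hd' : Nat.find hPd ≤ d := by
    apply Nat.find_min'
    intro b hb
    by_contra hne
    obtain ⟨r, hr⟩ := hB R hP b hne
    obtain ⟨n, hn, D, hD⟩ := hA k R d hd (b * r) hr
    apply hD
    rw [map_mul, hb n hn D, zero_mul]
  have hspec := Nat.find_spec hPd
  have hmin : ∀ m, m < Nat.find hPd →
      ¬ ∀ b : R, (∀ n, n ≤ m → ∀ D : Rep k R n, D.ρ b = 0) → b = 0 :=
    fun m hm => Nat.find_min hPd hm
  generalize Nat.find hPd = j at hd' hspec hmin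
  rcases j with _ | m
  · exfalso
    apply one_ne_zero (α := R)
    apply hspec
    intro n hn D
    obtain rfl : n = 0 := by omega
    ext i
    exact i.elim0
  · have h1 := hmin m (by omega)
    push Not at h1
    obtain ⟨a, ha, hane⟩ := h1
    refine ⟨m + 1, hd', fun b hb => ?_⟩
    by_contra hcon
    push Not at hcon
    have hall : ∀ r, a * r * b = 0 := by
      intro r
      apply hspec
      intro n hn D
      rcases Nat.lt_or_ge n (m + 1) with hlt | hge
      · rw [map_mul, map_mul, ha n (by omega) D, zero_mul, zero_mul]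
      · obtain rfl : n = m + 1 := by omega
        rw [map_mul, hcon D, mul_zero]
    rcases hP.2 a b hall with h | h
    · exact hane h
    · exact hb h

end Pool.Agent.Helper202_BG
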