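import Pool.Agent.Helper202_BG.Stmts

/-!
Task D0: Razmyslov's central values of generalized linear polynomials.
-/

set_option autoImplicit false

open scoped BigOperators

namespace Pool.Agent.Helper202_BG

namespace TD0

/-! ### A multilinear map vanishing on spanning sets vanishes -/

theorem multilinear_span {L V W : Type} [Field L] [AddCommGroup V] [Module L V]
    [AddCommGroup W] [Module L W] {N : ℕ} (F : MultilinearMap L (fun _ : Fin N => V) W)
    (s : Set V) (hs : Submodule.span L s = ⊤) (h : ∀ v : Fin N → V, (∀ i, v i ∈ s) → F v = 0) :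
    ∀ v, F v = 0 := by
  classical
  have key : ∀ T : Finset (Fin N), ∀ v : Fin N → V, (∀ i, i ∉ T → v i ∈ s) → F v = 0 := by
    intro T
    induction T using Finset.induction_on with
    | empty => intro v hv; exact h v (fun i => hv i (by simp))
    | insert i0 T hi0 ih =>
      intro v hv
      have hmem : v i0 ∈ Submodule.span L s := by rw [hs]; trivial
      have aux : ∀ w ∈ Submodule.span L s, F (Function.update v i0 w) = 0 := by
        intro w hw
        induction hw using Submodule.span_induction with
        | mem w hw =>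
          apply ih
          intro i hi
          by_cases hii : i = i0
          · subst hii; simpa using hw
          · rw [Function.update_of_ne hii]
            exact hv i (by simp [hii, hi])
        | zero => exact F.map_update_zero v i0
        | add x y _ _ hx hy => rw [F.map_update_add, hx, hy, add_zero]
        | smul a x _ hx => rw [F.map_update_smul, hx, smul_zero]
      have := aux _ hmem
      rwa [Function.update_eq_self] at this
  intro v
  exact key Finset.univ v (by simp)

/-! ### The alternating expression -/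

/-- `∑ σ, sgn σ • ∏ i, z i * x (σ i) * y i` -/
noncomputable def f {S : Type} [Ring S] {N : ℕ} (x z y : Fin N → S) : S :=
  ∑ σ : Equiv.Perm (Fin N), (Equiv.Perm.sign σ : ℤˣ) •
    (List.ofFn fun i => z i * x (σ i) * y i).prod

/-- the alternating map underlying `f` -/
noncomputable def fAlt (L : Type) [Field L] {S : Type} [Ring S] [Algebra L S] {N : ℕ}
    (z y : Fin N → S) : S [⋀^Fin N]→ₗ[L] S :=
  MultilinearMap.alternatization
    ((MultilinearMap.mkPiAlgebraFin L N S).compLinearMap
      (fun i => (LinearMap.mulRight L (y i)).comp (LinearMap.mulLeft L (z i))))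

theorem fAlt_apply (L : Type) [Field L] {S : Type} [Ring S] [Algebra L S] {N : ℕ}
    (x z y : Fin N → S) : fAlt L z y x = f x z y := by
  rw [fAlt, MultilinearMap.alternatization_apply, f]
  refine Finset.sum_congr rfl fun σ _ => ?_
  simp [MultilinearMap.mkPiAlgebraFin_apply]

/-- splitting a product at one place -/
theorem split_prod {R : Type} [Ring R] : ∀ {N : ℕ} (x z y : Fin N → R) (i0 : Fin N),
    ∃ a b : R, ∀ (S : Type) (_ : Ring S) (ρ : R →+* S) (Y : S),
      (List.ofFn fun i => ρ (z i) * (if i = i0 then Y else ρ (x i)) * ρ (y i)).prod =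
        ρ a * Y * ρ b := by
  intro N
  induction N with
  | zero => intro x z y i0; exact i0.elim0
  | succ N ih =>
    intro x z y i0
    refine Fin.cases ?_ ?_ i0
    · refine ⟨z 0, y 0 * (List.ofFn fun i : Fin N => z i.succ * x i.succ * y i.succ).prod, ?_⟩
      intro S _ ρ Y
      rw [List.ofFn_succ, List.prod_cons, map_mul, map_list_prod, List.map_ofFn]
      simp only [if_true, Function.comp_def, map_mul, mul_assoc, Fin.succ_ne_zero, if_false]
    · intro j
      obtain ⟨a, b, hab⟩ := ih (fun i => x i.succ) (fun i => z i.succ) (fun i => y i.succ) j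
      refine ⟨z 0 * x 0 * y 0 * a, b, ?_⟩
      intro S _ ρ Y
      rw [List.ofFn_succ, List.prod_cons]
      have h0 : (0 : Fin (N + 1)) ≠ j.succ := (Fin.succ_ne_zero j).symm
      rw [if_neg h0]
      have := hab S _ ρ Y
      simp only [Fin.succ_inj]
      rw [this]
      simp only [map_mul, mul_assoc]

/-- the values of `f` in one variable are generalized linear polynomials, uniformly -/
theorem split_f {R : Type} [Ring R] {N : ℕ} (x z y : Fin N → R) (j0 : Fin N) :
    ∃ a b : Equiv.Perm (Fin N) → R, ∀ (S : Type) (_ : Ring S) (ρ : R →+* S) (Y : S),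
      f (Function.update (fun j => ρ (x j)) j0 Y) (fun i => ρ (z i)) (fun i => ρ (y i)) =
        ∑ σ, ρ (a σ) * Y * ρ (b σ) := by
  classical
  have h : ∀ σ : Equiv.Perm (Fin N), ∃ a b : R, ∀ (S : Type) (_ : Ring S) (ρ : R →+* S) (Y : S),
      (Equiv.Perm.sign σ : ℤˣ) • (List.ofFn fun i => ρ (z i) *
        (Function.update (fun j => ρ (x j)) j0 Y) (σ i) * ρ (y i)).prod = ρ a * Y * ρ b := by
    intro σ
    obtain ⟨a, b, hab⟩ := split_prod (fun i => x (σ i)) z y (σ.symm j0)
    refine ⟨(Equiv.Perm.sign σ : ℤˣ) • a, b, ?_⟩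
    intro S _ ρ Y
    have h1 : (fun i => ρ (z i) * (Function.update (fun j => ρ (x j)) j0 Y) (σ i) * ρ (y i)) =
        fun i => ρ (z i) * (if i = σ.symm j0 then Y else ρ (x (σ i))) * ρ (y i) := by
      funext i
      congr 2
      by_cases hi : i = σ.symm j0
      · subst hi; simp
      · have hne : σ i ≠ j0 := fun h => hi (by rw [← h]; simp)
        rw [Function.update_of_ne hne, if_neg hi]
    rw [h1, hab S _ ρ Y]
    rcases Int.units_eq_one_or (Equiv.Perm.sign σ) with hs | hs <;> rw [hs] <;>
      simp [Units.smul_def]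
  choose a b hab using h
  refine ⟨a, b, ?_⟩
  intro S _ ρ Y
  rw [f]
  exact Finset.sum_congr rfl fun σ _ => hab σ S _ ρ Y

/-! ### Matrices -/

section mat

variable {L : Type} [Field L] {n : ℕ}

/-- a product of corner matrices, read off in the corner -/
theorem corner_prod (o : Fin n) : ∀ {N : ℕ} (c : Fin N → L),
    ((List.ofFn fun i => Matrix.single o o (c i)).prod : Matrix (Fin n) (Fin n) L) o o
      = ∏ i, c i := by
  intro N
  induction N with
  | zero => intro c; simp
  | succ N ih =>
    intro c
    rw [List.ofFn_succ, List.prod_cons, Fin.prod_univ_succ, ← ih (fun i => c i.succ),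
      Matrix.single_mul_apply_same]

/-- evaluation of `f` at matrix units -/
theorem f_det {N : ℕ} (p : Fin N → Fin n × Fin n) (o : Fin n)
    (x : Fin N → Matrix (Fin n) (Fin n) L) :
    f x (fun i => Matrix.single o (p i).1 (1 : L)) (fun i => Matrix.single (p i).2 o (1 : L)) o o
      = Matrix.det (Matrix.of fun j i => x j (p i).1 (p i).2) := by
  rw [f, Matrix.det_apply, Matrix.sum_apply]
  refine Finset.sum_congr rfl fun σ _ => ?_
  rw [Matrix.smul_apply]
  congr 1
  have : (fun i => Matrix.single o (p i).1 (1 : L) * x (σ i) * Matrix.single (p i).2 o (1 : L)) =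
      fun i => Matrix.single o o (x (σ i) (p i).1 (p i).2) := by
    funext i
    rw [Matrix.single_mul_mul_single]
    simp
  rw [this, corner_prod]
  rfl

/-- `f` vanishes on matrices of trace zero -/
theorem f_trace_zero (hn : 0 < n) (x z y : Fin (n * n) → Matrix (Fin n) (Fin n) L)
    (hx : ∀ j, (x j).trace = 0) : f x z y = 0 := by
  classical
  rw [← fAlt_apply L]
  apply AlternatingMap.map_linearDependent
  intro hli
  have hcard : Fintype.card (Fin (n * n)) = Module.finrank L (Matrix (Fin n) (Fin n) L) := by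
    rw [Module.finrank_matrix]; simp
  have hspan := hli.span_eq_top_of_card_eq_finrank' hcard
  have hle : Submodule.span L (Set.range x) ≤ LinearMap.ker (Matrix.traceLinearMap (Fin n) L L) := by
    rw [Submodule.span_le]
    rintro _ ⟨j, rfl⟩
    exact hx j
  rw [hspan] at hle
  have h1 : Matrix.single (⟨0, hn⟩ : Fin n) (⟨0, hn⟩ : Fin n) (1 : L) ∈
      LinearMap.ker (Matrix.traceLinearMap (Fin n) L L) := hle trivial
  simp at h1

/-- nondegeneracy of the trace form -/
theorem eq_zero_of_trace (A : Matrix (Fin n) (Fin n) L) (h : ∀ W, (A * W).trace = 0) : A = 0 := by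
  ext i j
  have := h (Matrix.single j i 1)
  rw [Matrix.trace_mul_single] at this
  simpa using this

end mat

/-- the trace identity which turns `g` into `h` -/
theorem trace_swap {R L : Type} [Ring R] [Field L] {n : ℕ} {ι : Type} [Fintype ι]
    (ρ : R →+* Matrix (Fin n) (Fin n) L) (a b : ι → R) (x : R) (Y : Matrix (Fin n) (Fin n) L) :
    (ρ (∑ σ, b σ * x * a σ) * Y).trace = (ρ x * ∑ σ, ρ (a σ) * Y * ρ (b σ)).trace := by
  rw [map_sum, Finset.sum_mul, Finset.mul_sum, Matrix.trace_sum, Matrix.trace_sum]
  refine Finset.sum_congr rfl fun σ _ => ?_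
  rw [map_mul, map_mul, mul_assoc, mul_assoc, Matrix.trace_mul_comm]
  simp only [mul_assoc]

/-- the element `h(x)` is central -/
theorem central {k R : Type} [Field k] [Ring R] [Algebra k R] {n : ℕ} (hn : 0 < n)
    (hDet : Det k R n) (c z y : Fin (n * n) → R) (j0 : Fin (n * n))
    (hc : ∀ j, j ≠ j0 → ∃ s t : R, c j = s * t - t * s)
    (a b : Equiv.Perm (Fin (n * n)) → R)
    (hab : ∀ (S : Type) (_ : Ring S) (ρ : R →+* S) (Y : S),
      f (Function.update (fun j => ρ (c j)) j0 Y) (fun i => ρ (z i)) (fun i => ρ (y i)) =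
        ∑ σ, ρ (a σ) * Y * ρ (b σ)) (x : R) :
    ∑ σ, b σ * x * a σ ∈ Subring.center R := by
  classical
  rw [Subring.mem_center_iff]
  intro g
  by_contra hne
  obtain ⟨D, hD⟩ := hDet _ (sub_ne_zero.2 hne)
  apply hD
  apply eq_zero_of_trace
  intro W
  have key : ∀ Y : Matrix (Fin n) (Fin n) D.L, Y.trace = 0 →
      (D.ρ (∑ σ, b σ * x * a σ) * Y).trace = 0 := by
    intro Y hY
    have h1 := trace_swap (D.ρ : R →+* Matrix (Fin n) (Fin n) D.L) a b x Y
    have h2 := hab (Matrix (Fin n) (Fin n) D.L) inferInstance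
      (D.ρ : R →+* Matrix (Fin n) (Fin n) D.L) Y
    rw [← h2, f_trace_zero hn, mul_zero, Matrix.trace_zero] at h1
    · exact h1
    · intro j
      by_cases hj : j = j0
      · subst hj; simpa using hY
      · rw [Function.update_of_ne hj]
        obtain ⟨s, t, hst⟩ := hc j hj
        change (D.ρ (c j)).trace = 0
        rw [hst, map_sub, map_mul, map_mul, Matrix.trace_sub, Matrix.trace_mul_comm, sub_self]
  have h3 := key (W * D.ρ g - D.ρ g * W) (by
    rw [Matrix.trace_sub, Matrix.trace_mul_comm, sub_self])
  rw [map_sub, map_mul, map_mul, sub_mul, Matrix.trace_sub]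
  rw [mul_sub, Matrix.trace_sub] at h3
  rw [← h3, mul_assoc, Matrix.trace_mul_comm, mul_assoc, mul_assoc]

/-- commutators of a spanning set span all commutators -/
theorem comm_mem {L : Type} [Field L] {A : Type} [Ring A] [Algebra L A] (s : Set A)
    (hs : Submodule.span L s = ⊤) (S T : A) :
    S * T - T * S ∈ Submodule.span L {X : A | ∃ u ∈ s, ∃ v ∈ s, X = u * v - v * u} := by
  have hS : S ∈ Submodule.span L s := by rw [hs]; trivial
  have hT : T ∈ Submodule.span L s := by rw [hs]; trivial
  induction hS using Submodule.span_induction with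
  | mem u hu =>
    induction hT using Submodule.span_induction with
    | mem v hv => exact Submodule.subset_span ⟨u, hu, v, hv, rfl⟩
    | zero => simp
    | add x y _ _ hx hy =>
      have : u * (x + y) - (x + y) * u = (u * x - x * u) + (u * y - y * u) := by noncomm_ring
      rw [this]; exact Submodule.add_mem _ hx hy
    | smul a x _ hx =>
      have : u * (a • x) - (a • x) * u = a • (u * x - x * u) := by
        rw [mul_smul_comm, smul_mul_assoc, smul_sub]
      rw [this]; exact Submodule.smul_mem _ _ hx
  | zero => simp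
  | add x y _ _ hx hy =>
    have : (x + y) * T - T * (x + y) = (x * T - T * x) + (y * T - T * y) := by noncomm_ring
    rw [this]; exact Submodule.add_mem _ hx hy
  | smul a x _ hx =>
    have : (a • x) * T - T * (a • x) = a • (x * T - T * x) := by
      rw [mul_smul_comm, smul_mul_assoc, smul_sub]
    rw [this]; exact Submodule.smul_mem _ _ hx

/-- commutators together with one diagonal matrix unit span all matrices -/
theorem span_comm {L : Type} [Field L] {n : ℕ} (o : Fin n)
    (s : Set (Matrix (Fin n) (Fin n) L)) (hs : Submodule.span L s = ⊤) :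
    Submodule.span L ({X : Matrix (Fin n) (Fin n) L | ∃ u ∈ s, ∃ v ∈ s, X = u * v - v * u} ∪
      {Matrix.single o o 1}) = ⊤ := by
  classical
  rw [eq_top_iff]
  rintro X -
  rw [Matrix.matrix_eq_sum_single X]
  refine Submodule.sum_mem _ fun i _ => Submodule.sum_mem _ fun j _ => ?_
  have hK : ∀ S T : Matrix (Fin n) (Fin n) L, S * T - T * S ∈
      Submodule.span L ({X : Matrix (Fin n) (Fin n) L | ∃ u ∈ s, ∃ v ∈ s, X = u * v - v * u} ∪
      {Matrix.single o o 1}) := fun S T =>
    Submodule.span_mono Set.subset_union_left (comm_mem s hs S T)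
  by_cases hij : i = j
  · subst hij
    have h1 := hK (Matrix.single i o (X i i)) (Matrix.single o i 1)
    rw [Matrix.single_mul_single_same, Matrix.single_mul_single_same, one_mul, mul_one] at h1
    have h2 : Matrix.single o o (X i i) ∈
        Submodule.span L ({X : Matrix (Fin n) (Fin n) L | ∃ u ∈ s, ∃ v ∈ s, X = u * v - v * u} ∪
        {Matrix.single o o 1}) := by
      have : (Matrix.single o o (X i i) : Matrix (Fin n) (Fin n) L) =
          X i i • Matrix.single o o 1 := by rw [Matrix.smul_single, smul_eq_mul, mul_one]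
      rw [this]
      exact Submodule.smul_mem _ _ (Submodule.subset_span (Set.mem_union_right _ rfl))
    have h3 := Submodule.add_mem _ h1 h2
    rwa [sub_add_cancel] at h3
  · have h1 := hK (Matrix.single i i 1) (Matrix.single i j (X i j))
    rw [Matrix.single_mul_single_same, one_mul,
      Matrix.single_mul_single_of_ne _ _ _ _ (Ne.symm hij), sub_zero] at h1
    exact h1

/-- a basis of the matrix algebra all of whose members but one are commutators -/
theorem exists_basis {L : Type} [Field L] {n : ℕ} (hn : 0 < n)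
    (s : Set (Matrix (Fin n) (Fin n) L)) (hs : Submodule.span L s = ⊤) :
    ∃ (x : Fin (n * n) → Matrix (Fin n) (Fin n) L) (j0 : Fin (n * n)), LinearIndependent L x ∧
      ∀ j, j ≠ j0 → ∃ u ∈ s, ∃ v ∈ s, x j = u * v - v * u := by
  classical
  obtain ⟨B, hBs, hBspan, hBli⟩ := exists_linearIndependent L
    ({X : Matrix (Fin n) (Fin n) L | ∃ u ∈ s, ∃ v ∈ s, X = u * v - v * u} ∪
      {Matrix.single (⟨0, hn⟩ : Fin n) (⟨0, hn⟩ : Fin n) 1})
  rw [span_comm _ s hs] at hBspan
  have hfin : Finite B := hBli.finite
  have : Fintype B := Fintype.ofFinite B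
  let bB := Module.Basis.mk hBli (by rw [Subtype.range_coe, hBspan])
  have hcard : Fintype.card B = n * n := by
    rw [← Module.finrank_eq_card_basis bB, Module.finrank_matrix]; simp
  let e : Fin (n * n) ≃ B := (finCongr hcard.symm).trans (Fintype.equivFin B).symm
  have hli : LinearIndependent L (fun j => ((e j : B) : Matrix (Fin n) (Fin n) L)) :=
    hBli.comp e e.injective
  by_cases hex : ∃ j0, ((e j0 : B) : Matrix (Fin n) (Fin n) L) =
      Matrix.single (⟨0, hn⟩ : Fin n) (⟨0, hn⟩ : Fin n) 1
  · obtain ⟨j0, hj0⟩ := hex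
    refine ⟨_, j0, hli, ?_⟩
    intro j hj
    rcases hBs (e j).2 with h | h
    · exact h
    · exfalso
      apply hj
      apply hli.injective
      change ((e j : B) : Matrix (Fin n) (Fin n) L) = ((e j0 : B) : Matrix (Fin n) (Fin n) L)
      rw [hj0]; exact h
  · refine ⟨_, ⟨0, Nat.mul_pos hn hn⟩, hli, ?_⟩
    intro j _
    rcases hBs (e j).2 with h | h
    · exact h
    · exact absurd ⟨j, h⟩ hex

/-- the determinant of a basis is not zero -/
theorem det_ne_zero {L : Type} [Field L] {n : ℕ} (x : Fin (n * n) → Matrix (Fin n) (Fin n) L)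
    (hli : LinearIndependent L x) :
    Matrix.det (Matrix.of fun j i => x j (finProdFinEquiv.symm i).1 (finProdFinEquiv.symm i).2)
      ≠ 0 := by
  let Φ : Matrix (Fin n) (Fin n) L →ₗ[L] (Fin (n * n) → L) :=
    { toFun := fun X i => X (finProdFinEquiv.symm i).1 (finProdFinEquiv.symm i).2
      map_add' := fun X Y => rfl
      map_smul' := fun c X => rfl }
  have hinj : Function.Injective Φ := by
    intro X Y hXY
    ext i j
    have h : X (finProdFinEquiv.symm (finProdFinEquiv (i, j))).1
        (finProdFinEquiv.symm (finProdFinEquiv (i, j))).2 =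
      Y (finProdFinEquiv.symm (finProdFinEquiv (i, j))).1
        (finProdFinEquiv.symm (finProdFinEquiv (i, j))).2 :=
      congrFun hXY (finProdFinEquiv (i, j))
    rwa [Equiv.symm_apply_apply] at h
  have h1 : LinearIndependent L (fun j => Φ (x j)) := hli.map' Φ (LinearMap.ker_eq_bot.2 hinj)
  have h2 : IsUnit (Matrix.of fun j => Φ (x j)) := Matrix.linearIndependent_rows_iff_isUnit.1 h1
  exact ((Matrix.isUnit_iff_isUnit_det _).1 h2).ne_zero

/-- `f` as a multilinear map in the last variables -/
noncomputable def fy (L : Type) [Field L] {S : Type} [Ring S] [Algebra L S] {N : ℕ}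
    (x z : Fin N → S) : MultilinearMap L (fun _ : Fin N => S) S :=
  ∑ σ : Equiv.Perm (Fin N), (Equiv.Perm.sign σ : ℤˣ) •
    (MultilinearMap.mkPiAlgebraFin L N S).compLinearMap
      (fun i => LinearMap.mulLeft L (z i * x (σ i)))

theorem fy_apply (L : Type) [Field L] {S : Type} [Ring S] [Algebra L S] {N : ℕ}
    (x z y : Fin N → S) : fy L x z y = f x z y := by
  rw [fy, f, sum_apply]
  refine Finset.sum_congr rfl fun σ _ => ?_
  simp [MultilinearMap.mkPiAlgebraFin_apply, mul_assoc]

/-- `f` as a multilinear map in the first variables -/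
noncomputable def fz (L : Type) [Field L] {S : Type} [Ring S] [Algebra L S] {N : ℕ}
    (x y : Fin N → S) : MultilinearMap L (fun _ : Fin N => S) S :=
  ∑ σ : Equiv.Perm (Fin N), (Equiv.Perm.sign σ : ℤˣ) •
    (MultilinearMap.mkPiAlgebraFin L N S).compLinearMap
      (fun i => LinearMap.mulRight L (x (σ i) * y i))

theorem fz_apply (L : Type) [Field L] {S : Type} [Ring S] [Algebra L S] {N : ℕ}
    (x z y : Fin N → S) : fz L x y z = f x z y := by
  rw [fz, f, sum_apply]
  refine Finset.sum_congr rfl fun σ _ => ?_
  simp [MultilinearMap.mkPiAlgebraFin_apply, mul_assoc]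

/-- linear independent matrices have a nonzero value of `f` on a spanning set -/
theorem exists_ne_zero {L : Type} [Field L] {n : ℕ} (hn : 0 < n)
    (s : Set (Matrix (Fin n) (Fin n) L)) (hs : Submodule.span L s = ⊤)
    (x : Fin (n * n) → Matrix (Fin n) (Fin n) L) (hli : LinearIndependent L x) :
    ∃ z y : Fin (n * n) → Matrix (Fin n) (Fin n) L, (∀ i, z i ∈ s) ∧ (∀ i, y i ∈ s) ∧
      f x z y ≠ 0 := by
  by_contra hcon
  push Not at hcon
  have h1 : ∀ z y : Fin (n * n) → Matrix (Fin n) (Fin n) L, (∀ i, z i ∈ s) → f x z y = 0 := by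
    intro z y hz
    rw [← fy_apply L]
    refine multilinear_span _ s hs ?_ y
    intro v hv
    rw [fy_apply L]
    exact hcon z v hz hv
  have h2 : ∀ z y : Fin (n * n) → Matrix (Fin n) (Fin n) L, f x z y = 0 := by
    intro z y
    rw [← fz_apply L]
    refine multilinear_span _ s hs ?_ z
    intro v hv
    rw [fz_apply L]
    exact h1 v y hv
  apply det_ne_zero x hli
  rw [← f_det (fun i => finProdFinEquiv.symm i) ⟨0, hn⟩ x, h2]
  rfl

end TD0

open TD0 in
/-- Task D0 -/
theorem taskD0 : TaskD0 := by
  intro k _ R _ _ n _ hDet b hb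
  classical
  obtain ⟨D, hD⟩ := hDet b hb
  have hn : 0 < n := by
    rcases Nat.eq_zero_or_pos n with h | h
    · subst h
      exact absurd (Subsingleton.elim (D.ρ b) 0) hD
    · exact h
  obtain ⟨x, j0, hli, hx⟩ := exists_basis hn (Set.range D.ρ) D.span_top
  obtain ⟨z', y', hz', hy', hne⟩ := exists_ne_zero hn (Set.range D.ρ) D.span_top x hli
  choose z hz using hz'
  choose y hy using hy'
  have hc' : ∀ j, ∃ c : R, j ≠ j0 → (D.ρ c = x j ∧ ∃ s t : R, c = s * t - t * s) := by
    intro j
    by_cases hj : j = j0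
    · exact ⟨0, fun h => absurd hj h⟩
    · obtain ⟨_, ⟨s, rfl⟩, _, ⟨t, rfl⟩, hst⟩ := hx j hj
      exact ⟨s * t - t * s, fun _ => ⟨by rw [hst, map_sub, map_mul, map_mul], s, t, rfl⟩⟩
  choose c hc using hc'
  obtain ⟨p, q, hpq⟩ := split_f c z y j0
  have hcent := central hn hDet c z y j0 (fun j hj => (hc j hj).2) p q hpq
  let e := Fintype.equivFin (Equiv.Perm (Fin (n * n)))
  refine ⟨Fintype.card (Equiv.Perm (Fin (n * n))), fun i => q (e.symm i), fun i => p (e.symm i),
    ?_, ?_⟩
  · intro x
    have := hcent x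
    rwa [← Equiv.sum_comp e.symm] at this
  by_contra hcon
  push Not at hcon
  have hcon' : ∀ r s : R, ∑ σ, q σ * (r * b * s) * p σ = 0 := by
    intro r s
    rw [← hcon r s, ← Equiv.sum_comp e.symm]
  set G := f x z' y' with hG
  have hGval : G = ∑ σ, D.ρ (p σ) * x j0 * D.ρ (q σ) := by
    have h2 := hpq (Matrix (Fin n) (Fin n) D.L) inferInstance
      (D.ρ : R →+* Matrix (Fin n) (Fin n) D.L) (x j0)
    have h3 : Function.update (fun j => (D.ρ : R →+* Matrix (Fin n) (Fin n) D.L) (c j)) j0 (x j0)
        = x := by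
      funext j
      by_cases hj : j = j0
      · subst hj; simp
      · rw [Function.update_of_ne hj]; exact (hc j hj).1
    have h4 : (fun i => (D.ρ : R →+* Matrix (Fin n) (Fin n) D.L) (z i)) = z' := funext hz
    have h5 : (fun i => (D.ρ : R →+* Matrix (Fin n) (Fin n) D.L) (y i)) = y' := funext hy
    rw [h3, h4, h5] at h2
    exact h2
  have h6 : ∀ r s : R, (D.ρ r * D.ρ b * D.ρ s * G).trace = 0 := by
    intro r s
    have h1 := trace_swap (D.ρ : R →+* Matrix (Fin n) (Fin n) D.L) p q (r * b * s) (x j0)
    rw [hcon' r s, map_zero, zero_mul, Matrix.trace_zero] at h1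
    rw [hGval, ← map_mul, ← map_mul]
    exact h1.symm
  have h7 : ∀ X Y : Matrix (Fin n) (Fin n) D.L, (X * D.ρ b * Y * G).trace = 0 := by
    intro X Y
    have hX : X ∈ Submodule.span D.L (Set.range D.ρ) := by rw [D.span_top]; trivial
    have hY : Y ∈ Submodule.span D.L (Set.range D.ρ) := by rw [D.span_top]; trivial
    induction hX using Submodule.span_induction with
    | mem u hu =>
      obtain ⟨r, rfl⟩ := hu
      induction hY using Submodule.span_induction with
      | mem v hv =>
        obtain ⟨s, rfl⟩ := hv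
        exact h6 r s
      | zero => simp
      | add x y _ _ hx hy => rw [mul_add, add_mul, Matrix.trace_add, hx, hy, add_zero]
      | smul a x _ hx => rw [mul_smul_comm, smul_mul_assoc, Matrix.trace_smul, hx, smul_zero]
    | zero => simp
    | add x y _ _ hx hy => rw [add_mul, add_mul, add_mul, Matrix.trace_add, hx, hy, add_zero]
    | smul a x _ hx =>
      rw [smul_mul_assoc, smul_mul_assoc, smul_mul_assoc, Matrix.trace_smul, hx, smul_zero]
  have h8 : ∃ i j, D.ρ b i j ≠ 0 := by
    by_contra h
    push Not at h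
    exact hD (Matrix.ext h)
  have h9 : ∃ k' l, G k' l ≠ 0 := by
    by_contra h
    push Not at h
    exact hne (Matrix.ext h)
  obtain ⟨i, j, hij⟩ := h8
  obtain ⟨k', l, hkl⟩ := h9
  have h10 := h7 (Matrix.single l i 1) (Matrix.single j k' 1)
  rw [Matrix.single_mul_mul_single, one_mul, mul_one, Matrix.trace_single_mul] at h10
  rcases mul_eq_zero.1 h10 with h | h
  · exact hij h
  · exact hkl h

end Pool.Agent.Helper202_BG
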