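import Pool.Agent.Helper202_BG.Stmts

/-!
Task D2 (Posner's theorem), from Task D0.
-/

set_option autoImplicit false

namespace Pool.Agent.Helper202_BG

namespace TD2

open Matrix

variable {k R : Type} [Field k] [Ring R] [Algebra k R]

/-- central elements act as scalars -/
theorem scalar_of_center {n : ℕ} (D : Rep k R n) {z : R} (hz : z ∈ Subring.center R) :
    ∃ c : D.L, D.ρ z = Matrix.scalar (Fin n) c := by
  have hcomm : ∀ X : Matrix (Fin n) (Fin n) D.L, X * D.ρ z = D.ρ z * X := by
    intro X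
    have hX : X ∈ Submodule.span D.L (Set.range D.ρ) := by rw [D.span_top]; trivial
    induction hX using Submodule.span_induction with
    | mem X h =>
      obtain ⟨r, rfl⟩ := h
      rw [← map_mul, ← map_mul, (Subring.mem_center_iff.mp hz r)]
    | zero => simp
    | add X Y _ _ h1 h2 => rw [add_mul, mul_add, h1, h2]
    | smul c X _ h => rw [smul_mul_assoc, mul_smul_comm, h]
  have h2 : D.ρ z ∈ Set.range (Matrix.scalar (α := D.L) (Fin n)) := by
    rw [Matrix.mem_range_scalar_iff_commute_single']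
    intro i j
    exact hcomm _
  obtain ⟨c, hc⟩ := h2
  exact ⟨c, hc.symm⟩

theorem scalar_eq {m : ℕ} (D : Rep k R (m + 1)) {z : R} (hz : z ∈ Subring.center R) :
    D.ρ z = Matrix.scalar (Fin (m + 1)) (D.ρ z 0 0) := by
  obtain ⟨c, hc⟩ := scalar_of_center D hz
  rw [hc]
  simp

theorem rho_center_mul {m : ℕ} (D : Rep k R (m + 1)) {z : R} (hz : z ∈ Subring.center R) (x : R) :
    D.ρ (z * x) = (D.ρ z 0 0) • D.ρ x := by
  rw [map_mul]
  conv_lhs => rw [scalar_eq D hz]
  rw [Matrix.scalar_apply, ← Matrix.smul_one_eq_diagonal, smul_mul_assoc, one_mul]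

/-- the scalar by which a central element acts -/
def lam {m : ℕ} (D : Rep k R (m + 1)) : Subring.center R →+* D.L where
  toFun z := D.ρ z 0 0
  map_one' := by simp
  map_mul' x y := by
    have := rho_center_mul D x.2 (y : R)
    rw [Subring.coe_mul, this]
    simp
  map_zero' := by simp
  map_add' x y := by simp

theorem lam_apply {m : ℕ} (D : Rep k R (m + 1)) (z : Subring.center R) :
    lam D z = D.ρ (z : R) 0 0 := rfl

/-- the linear form of a generalized linear polynomial -/
def theta {m : ℕ} (D : Rep k R (m + 1)) {t : ℕ} (p q : Fin t → R) :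
    Matrix (Fin (m + 1)) (Fin (m + 1)) D.L →ₗ[D.L] D.L where
  toFun X := (∑ i, D.ρ (p i) * X * D.ρ (q i)) 0 0
  map_add' X Y := by
    simp only [mul_add, add_mul, Finset.sum_add_distrib, Matrix.add_apply]
  map_smul' c X := by
    simp only [mul_smul_comm, smul_mul_assoc, ← Finset.smul_sum, Matrix.smul_apply,
      RingHom.id_apply]

theorem theta_rho {m : ℕ} (D : Rep k R (m + 1)) {t : ℕ} (p q : Fin t → R) (x : R) :
    D.ρ (∑ i, p i * x * q i) 0 0 = theta D p q (D.ρ x) := by
  simp only [theta, LinearMap.coe_mk, AddHom.coe_mk, map_sum, map_mul]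

theorem theta_rho3 {m : ℕ} (D : Rep k R (m + 1)) {t : ℕ} (p q : Fin t → R) (a x b : R) :
    D.ρ (∑ i, p i * (a * x * b) * q i) 0 0 = theta D p q (D.ρ a * D.ρ x * D.ρ b) := by
  rw [theta_rho, map_mul D.ρ, map_mul D.ρ]

/-- extract a basis from a spanning set, indexed by a type of the right size -/
theorem exists_family {L V ι : Type} [Field L] [AddCommGroup V] [Module L V]
    [FiniteDimensional L V] [Fintype ι] (hι : Fintype.card ι = Module.finrank L V) (s : Set V)
    (hs : Submodule.span L s = ⊤) :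
    ∃ f : ι → V, (∀ i, f i ∈ s) ∧ LinearIndependent L f ∧ ⊤ ≤ Submodule.span L (Set.range f) := by
  obtain ⟨b, hbs, hspan, hli⟩ := exists_linearIndependent L s
  let B : Module.Basis b L V := Module.Basis.mk hli (by
    rw [Subtype.range_coe_subtype, Set.ofPred_mem_eq, hspan, hs])
  have : Fintype b := FiniteDimensional.fintypeBasisIndex B
  have hcard : Fintype.card ι = Fintype.card b := by
    rw [hι, Module.finrank_eq_card_basis B]
  let e : ι ≃ b := Fintype.equivOfCardEq hcard
  refine ⟨fun i => (e i : V), fun i => hbs (e i).2, hli.comp e e.injective, ?_⟩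
  have : Set.range (fun i => ((e i : b) : V)) = b := by
    ext x
    constructor
    · rintro ⟨i, rfl⟩
      exact (e i).2
    · intro hx
      exact ⟨e.symm ⟨x, hx⟩, by simp⟩
  rw [this, hspan, hs]

theorem theta_bilin {n : ℕ} (D : Rep k R n)
    (θ : Module.Dual D.L (Matrix (Fin n) (Fin n) D.L)) (X : Matrix (Fin n) (Fin n) D.L)
    (h : ∀ a b : R, θ (D.ρ a * X * D.ρ b) = 0) (A B : Matrix (Fin n) (Fin n) D.L) :
    θ (A * X * B) = 0 := by
  have hA : A ∈ Submodule.span D.L (Set.range D.ρ) := by rw [D.span_top]; trivial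
  have hB : B ∈ Submodule.span D.L (Set.range D.ρ) := by rw [D.span_top]; trivial
  have h1 : ∀ a : R, θ (D.ρ a * X * B) = 0 := by
    intro a
    induction hB using Submodule.span_induction with
    | mem Y h' =>
      obtain ⟨r, rfl⟩ := h'
      exact h a r
    | zero => simp
    | add Y Z _ _ h1 h2 => rw [mul_add, map_add, h1, h2, add_zero]
    | smul c Y _ h' => rw [mul_smul_comm, map_smul, h', smul_zero]
  induction hA using Submodule.span_induction with
  | mem Y h' =>
    obtain ⟨r, rfl⟩ := h'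
    exact h1 r
  | zero => simp
  | add Y Z _ _ h1 h2 => rw [add_mul, add_mul, map_add, h1, h2, add_zero]
  | smul c Y _ h' => rw [smul_mul_assoc, smul_mul_assoc, map_smul, h', smul_zero]

theorem eq_zero_of_theta {n : ℕ} (D : Rep k R n)
    (θ : Module.Dual D.L (Matrix (Fin n) (Fin n) D.L)) (hθ : θ ≠ 0)
    (X : Matrix (Fin n) (Fin n) D.L)
    (h : ∀ a b : R, θ (D.ρ a * X * D.ρ b) = 0) : X = 0 := by
  by_contra hX
  apply hθ
  obtain ⟨i, j, hij⟩ : ∃ i j, X i j ≠ 0 := by
    by_contra hcon
    push Not at hcon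
    exact hX (by ext i j; exact hcon i j)
  apply Matrix.ext_linearMap
  intro a b
  ext
  have := theta_bilin D θ X h (Matrix.single a i (X i j)⁻¹) (Matrix.single j b 1)
  rw [Matrix.single_mul_mul_single, inv_mul_cancel₀ hij, one_mul] at this
  simpa using this

/-- a nondegenerate system of shifts of a nonzero linear form -/
theorem exists_system {n : ℕ} (D : Rep k R n)
    (θ : Module.Dual D.L (Matrix (Fin n) (Fin n) D.L)) (hθ : θ ≠ 0) :
    ∃ a b u : Fin n × Fin n → R,
      (Matrix.of fun l j => θ (D.ρ (a l) * D.ρ (u j) * D.ρ (b l))).det ≠ 0 := by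
  classical
  have hcard : Fintype.card (Fin n × Fin n) =
      Module.finrank D.L (Matrix (Fin n) (Fin n) D.L) := by
    rw [Module.finrank_matrix]; simp
  obtain ⟨f, hf, hfli, -⟩ := exists_family hcard _ D.span_top
  choose u hu using hf
  -- the forms
  let sh : R → R → Module.Dual D.L (Matrix (Fin n) (Fin n) D.L) := fun a b =>
    θ ∘ₗ LinearMap.mulLeft D.L (D.ρ a) ∘ₗ LinearMap.mulRight D.L (D.ρ b)
  have hsh : ∀ a b X, sh a b X = θ (D.ρ a * X * D.ρ b) := by
    intro a b X
    simp only [sh, LinearMap.comp_apply, LinearMap.mulLeft_apply, LinearMap.mulRight_apply,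
      mul_assoc]
  let S : Set (Module.Dual D.L (Matrix (Fin n) (Fin n) D.L)) := {φ | ∃ a b, φ = sh a b}
  have hS : Submodule.span D.L S = ⊤ := by
    have h1 : (Submodule.span D.L S).dualCoannihilator = ⊥ := by
      rw [eq_bot_iff]
      intro X hX
      rw [Submodule.mem_dualCoannihilator] at hX
      rw [Submodule.mem_bot]
      apply eq_zero_of_theta D θ hθ
      intro a b
      rw [← hsh]
      exact hX _ (Submodule.subset_span ⟨a, b, rfl⟩)
    rw [← Subspace.dualCoannihilator_dualAnnihilator_eq (W := Submodule.span D.L S), h1,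
      Submodule.dualAnnihilator_bot]
  have hcard2 : Fintype.card (Fin n × Fin n) =
      Module.finrank D.L (Module.Dual D.L (Matrix (Fin n) (Fin n) D.L)) := by
    rw [Subspace.dual_finrank_eq]; exact hcard
  obtain ⟨g, hg, -, hgspan⟩ := exists_family hcard2 S hS
  choose a b hab using hg
  refine ⟨a, b, u, ?_⟩
  intro hdet
  obtain ⟨w, hw0, hw⟩ := Matrix.exists_mulVec_eq_zero_iff.mpr hdet
  have hX : ∀ φ : Module.Dual D.L (Matrix (Fin n) (Fin n) D.L), φ (∑ j, w j • f j) = 0 := by
    intro φ
    have hφ : φ ∈ Submodule.span D.L (Set.range g) := hgspan trivial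
    induction hφ using Submodule.span_induction with
    | mem φ h' =>
      obtain ⟨l, rfl⟩ := h'
      have := congrFun hw l
      simp only [Matrix.mulVec, dotProduct, Matrix.of_apply, Pi.zero_apply] at this
      rw [hab l, map_sum, ← this]
      refine Finset.sum_congr rfl fun j _ => ?_
      rw [map_smul, hsh, hu, smul_eq_mul, mul_comm]
    | zero => simp
    | add φ ψ _ _ h1 h2 => rw [LinearMap.add_apply, h1, h2, add_zero]
    | smul c φ _ h' => rw [LinearMap.smul_apply, h', smul_zero]
  have hX0 : ∑ j, w j • f j = 0 := (Module.forall_dual_apply_eq_zero_iff D.L _).mp hX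
  apply hw0
  funext j
  exact Fintype.linearIndependent_iff.mp hfli w hX0 j

/-- the matrix identity behind the expansion formula -/
theorem adj_identity {ι L : Type} [CommRing L] [Fintype ι] [DecidableEq ι]
    (Θ T : Matrix ι ι L) : T * (Θ * T).adjugate * Θ = (Θ * T).det • (1 : Matrix ι ι L) := by
  rw [Matrix.adjugate_mul_distrib, ← mul_assoc, Matrix.mul_adjugate, smul_mul_assoc, one_mul,
    smul_mul_assoc, Matrix.adjugate_mul, smul_smul, Matrix.det_mul, mul_comm]

/-- a linear form on matrices in coordinates -/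
theorem form_expand {n : ℕ} {L : Type} [Field L] (φ : Matrix (Fin n) (Fin n) L →ₗ[L] L)
    (A B Y : Matrix (Fin n) (Fin n) L) :
    φ (A * Y * B) =
      ∑ c : Fin n × Fin n, φ (A * Matrix.single c.1 c.2 1 * B) * Y c.1 c.2 := by
  conv_lhs => rw [Matrix.matrix_eq_sum_single Y]
  rw [Fintype.sum_prod_type]
  simp only [Finset.mul_sum, Finset.sum_mul, map_sum]
  refine Finset.sum_congr rfl fun i _ => Finset.sum_congr rfl fun j _ => ?_
  have : Matrix.single i j (Y i j) = Y i j • Matrix.single i j (1 : L) := by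
    rw [Matrix.smul_single, smul_eq_mul, mul_one]
  rw [this, mul_smul_comm, smul_mul_assoc, map_smul, smul_eq_mul, mul_comm]

/-- the expansion formula in one representation -/
theorem expand_rho {m t : ℕ} (D : Rep k R (m + 1)) (p q : Fin t → R)
    (a b u : Fin (m + 1) × Fin (m + 1) → R)
    (G : Matrix (Fin (m + 1) × Fin (m + 1)) (Fin (m + 1) × Fin (m + 1)) (Subring.center R))
    (hG : ∀ l j, (G l j : R) = ∑ i, p i * (a l * u j * b l) * q i)
    (x : R) (v : Fin (m + 1) × Fin (m + 1) → Subring.center R)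
    (hv : ∀ l, (v l : R) = ∑ i, p i * (a l * x * b l) * q i) :
    D.ρ ((G.det : Subring.center R) * x - ∑ j, ((G.adjugate.mulVec v) j : R) * u j) = 0 := by
  classical
  set Θ : Matrix (Fin (m + 1) × Fin (m + 1)) (Fin (m + 1) × Fin (m + 1)) D.L :=
    Matrix.of fun l c => theta D p q (D.ρ (a l) * Matrix.single c.1 c.2 1 * D.ρ (b l)) with hΘ
  set T : Matrix (Fin (m + 1) × Fin (m + 1)) (Fin (m + 1) × Fin (m + 1)) D.L :=
    Matrix.of fun c j => D.ρ (u j) c.1 c.2 with hT
  set X : Fin (m + 1) × Fin (m + 1) → D.L := fun c => D.ρ x c.1 c.2 with hX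
  have h1 : (lam D).mapMatrix G = Θ * T := by
    ext l j
    rw [RingHom.mapMatrix_apply, Matrix.map_apply, lam_apply, hG, theta_rho3,
      form_expand, Matrix.mul_apply]
    rfl
  have h2 : ∀ l, lam D (v l) = Θ.mulVec X l := by
    intro l
    rw [lam_apply, hv, theta_rho3, form_expand]
    rfl
  have h3 : lam D G.det = (Θ * T).det := by
    rw [RingHom.map_det, h1]
  have h4 : ∀ j, lam D (G.adjugate.mulVec v j) = ((Θ * T).adjugate.mulVec (Θ.mulVec X)) j := by
    intro j
    rw [← h1, ← RingHom.map_adjugate]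
    simp only [Matrix.mulVec, dotProduct, map_sum, map_mul]
    refine Finset.sum_congr rfl fun l _ => ?_
    rw [h2]
    rfl
  rw [map_sub, map_sum, sub_eq_zero, rho_center_mul D (G.det).2]
  have h5 : ∀ j, D.ρ (((G.adjugate.mulVec v) j : R) * u j) =
      (((Θ * T).adjugate.mulVec (Θ.mulVec X)) j) • D.ρ (u j) := by
    intro j
    rw [rho_center_mul D ((G.adjugate.mulVec v) j).2, ← lam_apply, h4]
  simp only [h5]
  rw [← lam_apply, h3]
  have h6 : T.mulVec ((Θ * T).adjugate.mulVec (Θ.mulVec X)) = (Θ * T).det • X := by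
    rw [Matrix.mulVec_mulVec, Matrix.mulVec_mulVec, adj_identity,
      Matrix.smul_mulVec, Matrix.one_mulVec]
  ext y z
  have h7 := congrFun h6 (y, z)
  rw [Pi.smul_apply] at h7
  rw [Matrix.smul_apply, Matrix.sum_apply]
  change (Θ * T).det • X (y, z) = _
  rw [← h7]
  simp only [Matrix.mulVec, dotProduct, Matrix.smul_apply, smul_eq_mul]
  refine Finset.sum_congr rfl fun j _ => ?_
  rw [mul_comm]
  rfl

end TD2

open TD2 in
/-- Task D2. -/
theorem taskD2 (hD0 : TaskD0) : TaskD2 := by
  intro k _ R _ _ n hR hdet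
  classical
  obtain ⟨hnt, hprime⟩ := hR
  obtain ⟨D1, hD1⟩ := hdet 1 one_ne_zero
  obtain ⟨m, rfl⟩ : ∃ m, n = m + 1 := by
    rcases n with _ | m
    · exact absurd (Subsingleton.elim _ _) hD1
    · exact ⟨m, rfl⟩
  obtain ⟨t, p, q, hcen, r, s, hne⟩ := hD0 k R (m + 1) ⟨hnt, hprime⟩ hdet 1 one_ne_zero
  obtain ⟨D, hD⟩ := hdet _ hne
  have hθ : theta D p q ≠ 0 := by
    intro h0
    apply hD
    rw [scalar_eq D (hcen _), theta_rho, h0]
    simp
  obtain ⟨a, b, u, hdetne⟩ := exists_system D (theta D p q) hθ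
  let G : Matrix (Fin (m + 1) × Fin (m + 1)) (Fin (m + 1) × Fin (m + 1)) (Subring.center R) :=
    Matrix.of fun l j => ⟨∑ i, p i * (a l * u j * b l) * q i, hcen _⟩
  have hlam : (lam D).mapMatrix G =
      Matrix.of fun l j => theta D p q (D.ρ (a l) * D.ρ (u j) * D.ρ (b l)) := by
    ext l j
    rw [RingHom.mapMatrix_apply, Matrix.map_apply, lam_apply]
    change D.ρ (∑ i, p i * (a l * u j * b l) * q i) 0 0 = _
    rw [theta_rho3]
    rfl
  have hGne : (G.det : R) ≠ 0 := by
    intro h0
    apply hdetne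
    rw [← hlam, ← RingHom.map_det, lam_apply, h0]
    simp
  let e := Fintype.equivFin (Fin (m + 1) × Fin (m + 1))
  refine ⟨Fintype.card (Fin (m + 1) × Fin (m + 1)), fun j => u (e.symm j), (G.det : R),
    (G.det).2, hGne, fun x => ?_⟩
  let v : Fin (m + 1) × Fin (m + 1) → Subring.center R := fun l =>
    ⟨∑ i, p i * (a l * x * b l) * q i, hcen _⟩
  refine ⟨fun j => ((G.adjugate.mulVec v) (e.symm j) : R), fun j => ((G.adjugate.mulVec v) _).2, ?_⟩
  rw [Equiv.sum_comp e.symm (fun c => ((G.adjugate.mulVec v) c : R) * u c)]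
  by_contra hcon
  obtain ⟨D', hD'⟩ := hdet _ (sub_ne_zero.mpr hcon)
  exact hD' (expand_rho D' p q a b u G (fun l j => rfl) x v (fun l => rfl))

end Pool.Agent.Helper202_BG
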