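import Mathlib

/-!
Noetherian affine PI weak Hopf algebras have finite injective dimension: definitions.
-/

set_option autoImplicit false

open CategoryTheory
open scoped TensorProduct

namespace Pool.Agent.Helper202_BG

/-- `A` satisfies a multilinear identity of degree `d` with coefficients in `k` in which the
coefficient of the identity permutation is `1`. -/
def MLPI (k A : Type) [Field k] [Ring A] [Algebra k A] (d : ℕ) : Prop :=
  ∃ c : Equiv.Perm (Fin d) → k, c 1 = 1 ∧
    ∀ a : Fin d → A, ∑ τ, c τ • (List.ofFn fun i => a (τ i)).prod = 0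

/-- prime rings -/
def PrimeR (R : Type) [Ring R] : Prop :=
  Nontrivial R ∧ ∀ a b : R, (∀ r, a * r * b = 0) → a = 0 ∨ b = 0

/-- prime two-sided ideals -/
def PrimeI {A : Type} [Ring A] (P : Ideal A) : Prop :=
  P.IsTwoSided ∧ P ≠ ⊤ ∧ ∀ a b : A, (∀ r, a * r * b ∈ P) → a ∈ P ∨ b ∈ P

/-- absolutely irreducible representations of size `n` over extension fields -/
structure Rep (k R : Type) [Field k] [Ring R] [Algebra k R] (n : ℕ) where
  /-- the field -/
  L : Type
  /-- the field structure -/
  fL : Field L
  /-- the `k`-algebra structure -/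
  aL : Algebra k L
  /-- the representation -/
  ρ : R →ₐ[k] Matrix (Fin n) (Fin n) L
  /-- the image spans -/
  span_top : Submodule.span L (Set.range ρ) = ⊤

attribute [instance] Rep.fL Rep.aL

/-- The representations of size `n` separate the elements of `R` from `0`. -/
def Det (k R : Type) [Field k] [Ring R] [Algebra k R] (n : ℕ) : Prop :=
  ∀ b : R, b ≠ 0 → ∃ D : Rep k R n, D.ρ b ≠ 0

/-- modules all of whose nonzero submodules have the same annihilator -/
def PrimeM (A M : Type) [Ring A] [AddCommGroup M] [Module A M] : Prop :=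
  Nontrivial M ∧ ∀ (a : A) (m : M), m ≠ 0 → (∀ r : A, a • r • m = 0) → ∀ x : M, a • x = 0

/-- Ext groups of modules -/
abbrev E (A : Type) [Ring A] (V X : Type) [AddCommGroup V] [Module A V] [AddCommGroup X]
    [Module A X] (n : ℕ) : Type :=
  Abelian.Ext.{0} (ModuleCat.of A V) (ModuleCat.of A X) n

/-- precomposition -/
noncomputable def pre {A : Type} [Ring A] {V V' X : Type} [AddCommGroup V] [Module A V]
    [AddCommGroup V'] [Module A V'] [AddCommGroup X] [Module A X] {n : ℕ} (f : V' →ₗ[A] V)
    (ξ : E A V X n) : E A V' X n :=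
  (Abelian.Ext.mk₀ (ModuleCat.ofHom f)).comp ξ (zero_add n)

/-- postcomposition -/
noncomputable def post {A : Type} [Ring A] {V X X' : Type} [AddCommGroup V] [Module A V]
    [AddCommGroup X] [Module A X] [AddCommGroup X'] [Module A X'] {n : ℕ} (g : X →ₗ[A] X')
    (ξ : E A V X n) : E A V X' n :=
  ξ.comp (Abelian.Ext.mk₀ (ModuleCat.ofHom g)) (add_zero n)

/-- the axioms of a weak Hopf algebra with antipode `S` -/
structure IsWeakHopf (k H : Type) [Field k] [Ring H] [Algebra k H] [Coalgebra k H]
    (S : H →ₗ[k] H) : Prop where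
  comul_mul : ∀ x y : H, CoalgebraStruct.comul (R := k) (A := H) (x * y)
        = CoalgebraStruct.comul (R := k) (A := H) x * CoalgebraStruct.comul (R := k) (A := H) y
  comul_one₁ : TensorProduct.assoc k H H H
        (LinearMap.rTensor H (CoalgebraStruct.comul (R := k) (A := H))
          (CoalgebraStruct.comul (R := k) (A := H) (1 : H)))
      = TensorProduct.assoc k H H H (CoalgebraStruct.comul (R := k) (A := H) (1 : H) ⊗ₜ[k] (1 : H))
          * ((1 : H) ⊗ₜ[k] CoalgebraStruct.comul (R := k) (A := H) (1 : H))
  comul_one₂ : TensorProduct.assoc k H H H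
        (LinearMap.rTensor H (CoalgebraStruct.comul (R := k) (A := H))
          (CoalgebraStruct.comul (R := k) (A := H) (1 : H)))
      = ((1 : H) ⊗ₜ[k] CoalgebraStruct.comul (R := k) (A := H) (1 : H))
          * TensorProduct.assoc k H H H (CoalgebraStruct.comul (R := k) (A := H) (1 : H) ⊗ₜ[k] (1 : H))
  counit_mul₁ : ∀ x y z : H,
      CoalgebraStruct.counit (R := k) (A := H) (x * y * z)
        = LinearMap.mul' k k (TensorProduct.map
            (CoalgebraStruct.counit (R := k) (A := H) ∘ₗ LinearMap.mulLeft k x)
            (CoalgebraStruct.counit (R := k) (A := H) ∘ₗ LinearMap.mulRight k z)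
            (CoalgebraStruct.comul (R := k) (A := H) y))
  counit_mul₂ : ∀ x y z : H,
      CoalgebraStruct.counit (R := k) (A := H) (x * y * z)
        = LinearMap.mul' k k (TensorProduct.map
            (CoalgebraStruct.counit (R := k) (A := H) ∘ₗ LinearMap.mulLeft k x)
            (CoalgebraStruct.counit (R := k) (A := H) ∘ₗ LinearMap.mulRight k z)
            (TensorProduct.comm k H H (CoalgebraStruct.comul (R := k) (A := H) y)))
  antipode₁ : ∀ x : H,
      LinearMap.mul' k H (TensorProduct.map LinearMap.id S (CoalgebraStruct.comul (R := k) (A := H) x))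
        = TensorProduct.lid k H (TensorProduct.map
            (CoalgebraStruct.counit (R := k) (A := H) ∘ₗ LinearMap.mulRight k x) LinearMap.id
            (CoalgebraStruct.comul (R := k) (A := H) (1 : H)))
  antipode₂ : ∀ x : H,
      LinearMap.mul' k H (TensorProduct.map S LinearMap.id (CoalgebraStruct.comul (R := k) (A := H) x))
        = TensorProduct.rid k H (TensorProduct.map LinearMap.id
            (CoalgebraStruct.counit (R := k) (A := H) ∘ₗ LinearMap.mulLeft k x)
            (CoalgebraStruct.comul (R := k) (A := H) (1 : H)))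
  antipode₃ : ∀ x : H,
      LinearMap.mul' k H (TensorProduct.map (LinearMap.mul' k H ∘ₗ TensorProduct.map S LinearMap.id) S
            (LinearMap.rTensor H (CoalgebraStruct.comul (R := k) (A := H))
              (CoalgebraStruct.comul (R := k) (A := H) x)))
        = S x

end Pool.Agent.Helper202_BG
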