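import Pool.Agent.Helper202_BG.Stmts

/-!
Task E of the project BG202: an affine prime algebra which is finite over its centre up to one
central denominator is so over a finitely generated central subalgebra.
-/

set_option autoImplicit false

open CategoryTheory
open scoped TensorProduct

namespace Pool.Agent.Helper202_BG

namespace TE

variable {k R : Type} [Field k] [Ring R] [Algebra k R]

/-- elements which are, up to powers of `α`, `Z`-combinations of the `u j` -/
def D (Z : Subalgebra k R) (α : R) {N : ℕ} (u : Fin N → R) (x : R) : Prop :=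
  ∃ (s : ℕ) (z : Fin N → R), (∀ j, z j ∈ Z) ∧ α ^ s * x = ∑ j, z j * u j

theorem D_add {Z : Subalgebra k R} {α : R} {N : ℕ} {u : Fin N → R}
    (hα : α ∈ Z) {x y : R} (hx : D Z α u x) (hy : D Z α u y) : D Z α u (x + y) := by
  obtain ⟨s, z, hz, hx⟩ := hx
  obtain ⟨t, w, hw, hy⟩ := hy
  refine ⟨s + t, fun j => α ^ t * z j + α ^ s * w j, fun j => ?_, ?_⟩
  · exact Z.add_mem (Z.mul_mem (Z.pow_mem hα t) (hz j)) (Z.mul_mem (Z.pow_mem hα s) (hw j))
  · have h1 : α ^ (s + t) * x = ∑ j, α ^ t * z j * u j := by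
      rw [add_comm, pow_add, mul_assoc, hx, Finset.mul_sum]
      exact Finset.sum_congr rfl fun j _ => (mul_assoc _ _ _).symm
    have h2 : α ^ (s + t) * y = ∑ j, α ^ s * w j * u j := by
      rw [pow_add, mul_assoc, hy, Finset.mul_sum]
      exact Finset.sum_congr rfl fun j _ => (mul_assoc _ _ _).symm
    rw [mul_add, h1, h2, ← Finset.sum_add_distrib]
    exact Finset.sum_congr rfl fun j _ => (add_mul _ _ _).symm

theorem D_mul {Z : Subalgebra k R} {α : R} {N : ℕ} {u : Fin N → R}
    (hc : ∀ z ∈ Z, ∀ r : R, z * r = r * z)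
    (hα : α ∈ Z) (c : Fin N → Fin N → Fin N → R) (hcz : ∀ i l j, c i l j ∈ Z)
    (huu : ∀ i l, α * (u i * u l) = ∑ j, c i l j * u j)
    {x y : R} (hx : D Z α u x) (hy : D Z α u y) : D Z α u (x * y) := by
  obtain ⟨s, z, hz, hx⟩ := hx
  obtain ⟨t, w, hw, hy⟩ := hy
  refine ⟨s + t + 1, fun j => ∑ i, ∑ l, z i * w l * c i l j, fun j => ?_, ?_⟩
  · exact Z.sum_mem fun i _ => Z.sum_mem fun l _ => Z.mul_mem (Z.mul_mem (hz i) (hw l)) (hcz i l j)
  · have h1 : α ^ (s + t + 1) * (x * y) = α * ((α ^ s * x) * (α ^ t * y)) := by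
      have e1 : α ^ t * x = x * α ^ t := hc _ (Z.pow_mem hα t) x
      calc α ^ (s + t + 1) * (x * y) = α * (α ^ s * (α ^ t * x) * y) := by
            rw [pow_succ', pow_add]; simp only [mul_assoc]
        _ = α * ((α ^ s * x) * (α ^ t * y)) := by rw [e1]; simp only [mul_assoc]
    have h2 : ∀ i l, α * ((z i * u i) * (w l * u l)) = ∑ j, z i * w l * c i l j * u j := by
      intro i l
      have e1 : u i * w l = w l * u i := (hc _ (hw l) (u i)).symm
      have e2 : α * (z i * w l) = z i * w l * α := hc _ hα _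
      calc α * ((z i * u i) * (w l * u l)) = α * (z i * (u i * w l) * u l) := by
            simp only [mul_assoc]
        _ = (α * (z i * w l)) * (u i * u l) := by rw [e1]; simp only [mul_assoc]
        _ = z i * w l * (α * (u i * u l)) := by rw [e2]; simp only [mul_assoc]
        _ = ∑ j, z i * w l * c i l j * u j := by
            rw [huu, Finset.mul_sum]; exact Finset.sum_congr rfl fun j _ => (mul_assoc _ _ _).symm
    rw [h1, hx, hy, Finset.sum_mul_sum, Finset.mul_sum]
    simp only [Finset.mul_sum, h2]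
    have h3 : ∀ j, (∑ i, ∑ l, z i * w l * c i l j) * u j
        = ∑ i, ∑ l, z i * w l * c i l j * u j := by
      intro j
      simp only [Finset.sum_mul]
    simp only [h3]
    rw [Finset.sum_comm]
    rw [Finset.sum_comm]
    rw [Finset.sum_comm (f := fun j i => ∑ l, z i * w l * c i l j * u j)]
    refine Finset.sum_congr rfl fun i _ => ?_
    rw [Finset.sum_comm]

theorem D_top {Z : Subalgebra k R} {α : R} {N : ℕ} {u : Fin N → R}
    (hc : ∀ z ∈ Z, ∀ r : R, z * r = r * z)
    (hα : α ∈ Z) (c : Fin N → Fin N → Fin N → R) (hcz : ∀ i l j, c i l j ∈ Z)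
    (huu : ∀ i l, α * (u i * u l) = ∑ j, c i l j * u j)
    (h1 : D Z α u 1) (S : Set R) (hS : ∀ x ∈ S, D Z α u x) (htop : Algebra.adjoin k S = ⊤)
    (x : R) : D Z α u x := by
  have hx : x ∈ Algebra.adjoin k S := by rw [htop]; exact Algebra.mem_top
  induction hx using Algebra.adjoin_induction with
  | mem x hx => exact hS x hx
  | algebraMap r =>
    obtain ⟨s, z, hz, hx⟩ := h1
    refine ⟨s, fun j => algebraMap k R r * z j, fun j => Z.mul_mem (Z.algebraMap_mem r) (hz j), ?_⟩
    have e1 : α ^ s * algebraMap k R r = algebraMap k R r * (α ^ s * 1) := by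
      rw [mul_one, Algebra.commutes]
    rw [e1, hx, Finset.mul_sum]
    exact Finset.sum_congr rfl fun j _ => (mul_assoc _ _ _).symm
  | add x y _ _ hx hy => exact D_add hα hx hy
  | mul x y _ _ hx hy => exact D_mul hc hα c hcz huu hx hy

theorem no_zero_div (hP : PrimeR R) {a b : R} (ha : ∀ r : R, a * r = r * a) (hab : a * b = 0) :
    a = 0 ∨ b = 0 := by
  refine hP.2 a b fun r => ?_
  rw [ha, mul_assoc, hab, mul_zero]

theorem finite_of_algebraic (hP : PrimeR R) (Z : Subalgebra k R) (hfg : Z.FG)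
    (hc : ∀ z ∈ Z, ∀ r : R, z * r = r * z) {α : R} {N : ℕ} {u : Fin N → R} (hα : α ∈ Z)
    (hα0 : α ≠ 0) (hD : ∀ x, D Z α u x) (halg : ∀ z ∈ Z, IsAlgebraic k z) :
    Module.Finite k R := by
  let _ : CommRing Z :=
    { (inferInstance : Ring Z) with mul_comm := fun a b => Subtype.ext (hc _ a.2 _) }
  have hdom : IsDomain Z := by
    have : Nontrivial R := hP.1
    have : NoZeroDivisors Z := ⟨fun {a b} hab => by
      have h : (a : R) * (b : R) = 0 := congrArg Subtype.val hab
      rcases no_zero_div hP (hc _ a.2) h with h | h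
      · exact Or.inl (Subtype.ext h)
      · exact Or.inr (Subtype.ext h)⟩
    exact NoZeroDivisors.to_isDomain Z
  have hft : Algebra.FiniteType k Z := ⟨Subalgebra.fg_top Z |>.2 hfg⟩
  have hint : Algebra.IsIntegral k Z := ⟨fun z => by
    have h := halg z z.2
    have h2 : IsAlgebraic k z := by
      refine (isAlgebraic_algHom_iff Z.val Subtype.val_injective).1 h
    exact h2.isIntegral⟩
  have hfin : Module.Finite k Z := Algebra.IsIntegral.finite
  have hfield : IsField Z := isField_of_isIntegral_of_isField' (Field.toIsField k)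
  obtain ⟨β, hβ⟩ := hfield.mul_inv_cancel (a := (⟨α, hα⟩ : Z))
    (fun h => hα0 (congrArg Subtype.val h))
  have hβ' : (β : R) * α = 1 := by
    have h := congrArg Subtype.val hβ
    have h' : α * (β : R) = 1 := h
    rw [hc _ β.2, h']
  let φ : (Fin N → Z) →ₗ[k] R :=
    { toFun := fun z => ∑ j, (z j : R) * u j
      map_add' := fun a b => by
        simp [add_mul, Finset.sum_add_distrib]
      map_smul' := fun c a => by
        simp [Finset.smul_sum] }
  refine Module.Finite.of_surjective φ fun x => ?_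
  obtain ⟨s, z, hz, hx⟩ := hD x
  refine ⟨fun j => β ^ s * ⟨z j, hz j⟩, ?_⟩
  have e1 : (β : R) ^ s * α ^ s = 1 := by
    have hcomm : Commute (β : R) α := hc _ β.2 _
    rw [← hcomm.mul_pow, hβ', one_pow]
  change ∑ j, (((β ^ s * ⟨z j, hz j⟩ : Z) : R)) * u j = x
  have e2 : ∀ j, (((β ^ s * ⟨z j, hz j⟩ : Z) : R)) * u j = (β : R) ^ s * (z j * u j) := by
    intro j
    rw [← mul_assoc]
    rfl
  simp only [e2]
  rw [← Finset.mul_sum, ← hx, ← mul_assoc, e1, one_mul]

end TE

/-- Task E. -/
theorem taskE : TaskE := by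
  intro k _ R _ _ _ hP hF
  classical
  obtain ⟨N, u, α, hαc, hα0, hu⟩ := hF
  obtain ⟨S, hS⟩ := (Algebra.FiniteType.out : (⊤ : Subalgebra k R).FG)
  choose zf hzc hzf using hu
  let T : Finset R := S ∪ Finset.image (fun p : Fin N × Fin N => u p.1 * u p.2) Finset.univ ∪ {1}
  let G : Finset R := {α} ∪ T.biUnion (fun x => Finset.image (zf x) Finset.univ)
  have hGc : ∀ g ∈ (G : Set R), g ∈ Subalgebra.center k R := by
    intro g hg
    have hg' : g ∈ G := hg
    simp only [G, Finset.mem_union, Finset.mem_singleton, Finset.mem_biUnion,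
      Finset.mem_image, Finset.mem_univ, true_and] at hg'
    rcases hg' with rfl | ⟨x, _, j, rfl⟩
    · exact Subring.mem_center_iff.1 hαc |> fun h => Subalgebra.mem_center_iff.2 h
    · exact Subring.mem_center_iff.1 (hzc x j) |> fun h => Subalgebra.mem_center_iff.2 h
  have hZc : Algebra.adjoin k (G : Set R) ≤ Subalgebra.center k R := Algebra.adjoin_le hGc
  have hc : ∀ z ∈ Algebra.adjoin k (G : Set R), ∀ r : R, z * r = r * z :=
    fun z hz r => (Subalgebra.mem_center_iff.1 (hZc hz) r).symm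
  have hα : α ∈ Algebra.adjoin k (G : Set R) := Algebra.subset_adjoin (by simp [G])
  have hzT : ∀ x ∈ T, ∀ j, zf x j ∈ Algebra.adjoin k (G : Set R) := by
    intro x hx j
    refine Algebra.subset_adjoin ?_
    have : zf x j ∈ G := by
      refine Finset.mem_union_right _ (Finset.mem_biUnion.2 ⟨x, hx, ?_⟩)
      exact Finset.mem_image_of_mem _ (Finset.mem_univ _)
    exact this
  have hDT : ∀ x ∈ T, TE.D (Algebra.adjoin k (G : Set R)) α u x := fun x hx =>
    ⟨1, zf x, hzT x hx, by rw [pow_one]; exact hzf x⟩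
  have huT : ∀ i l, u i * u l ∈ T := fun i l => by
    refine Finset.mem_union_left _ (Finset.mem_union_right _ ?_)
    exact Finset.mem_image_of_mem (fun p : Fin N × Fin N => u p.1 * u p.2) (Finset.mem_univ (i, l))
  have h1T : (1 : R) ∈ T := Finset.mem_union_right _ (Finset.mem_singleton_self 1)
  have hST : ∀ x ∈ (S : Set R), x ∈ T := fun x hx =>
    Finset.mem_union_left _ (Finset.mem_union_left _ hx)
  have hD : ∀ x, TE.D (Algebra.adjoin k (G : Set R)) α u x :=
    TE.D_top hc hα (fun i l => zf (u i * u l)) (fun i l j => hzT _ (huT i l) j)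
      (fun i l => hzf _) (hDT 1 h1T) (S : Set R) (fun x hx => hDT x (hST x hx)) hS
  refine ⟨Algebra.adjoin k (G : Set R), ⟨⟨G, rfl⟩, hc, N, u, α, hα, hα0, hD⟩, ?_⟩
  intro hnf
  by_contra hcon
  push Not at hcon
  exact hnf (TE.finite_of_algebraic hP _ ⟨G, rfl⟩ hc hα hα0 hD fun z hz => by
    have h := hcon z hz
    unfold Transcendental at h
    exact not_not.1 h)

end Pool.Agent.Helper202_BG
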