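import Pool.Agent.Helper202_BG.P3c

/-!
Part 3 (c), (d): module lemmas and splittings.
-/

set_option autoImplicit false

open CategoryTheory
open scoped TensorProduct

namespace Pool.Agent.Helper202_BG

section
variable {A : Type} [Ring A]

/-- enough injective modules -/
theorem exists_inj (X : Type) [AddCommGroup X] [Module A X] :
    ∃ (J : Type) (_ : AddCommGroup J) (_ : Module A J) (ι : X →ₗ[A] J),
      Function.Injective ι ∧ Module.Baer A J := by
  let I : ModuleCat.{0} A := Injective.under (ModuleCat.of A X)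
  let ι : ModuleCat.of A X ⟶ I := Injective.ι (ModuleCat.of A X)
  refine ⟨I, inferInstance, inferInstance, ι.hom, ?_, ?_⟩
  · exact (ModuleCat.mono_iff_injective ι).1 inferInstance
  · have h1 : Injective (ModuleCat.of A I) := inferInstanceAs (Injective I)
    have h2 : Module.Injective A I := Module.injective_module_of_injective_object A I
    exact Module.Baer.of_injective h2

variable {X : Type} [AddCommGroup X] [Module A X] {Y : Type} [AddCommGroup Y] [Module A Y]
  {Z : Type} [AddCommGroup Z] [Module A Z]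

/-- a map killing the kernel of a surjection factors -/
theorem factor_surj (p : Y →ₗ[A] Z) (hp : Function.Surjective p) (τ : Y →ₗ[A] X)
    (h : ∀ y, p y = 0 → τ y = 0) : ∃ σ : Z →ₗ[A] X, ∀ y, σ (p y) = τ y := by
  let e := p.quotKerEquivOfSurjective hp
  have hk : LinearMap.ker p ≤ LinearMap.ker τ := fun y hy => h y hy
  refine ⟨(LinearMap.ker p).liftQ τ hk ∘ₗ e.symm.toLinearMap, ?_⟩
  intro y
  have : e.symm (p y) = Submodule.Quotient.mk y := by
    rw [LinearEquiv.symm_apply_eq]
    rfl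
  change (LinearMap.ker p).liftQ τ hk (e.symm (p y)) = τ y
  rw [this]
  rfl

theorem retract_baer {i : X →ₗ[A] Y} {p : Y →ₗ[A] Z} (h : SES i p) (hX : Module.Baer A X)
    (hY : Module.Baer A Y) : Module.Baer A Z ∧ ∃ σ : Z →ₗ[A] Y, ∀ z, p (σ z) = z := by
  obtain ⟨r, hr⟩ := Module.Baer.extension_property hX i h.inj LinearMap.id
  obtain ⟨σ, hσ⟩ := factor_surj p h.surj (LinearMap.id - i ∘ₗ r) (fun y hy => by
    obtain ⟨x, rfl⟩ := (h.exact y).1 hy
    have h1 : r (i x) = x := LinearMap.congr_fun hr x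
    rw [LinearMap.sub_apply, LinearMap.comp_apply, h1, LinearMap.id_apply, sub_self])
  have hpσ : ∀ z, p (σ z) = z := by
    intro z
    obtain ⟨y, rfl⟩ := h.surj z
    rw [hσ, LinearMap.sub_apply, map_sub, LinearMap.id_apply, LinearMap.comp_apply,
      (h.exact _).2 ⟨_, rfl⟩, sub_zero]
  refine ⟨?_, σ, hpσ⟩
  intro I f
  obtain ⟨g, hg⟩ := hY I (σ ∘ₗ f)
  refine ⟨p ∘ₗ g, fun x hx => ?_⟩
  rw [LinearMap.comp_apply, hg x hx, LinearMap.comp_apply, hpσ]

end

section
variable {k A : Type} [Field k] [Ring A] [Algebra k A]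

theorem split_of_ext {X : Type} [AddCommGroup X] [Module A X]
    (h : ∀ (V : Type) [AddCommGroup V] [Module A V] [Module k V] [IsScalarTower k A V]
      [Module.Finite k V] (ξ : E A V X 1), ξ = 0) : SplitX k A X := by
  intro V _ _ _ _ _ Y _ _ i p hs
  have h1 : dl hs (hom0 (LinearMap.id : V →ₗ[A] V)) = 0 := h V _
  obtain ⟨ζ, hζ⟩ := cov3 hs _ h1
  obtain ⟨s, rfl⟩ := hom0_surj ζ
  rw [post_hom0] at hζ
  exact ⟨s, hom0_inj hζ⟩

theorem ext_of_split {X : Type} [AddCommGroup X] [Module A X] (h : SplitX k A X)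
    (V : Type) [AddCommGroup V] [Module A V] [Module k V] [IsScalarTower k A V]
    [Module.Finite k V] (ξ : E A V X 1) : ξ = 0 := by
  obtain ⟨J, _, _, ι, hι, hJ⟩ := exists_inj (A := A) X
  have hs : SES ι (LinearMap.range ι).mkQ := SES.ofInj hι
  obtain ⟨ζ, hζ⟩ := cov1 hs ξ (E_injective hJ _)
  obtain ⟨g, rfl⟩ := hom0_surj ζ
  let Y : Submodule A (V × J) := LinearMap.eqLocus (g ∘ₗ LinearMap.fst A V J)
    ((LinearMap.range ι).mkQ ∘ₗ LinearMap.snd A V J)
  let i : X →ₗ[A] Y := (LinearMap.inr A V J ∘ₗ ι).codRestrict Y (fun x => by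
    rw [LinearMap.mem_eqLocus]
    change g 0 = (LinearMap.range ι).mkQ (ι x)
    rw [map_zero, (hs.exact _).2 ⟨x, rfl⟩])
  let p : Y →ₗ[A] V := LinearMap.fst A V J ∘ₗ Y.subtype
  have hip : SES i p := by
    refine ⟨?_, ?_, ?_⟩
    · intro x x' hx
      apply hι
      exact congrArg (fun y : Y => y.1.2) hx
    · intro v
      obtain ⟨y, hy⟩ := hs.surj (g v)
      exact ⟨⟨(v, y), hy.symm⟩, rfl⟩
    · rintro ⟨⟨v, y⟩, hvy⟩
      constructor
      · intro hv
        have hv : v = 0 := hv
        subst hv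
        have h1 : g 0 = (LinearMap.range ι).mkQ y := hvy
        rw [map_zero] at h1
        obtain ⟨x, hx⟩ := (hs.exact _).1 h1.symm
        refine ⟨x, ?_⟩
        apply Subtype.ext
        change ((0 : V), ι x) = (0, y)
        rw [hx]
      · rintro ⟨x, hx⟩
        rw [← hx]
        rfl
  obtain ⟨s, hsp⟩ := h V Y i p hip
  let t : V →ₗ[A] J := LinearMap.snd A V J ∘ₗ Y.subtype ∘ₗ s
  have ht : (LinearMap.range ι).mkQ ∘ₗ t = g := by
    ext v
    have h1 : g (s v).1.1 = (LinearMap.range ι).mkQ (s v).1.2 := (s v).2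
    have h2 : (s v).1.1 = v := LinearMap.congr_fun hsp v
    rw [h2] at h1
    exact h1.symm
  rw [← hζ, ← ht, ← post_hom0, dl_post]

/-- no nonzero finite-dimensional submodules -/
def NoFin (k A X : Type) [Field k] [Ring A] [Algebra k A] [AddCommGroup X] [Module A X]
    [Module k X] [IsScalarTower k A X] : Prop :=
  ∀ N : Submodule A X, FD k N → N = ⊥

variable {X : Type} [AddCommGroup X] [Module A X] [Module k X] [IsScalarTower k A X]
  {Y : Type} [AddCommGroup Y] [Module A Y] [Module k Y] [IsScalarTower k A Y]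
  {Z : Type} [AddCommGroup Z] [Module A Z] [Module k Z] [IsScalarTower k A Z]

theorem NoFin.of_inj (h : NoFin k A Y) (f : X →ₗ[A] Y) (hf : Function.Injective f) :
    NoFin k A X := by
  intro N hN
  have h1 := h _ (hN.map f)
  rw [Submodule.eq_bot_iff] at h1 ⊢
  intro x hx
  apply hf
  rw [map_zero]
  exact h1 _ ⟨x, hx, rfl⟩

omit [Module k X] [IsScalarTower k A X] in
/-- quotients by modules all of whose extensions split -/
theorem NoFin.quot {i : X →ₗ[A] Y} {p : Y →ₗ[A] Z} (h : SES i p) (hX : SplitX k A X)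
    (hY : NoFin k A Y) : NoFin k A Z := by
  intro N hN
  let T : Submodule A Y := N.comap p
  let i' : X →ₗ[A] T := i.codRestrict T (fun x => by
    change p (i x) ∈ N
    rw [(h.exact _).2 ⟨x, rfl⟩]
    exact N.zero_mem)
  let p' : T →ₗ[A] N := (p ∘ₗ T.subtype).codRestrict N (fun x => x.2)
  have hs : SES i' p' := by
    refine ⟨?_, ?_, ?_⟩
    · intro x x' hx
      exact h.inj (congrArg Subtype.val hx)
    · rintro ⟨z, hz⟩
      obtain ⟨y, rfl⟩ := h.surj z
      exact ⟨⟨y, hz⟩, rfl⟩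
    · rintro ⟨y, hy⟩
      constructor
      · intro hy0
        obtain ⟨x, hx⟩ := (h.exact y).1 (congrArg Subtype.val hy0)
        exact ⟨x, Subtype.ext hx⟩
      · rintro ⟨x, hx⟩
        apply Subtype.ext
        have : i x = y := congrArg Subtype.val hx
        exact (h.exact y).2 ⟨x, this⟩
  have hfin : Module.Finite k N := (FD_iff N).1 hN
  obtain ⟨s, hs'⟩ := hX N T i' p' hs
  have h1 : LinearMap.range (T.subtype ∘ₗ s) = ⊥ := by
    apply hY
    rw [LinearMap.range_eq_map]
    apply FD.map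
    rw [FD_iff]
    exact Module.Finite.equiv ((Submodule.topEquiv (R := A) (M := N)).symm.restrictScalars k)
  rw [LinearMap.range_eq_bot] at h1
  rw [Submodule.eq_bot_iff]
  intro z hz
  have h2 : s ⟨z, hz⟩ = 0 := by
    apply Subtype.ext
    exact LinearMap.congr_fun h1 ⟨z, hz⟩
  have h3 : p' (s ⟨z, hz⟩) = ⟨z, hz⟩ := LinearMap.congr_fun hs' ⟨z, hz⟩
  rw [h2, map_zero] at h3
  exact (congrArg Subtype.val h3).symm

end

end Pool.Agent.Helper202_BG
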