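import Pool.Agent.Helper202_BG.Stmts2
import Pool.Agent.Helper202_BG.P3d

/-!
Tasks X1 and X2: the right module structure on the groups `Ext^n(M, A)`, and the action of central
scalars.
-/

set_option autoImplicit false

open CategoryTheory
open scoped TensorProduct

namespace Pool.Agent.Helper202_BG

namespace XR

section mods

variable (A : Type) [Ring A]

theorem rmul_one : rmul A 1 = LinearMap.id := by
  ext; simp [rmul]

theorem rmul_mul (r s : Aᵐᵒᵖ) : rmul A (r * s) = rmul A r ∘ₗ rmul A s := by
  ext; simp [rmul]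

theorem rmul_add (r s : Aᵐᵒᵖ) : rmul A (r + s) = rmul A r + rmul A s := by
  ext; simp [rmul]

theorem rmul_zero : rmul A 0 = 0 := by
  ext; simp [rmul]

/-- the right module structure -/
@[reducible] noncomputable def extMod (M : Type) [AddCommGroup M] [Module A M] (n : ℕ) :
    Module Aᵐᵒᵖ (E A M A n) where
  smul r ξ := post (rmul A r) ξ
  one_smul ξ := by
    change post (rmul A 1) ξ = ξ
    rw [rmul_one, post_id]
  mul_smul r s ξ := by
    change post (rmul A (r * s)) ξ = post (rmul A r) (post (rmul A s) ξ)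
    rw [rmul_mul, post_comp]
  smul_zero r := post_zero _
  smul_add r ξ η := post_add _ _ _
  add_smul r s ξ := by
    change post (rmul A (r + s)) ξ = post (rmul A r) ξ + post (rmul A s) ξ
    rw [rmul_add, add_post]
  zero_smul ξ := by
    change post (rmul A 0) ξ = 0
    rw [rmul_zero, zero_post]

/-- The ring as a module over the opposite ring. -/
def opEquiv : Aᵐᵒᵖ ≃ₗ[Aᵐᵒᵖ] A where
  toFun x := x.unop
  map_add' _ _ := rfl
  map_smul' r x := by simp
  invFun x := MulOpposite.op x
  left_inv x := rfl
  right_inv x := rfl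

end mods

/-- degree zero -/
theorem noeth_zero (A : Type) [Ring A] [IsNoetherianRing Aᵐᵒᵖ] (M : Type) [AddCommGroup M]
    [Module A M] [Module.Finite A M] :
    letI := extMod A M 0
    IsNoetherian Aᵐᵒᵖ (E A M A 0) := by
  let _ := extMod A M 0
  obtain ⟨m, s, hs⟩ := Module.Finite.exists_fin (R := A) (M := M)
  have hA : IsNoetherian Aᵐᵒᵖ A := isNoetherian_of_linearEquiv (opEquiv A)
  choose g hg using fun ξ : E A M A 0 => hom0_surj ξ
  let Φ : E A M A 0 →ₗ[Aᵐᵒᵖ] (Fin m → A) :=
    { toFun := fun ξ j => g ξ (s j)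
      map_add' := fun ξ η => by
        have h : g (ξ + η) = g ξ + g η := by
          apply hom0_inj
          rw [hom0_add, hg, hg, hg]
        funext j
        rw [h]
        rfl
      map_smul' := fun r ξ => by
        have h : g (r • ξ) = rmul A r ∘ₗ g ξ := by
          apply hom0_inj
          rw [hg, ← post_hom0, hg]
          rfl
        funext j
        rw [h]
        change g ξ (s j) * r.unop = r • g ξ (s j)
        rw [MulOpposite.smul_eq_mul_unop] }
  have hΦ : Function.Injective Φ := by
    intro ξ η h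
    have h1 : g ξ = g η := by
      apply LinearMap.ext_on_range (v := s) hs
      intro j
      exact congrFun h j
    rw [← hg ξ, ← hg η, h1]
  exact isNoetherian_of_injective Φ hΦ

theorem noeth (A : Type) [Ring A] [IsNoetherianRing A] [IsNoetherianRing Aᵐᵒᵖ] (n : ℕ) :
    ∀ (M : Type) [AddCommGroup M] [Module A M] [Module.Finite A M],
      letI := extMod A M n
      IsNoetherian Aᵐᵒᵖ (E A M A n) := by
  induction n with
  | zero => intro M _ _ _; exact noeth_zero A M
  | succ n ih =>
    intro M _ _ _
    let _ := extMod A M (n + 1)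
    obtain ⟨m, p, hp⟩ := Module.Finite.exists_fin' A M
    have h := SES.ofSurj hp
    let _ := extMod A (LinearMap.ker p) n
    have hn : IsNoetherian Aᵐᵒᵖ (E A (LinearMap.ker p) A n) := ih (LinearMap.ker p)
    let Ψ : E A (LinearMap.ker p) A n →ₗ[Aᵐᵒᵖ] E A M A (n + 1) :=
      { toFun := fun ζ => dr h ζ
        map_add' := fun ζ η => dr_add h ζ η
        map_smul' := fun r ζ => (post_dr h (rmul A r) ζ).symm }
    refine isNoetherian_of_surjective Ψ (LinearMap.range_eq_top.mpr ?_)
    intro ξ
    exact con3 h ξ (E_proj _)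

/-- multiplication by a central element -/
def mulc {A : Type} [Ring A] (c : A) (hc : ∀ a, a * c = c * a) (X : Type) [AddCommGroup X]
    [Module A X] : X →ₗ[A] X where
  toFun x := c • x
  map_add' x y := smul_add c x y
  map_smul' a x := by
    rw [RingHom.id_apply, ← mul_smul, ← mul_smul, hc]

theorem central (A : Type) [Ring A] (M : Type) [AddCommGroup M] [Module A M] (c : A)
    (hc : ∀ a, a * c = c * a) (n : ℕ) :
    ∀ (X : Type) [AddCommGroup X] [Module A X] (ξ : E A M X n),
      pre (mulc c hc M) ξ = post (mulc c hc X) ξ := by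
  induction n with
  | zero =>
    intro X _ _ ξ
    obtain ⟨f, rfl⟩ := hom0_surj ξ
    rw [pre_hom0, post_hom0]
    congr 1
    ext x
    exact f.map_smul c x
  | succ n ih =>
    intro X _ _ ξ
    obtain ⟨J, _, _, ι, hι, hJ⟩ := exists_inj (A := A) X
    have hs : SES ι (LinearMap.range ι).mkQ := SES.ofInj hι
    obtain ⟨ζ, hζ⟩ := cov1 hs ξ (E_injective hJ _)
    rw [← hζ, pre_dl, ih, dl_nat hs hs (mulc c hc X) (mulc c hc J)
      (mulc c hc (J ⧸ LinearMap.range ι))]
    · ext x
      exact ι.map_smul c x
    · ext x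
      exact (LinearMap.range ι).mkQ.map_smul c x

end XR

/-- Task X1. -/
theorem taskX1 : TaskX1 := by
  intro A _ _ _ M _ _ _ n
  exact ⟨XR.extMod A M n, fun _ _ => rfl, XR.noeth A n M⟩

/-- Task X2. -/
theorem taskX2 : TaskX2 := by
  intro A _ M _ _ X _ _ c hc u v hu hv n ξ
  have h1 : u = XR.mulc c hc M := LinearMap.ext hu
  have h2 : v = XR.mulc c hc X := LinearMap.ext hv
  rw [h1, h2]
  exact XR.central A M c hc n X ξ

end Pool.Agent.Helper202_BG
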