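import Pool.Agent.Helper202_BG.Stmts

/-!
Elementary tools for Ext groups of modules.
-/

set_option autoImplicit false

open CategoryTheory
open scoped TensorProduct

namespace Pool.Agent.Helper202_BG

section
variable {A : Type} [Ring A]
variable {V : Type} [AddCommGroup V] [Module A V] {V' : Type} [AddCommGroup V'] [Module A V']
  {V'' : Type} [AddCommGroup V''] [Module A V'']
  {X : Type} [AddCommGroup X] [Module A X] {X' : Type} [AddCommGroup X'] [Module A X']
  {X'' : Type} [AddCommGroup X''] [Module A X''] {n : ℕ}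

theorem pre_add (f : V' →ₗ[A] V) (ξ η : E A V X n) : pre f (ξ + η) = pre f ξ + pre f η := by
  simp [pre]

theorem pre_zero (f : V' →ₗ[A] V) : pre f (0 : E A V X n) = 0 := by
  simp [pre]

theorem pre_neg (f : V' →ₗ[A] V) (ξ : E A V X n) : pre f (-ξ) = -pre f ξ := by
  simp [pre]

theorem pre_sub (f : V' →ₗ[A] V) (ξ η : E A V X n) : pre f (ξ - η) = pre f ξ - pre f η := by
  rw [sub_eq_add_neg, sub_eq_add_neg, pre_add, pre_neg]

theorem add_pre (f g : V' →ₗ[A] V) (ξ : E A V X n) : pre (f + g) ξ = pre f ξ + pre g ξ := by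
  rw [pre, ModuleCat.ofHom_add, Abelian.Ext.mk₀_add, Abelian.Ext.add_comp]; rfl

theorem zero_pre (ξ : E A V X n) : pre (0 : V' →ₗ[A] V) ξ = 0 := by
  rw [pre, ModuleCat.ofHom_zero, Abelian.Ext.mk₀_zero, Abelian.Ext.zero_comp]

theorem pre_comp (f : V' →ₗ[A] V) (g : V'' →ₗ[A] V') (ξ : E A V X n) :
    pre (f ∘ₗ g) ξ = pre g (pre f ξ) := by
  rw [pre, pre, pre, ModuleCat.ofHom_comp, ← Abelian.Ext.mk₀_comp_mk₀,
    Abelian.Ext.comp_assoc (a₂₃ := n) _ _ _ (by omega) (by omega) (by omega)]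

theorem pre_id (ξ : E A V X n) : pre (LinearMap.id : V →ₗ[A] V) ξ = ξ := by
  rw [pre, ModuleCat.ofHom_id, Abelian.Ext.mk₀_id_comp]

theorem post_add (g : X →ₗ[A] X') (ξ η : E A V X n) : post g (ξ + η) = post g ξ + post g η := by
  simp [post]

theorem post_zero (g : X →ₗ[A] X') : post g (0 : E A V X n) = 0 := by
  simp [post]

theorem post_neg (g : X →ₗ[A] X') (ξ : E A V X n) : post g (-ξ) = -post g ξ := by
  simp [post]

theorem post_sub (g : X →ₗ[A] X') (ξ η : E A V X n) : post g (ξ - η) = post g ξ - post g η := by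
  rw [sub_eq_add_neg, sub_eq_add_neg, post_add, post_neg]

theorem add_post (f g : X →ₗ[A] X') (ξ : E A V X n) : post (f + g) ξ = post f ξ + post g ξ := by
  rw [post, ModuleCat.ofHom_add, Abelian.Ext.mk₀_add, Abelian.Ext.comp_add]; rfl

theorem zero_post (ξ : E A V X n) : post (0 : X →ₗ[A] X') ξ = 0 := by
  rw [post, ModuleCat.ofHom_zero, Abelian.Ext.mk₀_zero, Abelian.Ext.comp_zero]

theorem post_comp (g : X' →ₗ[A] X'') (f : X →ₗ[A] X') (ξ : E A V X n) :
    post (g ∘ₗ f) ξ = post g (post f ξ) := by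
  rw [post, post, post, ModuleCat.ofHom_comp, ← Abelian.Ext.mk₀_comp_mk₀,
    ← Abelian.Ext.comp_assoc (a₁₂ := n) _ _ _ (by omega) (by omega) (by omega)]

theorem post_id (ξ : E A V X n) : post (LinearMap.id : X →ₗ[A] X) ξ = ξ := by
  rw [post, ModuleCat.ofHom_id, Abelian.Ext.comp_mk₀_id]

theorem pre_post (f : V' →ₗ[A] V) (g : X →ₗ[A] X') (ξ : E A V X n) :
    pre f (post g ξ) = post g (pre f ξ) := by
  rw [pre, post, post, pre,
    Abelian.Ext.comp_assoc (a₂₃ := n) _ _ _ (by omega) (by omega) (by omega)]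

/-- degree-zero classes are homomorphisms -/
noncomputable def hom0 (f : V →ₗ[A] X) : E A V X 0 := Abelian.Ext.mk₀ (ModuleCat.ofHom f)

theorem hom0_surj (ξ : E A V X 0) : ∃ f : V →ₗ[A] X, hom0 f = ξ := by
  obtain ⟨f, hf⟩ := (Abelian.Ext.mk₀_bijective (ModuleCat.of A V) (ModuleCat.of A X)).2 ξ
  exact ⟨f.hom, hf⟩

theorem hom0_inj {f g : V →ₗ[A] X} (h : hom0 f = hom0 g) : f = g := by
  have h1 := (Abelian.Ext.mk₀_bijective (ModuleCat.of A V) (ModuleCat.of A X)).1 h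
  exact congrArg ModuleCat.Hom.hom h1

theorem hom0_zero : hom0 (0 : V →ₗ[A] X) = 0 := by
  rw [hom0, ModuleCat.ofHom_zero, Abelian.Ext.mk₀_zero]

theorem hom0_add (f g : V →ₗ[A] X) : hom0 (f + g) = hom0 f + hom0 g := by
  rw [hom0, ModuleCat.ofHom_add, Abelian.Ext.mk₀_add]; rfl

theorem hom0_eq_zero {f : V →ₗ[A] X} : hom0 f = 0 ↔ f = 0 := by
  constructor
  · intro h; exact hom0_inj (h.trans hom0_zero.symm)
  · rintro rfl; exact hom0_zero

theorem pre_hom0 (f : V' →ₗ[A] V) (g : V →ₗ[A] X) : pre f (hom0 g) = hom0 (g ∘ₗ f) := by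
  rw [pre, hom0, hom0, ModuleCat.ofHom_comp, Abelian.Ext.mk₀_comp_mk₀]

theorem post_hom0 (g : X →ₗ[A] X') (f : V →ₗ[A] X) : post g (hom0 f) = hom0 (g ∘ₗ f) := by
  rw [post, hom0, hom0, ModuleCat.ofHom_comp, Abelian.Ext.mk₀_comp_mk₀]

end

section SES
variable {A : Type} [Ring A]
variable {X : Type} [AddCommGroup X] [Module A X] {Y : Type} [AddCommGroup Y] [Module A Y]
  {Z : Type} [AddCommGroup Z] [Module A Z]

/-- short exact sequences of modules -/
structure SES (i : X →ₗ[A] Y) (p : Y →ₗ[A] Z) : Prop where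
  inj : Function.Injective i
  surj : Function.Surjective p
  exact : ∀ y, p y = 0 ↔ ∃ x, i x = y

theorem SES.comp_zero {i : X →ₗ[A] Y} {p : Y →ₗ[A] Z} (h : SES i p) : p ∘ₗ i = 0 := by
  ext x; exact (h.exact (i x)).2 ⟨x, rfl⟩

/-- the short complex -/
noncomputable abbrev SES.S {i : X →ₗ[A] Y} {p : Y →ₗ[A] Z} (h : SES i p) :
    ShortComplex (ModuleCat.{0} A) :=
  ModuleCat.shortComplexOfCompEqZero i p h.comp_zero

theorem SES.sh {i : X →ₗ[A] Y} {p : Y →ₗ[A] Z} (h : SES i p) : h.S.ShortExact :=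
  ModuleCat.shortComplex_shortExact _ (fun y => by
    constructor
    · intro hy
      obtain ⟨x, hx⟩ := (h.exact y).1 hy
      exact ⟨x, hx⟩
    · rintro ⟨x, rfl⟩
      exact (h.exact _).2 ⟨x, rfl⟩) h.inj h.surj

theorem SES.mkQ (N : Submodule A Y) : SES N.subtype N.mkQ where
  inj := N.injective_subtype
  surj := N.mkQ_surjective
  exact y := by
    rw [Submodule.mkQ_apply, Submodule.Quotient.mk_eq_zero]
    constructor
    · intro hy; exact ⟨⟨y, hy⟩, rfl⟩
    · rintro ⟨x, rfl⟩; exact x.2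

theorem SES.ofInj {i : X →ₗ[A] Y} (hi : Function.Injective i) :
    SES i (LinearMap.range i).mkQ where
  inj := hi
  surj := (LinearMap.range i).mkQ_surjective
  exact y := by
    rw [Submodule.mkQ_apply, Submodule.Quotient.mk_eq_zero, LinearMap.mem_range]

theorem SES.ofSurj {p : Y →ₗ[A] Z} (hp : Function.Surjective p) :
    SES (LinearMap.ker p).subtype p where
  inj := (LinearMap.ker p).injective_subtype
  surj := hp
  exact y := by
    constructor
    · intro hy; exact ⟨⟨y, hy⟩, rfl⟩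
    · rintro ⟨x, rfl⟩; exact x.2

variable {V : Type} [AddCommGroup V] [Module A V] {V' : Type} [AddCommGroup V'] [Module A V']

/-- covariant connecting map -/
noncomputable def dl {i : X →ₗ[A] Y} {p : Y →ₗ[A] Z} (h : SES i p) {n : ℕ} (ζ : E A V Z n) :
    E A V X (n + 1) :=
  ζ.comp h.sh.extClass rfl

/-- contravariant connecting map -/
noncomputable def dr {i : X →ₗ[A] Y} {p : Y →ₗ[A] Z} (h : SES i p) {n : ℕ} (ζ : E A X V n) :
    E A Z V (n + 1) :=
  h.sh.extClass.comp ζ (add_comm 1 n)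

variable {i : X →ₗ[A] Y} {p : Y →ₗ[A] Z} (h : SES i p) {n : ℕ}

theorem dl_add (ζ η : E A V Z n) : dl h (ζ + η) = dl h ζ + dl h η := by
  simp [dl]

theorem dr_add (ζ η : E A X V n) : dr h (ζ + η) = dr h ζ + dr h η := by
  simp [dr]

theorem dl_zero : dl h (0 : E A V Z n) = 0 := by
  simp [dl]

theorem dr_zero : dr h (0 : E A X V n) = 0 := by
  simp [dr]

theorem cov1 (ξ : E A V X (n + 1)) (hξ : post i ξ = 0) : ∃ ζ : E A V Z n, dl h ζ = ξ :=
  Abelian.Ext.covariant_sequence_exact₁ _ h.sh ξ hξ rfl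

include h in
theorem cov2 (ξ : E A V Y n) (hξ : post p ξ = 0) : ∃ ζ : E A V X n, post i ζ = ξ :=
  Abelian.Ext.covariant_sequence_exact₂ _ h.sh ξ hξ

theorem cov3 (ξ : E A V Z n) (hξ : dl h ξ = 0) : ∃ ζ : E A V Y n, post p ζ = ξ :=
  Abelian.Ext.covariant_sequence_exact₃ _ h.sh ξ rfl hξ

theorem con1 (ξ : E A X V n) (hξ : dr h ξ = 0) : ∃ ζ : E A Y V n, pre i ζ = ξ :=
  Abelian.Ext.contravariant_sequence_exact₁ h.sh _ ξ (add_comm 1 n) hξ

include h in
theorem con2 (ξ : E A Y V n) (hξ : pre i ξ = 0) : ∃ ζ : E A Z V n, pre p ζ = ξ :=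
  Abelian.Ext.contravariant_sequence_exact₂ h.sh _ ξ hξ

theorem con3 (ξ : E A Z V (n + 1)) (hξ : pre p ξ = 0) : ∃ ζ : E A X V n, dr h ζ = ξ :=
  Abelian.Ext.contravariant_sequence_exact₃ h.sh _ ξ hξ (add_comm 1 n)

theorem dr_pre (ξ : E A Y V n) : dr h (pre i ξ) = 0 := by
  rw [dr, pre]
  exact ShortComplex.ShortExact.extClass_comp_assoc h.sh ξ

theorem pre_dr (ξ : E A X V n) : pre p (dr h ξ) = 0 := by
  rw [dr, pre]
  exact ShortComplex.ShortExact.comp_extClass_assoc h.sh ξ _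

theorem post_dl (ξ : E A V Z n) : post i (dl h ξ) = 0 := by
  rw [dl, post, Abelian.Ext.comp_assoc (a₂₃ := 1) _ _ _ (by omega) (by omega) (by omega)]
  rw [ShortComplex.ShortExact.extClass_comp h.sh, Abelian.Ext.comp_zero]

theorem dl_post (ξ : E A V Y n) : dl h (post p ξ) = 0 := by
  rw [dl, post, Abelian.Ext.comp_assoc (a₂₃ := 1) _ _ _ (by omega) (by omega) (by omega)]
  rw [ShortComplex.ShortExact.comp_extClass h.sh, Abelian.Ext.comp_zero]

theorem pre_dl (f : V' →ₗ[A] V) (ζ : E A V Z n) : pre f (dl h ζ) = dl h (pre f ζ) := by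
  rw [pre, dl, dl, pre,
    Abelian.Ext.comp_assoc (a₁₂ := n) (a₂₃ := n + 1) _ _ _ (by omega) (by omega) (by omega)]

theorem post_dr (g : V →ₗ[A] V') (ζ : E A X V n) : post g (dr h ζ) = dr h (post g ζ) := by
  rw [post, dr, dr, post,
    Abelian.Ext.comp_assoc (a₁₂ := n + 1) (a₂₃ := n) _ _ _ (by omega) (by omega) (by omega)]

variable {X' : Type} [AddCommGroup X'] [Module A X'] {Y' : Type} [AddCommGroup Y'] [Module A Y']
  {Z' : Type} [AddCommGroup Z'] [Module A Z'] {i' : X' →ₗ[A] Y'} {p' : Y' →ₗ[A] Z'}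
  (h' : SES i' p')

/-- naturality of the class of an extension -/
theorem cls_nat (a : X →ₗ[A] X') (b : Y →ₗ[A] Y') (c : Z →ₗ[A] Z') (h1 : i' ∘ₗ a = b ∘ₗ i)
    (h2 : p' ∘ₗ b = c ∘ₗ p) :
    post a h.sh.extClass = pre c h'.sh.extClass := by
  let f : h.S ⟶ h'.S :=
    { τ₁ := ModuleCat.ofHom a
      τ₂ := ModuleCat.ofHom b
      τ₃ := ModuleCat.ofHom c
      comm₁₂ := by
        change ModuleCat.ofHom a ≫ ModuleCat.ofHom i' = ModuleCat.ofHom i ≫ ModuleCat.ofHom b
        rw [← ModuleCat.ofHom_comp, ← ModuleCat.ofHom_comp, h1]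
      comm₂₃ := by
        change ModuleCat.ofHom b ≫ ModuleCat.ofHom p' = ModuleCat.ofHom p ≫ ModuleCat.ofHom c
        rw [← ModuleCat.ofHom_comp, ← ModuleCat.ofHom_comp, h2] }
  exact ShortComplex.ShortExact.extClass_naturality h.sh h'.sh f

theorem dr_nat (a : X →ₗ[A] X') (b : Y →ₗ[A] Y') (c : Z →ₗ[A] Z') (h1 : i' ∘ₗ a = b ∘ₗ i)
    (h2 : p' ∘ₗ b = c ∘ₗ p) (ζ : E A X' V n) :
    dr h (pre a ζ) = pre c (dr h' ζ) := by
  have := cls_nat h h' a b c h1 h2
  rw [dr, pre, pre, dr, ← Abelian.Ext.comp_assoc (a₁₂ := 1) _ _ _ (by omega) (by omega) (by omega),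
    ← Abelian.Ext.comp_assoc (a₁₂ := 1) _ _ _ (by omega) (by omega) (by omega)]
  rw [post, pre] at this
  rw [this]

theorem dl_nat (a : X →ₗ[A] X') (b : Y →ₗ[A] Y') (c : Z →ₗ[A] Z') (h1 : i' ∘ₗ a = b ∘ₗ i)
    (h2 : p' ∘ₗ b = c ∘ₗ p) (ζ : E A V Z n) :
    post a (dl h ζ) = dl h' (post c ζ) := by
  have := cls_nat h h' a b c h1 h2
  rw [dl, post, post, dl, Abelian.Ext.comp_assoc (a₂₃ := 1) _ _ _ (by omega) (by omega) (by omega),
    Abelian.Ext.comp_assoc (a₂₃ := 1) _ _ _ (by omega) (by omega) (by omega)]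
  rw [post, pre] at this
  rw [this]

/-- Ext vanishes on projective modules -/
theorem E_proj {P : Type} [AddCommGroup P] [Module A P] [Module.Projective A P]
    (ξ : E A P V (n + 1)) : ξ = 0 :=
  Abelian.Ext.eq_zero_of_projective ξ

/-- Ext with values in injective modules vanishes -/
theorem E_injective {J : Type} [AddCommGroup J] [Module A J] (hJ : Module.Baer A J)
    (ξ : E A V J (n + 1)) : ξ = 0 := by
  have h1 : Module.Injective A J := hJ.injective
  have h2 : Injective (ModuleCat.of A J) := Module.injective_object_of_injective_module A J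
  exact Abelian.Ext.eq_zero_of_injective ξ

end SES

end Pool.Agent.Helper202_BG
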