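import Pool.Agent.Helper202_BG.QuotP

/-!
Task F: simple modules over an affine left noetherian algebra with a polynomial identity are
finite-dimensional.
-/

set_option autoImplicit false

namespace Pool.Agent.Helper202_BG

namespace TF

/-- A commutative affine algebra of endomorphisms of a simple module over which the module is
finitely generated is finite-dimensional, and so is the module. -/
theorem finite_of_adjoin {k A M : Type} [Field k] [Ring A] [Algebra k A] [AddCommGroup M]
    [Module A M] [Module k M] [IsScalarTower k A M] [IsSimpleModule A M]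
    (T : Subalgebra k (Module.End A M)) [IsMulCommutative T] (hT : T.FG)
    (hfin : Module.Finite T M) : Module.Finite k M := by
  classical
  have hsimple : ∀ g : Module.End A M, g ≠ 0 → Function.Bijective g := fun g hg => by
    rcases LinearMap.bijective_or_eq_zero g with h | h
    · exact h
    · exact absurd h hg
  have hnt : Nontrivial M := IsSimpleModule.nontrivial A M
  let iT : CommRing T :=
    { (inferInstance : Ring T) with mul_comm := fun a b => IsMulCommutative.is_comm.comm a b }
  have hfield : IsField T := by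
    refine ⟨⟨0, 1, ?_⟩, fun a b => mul_comm a b, ?_⟩
    · intro h
      have h1 : (0 : Module.End A M) = 1 := congrArg Subtype.val h
      exact zero_ne_one h1
    · intro g hg
      have hg' : (g : Module.End A M) ≠ 0 := fun h => hg (Subtype.ext h)
      obtain ⟨r, hr1, hr2⟩ := Submodule.exists_sub_one_mem_and_smul_eq_zero_of_fg_of_le_smul
        (R := T) (M := M) (Ideal.span {g}) ⊤ hfin.fg_top (by
          intro x _
          obtain ⟨y, hy⟩ := (hsimple _ hg').2 x
          rw [← hy]
          exact Submodule.smul_mem_smul (Ideal.subset_span rfl) (Submodule.mem_top (x := y)))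
      have hr0 : r = 0 := by
        apply Subtype.ext
        apply LinearMap.ext
        intro x
        exact hr2 x trivial
      rw [hr0, zero_sub, Ideal.mem_span_singleton] at hr1
      obtain ⟨w, hw⟩ := hr1
      refine ⟨-w, ?_⟩
      rw [mul_neg, ← hw, neg_neg]
  let iF : Field T := hfield.toField
  have hft : Algebra.FiniteType k T := (Subalgebra.fg_iff_finiteType T).mp hT
  have hfink : Module.Finite k T := finite_of_finite_type_of_isJacobsonRing k T
  have hst : IsScalarTower k T M := ⟨fun c g m => rfl⟩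
  exact Module.Finite.trans T M

/-- the action of a central subalgebra of `A / ann M` on `M` by `A`-endomorphisms -/
noncomputable def act {k A M : Type} [Field k] [Ring A] [Algebra k A] [AddCommGroup M]
    [Module A M] [Module k M] [IsScalarTower k A M]
    (Z : Subalgebra k (A ⧸ Module.annihilator A M)) (hZ : ∀ z ∈ Z, ∀ r, z * r = r * z) :
    Z →ₐ[k] Module.End A M :=
  letI : Module (A ⧸ Module.annihilator A M) M := Module.quotientAnnihilator
  { toFun := fun z =>
      { toFun := fun m => (z : A ⧸ Module.annihilator A M) • m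
        map_add' := fun x y => smul_add _ x y
        map_smul' := fun a x => by
          have h1 : ∀ (b : A) (y : M), b • y = Ideal.Quotient.mk (Module.annihilator A M) b • y :=
            fun b y => rfl
          rw [RingHom.id_apply, h1, h1, ← mul_smul, ← mul_smul, hZ z z.2] }
    map_one' := LinearMap.ext fun m => one_smul _ m
    map_mul' := fun x y => LinearMap.ext fun m => mul_smul _ _ m
    map_zero' := LinearMap.ext fun m => zero_smul _ m
    map_add' := fun x y => LinearMap.ext fun m => add_smul _ _ m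
    commutes' := fun c => LinearMap.ext fun m => by
      change algebraMap k A c • m = c • m
      rw [algebraMap_smul] }

theorem act_apply {k A M : Type} [Field k] [Ring A] [Algebra k A] [AddCommGroup M]
    [Module A M] [Module k M] [IsScalarTower k A M]
    (Z : Subalgebra k (A ⧸ Module.annihilator A M)) (hZ : ∀ z ∈ Z, ∀ r, z * r = r * z) (z : Z)
    (a : A) (ha : Ideal.Quotient.mk (Module.annihilator A M) a = z) (m : M) :
    act Z hZ z m = a • m := by
  obtain ⟨z, hz⟩ := z
  change _ = z at ha
  subst ha
  rfl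

end TF

/-- Task F. -/
theorem taskF (hC : TaskC) (hD2 : TaskD2) (hE : TaskE) : TaskF := by
  intro k _ A _ _ _ _ d hd M _ _ _ _ _
  classical
  have hnt : Nontrivial M := IsSimpleModule.nontrivial A M
  obtain ⟨Z, ⟨hZfg, hZc, N, u, α, hαZ, hα0, hα⟩, -⟩ :=
    QuotP.exists_model (k := k) (A := A) (M := M) hC hD2 hE hd QuotP.primeM_of_simple
  have hsimple : ∀ g : Module.End A M, g ≠ 0 → Function.Bijective g := fun g hg => by
    rcases LinearMap.bijective_or_eq_zero g with h | h
    · exact h
    · exact absurd h hg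
  -- the endomorphism `α` and its inverse
  have hactα : TF.act Z hZc ⟨α, hαZ⟩ ≠ 0 := by
    intro h0
    apply hα0
    obtain ⟨a, rfl⟩ := Ideal.Quotient.mk_surjective α
    rw [Ideal.Quotient.eq_zero_iff_mem, Module.mem_annihilator]
    intro m
    rw [← TF.act_apply Z hZc ⟨_, hαZ⟩ a rfl m, h0]
    rfl
  let eα : M ≃ₗ[A] M := LinearEquiv.ofBijective _ (hsimple _ hactα)
  let ι : Module.End A M := eα.symm.toLinearMap
  have hι1 : TF.act Z hZc ⟨α, hαZ⟩ * ι = 1 := LinearMap.ext fun m => eα.apply_symm_apply m
  have hι2 : ι * TF.act Z hZc ⟨α, hαZ⟩ = 1 := LinearMap.ext fun m => eα.symm_apply_apply m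
  have hcomm : ∀ z w : Z, TF.act Z hZc z * TF.act Z hZc w = TF.act Z hZc w * TF.act Z hZc z := by
    intro z w
    rw [← map_mul, ← map_mul]
    congr 1
    apply Subtype.ext
    exact hZc z z.2 w
  have hcommι : ∀ z : Z, TF.act Z hZc z * ι = ι * TF.act Z hZc z := by
    intro z
    calc TF.act Z hZc z * ι = (ι * TF.act Z hZc ⟨α, hαZ⟩) * (TF.act Z hZc z * ι) := by
          rw [hι2, one_mul]
      _ = ι * (TF.act Z hZc ⟨α, hαZ⟩ * TF.act Z hZc z) * ι := by simp only [mul_assoc]
      _ = ι * (TF.act Z hZc z * TF.act Z hZc ⟨α, hαZ⟩) * ι := by rw [hcomm]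
      _ = ι * TF.act Z hZc z * (TF.act Z hZc ⟨α, hαZ⟩ * ι) := by simp only [mul_assoc]
      _ = ι * TF.act Z hZc z := by rw [hι1, mul_one]
  -- the commutative algebra
  have hTfg : (TF.act Z hZc).range.FG := by
    have h1 : Algebra.FiniteType k Z := (Subalgebra.fg_iff_finiteType Z).mp hZfg
    rw [Subalgebra.fg_iff_finiteType]
    exact Algebra.FiniteType.of_surjective (TF.act Z hZc).rangeRestrict
      (AlgHom.rangeRestrict_surjective _)
  obtain ⟨S, hS⟩ := hTfg
  have hSsub : ∀ g ∈ S, ∃ z : Z, TF.act Z hZc z = g := by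
    intro g hg
    have h1 : g ∈ (TF.act Z hZc).range := by
      rw [← hS]
      exact Algebra.subset_adjoin hg
    exact h1
  let S' : Set (Module.End A M) := insert ι (S : Set (Module.End A M))
  have hS'comm : ∀ a ∈ S', ∀ b ∈ S', a * b = b * a := by
    intro a ha b hb
    rcases ha with rfl | ha
    · rcases hb with rfl | hb
      · rfl
      · obtain ⟨z, rfl⟩ := hSsub b hb
        exact (hcommι z).symm
    · obtain ⟨z, rfl⟩ := hSsub a ha
      rcases hb with rfl | hb
      · exact hcommι z
      · obtain ⟨w, rfl⟩ := hSsub b hb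
        exact hcomm z w
  let T : Subalgebra k (Module.End A M) := Algebra.adjoin k S'
  have hTcomm : IsMulCommutative T := Algebra.isMulCommutative_adjoin k hS'comm
  have hTFG : T.FG := ⟨insert ι S, by rw [Finset.coe_insert]⟩
  have hιT : ι ∈ T := Algebra.subset_adjoin (Set.mem_insert _ _)
  have hZT : ∀ z : Z, TF.act Z hZc z ∈ T := by
    intro z
    have h1 : TF.act Z hZc z ∈ (TF.act Z hZc).range := ⟨z, rfl⟩
    rw [← hS] at h1
    exact Algebra.adjoin_mono (Set.subset_insert _ _) h1
  obtain ⟨m₀, hm₀⟩ := exists_ne (0 : M)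
  choose v hv using fun j => Ideal.Quotient.mk_surjective (u j)
  refine TF.finite_of_adjoin T hTFG ?_
  refine ⟨⟨Finset.univ.image fun j => v j • m₀, ?_⟩⟩
  rw [eq_top_iff]
  intro y _
  obtain ⟨x, rfl⟩ := IsSimpleModule.toSpanSingleton_surjective A hm₀ y
  rw [LinearMap.toSpanSingleton_apply]
  obtain ⟨s, z, hzZ, hz⟩ := hα (Ideal.Quotient.mk _ x)
  -- `α ^ s • x • m₀ = ∑ z j • u j • m₀`
  obtain ⟨a, ha⟩ := Ideal.Quotient.mk_surjective α
  choose w hw using fun j => Ideal.Quotient.mk_surjective (z j)
  have h1 : a ^ s • x • m₀ = ∑ j, w j • v j • m₀ := by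
    have h2 : a ^ s * x - ∑ j, w j * v j ∈ Module.annihilator A M := by
      rw [← Ideal.Quotient.eq_zero_iff_mem, map_sub, map_mul, map_pow, map_sum, ha, hz]
      simp only [map_mul, hw, hv]
      exact sub_self _
    have h3 := Module.mem_annihilator.mp h2 m₀
    rw [sub_smul, sub_eq_zero, Finset.sum_smul] at h3
    simpa only [mul_smul] using h3
  have h4 : ∀ y : M, a • y = TF.act Z hZc ⟨α, hαZ⟩ y := fun y =>
    (TF.act_apply Z hZc ⟨α, hαZ⟩ a ha y).symm
  have h5 : ∀ (s : ℕ) (y : M), (ι ^ s) (a ^ s • y) = y := by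
    intro s
    induction s with
    | zero => intro y; simp
    | succ s ih =>
      intro y
      rw [pow_succ' a s, mul_smul, h4, pow_succ ι s]
      change (ι ^ s) ((ι * TF.act Z hZc ⟨α, hαZ⟩) (a ^ s • y)) = y
      rw [hι2]
      exact ih y
  have h6 : x • m₀ = ∑ j, ((⟨ι ^ s, pow_mem hιT s⟩ : T) * ⟨_, hZT ⟨z j, hzZ j⟩⟩) • v j • m₀ := by
    rw [← h5 s (x • m₀), h1, map_sum]
    refine Finset.sum_congr rfl fun j _ => ?_
    rw [← TF.act_apply Z hZc ⟨z j, hzZ j⟩ (w j) (hw j) (v j • m₀)]
    rfl
  rw [h6]
  refine Submodule.sum_mem _ fun j _ => Submodule.smul_mem _ _ (Submodule.subset_span ?_)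
  rw [Finset.coe_image]
  exact ⟨j, Finset.mem_coe.mpr (Finset.mem_univ j), rfl⟩

end Pool.Agent.Helper202_BG
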