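import Pool.Agent.Helper202_BG.Stmts

/-!
Task G: a dimension function on the prime ideals of an affine left noetherian algebra with a
polynomial identity. It is the growth degree of the filtration of `A ⧸ P` by the powers of a
generating subspace.
-/

set_option autoImplicit false

open scoped Pointwise

namespace Pool.Agent.Helper202_BG

namespace TG

variable {k : Type} [Field k]

/-! ### Powers of a subspace of a commutative algebra -/

/-- Monomials of degree `s` have exponents at most `s`. -/
theorem exists_exponents {B : Type} [CommRing B] {ι : Type} [Fintype ι] [DecidableEq ι]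
    (w : ι → B) (s : ℕ) : ∀ x ∈ (Set.range w) ^ s,
      ∃ α : ι → ℕ, (∀ i, α i ≤ s) ∧ ∏ i, w i ^ α i = x := by
  induction s with
  | zero =>
    intro x hx
    refine ⟨fun _ => 0, fun _ => le_refl _, ?_⟩
    rw [pow_zero, Set.mem_one] at hx
    simp [hx]
  | succ s ih =>
    intro x hx
    rw [pow_succ] at hx
    obtain ⟨a, ha, b, ⟨j, rfl⟩, rfl⟩ := Set.mem_mul.mp hx
    obtain ⟨α, hα, rfl⟩ := ih a ha
    refine ⟨fun i => α i + if i = j then 1 else 0, fun i => ?_, ?_⟩
    · have := hα i
      dsimp only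
      split_ifs <;> omega
    · simp only [pow_add, Finset.prod_mul_distrib]
      congr 1
      simp [pow_ite]

/-- Dimension of the powers of a finitely spanned subspace of a commutative algebra. -/
theorem finrank_pow_le {B : Type} [CommRing B] [Algebra k B] {ι : Type} [Fintype ι]
    (w : ι → B) (s : ℕ) :
    Module.Finite k ((Submodule.span k (Set.range w)) ^ s : Submodule k B) ∧
    Module.finrank k ((Submodule.span k (Set.range w)) ^ s : Submodule k B)
      ≤ (s + 1) ^ Fintype.card ι := by
  classical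
  set F : (ι → Fin (s + 1)) → B := fun α => ∏ i, w i ^ (α i : ℕ) with hF
  have hle : (Submodule.span k (Set.range w)) ^ s ≤ Submodule.span k (Set.range F) := by
    rw [Submodule.span_pow]
    refine Submodule.span_mono ?_
    intro x hx
    obtain ⟨α, hα, rfl⟩ := exists_exponents w s x hx
    exact ⟨fun i => ⟨α i, Nat.lt_succ_of_le (hα i)⟩, rfl⟩
  have : Module.Finite k (Submodule.span k (Set.range F)) :=
    FiniteDimensional.span_of_finite k (Set.finite_range F)
  refine ⟨Submodule.finiteDimensional_of_le hle, (Submodule.finrank_mono hle).trans ?_⟩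
  refine (finrank_range_le_card F).trans ?_
  simp

/-! ### Representations by matrices -/

/-- Entries of the powers. -/
theorem entries_mem {A B : Type} [Ring A] [Algebra k A] [CommRing B] [Algebra k B] {n : ℕ}
    (ρ : A →ₐ[k] Matrix (Fin n) (Fin n) B) (V : Submodule k A) (W : Submodule k B)
    (h : ∀ v ∈ V, ∀ i j, ρ v i j ∈ W) (s : ℕ) : ∀ v ∈ V ^ s, ∀ i j, ρ v i j ∈ W ^ s := by
  induction s with
  | zero =>
    intro v hv i j
    rw [pow_zero] at hv ⊢
    obtain ⟨r, rfl⟩ := Submodule.mem_one.mp hv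
    rw [AlgHom.commutes, Matrix.algebraMap_matrix_apply]
    split_ifs
    · exact Submodule.mem_one.mpr ⟨r, rfl⟩
    · exact Submodule.zero_mem _
  | succ s ih =>
    intro v hv i j
    rw [pow_succ] at hv ⊢
    revert i j
    refine Submodule.mul_induction_on hv ?_ ?_
    · intro a ha b hb i j
      rw [map_mul, Matrix.mul_apply]
      exact Submodule.sum_mem _ fun l _ => Submodule.mul_mem_mul (ih a ha i l) (h b hb l j)
    · intro a b ha hb i j
      rw [map_add, Matrix.add_apply]
      exact Submodule.add_mem _ (ha i j) (hb i j)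

/-- The bound for the number of elements of `V ^ s` which are independent modulo `P`. -/
def Bd {A : Type} [Ring A] [Algebra k A] (V : Submodule k A) (P : Ideal A) (t : ℕ) : Prop :=
  ∃ C : ℕ, ∀ (s : ℕ) (ι : Type) (_ : Fintype ι) (w : ι → A), (∀ i, w i ∈ V ^ s) →
    (∀ c : ι → k, ∑ i, c i • w i ∈ P → ∀ i, c i = 0) → Fintype.card ι ≤ C * (s + 1) ^ t

/-- The upper bound coming from a representation by matrices over a commutative algebra. -/
theorem bd_of_rep {A B : Type} [Ring A] [Algebra k A] [CommRing B] [Algebra k B] {n : ℕ}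
    (ρ : A →ₐ[k] Matrix (Fin n) (Fin n) B) (P : Ideal A) (hP : ∀ a, ρ a = 0 → a ∈ P)
    {g : Type} [Fintype g] (v : g → A) (d : ℕ) (hn : n ≤ d) :
    Bd (k := k) (Submodule.span k (Set.range v)) P (Fintype.card g * (d * d)) := by
  classical
  refine ⟨d * d, fun s ι _ w hw hli => ?_⟩
  set V := Submodule.span k (Set.range v) with hV
  set u : g × Fin n × Fin n → B := fun x => ρ (v x.1) x.2.1 x.2.2 with hu
  set W := Submodule.span k (Set.range u) with hW
  have hVW : ∀ x ∈ V, ∀ i j, ρ x i j ∈ W := by
    intro x hx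
    refine Submodule.span_induction ?_ ?_ ?_ ?_ hx
    · rintro _ ⟨y, rfl⟩ i j
      exact Submodule.subset_span ⟨(y, i, j), rfl⟩
    · intro i j
      rw [map_zero, Matrix.zero_apply]
      exact Submodule.zero_mem _
    · intro a b _ _ ha hb i j
      rw [map_add, Matrix.add_apply]
      exact Submodule.add_mem _ (ha i j) (hb i j)
    · intro c a _ ha i j
      rw [map_smul, Matrix.smul_apply]
      exact Submodule.smul_mem _ _ (ha i j)
  have hmem := entries_mem ρ V W hVW s
  obtain ⟨hfin, hrank⟩ := finrank_pow_le (k := k) u s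
  have : Module.Finite k (W ^ s : Submodule k B) := hfin
  set f : ι → (Fin n → Fin n → (W ^ s : Submodule k B)) :=
    fun i a b => ⟨ρ (w i) a b, hmem (w i) (hw i) a b⟩ with hf
  have hlin : LinearIndependent k f := by
    rw [Fintype.linearIndependent_iff]
    intro c hc
    refine hli c (hP _ ?_)
    rw [map_sum]
    ext a b
    have h1 := congrArg (fun z => ((z a b : (W ^ s : Submodule k B)) : B)) hc
    simp only [Finset.sum_apply, Pi.smul_apply, Submodule.coe_sum, Submodule.coe_smul, hf,
      Pi.zero_apply, Submodule.coe_zero] at h1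
    rw [Matrix.sum_apply, Matrix.zero_apply, ← h1]
    refine Finset.sum_congr rfl fun i _ => ?_
    rw [map_smul, Matrix.smul_apply]
  have h2 := hlin.fintype_card_le_finrank
  rw [Module.finrank_pi_fintype, Finset.sum_const, Module.finrank_pi_fintype, Finset.sum_const]
    at h2
  simp only [Finset.card_univ, Fintype.card_fin, smul_eq_mul] at h2
  refine h2.trans ?_
  have h3 : Module.finrank k (W ^ s : Submodule k B) ≤ (s + 1) ^ (Fintype.card g * (d * d)) := by
    refine hrank.trans ?_
    refine Nat.pow_le_pow_right (Nat.succ_pos s) ?_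
    rw [Fintype.card_prod, Fintype.card_prod, Fintype.card_fin]
    gcongr
  calc n * (n * Module.finrank k (W ^ s : Submodule k B))
      ≤ d * (d * (s + 1) ^ (Fintype.card g * (d * d))) := by gcongr
    _ = d * d * (s + 1) ^ (Fintype.card g * (d * d)) := by ring

/-- An algebra detected by representations of size `n` embeds in matrices over a commutative
algebra. -/
theorem exists_embedding {R : Type} [Ring R] [Algebra k R] {n : ℕ} (h : Det k R n) :
    ∃ (B : Type) (_ : CommRing B) (_ : Algebra k B) (ρ : R →ₐ[k] Matrix (Fin n) (Fin n) B),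
      ∀ b, ρ b = 0 → b = 0 := by
  classical
  choose D hD using h
  let I := {b : R // b ≠ 0}
  refine ⟨∀ b : I, (D b.1 b.2).L, inferInstance, inferInstance,
    { toFun := fun x => Matrix.of fun i j b => (D b.1 b.2).ρ x i j
      map_one' := ?_
      map_mul' := ?_
      map_zero' := ?_
      map_add' := ?_
      commutes' := ?_ }, ?_⟩
  · ext i j b
    by_cases hij : i = j
    · subst hij; simp
    · simp [Matrix.one_apply_ne hij]
  · intro x y
    ext i j b
    simp only [map_mul, Matrix.mul_apply, Finset.sum_apply, Pi.mul_apply, Matrix.of_apply]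
  · ext i j b
    simp
  · intro x y
    ext i j b
    simp
  · intro r
    ext i j b
    simp only [AlgHom.commutes, Matrix.algebraMap_matrix_apply, Matrix.of_apply]
    split_ifs <;> simp
  · intro b hb
    by_contra hne
    refine hD b hne ?_
    ext i j
    have := congrFun (congrFun (congrFun hb i) j) ⟨b, hne⟩
    exact this

/-! ### Strict decrease -/

/-- Expansions in powers of a regular element of `P'` are unique modulo `P`. -/
theorem cancel {A : Type} [Ring A] (P P' : Ideal A) (hPP : P ≤ P') (c : A) (hc : c ∈ P')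
    (hreg : ∀ y, y * c ∈ P → y ∈ P) (m : ℕ) : ∀ f : ℕ → A, (∀ j, f j ∈ P' → f j = 0) →
      ∑ j ∈ Finset.range m, f j * c ^ j ∈ P → ∀ j < m, f j = 0 := by
  induction m with
  | zero => intro f _ _ j hj; omega
  | succ m ih =>
    intro f hf hs j hj
    have hsum : ∑ j ∈ Finset.range (m + 1), f j * c ^ j
        = (∑ j ∈ Finset.range m, f (j + 1) * c ^ j) * c + f 0 := by
      rw [Finset.sum_range_succ', Finset.sum_mul]
      simp only [pow_zero, mul_one, pow_succ, mul_assoc]
    rw [hsum] at hs
    have h0 : f 0 = 0 := by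
      refine hf 0 ?_
      have h1 := hPP hs
      have h2 : (∑ j ∈ Finset.range m, f (j + 1) * c ^ j) * c ∈ P' := P'.mul_mem_left _ hc
      have h3 := P'.sub_mem h1 h2
      rwa [add_sub_cancel_left] at h3
    rw [h0, add_zero] at hs
    have h4 := ih (fun j => f (j + 1)) (fun j => hf (j + 1)) (hreg _ hs)
    rcases j with _ | j
    · exact h0
    · exact h4 j (by omega)

theorem pow_mono {A : Type} [Ring A] [Algebra k A] (V : Submodule k A) (h1 : (1 : A) ∈ V)
    {a b : ℕ} (hab : a ≤ b) : V ^ a ≤ V ^ b := by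
  obtain ⟨c, rfl⟩ := Nat.exists_eq_add_of_le hab
  rw [pow_add]
  intro x hx
  have h2 : (1 : A) ∈ V ^ c := by
    have := Submodule.pow_mem_pow V h1 c
    rwa [one_pow] at this
  have := Submodule.mul_mem_mul hx h2
  rwa [mul_one] at this

/-- The growth degree drops. -/
theorem decrease {A : Type} [Ring A] [Algebra k A] (V : Submodule k A) (h1 : (1 : A) ∈ V)
    (P P' : Ideal A) (hPP : P ≤ P') (hP' : P' ≠ ⊤) (c : A) (hc : c ∈ P')
    (hreg : ∀ y, y * c ∈ P → y ∈ P) (t : ℕ) (hct : c ∈ V ^ t) (e : ℕ) (hB : Bd V P e) :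
    ∃ e', e' < e ∧ Bd V P' e' := by
  obtain ⟨C, hC⟩ := hB
  have key : ∀ (s : ℕ) (ι : Type) (_ : Fintype ι) (w : ι → A), (∀ i, w i ∈ V ^ s) →
      (∀ c : ι → k, ∑ i, c i • w i ∈ P' → ∀ i, c i = 0) →
      Fintype.card ι * (s + 1) ≤ C * (t + 1) ^ e * (s + 1) ^ e := by
    intro s ι _ w hw hli
    have h2 := hC ((t + 1) * s) (ι × Fin (s + 1)) inferInstance
      (fun x => w x.1 * c ^ (x.2 : ℕ)) ?_ ?_
    · rw [Fintype.card_prod, Fintype.card_fin] at h2
      refine h2.trans ?_
      rw [mul_assoc, ← mul_pow]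
      gcongr
      nlinarith
    · rintro ⟨i, j⟩
      have h3 : w i * c ^ (j : ℕ) ∈ V ^ s * (V ^ t) ^ (j : ℕ) :=
        Submodule.mul_mem_mul (hw i) (Submodule.pow_mem_pow _ hct _)
      rw [← pow_mul, ← pow_add] at h3
      refine pow_mono V h1 ?_ h3
      have hj : (j : ℕ) ≤ s := Nat.lt_succ_iff.mp j.2
      nlinarith
    · intro a ha
      set f : ℕ → A := fun j => if hj : j < s + 1 then ∑ i, a (i, ⟨j, hj⟩) • w i else 0 with hf
      have hf1 : ∀ j, f j ∈ P' → f j = 0 := by
        intro j hj
        simp only [hf] at hj ⊢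
        split_ifs with hjs
        · rw [dif_pos hjs] at hj
          have := hli _ hj
          simp [this]
        · rfl
      have hf2 : ∑ j ∈ Finset.range (s + 1), f j * c ^ j ∈ P := by
        rw [Fintype.sum_prod_type_right] at ha
        rw [← Fin.sum_univ_eq_sum_range (fun j => f j * c ^ j) (s + 1)]
        convert ha using 2 with j
        simp only [hf, Fin.is_lt, dif_pos, Fin.eta, Finset.sum_mul, smul_mul_assoc]
      have hf3 := cancel P P' hPP c hc hreg (s + 1) f hf1 hf2
      rintro ⟨i, j⟩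
      have h4 := hf3 j j.2
      simp only [hf, Fin.is_lt, dif_pos, Fin.eta] at h4
      have h5 : ∑ i, a (i, j) • w i ∈ P' := by
        rw [h4]; exact P'.zero_mem
      exact hli (fun i => a (i, j)) h5 i
  rcases e with _ | e
  · exfalso
    have h2 := key C Unit inferInstance (fun _ => 1) ?_ ?_
    · simp at h2
    · intro _
      have := Submodule.pow_mem_pow V h1 C
      rwa [one_pow] at this
    · intro c hc i
      by_contra hne
      apply hP'
      rw [Ideal.eq_top_iff_one]
      simp only [Finset.univ_unique, Finset.sum_singleton] at hc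
      have h3 : c i • (1 : A) ∈ P' := hc
      have h4 := P'.mul_mem_left (algebraMap k A (c i)⁻¹) h3
      rwa [Algebra.smul_def, mul_one, ← map_mul, inv_mul_cancel₀ hne, map_one] at h4
  · refine ⟨e, Nat.lt_succ_self e, C * (t + 1) ^ (e + 1), fun s ι _ w hw hli => ?_⟩
    have h2 := key s ι inferInstance w hw hli
    rw [pow_succ (s + 1) e, ← mul_assoc] at h2
    exact Nat.le_of_mul_le_mul_right h2 (Nat.succ_pos s)

/-! ### Generators -/

theorem exists_generators (A : Type) [Ring A] [Algebra k A] [Algebra.FiniteType k A] :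
    ∃ (g : ℕ) (v : Fin g → A), (1 : A) ∈ Submodule.span k (Set.range v) ∧
      ∀ a : A, ∃ t : ℕ, a ∈ (Submodule.span k (Set.range v)) ^ t := by
  classical
  obtain ⟨S, hS⟩ := (Algebra.FiniteType.out : (⊤ : Subalgebra k A).FG)
  obtain ⟨g, v, hv⟩ : ∃ (g : ℕ) (v : Fin g → A), Set.range v = ((insert 1 S : Finset A) : Set A) := by
    refine ⟨(insert 1 S).card, fun i => ((insert 1 S).equivFin.symm i : A), ?_⟩
    ext x
    constructor
    · rintro ⟨i, rfl⟩
      exact ((insert 1 S).equivFin.symm i).2
    · intro hx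
      exact ⟨(insert 1 S).equivFin ⟨x, hx⟩, by simp⟩
  have h1 : (1 : A) ∈ Submodule.span k (Set.range v) := by
    rw [hv]
    exact Submodule.subset_span (by simp)
  refine ⟨g, v, h1, fun a => ?_⟩
  have ha : a ∈ Algebra.adjoin k (S : Set A) := by rw [hS]; trivial
  induction ha using Algebra.adjoin_induction with
  | mem x hx =>
    refine ⟨1, ?_⟩
    rw [pow_one, hv]
    exact Submodule.subset_span (by simp [hx])
  | algebraMap r =>
    exact ⟨0, by rw [pow_zero]; exact Submodule.mem_one.mpr ⟨r, rfl⟩⟩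
  | add x y _ _ hx hy =>
    obtain ⟨s, hs⟩ := hx
    obtain ⟨t, ht⟩ := hy
    exact ⟨max s t, Submodule.add_mem _ (pow_mono _ h1 (le_max_left s t) hs)
      (pow_mono _ h1 (le_max_right s t) ht)⟩
  | mul x y _ _ hx hy =>
    obtain ⟨s, hs⟩ := hx
    obtain ⟨t, ht⟩ := hy
    exact ⟨s + t, by rw [pow_add]; exact Submodule.mul_mem_mul hs ht⟩

/-! ### Quotients -/

theorem mlpi_quotient {A : Type} [Ring A] [Algebra k A] (d : ℕ) (h : MLPI k A d) (P : Ideal A)
    [P.IsTwoSided] : MLPI k (A ⧸ P) d := by
  obtain ⟨c, hc, h⟩ := h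
  refine ⟨c, hc, fun a => ?_⟩
  choose b hb using fun i => Ideal.Quotient.mk_surjective (a i)
  have h2 := congrArg (Ideal.Quotient.mkₐ k P) (h b)
  rw [map_sum, map_zero] at h2
  rw [← h2]
  refine Finset.sum_congr rfl fun τ _ => ?_
  rw [map_smul, map_list_prod, List.map_ofFn]
  congr 3
  funext i
  simp [hb]

theorem primeR_quotient {A : Type} [Ring A] (P : Ideal A) [P.IsTwoSided] (h : PrimeI P) :
    PrimeR (A ⧸ P) := by
  obtain ⟨_, hne, h⟩ := h
  refine ⟨Ideal.Quotient.nontrivial_iff.mpr hne, fun a b hab => ?_⟩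
  obtain ⟨a, rfl⟩ := Ideal.Quotient.mk_surjective a
  obtain ⟨b, rfl⟩ := Ideal.Quotient.mk_surjective b
  have h2 := h a b (fun r => ?_)
  · rcases h2 with h2 | h2
    · exact Or.inl (Ideal.Quotient.eq_zero_iff_mem.mpr h2)
    · exact Or.inr (Ideal.Quotient.eq_zero_iff_mem.mpr h2)
  · have := hab (Ideal.Quotient.mk P r)
    rw [← map_mul, ← map_mul] at this
    exact Ideal.Quotient.eq_zero_iff_mem.mp this

/-- All the primes of an affine left noetherian algebra with a polynomial identity are kernels of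
representations of bounded size. -/
theorem det_quotient (hC : TaskC) {A : Type} [Ring A] [Algebra k A] [IsNoetherianRing A] (d : ℕ)
    (h : MLPI k A d) (P : Ideal A) [P.IsTwoSided] (hP : PrimeI P) :
    ∃ n, n ≤ d ∧ Det k (A ⧸ P) n := by
  have : IsNoetherianRing (A ⧸ P) :=
    isNoetherianRing_of_surjective A (A ⧸ P) (Ideal.Quotient.mk P) Ideal.Quotient.mk_surjective
  exact hC k (A ⧸ P) d (mlpi_quotient d h P) (primeR_quotient P hP)

theorem bd_prime (hC : TaskC) {A : Type} [Ring A] [Algebra k A] [IsNoetherianRing A] (d : ℕ)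
    (h : MLPI k A d) {g : ℕ} (v : Fin g → A) (P : Ideal A) (hP : PrimeI P) :
    Bd (k := k) (Submodule.span k (Set.range v)) P (g * (d * d)) := by
  have := hP.1
  obtain ⟨n, hn, hdet⟩ := det_quotient hC d h P hP
  obtain ⟨B, _, _, ρ, hρ⟩ := exists_embedding hdet
  have h2 := bd_of_rep (ρ.comp (Ideal.Quotient.mkₐ k P)) P ?_ v d hn
  · rwa [Fintype.card_fin] at h2
  · intro a ha
    exact Ideal.Quotient.eq_zero_iff_mem.mp (hρ _ ha)

/-- A nonzero two-sided ideal of a prime quotient contains a regular central element. -/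
theorem exists_regular (hC : TaskC) (hD : TaskD0) {A : Type} [Ring A] [Algebra k A]
    [IsNoetherianRing A] (d : ℕ) (h : MLPI k A d) (P P' : Ideal A) (hP : PrimeI P)
    (hP' : PrimeI P') (hlt : P < P') : ∃ c ∈ P', ∀ y, y * c ∈ P → y ∈ P := by
  have := hP.1
  have := hP'.1
  obtain ⟨n, -, hdet⟩ := det_quotient hC d h P hP
  obtain ⟨b, hb', hb⟩ := Set.exists_of_ssubset hlt
  have hb0 : (Ideal.Quotient.mk P b) ≠ 0 := fun h0 => hb (Ideal.Quotient.eq_zero_iff_mem.mp h0)
  obtain ⟨m, p, q, hcen, r, s, hne⟩ := hD k (A ⧸ P) n (primeR_quotient P hP) hdet _ hb0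
  choose p' hp' using fun i => Ideal.Quotient.mk_surjective (p i)
  choose q' hq' using fun i => Ideal.Quotient.mk_surjective (q i)
  obtain ⟨r', rfl⟩ := Ideal.Quotient.mk_surjective r
  obtain ⟨s', rfl⟩ := Ideal.Quotient.mk_surjective s
  set c : A := ∑ i, p' i * (r' * b * s') * q' i with hc
  have hmk : Ideal.Quotient.mk P c =
      ∑ i, p i * (Ideal.Quotient.mk P r' * Ideal.Quotient.mk P b * Ideal.Quotient.mk P s') * q i := by
    rw [hc, map_sum]
    refine Finset.sum_congr rfl fun i _ => ?_
    simp only [map_mul, hp', hq']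
  refine ⟨c, ?_, ?_⟩
  · refine Submodule.sum_mem _ fun i _ => ?_
    refine Ideal.mul_mem_right _ _ (P'.mul_mem_left _ ?_)
    exact Ideal.mul_mem_right _ _ (P'.mul_mem_left _ hb')
  · intro y hy
    have hc1 : Ideal.Quotient.mk P c ∈ Subring.center (A ⧸ P) := by
      rw [hmk]; exact hcen _
    have hc2 : c ∉ P := by
      intro hcP
      apply hne
      rw [← hmk]
      exact Ideal.Quotient.eq_zero_iff_mem.mpr hcP
    refine (hP.2.2 y c fun x => ?_).resolve_right hc2
    rw [← Ideal.Quotient.eq_zero_iff_mem]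
    have h3 : Ideal.Quotient.mk P x * Ideal.Quotient.mk P c
        = Ideal.Quotient.mk P c * Ideal.Quotient.mk P x :=
      (Subring.mem_center_iff.mp hc1 _)
    have h4 : Ideal.Quotient.mk P y * Ideal.Quotient.mk P c = 0 := by
      rw [← map_mul]; exact Ideal.Quotient.eq_zero_iff_mem.mpr hy
    rw [map_mul, map_mul, mul_assoc, h3, ← mul_assoc, h4, zero_mul]

end TG

open TG in
/-- Task G. -/
theorem taskG (hC : TaskC) (hD : TaskD0) : TaskG := by
  intro k _ A _ _ _ _ d hd
  classical
  obtain ⟨g, v, h1, hgen⟩ := exists_generators (k := k) A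
  set V := Submodule.span k (Set.range v) with hV
  refine ⟨fun P => sInf {t | Bd V P t}, g * (d * d), fun P hP => ?_, fun P P' hP hP' hlt => ?_⟩
  · exact Nat.sInf_le (bd_prime hC d hd v P hP)
  · have hne : {t | Bd V P t}.Nonempty := ⟨_, bd_prime hC d hd v P hP⟩
    have hmem : Bd V P (sInf {t | Bd V P t}) := Nat.sInf_mem hne
    obtain ⟨c, hc, hreg⟩ := exists_regular hC hD d hd P P' hP hP' hlt
    obtain ⟨t, ht⟩ := hgen c
    obtain ⟨e', he', hB'⟩ := decrease V h1 P P' hlt.le hP'.2.1 c hc hreg t ht _ hmem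
    exact (Nat.sInf_le hB').trans_lt he'

end Pool.Agent.Helper202_BG
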