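import Pool.Agent.Helper202_BG.Stmts
import Pool.Agent.R693.E.PieceA

/-!
Task H: a left noetherian algebra stays left noetherian under extension of the base field by a
finitely generated field extension.
-/

set_option autoImplicit false

open scoped TensorProduct

namespace Pool.Agent.Helper202_BG

namespace TH

open Pool.Agent.R693.O.OA

variable {k : Type} [Field k] {A : Type} [Ring A] [Algebra k A]

/-- elements of the commutative factor are central -/
theorem tmul_one_comm {Z : Type} [CommRing Z] [Algebra k Z] (z : Z) (s : Z ⊗[k] A) :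
    (z ⊗ₜ[k] (1 : A)) * s = s * (z ⊗ₜ[k] (1 : A)) := by
  induction s using TensorProduct.induction_on with
  | zero => simp
  | tmul u a =>
    rw [Algebra.TensorProduct.tmul_mul_tmul, Algebra.TensorProduct.tmul_mul_tmul, one_mul, mul_one,
      mul_comm]
  | add x y hx hy => rw [mul_add, add_mul, hx, hy]

/-- the polynomial step -/
theorem poly_step (Z : Type) [CommRing Z] [Algebra k Z] (h : IsNoetherianRing (Z ⊗[k] A)) :
    IsNoetherianRing (Polynomial Z ⊗[k] A) := by
  let f : (Z ⊗[k] A) →ₐ[k] (Polynomial Z ⊗[k] A) :=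
    Algebra.TensorProduct.map
      ((Polynomial.CAlgHom : Z →ₐ[Z] Polynomial Z).restrictScalars k) (AlgHom.id k A)
  refine skew_hilbert (f : (Z ⊗[k] A) →+* (Polynomial Z ⊗[k] A))
    ((Polynomial.X : Polynomial Z) ⊗ₜ[k] (1 : A)) ?_ ?_ h
  · intro r
    exact ⟨0, by rw [map_zero, add_zero]; exact tmul_one_comm _ _⟩
  · intro s
    induction s using TensorProduct.induction_on with
    | zero => exact ⟨0, zero_mem _⟩
    | tmul p a =>
      induction p using Polynomial.induction_on' with
      | add p q hp hq =>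
        obtain ⟨n, hn⟩ := hp
        obtain ⟨m, hm⟩ := hq
        refine ⟨max n m, ?_⟩
        rw [TensorProduct.add_tmul]
        exact add_mem (Lw_mono _ _ (le_max_left n m) hn) (Lw_mono _ _ (le_max_right n m) hm)
      | monomial n c =>
        refine ⟨n + 1, ?_⟩
        have h1 := Lw_gen (f : (Z ⊗[k] A) →+* (Polynomial Z ⊗[k] A))
          ((Polynomial.X : Polynomial Z) ⊗ₜ[k] (1 : A)) (c ⊗ₜ[k] a) (Nat.lt_succ_self n)
        have h2 : (f : (Z ⊗[k] A) →+* (Polynomial Z ⊗[k] A)) (c ⊗ₜ[k] a) *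
            ((Polynomial.X : Polynomial Z) ⊗ₜ[k] (1 : A)) ^ n =
            (Polynomial.monomial n c) ⊗ₜ[k] a := by
          change (Polynomial.C c ⊗ₜ[k] a) * ((Polynomial.X : Polynomial Z) ⊗ₜ[k] (1 : A)) ^ n = _
          rw [Algebra.TensorProduct.tmul_pow, Algebra.TensorProduct.tmul_mul_tmul, one_pow, mul_one,
            Polynomial.C_mul_X_pow_eq_monomial]
        rw [h2] at h1
        exact h1
    | add x y hx hy =>
      obtain ⟨n, hn⟩ := hx
      obtain ⟨m, hm⟩ := hy
      exact ⟨max n m, add_mem (Lw_mono _ _ (le_max_left n m) hn)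
        (Lw_mono _ _ (le_max_right n m) hm)⟩

/-- quotients -/
theorem surj_step (Z Z' : Type) [CommRing Z] [Algebra k Z] [CommRing Z'] [Algebra k Z']
    (g : Z →ₐ[k] Z') (hg : Function.Surjective g) (h : IsNoetherianRing (Z ⊗[k] A)) :
    IsNoetherianRing (Z' ⊗[k] A) := by
  refine isNoetherianRing_of_surjective (Z ⊗[k] A) (Z' ⊗[k] A)
    (Algebra.TensorProduct.map g (AlgHom.id k A) : (Z ⊗[k] A) →ₐ[k] (Z' ⊗[k] A)).toRingHom ?_
  exact TensorProduct.map_surjective hg Function.surjective_id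

/-- polynomial rings -/
theorem mvpoly [IsNoetherianRing A] (n : ℕ) :
    IsNoetherianRing (MvPolynomial (Fin n) k ⊗[k] A) := by
  induction n with
  | zero =>
    have h0 : IsNoetherianRing (k ⊗[k] A) := by
      refine isNoetherianRing_of_surjective A (k ⊗[k] A)
        (Algebra.TensorProduct.lid k A).symm.toAlgHom.toRingHom ?_
      exact (Algebra.TensorProduct.lid k A).symm.surjective
    exact surj_step k (MvPolynomial (Fin 0) k) (MvPolynomial.isEmptyAlgEquiv k (Fin 0)).symm.toAlgHom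
      (MvPolynomial.isEmptyAlgEquiv k (Fin 0)).symm.surjective h0
  | succ n ih =>
    exact surj_step _ _ (MvPolynomial.finSuccEquiv k n).symm.toAlgHom
      (MvPolynomial.finSuccEquiv k n).symm.surjective (poly_step _ ih)

/-- finitely generated commutative algebras -/
theorem finiteType [IsNoetherianRing A] (Z : Type) [CommRing Z] [Algebra k Z]
    [Algebra.FiniteType k Z] : IsNoetherianRing (Z ⊗[k] A) := by
  obtain ⟨n, f, hf⟩ := Algebra.FiniteType.iff_quotient_mvPolynomial''.1
    (inferInstance : Algebra.FiniteType k Z)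
  exact surj_step _ _ f hf (mvpoly n)

/-- the localisation step -/
theorem loc_step {R S : Type} [Ring R] [Ring S] (φ : R →+* S) [hR : IsNoetherianRing R]
    (h : ∀ x : S, ∃ (u v : S), v * u = 1 ∧ ∃ y : R, φ y = u * x) : IsNoetherianRing S := by
  have hmono : StrictMono (fun I : Ideal S => I.comap φ) := by
    intro I J hIJ
    refine lt_of_le_of_ne (Ideal.comap_mono hIJ.le) ?_
    intro heq
    apply hIJ.not_ge
    intro x hx
    obtain ⟨u, v, hvu, y, hy⟩ := h x
    have h1 : y ∈ Ideal.comap φ J := by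
      rw [Ideal.mem_comap, hy]; exact J.mul_mem_left _ hx
    have h2 : y ∈ Ideal.comap φ I := by
      have heq' : Ideal.comap φ I = Ideal.comap φ J := heq
      rw [heq']; exact h1
    rw [Ideal.mem_comap, hy] at h2
    have h3 := I.mul_mem_left v h2
    rwa [← mul_assoc, hvu, one_mul] at h3
  rw [isNoetherianRing_iff, isNoetherian_iff'] at hR ⊢
  exact hmono.wellFoundedGT

end TH

open TH in
/-- Task H -/
theorem taskH : TaskH := by
  intro k _ A _ _ _ K _ _ _
  have h0 : IsNoetherianRing ((Algebra.EssFiniteType.subalgebra k K) ⊗[k] A) := finiteType _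
  let φ : ((Algebra.EssFiniteType.subalgebra k K) ⊗[k] A) →ₐ[k] (K ⊗[k] A) :=
    Algebra.TensorProduct.map (Algebra.EssFiniteType.subalgebra k K).val (AlgHom.id k A)
  refine loc_step (φ : ((Algebra.EssFiniteType.subalgebra k K) ⊗[k] A) →+* (K ⊗[k] A)) ?_
  have key : ∀ x : K ⊗[k] A, ∃ s : Algebra.EssFiniteType.subalgebra k K, (s : K) ≠ 0 ∧
      ∃ y, φ y = ((s : K) ⊗ₜ[k] (1 : A)) * x := by
    intro x
    induction x using TensorProduct.induction_on with
    | zero => exact ⟨1, by simp, 0, by simp⟩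
    | tmul z a =>
      obtain ⟨⟨t, s⟩, hts⟩ := IsLocalization.surj (Algebra.EssFiniteType.submonoid k K) z
      refine ⟨s, ?_, t ⊗ₜ[k] a, ?_⟩
      · exact (IsLocalization.map_units K s).ne_zero
      · change ((t : K) ⊗ₜ[k] a) = ((s : K) ⊗ₜ[k] (1 : A)) * (z ⊗ₜ[k] a)
        rw [Algebra.TensorProduct.tmul_mul_tmul, one_mul, mul_comm]
        congr 1
        exact hts.symm
    | add x y hx hy =>
      obtain ⟨s, hs, x', hx'⟩ := hx
      obtain ⟨t, ht, y', hy'⟩ := hy
      refine ⟨s * t, by push_cast; exact mul_ne_zero hs ht, (t ⊗ₜ[k] (1 : A)) * x' + (s ⊗ₜ[k] (1 : A)) * y', ?_⟩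
      have e1 : φ (t ⊗ₜ[k] (1 : A)) = (t : K) ⊗ₜ[k] (1 : A) := rfl
      have e2 : φ (s ⊗ₜ[k] (1 : A)) = (s : K) ⊗ₜ[k] (1 : A) := rfl
      rw [map_add, map_mul, map_mul, hx', hy', e1, e2, mul_add, ← mul_assoc, ← mul_assoc]
      simp only [Algebra.TensorProduct.tmul_mul_tmul, one_mul]
      congr 2
      · congr 1
        push_cast
        ring
  intro x
  obtain ⟨s, hs, y, hy⟩ := key x
  refine ⟨(s : K) ⊗ₜ[k] (1 : A), (s : K)⁻¹ ⊗ₜ[k] (1 : A), ?_, y, hy⟩
  rw [Algebra.TensorProduct.tmul_mul_tmul, inv_mul_cancel₀ hs, one_mul,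
    Algebra.TensorProduct.one_def]

end Pool.Agent.Helper202_BG
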