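import Pool.Agent.Helper202_BG.Stmts

/-!
Task I: a finitely generated essential extension of a finite-dimensional module over an affine left
noetherian algebra with a polynomial identity is finite-dimensional.
-/

set_option autoImplicit false

open scoped Pointwise

namespace Pool.Agent.Helper202_BG

namespace TI

variable {k : Type} [Field k] {A : Type} [Ring A] [Algebra k A]

section basics

variable {X : Type} [AddCommGroup X] [Module A X] [Module k X] [IsScalarTower k A X]

/-- finite-dimensional submodules -/
def Fd (k : Type) [Field k] {A : Type} [Ring A] [Algebra k A] {X : Type} [AddCommGroup X]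
    [Module A X] [Module k X] [IsScalarTower k A X] (N : Submodule A X) : Prop :=
  (N.restrictScalars k).FG

theorem fd_iff (N : Submodule A X) : Fd k N ↔ Module.Finite k N := by
  unfold Fd
  rw [← Module.Finite.iff_fg]
  exact Iff.rfl

theorem fd_mono {N N' : Submodule A X} (h : N ≤ N') (h' : Fd k N') : Fd k N :=
  Submodule.FG.of_le h' (fun _ hx => h hx)

theorem fd_sup {N N' : Submodule A X} (h : Fd k N) (h' : Fd k N') : Fd k (N ⊔ N') := by
  unfold Fd
  rw [Submodule.restrictScalars_sup]
  exact Submodule.FG.sup h h'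

theorem exists_largest [IsNoetherian A X] :
    ∃ D : Submodule A X, Fd k D ∧ ∀ N : Submodule A X, Fd k N → N ≤ D := by
  obtain ⟨D, hD, hmax⟩ := set_has_maximal_iff_noetherian.mpr (inferInstance : IsNoetherian A X)
    {N : Submodule A X | Fd k N} ⟨⊥, by
      show Fd k ⊥
      unfold Fd
      rw [Submodule.restrictScalars_bot]
      exact Submodule.fg_bot⟩
  refine ⟨D, hD, fun N hN => ?_⟩
  by_contra hne
  exact hmax (D ⊔ N) (fd_sup hD hN) (lt_of_le_of_ne le_sup_left
    (fun h => hne (by rw [h]; exact le_sup_right)))

theorem finite_of_fd_top (h : Fd k (⊤ : Submodule A X)) : Module.Finite k X := by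
  unfold Fd at h
  rw [Submodule.restrictScalars_top] at h
  exact ⟨h⟩

/-- If `D` is the largest finite-dimensional submodule of `X` then `X ⧸ D` has no nonzero
finite-dimensional submodule. -/
theorem no_fd_quotient (D : Submodule A X) (hD : Fd k D) (hmax : ∀ N : Submodule A X, Fd k N → N ≤ D)
    (N : Submodule A (X ⧸ D)) (hN : Fd k N) : N = ⊥ := by
  have h1 : Fd k (N.comap D.mkQ) := by
    unfold Fd
    refine Submodule.fg_of_fg_map_of_fg_inf_ker (D.mkQ.restrictScalars k) ?_ ?_
    · refine Submodule.FG.of_le hN ?_
      rintro _ ⟨x, hx, rfl⟩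
      exact hx
    · refine Submodule.FG.of_le hD ?_
      rintro x ⟨-, hx⟩
      have : D.mkQ x = 0 := hx
      exact (Submodule.Quotient.mk_eq_zero D).mp this
  have h2 := hmax _ h1
  rw [eq_bot_iff]
  intro x hx
  obtain ⟨y, rfl⟩ := D.mkQ_surjective x
  have : y ∈ D := h2 hx
  exact (Submodule.Quotient.mk_eq_zero D).mpr this

end basics

/-- A nonzero module over a left noetherian ring contains a nonzero submodule all of whose nonzero
submodules have the same annihilator. -/
theorem exists_prime_submodule [IsNoetherianRing A] {X : Type} [AddCommGroup X] [Module A X]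
    [Nontrivial X] : ∃ M : Submodule A X, M ≠ ⊥ ∧ PrimeM A M := by
  obtain ⟨I, ⟨M, hM, rfl⟩, hmax⟩ :=
    set_has_maximal_iff_noetherian.mpr (inferInstance : IsNoetherian A A)
      {I : Ideal A | ∃ M : Submodule A X, M ≠ ⊥ ∧ M.annihilator = I} ⟨_, ⊤, top_ne_bot, rfl⟩
  refine ⟨M, hM, (Submodule.nontrivial_iff_ne_bot).mpr hM, fun a m hm ha x => ?_⟩
  have hm0 : (m : X) ≠ 0 := fun h => hm (Subtype.ext h)
  set N : Submodule A X := Submodule.span A {(m : X)} with hN
  have hN0 : N ≠ ⊥ := by
    rw [hN, Ne, Submodule.span_singleton_eq_bot]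
    exact hm0
  have hNM : N ≤ M := by
    rw [hN, Submodule.span_singleton_le_iff_mem]
    exact m.2
  have hle : M.annihilator ≤ N.annihilator := fun r hr =>
    Submodule.mem_annihilator.mpr fun n hn => Submodule.mem_annihilator.mp hr n (hNM hn)
  have heq : M.annihilator = N.annihilator := by
    by_contra hne
    exact hmax N.annihilator ⟨N, hN0, rfl⟩ (lt_of_le_of_ne hle hne)
  have haN : a ∈ N.annihilator := by
    rw [Submodule.mem_annihilator]
    intro n hn
    obtain ⟨r, rfl⟩ := Submodule.mem_span_singleton.mp hn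
    have := congrArg (Subtype.val) (ha r)
    simpa using this
  rw [← heq, Submodule.mem_annihilator] at haN
  exact Subtype.ext (by simpa using haN x x.2)

/-- Polynomials in an element which commutes with everything on `Y` commute with everything on
`Y`. -/
theorem aeval_comm {Y : Type} [AddCommGroup Y] [Module A Y] [Module k Y]
    [IsScalarTower k A Y] (z : A) (h : ∀ (r : A) (y : Y), (z * r - r * z) • y = 0)
    (f : Polynomial k) :
    ∀ (r : A) (y : Y), (Polynomial.aeval z f * r - r * Polynomial.aeval z f) • y = 0 := by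
  induction f using Polynomial.induction_on with
  | C a =>
    intro r y
    rw [Polynomial.aeval_C, Algebra.commutes, sub_self, zero_smul]
  | add p q hp hq =>
    intro r y
    have h1 : (Polynomial.aeval z (p + q) * r - r * Polynomial.aeval z (p + q))
        = (Polynomial.aeval z p * r - r * Polynomial.aeval z p)
          + (Polynomial.aeval z q * r - r * Polynomial.aeval z q) := by
      rw [map_add, add_mul, mul_add]; abel
    rw [h1, add_smul, hp, hq, add_zero]
  | monomial n a ih =>
    intro r y
    set g := Polynomial.aeval z (Polynomial.C a * Polynomial.X ^ n) with hg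
    have h0 : Polynomial.aeval z (Polynomial.C a * Polynomial.X ^ (n + 1)) = g * z := by
      rw [hg, pow_succ, ← mul_assoc, map_mul, Polynomial.aeval_X]
    have h1 : g * z * r - r * (g * z) = g * (z * r - r * z) + (g * r - r * g) * z := by
      noncomm_ring
    rw [h0, h1, add_smul, mul_smul, h, smul_zero, mul_smul, ih, add_zero]

/-- An element acts algebraically on finite-dimensional modules. -/
theorem exists_aeval_eq_zero {V : Type} [AddCommGroup V] [Module A V] [Module k V]
    [IsScalarTower k A V] [Module.Finite k V] (z : A) :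
    ∃ f : Polynomial k, f ≠ 0 ∧ ∀ v : V, Polynomial.aeval z f • v = 0 := by
  have hint : IsIntegral k (Algebra.lsmul k k V z) := Algebra.IsIntegral.isIntegral _
  refine ⟨minpoly k (Algebra.lsmul k k V z), minpoly.ne_zero hint, fun v => ?_⟩
  have h1 := minpoly.aeval k (Algebra.lsmul k k V z)
  rw [Polynomial.aeval_algHom_apply] at h1
  have h2 := congrArg (fun g : Module.End k V => g v) h1
  simpa using h2

end TI

open TI in
/-- Task I. -/
theorem taskI (hP1 : TaskP1) : TaskI := by
  classical
  intro k _ A _ _ _ _ d hd X _ _ _ _ _ U hU hess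
  have : IsNoetherian A X := isNoetherian_of_isNoetherianRing_of_finite A X
  obtain ⟨D, hD, hmax⟩ := exists_largest (k := k) (A := A) (X := X)
  by_contra hX
  have hDtop : D ≠ ⊤ := fun h => hX (finite_of_fd_top (A := A) (h ▸ hD))
  have : Nontrivial (X ⧸ D) := Submodule.Quotient.nontrivial_iff.mpr hDtop
  obtain ⟨M, hM0, hM⟩ := exists_prime_submodule (A := A) (X := X ⧸ D)
  have hMfd : ¬ Module.Finite k M := fun h =>
    hM0 (no_fd_quotient D hD hmax M ((fd_iff M).mpr h))
  obtain ⟨z, hz, hzf⟩ := hP1 k A d hd M hM hMfd
  -- the submodule of the elements killed by the annihilator of `M`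
  set W : Submodule A X := M.comap D.mkQ with hW
  let Y : Submodule A X :=
    { carrier := {x | x ∈ W ∧ ∀ p : A, (∀ m : M, p • m = 0) → p • x = 0}
      add_mem' := by
        rintro a b ⟨ha, ha'⟩ ⟨hb, hb'⟩
        exact ⟨W.add_mem ha hb, fun p hp => by rw [smul_add, ha' p hp, hb' p hp, add_zero]⟩
      zero_mem' := ⟨W.zero_mem, fun p _ => smul_zero p⟩
      smul_mem' := by
        rintro r x ⟨hx, hx'⟩
        refine ⟨W.smul_mem r hx, fun p hp => ?_⟩
        rw [← mul_smul]
        refine hx' _ fun m => ?_
        rw [mul_smul]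
        exact hp _ }
  have hYmem : ∀ x, x ∈ Y ↔ x ∈ W ∧ ∀ p : A, (∀ m : M, p • m = 0) → p • x = 0 := fun x => Iff.rfl
  -- `Y` is not contained in `D`
  have hYD : ¬ Y ≤ D := by
    intro hle
    obtain ⟨s, hs⟩ := (inferInstance : IsNoetherianRing A).noetherian M.annihilator
    let φ : X →ₗ[k] (s → X) := LinearMap.pi fun p => Algebra.lsmul k k X (p : A)
    have hφ : ∀ x p, φ x p = (p : A) • x := fun x p => rfl
    have hWfd : Fd k W := by
      refine Submodule.fg_of_fg_map_of_fg_inf_ker φ ?_ ?_
      · have hpi : (Submodule.pi Set.univ (fun _ : s => D.restrictScalars k)).FG := by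
          have : Module.Finite k (D.restrictScalars k) := Module.Finite.iff_fg.mpr hD
          let ψ : (s → D.restrictScalars k) →ₗ[k] (s → X) :=
            LinearMap.pi fun p => (D.restrictScalars k).subtype ∘ₗ LinearMap.proj p
          have hψ : Submodule.pi Set.univ (fun _ : s => D.restrictScalars k) = LinearMap.range ψ := by
            ext x
            constructor
            · intro hx
              exact ⟨fun p => ⟨x p, hx p (Set.mem_univ p)⟩, rfl⟩
            · rintro ⟨y, rfl⟩ p -
              exact (y p).2
          rw [hψ, ← Module.Finite.iff_fg]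
          infer_instance
        refine Submodule.FG.of_le hpi ?_
        rintro _ ⟨x, hx, rfl⟩ p -
        rw [hφ]
        have hp : (p : A) ∈ M.annihilator := by
          rw [← hs]; exact Submodule.subset_span p.2
        have h1 := Submodule.mem_annihilator.mp hp (D.mkQ x) hx
        rw [← map_smul] at h1
        exact (Submodule.Quotient.mk_eq_zero D).mp h1
      · refine Submodule.FG.of_le (fd_mono hle hD) ?_
        rintro x ⟨hx, hx'⟩
        refine ⟨hx, fun p hp => ?_⟩
        have hp' : p ∈ M.annihilator := by
          rw [Submodule.mem_annihilator]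
          intro m hm
          have := congrArg Subtype.val (hp ⟨m, hm⟩)
          simpa using this
        rw [← hs] at hp'
        refine Submodule.span_induction (p := fun a _ => a • x = 0) ?_ ?_ ?_ ?_ hp'
        · intro a ha
          have h2 : φ x = 0 := hx'
          have h3 := congrFun h2 ⟨a, ha⟩
          exact h3
        · exact zero_smul _ _
        · intro a b _ _ ha hb
          rw [add_smul, ha, hb, add_zero]
        · intro r a _ ha
          rw [smul_eq_mul, mul_smul, ha, smul_zero]
    apply hM0
    rw [eq_bot_iff]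
    intro x hx
    obtain ⟨y, rfl⟩ := D.mkQ_surjective x
    have : y ∈ D := hmax W hWfd hx
    exact (Submodule.Quotient.mk_eq_zero D).mpr this
  -- the action of `z` on `Y`
  have hzY : ∀ (r : A) (y : Y), (z * r - r * z) • y = 0 := by
    intro r y
    refine Subtype.ext ?_
    exact y.2.2 _ (hz r)
  have : Module.Finite k ↥(U ⊓ Y) := by
    have hUfd : Fd k U := (fd_iff U).mpr hU
    exact (fd_iff _).mp (fd_mono inf_le_left hUfd)
  obtain ⟨f, hf, hfU⟩ := exists_aeval_eq_zero (k := k) (V := ↥(U ⊓ Y)) z
  set c := Polynomial.aeval z f with hc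
  let cY : Module.End A Y :=
    { toFun := fun y => c • y
      map_add' := fun a b => smul_add c a b
      map_smul' := fun r y => by
        have h1 := aeval_comm (k := k) z hzY f r y
        rw [sub_smul, sub_eq_zero, mul_smul, mul_smul] at h1
        exact h1 }
  have hcY : ∀ y, cY y = c • y := fun y => rfl
  have hcYpow : ∀ (m : ℕ) (y : Y), (cY ^ m) y = c ^ m • y := by
    intro m
    induction m with
    | zero => intro y; simp
    | succ m ih => intro y; rw [pow_succ, Module.End.mul_apply, hcY, ih, ← mul_smul, ← pow_succ]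
  obtain ⟨m, hm1, hdis⟩ : ∃ m, 1 ≤ m ∧
      Disjoint (LinearMap.ker (cY ^ m)) (LinearMap.range (cY ^ m)) := by
    have h1 := (Filter.eventually_ge_atTop 1).and cY.eventually_disjoint_ker_pow_range_pow
    exact h1.exists
  have hrange : LinearMap.range (cY ^ m) = ⊥ := by
    by_contra hne
    have hN : (LinearMap.range (cY ^ m)).map Y.subtype ≠ ⊥ := by
      intro h
      apply hne
      rw [eq_bot_iff]
      intro x hx
      have h2 : (x : X) ∈ (LinearMap.range (cY ^ m)).map Y.subtype := ⟨x, hx, rfl⟩
      rw [h, Submodule.mem_bot] at h2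
      exact Subtype.ext h2
    obtain ⟨x, ⟨hxU, ⟨y, hy, rfl⟩⟩, hx0⟩ := Submodule.exists_mem_ne_zero_of_ne_bot (hess _ hN)
    have hcx : c • y = 0 := by
      have h2 := hfU ⟨(y : X), hxU, y.2⟩
      have h3 : c • (y : X) = 0 := congrArg Subtype.val h2
      exact Subtype.ext h3
    have hker : y ∈ LinearMap.ker (cY ^ m) := by
      obtain ⟨m', rfl⟩ := Nat.exists_eq_add_of_le' hm1
      rw [LinearMap.mem_ker, hcYpow, pow_succ, mul_smul, hcx, smul_zero]
    have h0 := (Submodule.disjoint_def.mp hdis) y hker hy
    apply hx0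
    rw [h0]
    rfl
  obtain ⟨y, hyY, hyD⟩ := Set.not_subset.mp hYD
  have h1 : c ^ m • y = 0 := by
    have h2 : (cY ^ m) ⟨y, hyY⟩ ∈ LinearMap.range (cY ^ m) := ⟨_, rfl⟩
    rw [hrange, Submodule.mem_bot, hcYpow] at h2
    exact congrArg Subtype.val h2
  have h3 := hzf (f ^ m) (pow_ne_zero m hf) ⟨D.mkQ y, hyY.1⟩ ?_
  · apply hyD
    have h4 : D.mkQ y = 0 := congrArg Subtype.val h3
    exact (Submodule.Quotient.mk_eq_zero D).mp h4
  · refine Subtype.ext ?_
    show Polynomial.aeval z (f ^ m) • D.mkQ y = 0
    rw [map_pow, ← hc, ← map_smul, h1, map_zero]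

end Pool.Agent.Helper202_BG
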