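import Pool.Agent.Helper202_BG.TLCommon

/-!
Task L2: the tensor product with a free module is projective.
-/

set_option autoImplicit false
set_option linter.unusedSectionVars false

open scoped TensorProduct

namespace Pool.Agent.Helper202_BG

namespace TL

section
variable {k H : Type} [Field k] [Ring H] [Algebra k H] [Coalgebra k H] [CM k H]
variable {F : Type} [AddCommGroup F] [Module H F] [Module k F] [IsScalarTower k H F]
variable {V : Type} [AddCommGroup V] [Module H V] [Module k V] [IsScalarTower k H V]

/-- a coaction compatible with the module structure -/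
structure Coact (S : H →ₗ[k] H) (δ : F →ₗ[k] F ⊗[k] H) : Prop where
  act : ∀ (g : H) (f : F), δ (g • f) = op k H F H (cm k H g) (δ f)
  coassoc : ∀ f : F, TensorProduct.assoc k F H H (LinearMap.rTensor H δ (δ f)) =
    LinearMap.lTensor F (cm k H) (δ f)
  ant : ∀ f : F, LinearMap.lTensor F (LinearMap.mul' k H ∘ₗ LinearMap.lTensor H S ∘ₗ cm k H) (δ f)
    = op k H F H (cm k H 1) (f ⊗ₜ[k] 1)

/-- `ev` as a bilinear map -/
noncomputable def evL (δ : F →ₗ[k] F ⊗[k] H) : F ⊗[k] V →ₗ[k] F ⊗[k] V :=
  TensorProduct.lift (LinearMap.mk₂ k (fun f v => ev v (δ f))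
    (fun f f' v => by simp only [map_add]) (fun c f v => by simp only [map_smul])
    (fun f v v' => ev_add v v' _) (fun c f v => ev_smul c v _))

theorem evL_tmul (δ : F →ₗ[k] F ⊗[k] H) (f : F) (v : V) :
    evL δ (f ⊗ₜ[k] v) = ev v (δ f) := by
  simp [evL]

variable {S : H →ₗ[k] H} {δ : F →ₗ[k] F ⊗[k] H}

/-- `(f ⊗ q, u ⊗ u') ↦ u f ⊗ S(q) u' v` -/
noncomputable def Q (S : H →ₗ[k] H) (v : V) :
    F ⊗[k] H →ₗ[k] H ⊗[k] H →ₗ[k] F ⊗[k] V :=
  TensorProduct.map₂ (Algebra.lsmul k k F).toLinearMap.flip
    ((LinearMap.mul k H).compr₂ ((LinearMap.toSpanSingleton H V v).restrictScalars k) ∘ₗ S)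

theorem Q_tmul (S : H →ₗ[k] H) (v : V) (f : F) (q u u' : H) :
    Q S v (f ⊗ₜ[k] q) (u ⊗ₜ[k] u') = (u • f) ⊗ₜ[k] ((S q * u') • v) := by
  simp [Q]

/-- claim 2 -/
theorem evL_op (hS : WHId k H S) (hδ : Coact S δ) (g : H) (x : F ⊗[k] V) :
    evL (LinearMap.lTensor F S ∘ₗ δ) (dact k H F V g x) =
      g • evL (LinearMap.lTensor F S ∘ₗ δ) x := by
  induction x with
  | zero => simp
  | add x y hx hy => simp only [map_add, hx, hy, smul_add]
  | tmul f v =>
    have h1 : ∀ (r : H ⊗[k] H) (s : F ⊗[k] H) (b : H),
        ev (b • v) (LinearMap.lTensor F S (op k H F H r s)) =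
          Q S v s (LinearMap.lTensor H (LinearMap.mulRight k b ∘ₗ S) r) := by
      intro r s b
      induction r with
      | zero => simp
      | add x y hx hy => simp only [map_add, LinearMap.add_apply, hx, hy]
      | tmul a a' =>
        induction s with
        | zero => simp
        | add x y hx hy => simp only [map_add, LinearMap.add_apply, hx, hy]
        | tmul f q =>
          simp only [op_tmul, LinearMap.lTensor_tmul, ev_tmul, Q_tmul, smul_eq_mul, hS.S_mul,
            LinearMap.comp_apply, LinearMap.mulRight_apply, mul_smul]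
    have h2 : ∀ t : H ⊗[k] H, evL (LinearMap.lTensor F S ∘ₗ δ) (op k H F V t (f ⊗ₜ[k] v)) =
        Q S v (δ f) (N2 S t) := by
      intro t
      induction t with
      | zero => simp
      | add x y hx hy => simp only [map_add, LinearMap.add_apply, hx, hy]
      | tmul a b =>
        rw [op_tmul, evL_tmul, LinearMap.comp_apply, hδ.act, h1, N2_tmul]
    have h3 : ∀ (r : H ⊗[k] H) (s : F ⊗[k] H),
        Q S v s ((g ⊗ₜ[k] 1) * LinearMap.lTensor H S r) =
          g • ev v (LinearMap.lTensor F S (op k H F H r s)) := by
      intro r s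
      induction r with
      | zero => simp
      | add x y hx hy => simp only [map_add, mul_add, LinearMap.add_apply, hx, hy, smul_add]
      | tmul a a' =>
        induction s with
        | zero => simp
        | add x y hx hy => simp only [map_add, LinearMap.add_apply, hx, hy, smul_add]
        | tmul f q =>
          simp only [op_tmul, LinearMap.lTensor_tmul, ev_tmul, Q_tmul, smul_eq_mul, hS.S_mul,
            Algebra.TensorProduct.tmul_mul_tmul, one_mul, mul_smul, TensorProduct.smul_tmul']
    rw [dact, h2, N2_cm hS, h3, ← hδ.act, one_smul, evL_tmul, LinearMap.comp_apply]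

/-- claim 3 -/
theorem evL_evL (hδ : Coact S δ) (x : F ⊗[k] V) :
    evL δ (evL (LinearMap.lTensor F S ∘ₗ δ) x) = dact k H F V 1 x := by
  induction x with
  | zero => simp
  | add x y hx hy => simp only [map_add, hx, hy]
  | tmul f v =>
    have h1 : ∀ (r : F ⊗[k] H) (q : H), ev (S q • v) r =
        ev v (LinearMap.lTensor F (LinearMap.mul' k H ∘ₗ LinearMap.lTensor H S)
          (TensorProduct.assoc k F H H (r ⊗ₜ[k] q))) := by
      intro r q
      induction r with
      | zero => simp
      | add x y hx hy => simp only [map_add, TensorProduct.add_tmul, hx, hy]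
      | tmul a a' => simp [ev_tmul, mul_smul]
    have h2 : ∀ s : F ⊗[k] H, evL δ (ev v (LinearMap.lTensor F S s)) =
        ev v (LinearMap.lTensor F (LinearMap.mul' k H ∘ₗ LinearMap.lTensor H S)
          (TensorProduct.assoc k F H H (LinearMap.rTensor H δ s))) := by
      intro s
      induction s with
      | zero => simp
      | add x y hx hy => simp only [map_add, hx, hy]
      | tmul a q => rw [LinearMap.lTensor_tmul, ev_tmul, evL_tmul, h1, LinearMap.rTensor_tmul]
    rw [evL_tmul, LinearMap.comp_apply, h2, hδ.coassoc, ← LinearMap.lTensor_comp_apply,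
      LinearMap.comp_assoc, hδ.ant, ev_op, ev_tmul, one_smul, dact]

/-- the homomorphism `F ⊗ V → F # V` -/
noncomputable def phi (hδ : Coact S δ) (V : Type) [AddCommGroup V] [Module H V] [Module k V]
    [IsScalarTower k H V] : F ⊗[k] V →ₗ[H] Ten k H F V where
  toFun x := Ten.pr k H F V (evL δ x)
  map_add' x y := by simp only [map_add]
  map_smul' g x := by
    rw [RingHom.id_apply, Ten.smul_pr]
    congr 1
    induction x with
    | zero => simp
    | add x y hx hy => simp only [map_add, smul_add, hx, hy]
    | tmul f v => rw [TensorProduct.smul_tmul', evL_tmul, evL_tmul, hδ.act, ev_op, dact]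

/-- the homomorphism `F # V → F ⊗ V` -/
noncomputable def psi (hS : WHId k H S) (hδ : Coact S δ) (V : Type) [AddCommGroup V] [Module H V]
    [Module k V] [IsScalarTower k H V] : Ten k H F V →ₗ[H] F ⊗[k] V where
  toFun x := evL (LinearMap.lTensor F S ∘ₗ δ) (Ten.val k H F V x)
  map_add' x y := by simp only [map_add]
  map_smul' g x := by
    rw [Ten.val_smul, evL_op hS hδ, RingHom.id_apply]

theorem phi_psi (hS : WHId k H S) (hδ : Coact S δ) :
    phi hδ V ∘ₗ psi hS hδ V = LinearMap.id := by
  ext x
  change Ten.pr k H F V (evL δ (evL (LinearMap.lTensor F S ∘ₗ δ) (Ten.val k H F V x))) = x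
  rw [evL_evL hδ, Ten.dact_val, Ten.pr_val]

theorem proj_of_coact (hS : WHId k H S) (hδ : Coact S δ) [Module.Projective H F] :
    Module.Projective H (Ten k H F V) :=
  Module.Projective.of_split (psi hS hδ V) (phi hδ V) (phi_psi hS hδ)

/-- the coaction on a free module -/
noncomputable def dfree (k H : Type) [Field k] [Ring H] [Algebra k H] [Coalgebra k H] (ι : Type) :
    (ι →₀ H) →ₗ[k] (ι →₀ H) ⊗[k] H :=
  Finsupp.lsum k (fun i => LinearMap.rTensor H (Finsupp.lsingle i : H →ₗ[k] (ι →₀ H)) ∘ₗ cm k H)

theorem dfree_single (ι : Type) (i : ι) (h : H) :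
    dfree k H ι (Finsupp.single i h) =
      LinearMap.rTensor H (Finsupp.lsingle i : H →ₗ[k] (ι →₀ H)) (cm k H h) := by
  rw [dfree, Finsupp.lsum_single, LinearMap.comp_apply]

theorem rTensor_eq (ι : Type) (i : ι) (x : H ⊗[k] H) :
    LinearMap.rTensor H (Finsupp.lsingle i : H →ₗ[k] (ι →₀ H)) x =
      tmap (k := k) (Finsupp.lsingle i : H →ₗ[H] (ι →₀ H)) (LinearMap.id : H →ₗ[H] H) x := by
  induction x with
  | zero => simp
  | add x y hx hy => simp only [map_add, hx, hy]
  | tmul a b => simp [tmap_tmul]

theorem op_self (t x : H ⊗[k] H) : op k H H H t x = t * x := by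
  induction t with
  | zero => simp
  | add a b ha hb => simp only [map_add, LinearMap.add_apply, ha, hb, add_mul]
  | tmul a b =>
    induction x with
    | zero => simp
    | add x y hx hy => simp only [map_add, hx, hy, mul_add]
    | tmul f h => simp only [op_tmul, smul_eq_mul, Algebra.TensorProduct.tmul_mul_tmul]

theorem coact_free (hS : WHId k H S) (ι : Type) : Coact S (dfree k H ι) where
  act g f := by
    induction f using Finsupp.induction_linear with
    | zero => simp
    | add x y hx hy => simp only [map_add, smul_add, hx, hy]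
    | single i h =>
      rw [Finsupp.smul_single, smul_eq_mul, dfree_single, dfree_single, rTensor_eq, rTensor_eq,
        ← tmap_op, op_self, CM.comul_mul]
  coassoc f := by
    induction f using Finsupp.induction_linear with
    | zero => simp
    | add x y hx hy => simp only [map_add, hx, hy]
    | single i h =>
      rw [dfree_single]
      have h1 : ∀ x : H ⊗[k] H, LinearMap.rTensor H (dfree k H ι)
          (LinearMap.rTensor H (Finsupp.lsingle i : H →ₗ[k] (ι →₀ H)) x) =
          LinearMap.rTensor H (LinearMap.rTensor H (Finsupp.lsingle i : H →ₗ[k] (ι →₀ H)))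
            (LinearMap.rTensor H (cm k H) x) := by
        intro x
        induction x with
        | zero => simp
        | add x y hx hy => simp only [map_add, hx, hy]
        | tmul a b => simp only [LinearMap.rTensor_tmul, Finsupp.lsingle_apply, dfree_single]
      have h2 : ∀ y : (H ⊗[k] H) ⊗[k] H, TensorProduct.assoc k (ι →₀ H) H H
          (LinearMap.rTensor H (LinearMap.rTensor H (Finsupp.lsingle i : H →ₗ[k] (ι →₀ H))) y) =
          LinearMap.rTensor (H ⊗[k] H) (Finsupp.lsingle i : H →ₗ[k] (ι →₀ H))
            (TensorProduct.assoc k H H H y) := by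
        intro y
        induction y with
        | zero => simp
        | add x y hx hy => simp only [map_add, hx, hy]
        | tmul a b =>
          induction a with
          | zero => simp
          | add x y hx hy => simp only [map_add, TensorProduct.add_tmul, hx, hy]
          | tmul a c => simp
      rw [h1, h2, Coalgebra.coassoc_apply]
      generalize cm k H h = x
      induction x with
      | zero => simp
      | add x y hx hy => simp only [map_add, hx, hy]
      | tmul a b => simp
  ant f := by
    induction f using Finsupp.induction_linear with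
    | zero => simp
    | add x y hx hy => simp only [map_add, TensorProduct.add_tmul, hx, hy]
    | single i h =>
      rw [dfree_single]
      have h1 : ∀ x : H ⊗[k] H, LinearMap.lTensor (ι →₀ H)
          (LinearMap.mul' k H ∘ₗ LinearMap.lTensor H S ∘ₗ cm k H)
          (LinearMap.rTensor H (Finsupp.lsingle i : H →ₗ[k] (ι →₀ H)) x) =
          LinearMap.rTensor H (Finsupp.lsingle i : H →ₗ[k] (ι →₀ H))
            (LinearMap.lTensor H (LinearMap.mul' k H ∘ₗ LinearMap.lTensor H S ∘ₗ cm k H) x) := by
        intro x
        induction x with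
        | zero => simp
        | add x y hx hy => simp only [map_add, hx, hy]
        | tmul a b => simp
      rw [h1, hS.id1, ← op_self, rTensor_eq, tmap_op, tmap_tmul]
      rfl

end

end TL

theorem taskL2 : TaskL2 := by
  intro k _ H _ _ _ _ S hS ι V _ _ _ _
  exact TL.proj_of_coact hS (TL.coact_free hS ι)

end Pool.Agent.Helper202_BG
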