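import Pool.Agent.Helper202_BG.L2

/-!
Task L4: extension of homomorphisms.
-/

set_option autoImplicit false
set_option linter.unusedSectionVars false

open scoped TensorProduct

namespace Pool.Agent.Helper202_BG

namespace TL

section
variable {k H : Type} [Field k] [Ring H] [Algebra k H] [Coalgebra k H] [CM k H]
variable {S : H →ₗ[k] H}

/-- the coaction of `H` on itself -/
theorem coact_self (hS : WHId k H S) : Coact (F := H) S (cm k H) where
  act g f := by rw [smul_eq_mul, CM.comul_mul, op_self]
  coassoc f := Coalgebra.coassoc_apply f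
  ant f := by rw [hS.id1, op_self]

/-- `a ⊗ b ↦ a₁ x₁ ⊗ S(a₂ x₂) b` -/
theorem key (hS : WHId k H S) (h x : H) :
    evL (V := H) (LinearMap.lTensor H S ∘ₗ cm k H) (cm k H h * (x ⊗ₜ[k] 1)) =
      (h ⊗ₜ[k] 1) * LinearMap.lTensor H S (cm k H x) := by
  have h1 := evL_op (V := H) hS (coact_self hS) h (x ⊗ₜ[k] (1 : H))
  rw [dact, op_self] at h1
  rw [h1, evL_tmul, LinearMap.comp_apply]
  have h2 : ∀ t : H ⊗[k] H, h • ev (1 : H) (LinearMap.lTensor H S t) =
      (h ⊗ₜ[k] 1) * LinearMap.lTensor H S t := by
    intro t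
    induction t with
    | zero => simp
    | add x y hx hy => simp only [map_add, smul_add, mul_add, hx, hy]
    | tmul a b =>
      simp [ev_tmul, TensorProduct.smul_tmul', Algebra.TensorProduct.tmul_mul_tmul]
  exact h2 _

variable {V : Type} [AddCommGroup V] [Module H V] [Module k V] [IsScalarTower k H V]
variable {V' : Type} [AddCommGroup V'] [Module H V'] [Module k V'] [IsScalarTower k H V']

/-- `(a ⊗ b) g = (v ↦ a g(S(b) v))` -/
noncomputable def homop (S : H →ₗ[k] H) (V : Type) [AddCommGroup V] [Module H V] [Module k V]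
    [IsScalarTower k H V] : H ⊗[k] H →ₗ[k] (V →ₗ[k] H) →ₗ[k] (V →ₗ[k] H) :=
  TensorProduct.lift (LinearMap.mk₂ k
    (fun a b => (LinearMap.llcomp k V H H (LinearMap.mulLeft k a)) ∘ₗ
      (LinearMap.llcomp k V V H).flip (Algebra.lsmul k k V (S b)))
    (fun a a' b => by ext; simp [add_mul]) (fun c a b => by ext; simp)
    (fun a b b' => by ext; simp) (fun c a b => by ext; simp))

theorem homop_tmul (a b : H) (g : V →ₗ[k] H) (v : V) :
    homop S V (a ⊗ₜ[k] b) g v = a * g (S b • v) := by
  simp [homop]

theorem homop_mul (hS : WHId k H S) (t u : H ⊗[k] H) (g : V →ₗ[k] H) :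
    homop S V (t * u) g = homop S V t (homop S V u g) := by
  induction t with
  | zero => simp
  | add a b ha hb => simp only [map_add, LinearMap.add_apply, ha, hb, add_mul]
  | tmul a b =>
    induction u with
    | zero => simp
    | add x y hx hy => simp only [map_add, LinearMap.add_apply, hx, hy, mul_add]
    | tmul c d =>
      ext v
      rw [Algebra.TensorProduct.tmul_mul_tmul, homop_tmul, homop_tmul, homop_tmul, hS.S_mul,
        mul_smul, mul_assoc]

/-- `κ(φ, c) = (v ↦ φ(S(c) s(v)))` -/
noncomputable def kap (S : H →ₗ[k] H) (s : V →ₗ[k] V') (φ : Module.Dual k V') :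
    H →ₗ[k] (V →ₗ[k] H) :=
  (LinearMap.llcomp k V V' H ((Algebra.linearMap k H) ∘ₗ φ)) ∘ₗ
    ((LinearMap.llcomp k V V' V').flip s) ∘ₗ ((Algebra.lsmul k k V').toLinearMap ∘ₗ S)

theorem kap_apply (s : V →ₗ[k] V') (φ : Module.Dual k V') (c : H) (v : V) :
    kap S s φ c v = algebraMap k H (φ (S c • s v)) := by
  simp [kap]

/-- `y ⊗ c ↦ Δ(y) κ(φ, c)` -/
noncomputable def Tφ (S : H →ₗ[k] H) (s : V →ₗ[k] V') (φ : Module.Dual k V') :
    H ⊗[k] H →ₗ[k] (V →ₗ[k] H) :=
  TensorProduct.lift ((homop S V ∘ₗ cm k H).compl₂ (kap S s φ))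

theorem Tφ_tmul (s : V →ₗ[k] V') (φ : Module.Dual k V') (y c : H) :
    Tφ S s φ (y ⊗ₜ[k] c) = homop S V (cm k H y) (kap S s φ c) := by
  simp [Tφ]

/-- the retraction on simple tensors -/
noncomputable def T (S : H →ₗ[k] H) (s : V →ₗ[k] V') :
    Module.Dual k V' ⊗[k] H →ₗ[k] (V →ₗ[k] H) :=
  TensorProduct.lift (LinearMap.mk₂ k
    (fun φ x => Tφ S s φ (LinearMap.lTensor H S (cm k H x)))
    (fun φ φ' x => by
      generalize LinearMap.lTensor H S (cm k H x) = t
      induction t with
      | zero => simp
      | add a b ha hb => rw [map_add, map_add, map_add, ha, hb]; abel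
      | tmul y c =>
        rw [Tφ_tmul, Tφ_tmul, Tφ_tmul, ← map_add]
        congr 1
        ext v
        simp [kap_apply])
    (fun c φ x => by
      generalize LinearMap.lTensor H S (cm k H x) = t
      induction t with
      | zero => simp
      | add a b ha hb => rw [map_add, map_add, ha, hb, smul_add]
      | tmul y d =>
        rw [Tφ_tmul, Tφ_tmul, ← map_smul]
        congr 1
        ext v
        simp [kap_apply, Algebra.smul_def])
    (fun φ x x' => by simp only [map_add])
    (fun c φ x => by simp only [map_smul]))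

theorem T_tmul (s : V →ₗ[k] V') (φ : Module.Dual k V') (x : H) :
    T S s (φ ⊗ₜ[k] x) = Tφ S s φ (LinearMap.lTensor H S (cm k H x)) := by
  simp [T]

/-- `(a ⊗ b)(φ ⊗ x) = φ(S(b) -) ⊗ a x` -/
noncomputable def hop (S : H →ₗ[k] H) (V' : Type) [AddCommGroup V'] [Module H V'] [Module k V']
    [IsScalarTower k H V'] :
    H ⊗[k] H →ₗ[k] Module.Dual k V' ⊗[k] H →ₗ[k] Module.Dual k V' ⊗[k] H :=
  TensorProduct.lift (LinearMap.mk₂ k
    (fun a b => TensorProduct.map ((LinearMap.llcomp k V' V' k).flip (Algebra.lsmul k k V' (S b)))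
      (LinearMap.mulLeft k a))
    (fun a a' b => by
      ext
      simp [add_mul, TensorProduct.tmul_add])
    (fun c a b => by
      ext
      simp)
    (fun a b b' => by
      ext
      simp [TensorProduct.add_tmul])
    (fun c a b => by
      ext
      simp [TensorProduct.smul_tmul']))

theorem hop_tmul (a b x : H) (φ : Module.Dual k V') :
    hop S V' (a ⊗ₜ[k] b) (φ ⊗ₜ[k] x) =
      (φ ∘ₗ Algebra.lsmul k k V' (S b) : Module.Dual k V') ⊗ₜ[k] (a * x) := by
  simp [hop]
  rfl

theorem dth_hop (u : H ⊗[k] H) (t : Module.Dual k V' ⊗[k] H) :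
    dualTensorHom k V' H (hop S V' u t) = homop S V' u (dualTensorHom k V' H t) := by
  induction u with
  | zero => simp
  | add a b ha hb => simp only [map_add, LinearMap.add_apply, ha, hb]
  | tmul a b =>
    induction t with
    | zero => simp
    | add x y hx hy => simp only [map_add, hx, hy]
    | tmul φ x =>
      ext v
      rw [hop_tmul, homop_tmul, dualTensorHom_apply, dualTensorHom_apply]
      simp

/-- claim 1 -/
theorem T_hop (hS : WHId k H S) (s : V →ₗ[k] V') (h : H) (t : Module.Dual k V' ⊗[k] H) :
    T S s (hop S V' (cm k H h) t) = homop S V (cm k H h) (T S s t) := by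
  induction t with
  | zero => simp
  | add x y hx hy => simp only [map_add, hx, hy]
  | tmul φ x =>
    have h1 : ∀ (b : H) (z : H ⊗[k] H),
        Tφ S s (φ ∘ₗ Algebra.lsmul k k V' (S b) : Module.Dual k V') z =
          Tφ S s φ (z * (1 ⊗ₜ[k] b)) := by
      intro b z
      induction z with
      | zero => simp
      | add x y hx hy => simp only [map_add, add_mul, hx, hy]
      | tmul y c =>
        rw [Algebra.TensorProduct.tmul_mul_tmul, mul_one, Tφ_tmul, Tφ_tmul]
        congr 1
        ext v
        rw [kap_apply, kap_apply, hS.S_mul, mul_smul]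
        rfl
    have h2 : ∀ u : H ⊗[k] H, T S s (hop S V' u (φ ⊗ₜ[k] x)) =
        Tφ S s φ (evL (V := H) (LinearMap.lTensor H S ∘ₗ cm k H) (u * (x ⊗ₜ[k] 1))) := by
      intro u
      induction u with
      | zero => simp
      | add x y hx hy => simp only [map_add, LinearMap.add_apply, add_mul, hx, hy]
      | tmul a b =>
        rw [hop_tmul, T_tmul, h1, Algebra.TensorProduct.tmul_mul_tmul, mul_one, evL_tmul,
          LinearMap.comp_apply]
        congr 1
        generalize LinearMap.lTensor H S (cm k H (a * x)) = z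
        induction z with
        | zero => simp
        | add x y hx hy => simp only [map_add, add_mul, hx, hy]
        | tmul p q => simp [ev_tmul]
    have h3 : ∀ z : H ⊗[k] H, Tφ S s φ ((h ⊗ₜ[k] 1) * z) =
        homop S V (cm k H h) (Tφ S s φ z) := by
      intro z
      induction z with
      | zero => simp
      | add x y hx hy => simp only [map_add, mul_add, hx, hy]
      | tmul y c =>
        rw [Algebra.TensorProduct.tmul_mul_tmul, one_mul, Tφ_tmul, Tφ_tmul, CM.comul_mul,
          homop_mul hS]
    rw [h2, key hS, h3, T_tmul]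

/-- claim 2 -/
theorem T_pi (hS : WHId k H S) (s : V →ₗ[k] V') (π : V' →ₗ[H] V) (hs : ∀ v, π (s v) = v)
    (t : Module.Dual k V ⊗[k] H) :
    T S s (LinearMap.rTensor H ((LinearMap.llcomp k V' V k).flip (π.restrictScalars k)) t) =
      homop S V (cm k H 1) (dualTensorHom k V H t) := by
  induction t with
  | zero => simp
  | add x y hx hy => simp only [map_add, hx, hy]
  | tmul φ x =>
    rw [LinearMap.rTensor_tmul, T_tmul]
    have h0 : ∀ (c : H), kap S s ((LinearMap.llcomp k V' V k).flip (π.restrictScalars k) φ) c =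
        homop S V (1 ⊗ₜ[k] c) (dualTensorHom k V H (φ ⊗ₜ[k] 1)) := by
      intro c
      ext v
      rw [kap_apply, homop_tmul, dualTensorHom_apply, one_mul, Algebra.algebraMap_eq_smul_one]
      congr 1
      change φ (π (S c • s v)) = _
      rw [map_smul, hs]
    have h1 : ∀ (r : H ⊗[k] H) (c : H), homop S V r (homop S V (1 ⊗ₜ[k] c)
        (dualTensorHom k V H (φ ⊗ₜ[k] 1))) =
        homop S V (LinearMap.lTensor H (LinearMap.mulRight k c) r)
          (dualTensorHom k V H (φ ⊗ₜ[k] 1)) := by
      intro r c
      rw [← homop_mul hS]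
      congr 2
      induction r with
      | zero => simp
      | add x y hx hy => simp only [map_add, add_mul, hx, hy]
      | tmul a b => simp [Algebra.TensorProduct.tmul_mul_tmul]
    have h2 : ∀ u : H ⊗[k] H, Tφ S s ((LinearMap.llcomp k V' V k).flip (π.restrictScalars k) φ)
        (LinearMap.lTensor H S u) = homop S V (N1 S u) (dualTensorHom k V H (φ ⊗ₜ[k] 1)) := by
      intro u
      induction u with
      | zero => simp
      | add x y hx hy => simp only [map_add, LinearMap.add_apply, hx, hy]
      | tmul a b => rw [LinearMap.lTensor_tmul, Tφ_tmul, h0, h1, N1_tmul]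
    rw [h2, N1_cm hS, homop_mul hS]
    congr 1
    ext v
    rw [homop_tmul, dualTensorHom_apply, dualTensorHom_apply, hS.S_one, one_smul, mul_smul_comm,
      mul_one]

variable {P : Type} [AddCommGroup P] [Module H P] [Module k P] [IsScalarTower k H P]

theorem pr_dact_one (x : P ⊗[k] V) : Ten.pr k H P V (dact k H P V 1 x) = Ten.pr k H P V x := by
  rw [← Ten.smul_pr, one_smul]

/-- the adjoint of a homomorphism `P # V' → H` -/
noncomputable def adj (F : Ten k H P V →ₗ[H] H) : P →ₗ[k] (V →ₗ[k] H) :=
  TensorProduct.curry ((F.restrictScalars k) ∘ₗ Ten.pr k H P V)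

theorem adj_apply (F : Ten k H P V →ₗ[H] H) (p : P) (v : V) :
    adj F p v = F (Ten.pr k H P V (p ⊗ₜ[k] v)) := rfl

theorem adj_smul (hS : WHId k H S) (F : Ten k H P V →ₗ[H] H) (h : H) (p : P) :
    adj F (h • p) = homop S V (cm k H h) (adj F p) := by
  ext v
  have h1 : ∀ (r : H ⊗[k] H) (b : H), op k H P V r (p ⊗ₜ[k] (b • v)) =
      op k H P V (LinearMap.lTensor H (LinearMap.mulRight k b) r) (p ⊗ₜ[k] v) := by
    intro r b
    induction r with
    | zero => simp
    | add x y hx hy => simp only [map_add, LinearMap.add_apply, hx, hy]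
    | tmul a c => simp [op_tmul, mul_smul]
  have h2 : ∀ t : H ⊗[k] H, homop S V t (adj F p) v =
      F (Ten.pr k H P V (op k H P V (N1 S t) (p ⊗ₜ[k] v))) := by
    intro t
    induction t with
    | zero => simp
    | add x y hx hy => simp only [map_add, LinearMap.add_apply, hx, hy]
    | tmul a b =>
      rw [homop_tmul, adj_apply, ← smul_eq_mul, ← map_smul, Ten.smul_pr, dact, h1, N1_tmul]
  rw [h2, N1_cm hS, map_mul, adj_apply]
  change _ = F (Ten.pr k H P V (dact k H P V 1 (op k H P V (h ⊗ₜ[k] 1) (p ⊗ₜ[k] v))))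
  rw [pr_dact_one, op_tmul, one_smul]

/-- homomorphisms from adjoints -/
noncomputable def unadj (hS : WHId k H S) (G : P →ₗ[k] (V →ₗ[k] H))
    (hG : ∀ (h : H) (p : P), G (h • p) = homop S V (cm k H h) (G p)) :
    Ten k H P V →ₗ[H] H where
  toFun x := TensorProduct.lift G (Ten.val k H P V x)
  map_add' x y := by simp only [map_add]
  map_smul' h x := by
    rw [Ten.val_smul, RingHom.id_apply, smul_eq_mul]
    generalize Ten.val k H P V x = y
    induction y with
    | zero => simp
    | add x y hx hy => simp only [map_add, mul_add, hx, hy]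
    | tmul p v =>
      -- `K(u ⊗ u') = u g(u' v)`
      let K : H ⊗[k] H →ₗ[k] H := TensorProduct.lift ((LinearMap.mul k H).compl₂
        ((G p) ∘ₗ ((LinearMap.toSpanSingleton H V v).restrictScalars k)))
      have hK : ∀ u u' : H, K (u ⊗ₜ[k] u') = u * G p (u' • v) := by
        intro u u'
        simp [K]
      have h1 : ∀ (r : H ⊗[k] H) (b : H), homop S V r (G p) (b • v) =
          K (LinearMap.lTensor H (LinearMap.mulRight k b ∘ₗ S) r) := by
        intro r b
        induction r with
        | zero => simp
        | add x y hx hy => simp only [map_add, LinearMap.add_apply, hx, hy]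
        | tmul a c =>
          rw [homop_tmul, LinearMap.lTensor_tmul, hK, smul_smul]
          rfl
      have h2 : ∀ t : H ⊗[k] H, TensorProduct.lift G (op k H P V t (p ⊗ₜ[k] v)) =
          K (N2 S t) := by
        intro t
        induction t with
        | zero => simp
        | add x y hx hy => simp only [map_add, LinearMap.add_apply, hx, hy]
        | tmul a b => rw [op_tmul, TensorProduct.lift.tmul, hG, h1, N2_tmul]
      have h3 : ∀ r : H ⊗[k] H, K ((h ⊗ₜ[k] 1) * LinearMap.lTensor H S r) =
          h * homop S V r (G p) v := by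
        intro r
        induction r with
        | zero => simp
        | add x y hx hy => simp only [map_add, LinearMap.add_apply, mul_add, hx, hy]
        | tmul a b =>
          rw [LinearMap.lTensor_tmul, Algebra.TensorProduct.tmul_mul_tmul, hK, homop_tmul,
            one_mul, mul_assoc]
      rw [dact, h2, N2_cm hS, h3, ← hG, one_smul, TensorProduct.lift.tmul]

end

end TL

theorem taskL4 : TaskL4 := by
  intro k _ H _ _ _ _ S hS V _ _ _ _ _ V' _ _ _ _ _ π hπ W _ _ _ _ P _ _ _ _ i hi f F' hF
  classical
  -- a linear section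
  obtain ⟨s, hs⟩ := (π.restrictScalars k).exists_rightInverse_of_surjective
    (LinearMap.range_eq_top.2 hπ)
  have hs' : ∀ v, π (s v) = v := fun v => LinearMap.congr_fun hs v
  let e := dualTensorHomEquiv k V' H
  have he : ∀ t, e t = dualTensorHom k V' H t := fun t => rfl
  let G : P →ₗ[k] (V →ₗ[k] H) := TL.T S s ∘ₗ e.symm.toLinearMap ∘ₗ TL.adj F'
  have hGe : ∀ p, G p = TL.T S s (e.symm (TL.adj F' p)) := fun p => rfl
  have hG : ∀ (h : H) (p : P), G (h • p) = TL.homop S V (TL.cm k H h) (G p) := by
    intro h p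
    rw [hGe, hGe, ← TL.T_hop hS, TL.adj_smul hS]
    congr 1
    apply e.injective
    rw [e.apply_symm_apply, he, TL.dth_hop, ← he, e.apply_symm_apply]
  refine ⟨TL.unadj hS G hG, ?_⟩
  -- values on the image of `W`
  have hW : ∀ (w : W), G (i w) = TL.adj f w := by
    intro w
    rw [hGe]
    have h1 : TL.adj F' (i w) = (TL.adj f w) ∘ₗ (π.restrictScalars k) := by
      ext v
      rw [TL.adj_apply, LinearMap.comp_apply, TL.adj_apply]
      have h2 := LinearMap.congr_fun hF (Ten.pr k H W V' (w ⊗ₜ[k] v))
      rw [LinearMap.comp_apply, LinearMap.comp_apply, Ten.map_pr, Ten.map_pr, tmap_tmul,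
        tmap_tmul] at h2
      exact h2
    let e' := dualTensorHomEquiv k V H
    have he' : ∀ t, e' t = dualTensorHom k V H t := fun t => rfl
    have h3 : e.symm (TL.adj F' (i w)) =
        LinearMap.rTensor H ((LinearMap.llcomp k V' V k).flip (π.restrictScalars k))
          (e'.symm (TL.adj f w)) := by
      apply e.injective
      rw [e.apply_symm_apply, h1]
      have h4 : ∀ t : Module.Dual k V ⊗[k] H,
          e (LinearMap.rTensor H ((LinearMap.llcomp k V' V k).flip (π.restrictScalars k)) t) =
            (e' t) ∘ₗ (π.restrictScalars k) := by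
        intro t
        induction t with
        | zero => simp
        | add x y hx hy => simp only [map_add, hx, hy, LinearMap.add_comp]
        | tmul φ x =>
          ext v
          rw [LinearMap.rTensor_tmul, he, he', dualTensorHom_apply, LinearMap.comp_apply,
            dualTensorHom_apply]
          rfl
      rw [h4, e'.apply_symm_apply]
    rw [h3, TL.T_pi hS s π hs', ← he', e'.apply_symm_apply, ← TL.adj_smul hS, one_smul]
  ext x
  change TensorProduct.lift G (Ten.val k H P V (Ten.map i LinearMap.id x)) = f x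
  rw [Ten.val_map]
  have h5 : ∀ y : W ⊗[k] V, TensorProduct.lift G (tmap i LinearMap.id y) =
      f (Ten.pr k H W V y) := by
    intro y
    induction y with
    | zero => simp
    | add x y hx hy => simp only [map_add, hx, hy]
    | tmul w v =>
      rw [tmap_tmul, TensorProduct.lift.tmul, hW]
      rfl
  rw [h5, Ten.pr_val]

end Pool.Agent.Helper202_BG
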