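import Pool.Agent.Helper202_BG.Ten

/-!
Task L5: every module is naturally a retract of `W₀ # V`, where `W₀` is the unit object.
-/

set_option autoImplicit false

open scoped TensorProduct

namespace Pool.Agent.Helper202_BG

namespace TL5

variable {k H : Type} [Field k] [Ring H] [Algebra k H] [Coalgebra k H]


/-- the coproduct -/
noncomputable abbrev dl : H →ₗ[k] H ⊗[k] H := CoalgebraStruct.comul (R := k) (A := H)

/-- the counit -/
noncomputable abbrev ep : H →ₗ[k] k := CoalgebraStruct.counit (R := k) (A := H)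

/-- contraction of the first factor with a functional -/
noncomputable def con (φ : H →ₗ[k] k) : H ⊗[k] H →ₗ[k] H :=
  (TensorProduct.lid k H).toLinearMap ∘ₗ LinearMap.rTensor H φ

omit [Coalgebra k H] in
theorem con_tmul (φ : H →ₗ[k] k) (a b : H) : con φ (a ⊗ₜ[k] b) = φ a • b := by
  simp [con]

theorem con_ep (x : H) : con (ep (k := k)) (dl x) = x := by
  simp [con]

/-- auxiliary trilinear contraction, left version -/
noncomputable def trL (a : H) (U : H ⊗[k] H) : H ⊗[k] (H ⊗[k] H) →ₗ[k] H :=
  (TensorProduct.lid k H).toLinearMap ∘ₗ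
    TensorProduct.map (ep ∘ₗ LinearMap.mulLeft k a) (con ep ∘ₗ LinearMap.mulRight k U)

theorem trL_tmul (a : H) (U : H ⊗[k] H) (b : H) (T : H ⊗[k] H) :
    trL a U (b ⊗ₜ[k] T) = (ep (k := k) (a * b)) • con ep (T * U) := by
  simp [trL]

/-- auxiliary trilinear contraction, right version -/
noncomputable def trR (z : H) (U : H ⊗[k] H) : H ⊗[k] (H ⊗[k] H) →ₗ[k] H :=
  (TensorProduct.lid k H).toLinearMap ∘ₗ
    TensorProduct.map (ep ∘ₗ LinearMap.mulRight k z) (con ep ∘ₗ LinearMap.mulLeft k U)

theorem trR_tmul (z : H) (U : H ⊗[k] H) (b : H) (T : H ⊗[k] H) :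
    trR z U (b ⊗ₜ[k] T) = (ep (k := k) (b * z)) • con ep (U * T) := by
  simp [trR]

section
variable {S : H →ₗ[k] H} (hS : IsWeakHopf k H S)
include hS

theorem trL_eq (a : H) (T U : H ⊗[k] H) :
    con (ep ∘ₗ LinearMap.mulLeft k a) (T * U) =
      trL a U (TensorProduct.assoc k H H H (LinearMap.rTensor H dl T)) := by
  induction T with
  | zero => simp
  | add x y hx hy => rw [add_mul, map_add, hx, hy, map_add, map_add, map_add]
  | tmul b c =>
    induction U with
    | zero =>
      rw [mul_zero, map_zero]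
      have : trL (k := k) a 0 = 0 := by
        simp [trL]
      rw [this]; rfl
    | add x y hx hy =>
      have : trL (k := k) a (x + y) = trL a x + trL a y := by
        apply TensorProduct.ext'
        intro b T
        rw [LinearMap.add_apply, trL_tmul, trL_tmul, trL_tmul, mul_add, map_add, smul_add]
      rw [mul_add, map_add, hx, hy, this, LinearMap.add_apply]
    | tmul d e =>
      rw [Algebra.TensorProduct.tmul_mul_tmul, con_tmul, LinearMap.rTensor_tmul,
        LinearMap.comp_apply, LinearMap.mulLeft_apply, ← mul_assoc, hS.counit_mul₁ a b d]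
      generalize CoalgebraStruct.comul (R := k) (A := H) b = B
      induction B with
      | zero => simp
      | add x y hx hy =>
        rw [TensorProduct.add_tmul, map_add, map_add, add_smul, hx, hy, map_add, map_add]
      | tmul b1 b2 =>
        rw [TensorProduct.map_tmul, TensorProduct.assoc_tmul, trL_tmul,
          Algebra.TensorProduct.tmul_mul_tmul, con_tmul, smul_smul]
        simp

theorem trR_eq (z : H) (T U : H ⊗[k] H) :
    con (ep ∘ₗ LinearMap.mulRight k z) (U * T) =
      trR z U (TensorProduct.assoc k H H H (LinearMap.rTensor H dl T)) := by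
  induction T with
  | zero => simp
  | add x y hx hy => rw [mul_add, map_add, hx, hy, map_add, map_add, map_add]
  | tmul b c =>
    induction U with
    | zero =>
      rw [zero_mul, map_zero]
      have : trR (k := k) z 0 = 0 := by
        simp [trR]
      rw [this]; rfl
    | add x y hx hy =>
      have : trR (k := k) z (x + y) = trR z x + trR z y := by
        apply TensorProduct.ext'
        intro b T
        rw [LinearMap.add_apply, trR_tmul, trR_tmul, trR_tmul, add_mul, map_add, smul_add]
      rw [add_mul, map_add, hx, hy, this, LinearMap.add_apply]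
    | tmul d e =>
      rw [Algebra.TensorProduct.tmul_mul_tmul, con_tmul, LinearMap.rTensor_tmul,
        LinearMap.comp_apply, LinearMap.mulRight_apply, hS.counit_mul₂ d b z]
      generalize CoalgebraStruct.comul (R := k) (A := H) b = B
      induction B with
      | zero => simp
      | add x y hx hy =>
        rw [TensorProduct.add_tmul, map_add, map_add, map_add, add_smul, hx, hy, map_add, map_add]
      | tmul b1 b2 =>
        rw [TensorProduct.comm_tmul, TensorProduct.map_tmul, TensorProduct.assoc_tmul, trR_tmul,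
          Algebra.TensorProduct.tmul_mul_tmul, con_tmul, smul_smul]
        simp [mul_comm]

theorem left_id (a x : H) :
    con (ep ∘ₗ LinearMap.mulLeft k a) (dl x) = con (ep ∘ₗ LinearMap.mulLeft k a) (dl 1) * x := by
  have h1 : dl (k := k) x = dl 1 * dl x := by
    rw [← hS.comul_mul, one_mul]
  rw [h1, trL_eq hS, Coalgebra.coassoc_apply]
  generalize dl (k := k) (1 : H) = T
  induction T with
  | zero => simp
  | add p q hp hq => rw [map_add, map_add, hp, hq, map_add, add_mul]
  | tmul b c =>
    rw [LinearMap.lTensor_tmul, trL_tmul, ← hS.comul_mul, con_ep, con_tmul, smul_mul_assoc]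
    simp

theorem right_id (z h : H) :
    con (ep ∘ₗ LinearMap.mulRight k z) (dl h) =
      h * con (ep ∘ₗ LinearMap.mulRight k z) (dl 1) := by
  have h1 : dl (k := k) h = dl h * dl 1 := by
    rw [← hS.comul_mul, mul_one]
  rw [h1, trR_eq hS, Coalgebra.coassoc_apply]
  generalize dl (k := k) (1 : H) = T
  induction T with
  | zero => simp
  | add p q hp hq => rw [map_add, map_add, hp, hq, map_add, mul_add]
  | tmul b c =>
    rw [LinearMap.lTensor_tmul, trR_tmul, ← hS.comul_mul, con_ep, con_tmul, mul_smul_comm]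
    simp

/-- the target counital map, in its antipode form -/
noncomputable def tt (S : H →ₗ[k] H) : H →ₗ[k] H :=
  LinearMap.mul' k H ∘ₗ TensorProduct.map LinearMap.id S ∘ₗ dl

theorem tt_eq (z : H) : tt S z = con (ep ∘ₗ LinearMap.mulRight k z) (dl 1) := by
  have := hS.antipode₁ z
  rw [tt, LinearMap.comp_apply, LinearMap.comp_apply, this]
  rfl

theorem right_id' (z h : H) :
    con (ep ∘ₗ LinearMap.mulRight k z) (dl h) = h * tt S z := by
  rw [right_id hS, tt_eq hS]

theorem ep_mul_tt (a z : H) : ep (k := k) (a * tt S z) = ep (a * z) := by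
  have h1 := hS.counit_mul₂ a 1 z
  rw [mul_one] at h1
  change ep (k := k) (a * tt S z) = CoalgebraStruct.counit (R := k) (A := H) (a * z)
  rw [h1, tt_eq hS]
  generalize dl (k := k) (1 : H) = T
  induction T with
  | zero => simp
  | add p q hp hq => rw [map_add, mul_add, map_add, hp, hq, map_add, map_add, map_add]
  | tmul b c =>
    rw [con_tmul, mul_smul_comm, map_smul, TensorProduct.comm_tmul, TensorProduct.map_tmul]
    simp [mul_comm]

theorem tt_mul (h z : H) : tt S (h * z) = tt S (h * tt S z) := by
  rw [tt_eq hS, tt_eq hS]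
  congr 2
  ext b
  simp only [LinearMap.comp_apply, LinearMap.mulRight_apply]
  rw [← mul_assoc, ← mul_assoc, ep_mul_tt hS]

theorem tt_tt (z : H) : tt S (tt S z) = tt S z := by
  have := tt_mul hS 1 z
  rw [one_mul, one_mul] at this
  exact this.symm

/-- the left ideal `ker ε_t` -/
noncomputable def KI : Submodule H H where
  carrier := {x | tt S x = 0}
  add_mem' := by
    intro a b ha hb
    simp only [Set.mem_ofPred_eq] at *
    rw [map_add, ha, hb, add_zero]
  zero_mem' := by simp
  smul_mem' := by
    intro c x hx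
    simp only [Set.mem_ofPred_eq, smul_eq_mul] at *
    rw [tt_mul hS, hx, mul_zero, map_zero]

theorem mem_KI (x : H) : x ∈ KI hS ↔ tt S x = 0 := Iff.rfl

/-- `ε_t` on the quotient -/
noncomputable def tb : (H ⧸ KI hS) →ₗ[k] H where
  toFun := Quotient.lift (fun x => tt S x) (by
    intro a b hab
    have h1 : a - b ∈ KI hS := (Submodule.quotientRel_def _).mp hab
    rw [mem_KI, map_sub, sub_eq_zero] at h1
    exact h1)
  map_add' := by
    rintro ⟨x⟩ ⟨y⟩
    exact map_add (tt S) x y
  map_smul' := by
    rintro c ⟨x⟩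
    exact map_smul (tt S) c x

theorem tb_mk (x : H) : tb hS (Submodule.Quotient.mk x) = tt S x := rfl

theorem mk_tt (x : H) :
    (Submodule.Quotient.mk (tt S x) : H ⧸ KI hS) = Submodule.Quotient.mk x := by
  rw [Submodule.Quotient.eq, mem_KI, map_sub, tt_tt hS, sub_self]

/-- the key identity for the retraction -/
theorem key_r (h z : H) (V : Type) [AddCommGroup V] [Module H V] [Module k V]
    [IsScalarTower k H V] (v : V) (ψ : (H ⧸ KI hS) ⊗[k] V →ₗ[k] V)
    (hψ : ∀ x v, ψ (Submodule.Quotient.mk x ⊗ₜ[k] v) = tt S x • v) :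
    ψ (dact k H (H ⧸ KI hS) V h (Submodule.Quotient.mk z ⊗ₜ[k] v)) = h • tt S z • v := by
  have h1 : ∀ U : H ⊗[k] H,
      ψ (op k H (H ⧸ KI hS) V U (Submodule.Quotient.mk z ⊗ₜ[k] v)) =
        con (ep ∘ₗ LinearMap.mulRight k z) (dl 1 * U) • v := by
    intro U
    induction U with
    | zero => simp
    | add x y hx hy => rw [map_add, LinearMap.add_apply, map_add, hx, hy, mul_add, map_add, add_smul]
    | tmul a b =>
      rw [op_tmul, ← Submodule.Quotient.mk_smul, hψ, smul_eq_mul, smul_smul, tt_eq hS]
      congr 1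
      generalize dl (k := k) (1 : H) = T
      induction T with
      | zero => simp
      | add p q hp hq => rw [map_add, add_mul, hp, hq, add_mul, map_add]
      | tmul c d =>
        rw [con_tmul, Algebra.TensorProduct.tmul_mul_tmul, con_tmul, smul_mul_assoc]
        simp [mul_assoc]
  rw [dact, h1]
  have h2 : dl (k := k) (1 : H) * CoalgebraStruct.comul (R := k) (A := H) h = dl h := by
    rw [← hS.comul_mul, one_mul]
  rw [h2, right_id' hS, mul_smul]

theorem key_s0 (x : H) :
    LinearMap.rTensor H (tt S) (dl x) = LinearMap.rTensor H (tt S) (dl 1) * (1 ⊗ₜ[k] x) := by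
  obtain ⟨n, b, c, hT⟩ := TensorProduct.exists_sum_tmul_eq (dl (k := k) (1 : H))
  have h1 : ∀ z : H, tt S z = ∑ i, ep (k := k) (b i * z) • c i := by
    intro z
    rw [tt_eq hS, hT, map_sum]
    refine Finset.sum_congr rfl fun i _ => ?_
    rw [con_tmul]
    simp
  have h2 : ∀ U : H ⊗[k] H, LinearMap.rTensor H (tt S) U =
      ∑ i, c i ⊗ₜ[k] con (ep ∘ₗ LinearMap.mulLeft k (b i)) U := by
    intro U
    induction U with
    | zero => simp
    | add p q hp hq => simp only [map_add, hp, hq, TensorProduct.tmul_add, Finset.sum_add_distrib]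
    | tmul d e =>
      rw [LinearMap.rTensor_tmul, h1, TensorProduct.sum_tmul]
      refine Finset.sum_congr rfl fun i _ => ?_
      rw [con_tmul, TensorProduct.tmul_smul, TensorProduct.smul_tmul']
      simp
  rw [h2, h2, Finset.sum_mul]
  refine Finset.sum_congr rfl fun i _ => ?_
  rw [left_id hS, Algebra.TensorProduct.tmul_mul_tmul, mul_one]

/-- the key identity for the section -/
theorem key_s (x : H) (V : Type) [AddCommGroup V] [Module H V] [Module k V]
    [IsScalarTower k H V] (v : V) :
    dact k H (H ⧸ KI hS) V x (Submodule.Quotient.mk 1 ⊗ₜ[k] v) =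
      dact k H (H ⧸ KI hS) V 1 (Submodule.Quotient.mk 1 ⊗ₜ[k] (x • v)) := by
  let q : H →ₗ[k] (H ⧸ KI hS) := ((KI hS).mkQ).restrictScalars k
  let a : H →ₗ[k] V := (LinearMap.toSpanSingleton H V v).restrictScalars k
  have h1 : ∀ U : H ⊗[k] H,
      op k H (H ⧸ KI hS) V U (Submodule.Quotient.mk 1 ⊗ₜ[k] v) =
        TensorProduct.map q a (LinearMap.rTensor H (tt S) U) := by
    intro U
    induction U with
    | zero => simp
    | add p r hp hr => simp only [map_add, LinearMap.add_apply, hp, hr]
    | tmul d e =>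
      rw [op_tmul, LinearMap.rTensor_tmul, TensorProduct.map_tmul, ← Submodule.Quotient.mk_smul,
        smul_eq_mul, mul_one, ← mk_tt hS]
      rfl
  have h2 : ∀ U : H ⊗[k] H,
      op k H (H ⧸ KI hS) V U (Submodule.Quotient.mk 1 ⊗ₜ[k] (x • v)) =
        TensorProduct.map q a (LinearMap.rTensor H (tt S) U * (1 ⊗ₜ[k] x)) := by
    intro U
    induction U with
    | zero => simp
    | add p r hp hr => simp only [map_add, LinearMap.add_apply, hp, hr, add_mul]
    | tmul d e =>
      rw [op_tmul, LinearMap.rTensor_tmul, Algebra.TensorProduct.tmul_mul_tmul, mul_one,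
        TensorProduct.map_tmul, ← Submodule.Quotient.mk_smul,
        smul_eq_mul, mul_one, ← mk_tt hS, smul_smul]
      rfl
  rw [dact, dact, h1, h2]
  exact congrArg _ (key_s0 hS x)

theorem r_one (V : Type) [AddCommGroup V] [Module H V] [Module k V]
    [IsScalarTower k H V] (v : V) (ψ : (H ⧸ KI hS) ⊗[k] V →ₗ[k] V)
    (hψ : ∀ x v, ψ (Submodule.Quotient.mk x ⊗ₜ[k] v) = tt S x • v) :
    ψ (Submodule.Quotient.mk 1 ⊗ₜ[k] v) = v := by
  rw [hψ]
  have h1 : tt S 1 = 1 := by
    rw [tt_eq hS]
    have : (ep ∘ₗ LinearMap.mulRight k (1 : H)) = ep (k := k) := by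
      ext x; simp
    rw [this, con_ep]
  rw [h1, one_smul]

/-- the natural contraction on the tensor product -/
noncomputable def psi (V : Type) [AddCommGroup V] [Module H V] [Module k V]
    [IsScalarTower k H V] : (H ⧸ KI hS) ⊗[k] V →ₗ[k] V :=
  TensorProduct.lift ((Algebra.lsmul k k V).toLinearMap ∘ₗ tb hS)

theorem psi_mk (V : Type) [AddCommGroup V] [Module H V] [Module k V]
    [IsScalarTower k H V] (x : H) (v : V) :
    psi hS V (Submodule.Quotient.mk x ⊗ₜ[k] v) = tt S x • v := rfl

theorem psi_dact (V : Type) [AddCommGroup V] [Module H V] [Module k V]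
    [IsScalarTower k H V] (h : H) (y : (H ⧸ KI hS) ⊗[k] V) :
    psi hS V (dact k H (H ⧸ KI hS) V h y) = h • psi hS V y := by
  induction y with
  | zero => simp
  | add p q hp hq => simp only [map_add, hp, hq, smul_add]
  | tmul w v =>
    obtain ⟨z, rfl⟩ := Submodule.Quotient.mk_surjective _ w
    rw [key_r hS h z V v (psi hS V) (psi_mk hS V), psi_mk]

theorem psi_nat (V : Type) [AddCommGroup V] [Module H V] [Module k V]
    [IsScalarTower k H V] (V' : Type) [AddCommGroup V'] [Module H V'] [Module k V']
    [IsScalarTower k H V'] (π : V' →ₗ[H] V) (y : (H ⧸ KI hS) ⊗[k] V') :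
    π (psi hS V' y) = psi hS V (tmap LinearMap.id π y) := by
  induction y with
  | zero => simp
  | add p q hp hq => simp only [map_add, hp, hq]
  | tmul w v =>
    obtain ⟨z, rfl⟩ := Submodule.Quotient.mk_surjective _ w
    rw [tmap_tmul, LinearMap.id_apply, psi_mk, psi_mk, map_smul]

end

section
variable [CM k H] {S : H →ₗ[k] H} (hS : IsWeakHopf k H S)

/-- the retraction -/
noncomputable def rr (V : Type) [AddCommGroup V] [Module H V] [Module k V]
    [IsScalarTower k H V] : Ten k H (H ⧸ KI hS) V →ₗ[H] V where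
  toFun x := psi hS V (Ten.val k H _ V x)
  map_add' x y := by rw [map_add, map_add]
  map_smul' h x := by rw [Ten.val_smul, psi_dact, RingHom.id_apply]

/-- the section -/
noncomputable def ss (V : Type) [AddCommGroup V] [Module H V] [Module k V]
    [IsScalarTower k H V] : V →ₗ[H] Ten k H (H ⧸ KI hS) V where
  toFun v := Ten.pr k H _ V (Submodule.Quotient.mk 1 ⊗ₜ[k] v)
  map_add' x y := by rw [TensorProduct.tmul_add, map_add]
  map_smul' h x := by
    rw [RingHom.id_apply, Ten.smul_pr]
    apply Ten.val_inj
    rw [Ten.val_pr, Ten.val_pr, dact_one_dact]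
    exact (key_s hS h V x).symm

theorem rr_ss (V : Type) [AddCommGroup V] [Module H V] [Module k V]
    [IsScalarTower k H V] : rr hS V ∘ₗ ss hS V = LinearMap.id := by
  ext v
  change psi hS V (Ten.val k H _ V (Ten.pr k H _ V (Submodule.Quotient.mk 1 ⊗ₜ[k] v))) = v
  rw [Ten.val_pr, psi_dact, one_smul]
  exact r_one hS V v (psi hS V) (psi_mk hS V)

end

end TL5

open TL5 in
/-- Task L5. -/
theorem taskL5 : TaskL5 := by
  intro k _ H _ _ _ _ S hS
  refine ⟨H ⧸ KI hS, inferInstance, inferInstance, inferInstance, inferInstance,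
    fun V _ _ _ _ => rr hS V, fun V _ _ _ _ => ⟨ss hS V, rr_ss hS V⟩, ?_⟩
  intro V _ _ _ _ V' _ _ _ _ π
  ext y
  change π (psi hS V' (Ten.val k H _ V' y)) =
    psi hS V (Ten.val k H _ V (Ten.map LinearMap.id π y))
  rw [Ten.val_map, psi_nat]

end Pool.Agent.Helper202_BG
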