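import Pool.Agent.Helper202_BG.Ten

/-!
Noetherian affine PI weak Hopf algebras have finite injective dimension: statements of the
remaining small tasks.
-/

set_option autoImplicit false

open CategoryTheory
open scoped TensorProduct

namespace Pool.Agent.Helper202_BG

/-- right multiplications -/
def rmul (A : Type) [Ring A] (r : Aᵐᵒᵖ) : A →ₗ[A] A where
  toFun x := x * r.unop
  map_add' x y := add_mul _ _ _
  map_smul' a x := by simp [mul_assoc]

/-- Task X1: the right module structure on Ext groups with values in the ring. -/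
def TaskX1 : Prop :=
  ∀ (A : Type) [Ring A] [IsNoetherianRing A] [IsNoetherianRing Aᵐᵒᵖ]
    (M : Type) [AddCommGroup M] [Module A M] [Module.Finite A M] (n : ℕ),
    ∃ (_ : Module Aᵐᵒᵖ (E A M A n)), (∀ (r : Aᵐᵒᵖ) (ξ : E A M A n), r • ξ = post (rmul A r) ξ) ∧
      IsNoetherian Aᵐᵒᵖ (E A M A n)

/-- Task X2: central scalars act in the same way from both sides. -/
def TaskX2 : Prop :=
  ∀ (A : Type) [Ring A] (M : Type) [AddCommGroup M] [Module A M] (X : Type) [AddCommGroup X]
    [Module A X] (c : A), (∀ a, a * c = c * a) →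
    ∀ (u : M →ₗ[A] M) (v : X →ₗ[A] X), (∀ m, u m = c • m) → (∀ x, v x = c • x) →
    ∀ (n : ℕ) (ξ : E A M X n), pre u ξ = post v ξ

/-- Task X3: a linear algebra lemma. -/
def TaskX3 : Prop :=
  ∀ (k : Type) [Field k] (R : Type) [Ring R] [Algebra k R],
    (∀ (S : Type) [AddCommGroup S] [Module R S] [Module k S] [IsScalarTower k R S]
      [IsSimpleModule R S], Module.Finite k S) →
    ∀ (X : Type) [AddCommGroup X] [Module R X] [Module k X] [IsScalarTower k R X]
      [Module.Finite R X] (T : Module.End k X), (∀ (r : R) (x : X), T (r • x) = r • T x) →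
      (∀ f : Polynomial k, f ≠ 0 → Function.Surjective (Polynomial.aeval T f)) →
      ∀ x : X, x = 0

/-- Task X4: injective dimension from vanishing of Ext on cyclic modules. -/
def TaskX4 : Prop :=
  ∀ (A : Type) [Ring A] (e : ℕ) (X : Type) [AddCommGroup X] [Module A X],
    (∀ (L : Ideal A) (n : ℕ), e < n → ∀ ξ : E A (A ⧸ L) X n, ξ = 0) →
    HasInjectiveDimensionLT (ModuleCat.of A X) (e + 1)

/-- Task Y1: identities of the opposite algebra. -/
def TaskY1 : Prop :=
  ∀ (k : Type) [Field k] (A : Type) [Ring A] [Algebra k A] (d : ℕ), MLPI k A d →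
    MLPI k Aᵐᵒᵖ d

/-- Task Y2: identities after extension of the base field. -/
def TaskY2 : Prop :=
  ∀ (k : Type) [Field k] (A : Type) [Ring A] [Algebra k A] (d : ℕ), MLPI k A d →
    ∀ (K : Type) [Field K] [Algebra k K], MLPI K (K ⊗[k] A) d

/-- Task Y3: multilinear identities. -/
def TaskY3 : Prop :=
  ∀ (k : Type) [Field k] (A : Type) [Ring A] [Algebra k A],
    (∃ (m : ℕ) (f : FreeAlgebra k (Fin m)), f ≠ 0 ∧
      ∀ a : Fin m → A, FreeAlgebra.lift k a f = 0) → ∃ d, MLPI k A d

/-- Task Y4: finite type of the opposite algebra. -/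
def TaskY4 : Prop :=
  ∀ (k : Type) [Field k] (A : Type) [Ring A] [Algebra k A] [Algebra.FiniteType k A],
    Algebra.FiniteType k Aᵐᵒᵖ

/-- Task Y5: finite type after extension of the base field. -/
def TaskY5 : Prop :=
  ∀ (k : Type) [Field k] (A : Type) [Ring A] [Algebra k A] [Algebra.FiniteType k A]
    (K : Type) [Field K] [Algebra k K], Algebra.FiniteType K (K ⊗[k] A)

/-- Task Y6: the ring as a module over its opposite. -/
def TaskY6 : Prop :=
  ∀ (H : Type) [Ring H], (∃ n, HasInjectiveDimensionLT (ModuleCat.of Hᵐᵒᵖ Hᵐᵒᵖ) n) →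
    ∃ n, HasInjectiveDimensionLT (ModuleCat.of Hᵐᵒᵖ H) n

/-- Task Y7: a ring is left noetherian exactly when its double opposite is. -/
def TaskY7 : Prop :=
  ∀ (H : Type) [Ring H] [IsNoetherianRing H], IsNoetherianRing Hᵐᵒᵖᵐᵒᵖ

/-- Task Z: Task W2 from the tasks of the file on tensor products. -/
def TaskZ : Prop := TaskL2 → TaskL4 → TaskL5 → TaskW1 → TaskW2

end Pool.Agent.Helper202_BG
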