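import Pool.Agent.Helper202_BG.P3h
import Pool.Agent.Helper202_BG.Stmts2

/-!
Part 3 (g): no bad modules, and the main task.
-/

set_option autoImplicit false

open CategoryTheory
open scoped TensorProduct

namespace Pool.Agent.Helper202_BG

/-- vanishing of Ext into the ring above degree `e` -/
def Good (A : Type) [Ring A] (e : ℕ) (M : Type) [AddCommGroup M] [Module A M] : Prop :=
  ∀ n, e < n → ∀ ξ : E A M A n, ξ = 0

section
variable {k A : Type} [Field k] [Ring A] [Algebra k A]

theorem Good.ext {e : ℕ} {X : Type} [AddCommGroup X] [Module A X]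
    {Y : Type} [AddCommGroup Y] [Module A Y] {Z : Type} [AddCommGroup Z] [Module A Z]
    {i : X →ₗ[A] Y} {p : Y →ₗ[A] Z} (h : SES i p) (hX : Good A e X) (hZ : Good A e Z) :
    Good A e Y := by
  intro n hn ξ
  obtain ⟨ζ, rfl⟩ := con2 h ξ (hX n hn _)
  rw [hZ n hn ζ, pre_zero]

theorem Good.subsingleton {e : ℕ} {X : Type} [AddCommGroup X] [Module A X] [Subsingleton X] :
    Good A e X := by
  intro n hn ξ
  have : (LinearMap.id : X →ₗ[A] X) = 0 := by
    ext x; exact Subsingleton.elim _ _
  rw [← pre_id ξ, this, zero_pre]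

/-- multiplication by a polynomial in `z` on a module on which `z` is central -/
noncomputable def gmul (X : Type) [AddCommGroup X] [Module A X] (z : A)
    (hz : ∀ r : A, z * r - r * z ∈ Module.annihilator A X) (f : Polynomial k) : X →ₗ[A] X where
  toFun x := Polynomial.aeval z f • x
  map_add' x y := smul_add _ _ _
  map_smul' r x := by
    have h1 := aeval_central (Module.annihilator A X) z hz f r
    rw [Module.mem_annihilator] at h1
    have h2 := h1 x
    rw [sub_smul, mul_smul, mul_smul, sub_eq_zero] at h2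
    exact h2

/-- (g) for prime modules -/
theorem good_prime [IsNoetherianRing A] [IsNoetherianRing Aᵐᵒᵖ] (hX1 : TaskX1) (hX2 : TaskX2)
    (hX3 : TaskX3)
    (hF : ∀ (S : Type) [AddCommGroup S] [Module Aᵐᵒᵖ S] [Module k S] [IsScalarTower k Aᵐᵒᵖ S]
      [IsSimpleModule Aᵐᵒᵖ S], Module.Finite k S)
    (e : ℕ) (X : Type) [AddCommGroup X] [Module A X] [Module.Finite A X] (z : A)
    (hz : ∀ r : A, z * r - r * z ∈ Module.annihilator A X)
    (hinj : ∀ f : Polynomial k, f ≠ 0 → ∀ x : X, Polynomial.aeval z f • x = 0 → x = 0)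
    (hgood : ∀ f : Polynomial k, f ≠ 0 →
      Good A e (X ⧸ LinearMap.range (gmul (k := k) X z hz f))) :
    Good A e X := by
  intro n hn ξ
  obtain ⟨mR, hmR, hnoeth⟩ := hX1 A X n
  let _ : Module k (E A X A n) := Module.compHom _ (algebraMap k Aᵐᵒᵖ)
  have hk : ∀ (c : k) (η : E A X A n), c • η = (algebraMap k Aᵐᵒᵖ c) • η := fun c η => rfl
  have _ : IsScalarTower k Aᵐᵒᵖ (E A X A n) := ⟨fun c r η => by
    rw [Algebra.smul_def, mul_smul]; rfl⟩
  let T : Module.End k (E A X A n) :=
    { toFun := fun η => pre (gmul (k := k) X z hz Polynomial.X) η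
      map_add' := fun η θ => pre_add _ _ _
      map_smul' := fun c η => by
        rw [RingHom.id_apply, hk, hk, hmR, hmR, pre_post] }
  have hTR : ∀ (r : Aᵐᵒᵖ) (η : E A X A n), T (r • η) = r • T η := by
    intro r η
    change pre _ (r • η) = r • pre _ η
    rw [hmR, hmR, pre_post]
  have hC : ∀ (c : k) (η : E A X A n),
      pre (gmul (k := k) X z hz (Polynomial.C c)) η = c • η := by
    intro c η
    rw [hk, hmR]
    apply hX2 A X A (algebraMap k A c) (fun a => (Algebra.commutes c a).symm)
    · intro x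
      change Polynomial.aeval z (Polynomial.C c) • x = _
      rw [Polynomial.aeval_C]
    · intro x
      change x * (algebraMap k Aᵐᵒᵖ c).unop = _
      rw [MulOpposite.algebraMap_apply, MulOpposite.unop_op, smul_eq_mul, Algebra.commutes]
  have hpoly : ∀ (f : Polynomial k) (η : E A X A n),
      pre (gmul (k := k) X z hz f) η = Polynomial.aeval T f η := by
    intro f
    induction f using Polynomial.induction_on with
    | C c =>
      intro η
      rw [hC, Polynomial.aeval_C]
      rfl
    | add p q hp hq =>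
      intro η
      have h1 : gmul (k := k) X z hz (p + q) =
          gmul (k := k) X z hz p + gmul (k := k) X z hz q := by
        ext x
        change Polynomial.aeval z (p + q) • x =
          Polynomial.aeval z p • x + Polynomial.aeval z q • x
        rw [map_add, add_smul]
      rw [h1, add_pre, hp, hq, map_add, LinearMap.add_apply]
    | monomial n c ih =>
      intro η
      have h0 : (Polynomial.C c * Polynomial.X ^ (n + 1) : Polynomial k) =
          (Polynomial.C c * Polynomial.X ^ n) * Polynomial.X := by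
        rw [pow_succ, mul_assoc]
      have h1 : gmul (k := k) X z hz (Polynomial.C c * Polynomial.X ^ (n + 1)) =
          gmul (k := k) X z hz (Polynomial.X : Polynomial k) ∘ₗ
            gmul (k := k) X z hz (Polynomial.C c * Polynomial.X ^ n) := by
        ext x
        change Polynomial.aeval z (Polynomial.C c * Polynomial.X ^ (n + 1)) • x =
          Polynomial.aeval z (Polynomial.X : Polynomial k) •
            Polynomial.aeval z (Polynomial.C c * Polynomial.X ^ n) • x
        rw [← mul_smul, ← map_mul, h0, mul_comm (Polynomial.X : Polynomial k)]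
      rw [h1, pre_comp, ih, h0,
        map_mul (Polynomial.aeval T) (Polynomial.C c * Polynomial.X ^ n) Polynomial.X,
        Polynomial.aeval_X]
      rfl
  refine hX3 k Aᵐᵒᵖ hF (E A X A n) T hTR ?_ ξ
  intro f hf η
  have hs : SES (gmul (k := k) X z hz f)
      (LinearMap.range (gmul (k := k) X z hz f)).mkQ := by
    apply SES.ofInj
    rw [injective_iff_map_eq_zero]
    intro x hx
    exact hinj f hf x hx
  obtain ⟨θ, hθ⟩ := con1 hs η (hgood f hf (n + 1) (by omega) _)
  exact ⟨θ, by rw [← hpoly]; exact hθ⟩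

/-- (g) -/
theorem no_bad [IsNoetherianRing A] [IsNoetherianRing Aᵐᵒᵖ] (hX1 : TaskX1) (hX2 : TaskX2)
    (hX3 : TaskX3) (hP1 : P1s k A)
    (hF : ∀ (S : Type) [AddCommGroup S] [Module Aᵐᵒᵖ S] [Module k S] [IsScalarTower k Aᵐᵒᵖ S]
      [IsSimpleModule Aᵐᵒᵖ S], Module.Finite k S)
    (e : ℕ)
    (hfin : ∀ (V : Type) [AddCommGroup V] [Module A V] [Module k V] [IsScalarTower k A V]
      [Module.Finite k V], Good A e V)
    (M₀ : Type) [AddCommGroup M₀] [Module A M₀] [Module.Finite A M₀] : Good A e M₀ := by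
  by_contra hbad
  let S : Set (Ideal A) := {I | ∃ (M : Type) (_ : AddCommGroup M) (_ : Module A M)
    (_ : Module.Finite A M), ¬ Good A e M ∧ Module.annihilator A M = I}
  obtain ⟨I, ⟨M, _, _, _, hM, rfl⟩, hmax⟩ := set_has_maximal_iff_noetherian.2
    (inferInstanceAs (IsNoetherian A A)) S ⟨_, M₀, _, _, inferInstance, hbad, rfl⟩
  apply hM
  let _ : Module k M := Module.compHom M (algebraMap k A)
  have _ : IsScalarTower k A M := ⟨fun c a y => by rw [Algebra.smul_def, mul_smul]; rfl⟩
  refine filt (k := k) (A := A) (fun X _ _ _ _ => Good A e X) ?_ ?_ M ?_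
  · intro X _ _ _ _ Y _ _ _ _ Z _ _ _ _ i p h hX hZ
    exact Good.ext h hX hZ
  · intro X _ _ _ _ hX
    exact Good.subsingleton
  · intro X _ _ _ _ _ hX hann
    by_contra hXbad
    have hle : Module.annihilator A M ≤ Module.annihilator A X := by
      intro a ha
      rw [Module.mem_annihilator] at ha ⊢
      exact hann a ha
    have heq : Module.annihilator A M = Module.annihilator A X := by
      by_contra hne
      exact hmax _ ⟨X, _, _, inferInstance, hXbad, rfl⟩ (lt_of_le_of_ne hle hne)
    have hXfin : ¬ Module.Finite k X := fun h => hXbad (hfin X)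
    obtain ⟨z, hz, hinj⟩ := hP1 X hX hXfin
    have hz' : ∀ r : A, z * r - r * z ∈ Module.annihilator A X := by
      intro r
      rw [Module.mem_annihilator]
      exact hz r
    apply hXbad
    refine good_prime (k := k) hX1 hX2 hX3 hF e X z hz' hinj ?_
    intro f hf
    by_contra hC
    refine hmax _ ⟨X ⧸ LinearMap.range (gmul (k := k) X z hz' f), _, _, inferInstance, hC,
      rfl⟩ ?_
    rw [heq]
    refine lt_of_le_of_ne ?_ ?_
    · intro a ha
      rw [Module.mem_annihilator] at ha ⊢
      intro y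
      obtain ⟨x, rfl⟩ := Submodule.mkQ_surjective _ y
      rw [← map_smul, ha, map_zero]
    · intro heq2
      have h1 : Polynomial.aeval z f ∈
          Module.annihilator A (X ⧸ LinearMap.range (gmul (k := k) X z hz' f)) := by
        rw [Module.mem_annihilator]
        intro y
        obtain ⟨x, rfl⟩ := Submodule.mkQ_surjective _ y
        rw [← map_smul, Submodule.mkQ_apply]
        exact (Submodule.Quotient.mk_eq_zero _).2 ⟨x, rfl⟩
      rw [← heq2, Module.mem_annihilator] at h1
      have hnt : Nontrivial X := hX.1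
      obtain ⟨x, hx⟩ := exists_ne (0 : X)
      exact hx (hinj f hf x (h1 x))

end

/-- the main task from the others -/
theorem taskMain (hF : TaskF) (hG : TaskG) (hH : TaskH) (hI : TaskI) (hP1 : TaskP1)
    (hP6 : TaskP6) (hX1 : TaskX1) (hX2 : TaskX2) (hX3 : TaskX3) (hX4 : TaskX4) (hY1 : TaskY1)
    (hY2 : TaskY2) (hY4 : TaskY4) (hY5 : TaskY5) : TaskMain := by
  intro k _ A _ _ _ _ _ d hd hEpi
  have hP1s : P1s k A := hP1 k A d hd
  have hP6s : P6s k A := hP6 k A d hd
  have hEA : Ess k A := hI k A d hd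
  have hV : VanW k A := by
    intro K _ _ _ W _ _ _ _ _ _ _ _ hno n V _ _ _ _ _ ξ
    have h1 : IsNoetherianRing (K ⊗[k] A) := hH k A K
    have h2 : Algebra.FiniteType K (K ⊗[k] A) := hY5 k A K
    have h3 : Ess K (K ⊗[k] A) := hI K (K ⊗[k] A) d (hY2 k A d hd K)
    exact vanishW K hP1s hEA h3 W hno n V ξ
  obtain ⟨δ, e, he, hδ⟩ := hG k A d hd
  have hfinT : Algebra.FiniteType k Aᵐᵒᵖ := hY4 k A
  refine ⟨e + 1, hX4 A e A ?_⟩
  intro L n hn ξ
  refine no_bad (k := k) hX1 hX2 hX3 hP1s (hF k Aᵐᵒᵖ d (hY1 k A d hd)) e ?_ (A ⧸ L) n hn ξ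
  intro V _ _ _ _ _ n hn ξ
  exact ext_fin hEA hP6s hV δ hδ e he hEpi n hn V ξ

end Pool.Agent.Helper202_BG
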