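import Pool.Agent.Helper202_BG.Stmts

/-!
Task W1: standard identities in a weak Hopf algebra.
-/

set_option autoImplicit false

open scoped TensorProduct

namespace Pool.Agent.Helper202_BG
namespace TW1

section
variable (k : Type) {H : Type} [Field k] [Ring H] [Algebra k H] [Coalgebra k H]

/-- comultiplication -/
noncomputable abbrev dl (x : H) : H ⊗[k] H := CoalgebraStruct.comul (R := k) (A := H) x

/-- counit -/
noncomputable abbrev ep (x : H) : k := CoalgebraStruct.counit (R := k) (A := H) x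

variable {k}

/-- target counital map -/
noncomputable def et (S : H →ₗ[k] H) : H →ₗ[k] H :=
  LinearMap.mul' k H ∘ₗ LinearMap.lTensor H S ∘ₗ CoalgebraStruct.comul (R := k) (A := H)

/-- source counital map -/
noncomputable def es (S : H →ₗ[k] H) : H →ₗ[k] H :=
  LinearMap.mul' k H ∘ₗ LinearMap.rTensor H S ∘ₗ CoalgebraStruct.comul (R := k) (A := H)

/-- a finite representation of the coproduct -/
structure Rp (k : Type) {H : Type} [Field k] [Ring H] [Algebra k H] [Coalgebra k H] (x : H) where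
  /-- number of terms -/
  n : Finset (H × H)
  eq : ∑ i ∈ n, i.1 ⊗ₜ[k] i.2 = dl k x

theorem exRp (x : H) : Nonempty (Rp k x) := by
  obtain ⟨s, hs⟩ := TensorProduct.exists_finset (R := k) (dl k x)
  exact ⟨⟨s, hs.symm⟩⟩

/-- the chosen representation -/
noncomputable def rp (x : H) : Rp k x := (exRp x).some

theorem rp_eq (x : H) : ∑ i ∈ (rp (k := k) x).n, i.1 ⊗ₜ[k] i.2 = dl k x := (rp x).eq

/-- coassociativity, expanded -/
theorem coassoc_sum {M : Type} [AddCommGroup M] [Module k M] (F : H ⊗[k] (H ⊗[k] H) →ₗ[k] M)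
    (x : H) :
    ∑ i ∈ (rp (k := k) x).n, ∑ j ∈ (rp (k := k) i.1).n, F (j.1 ⊗ₜ (j.2 ⊗ₜ i.2)) =
    ∑ i ∈ (rp (k := k) x).n, ∑ j ∈ (rp (k := k) i.2).n, F (i.1 ⊗ₜ (j.1 ⊗ₜ j.2)) := by
  have h := Coalgebra.coassoc_apply (R := k) (A := H) x
  have h2 := congrArg F h
  change F (TensorProduct.assoc k H H H (LinearMap.rTensor H _ (dl k x))) =
    F (LinearMap.lTensor H _ (dl k x)) at h2
  rw [← rp_eq x] at h2
  simp only [map_sum, LinearMap.rTensor_tmul, LinearMap.lTensor_tmul] at h2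
  have e1 : ∀ y : H, CoalgebraStruct.comul (R := k) (A := H) y =
    ∑ i ∈ (rp (k := k) y).n, i.1 ⊗ₜ[k] i.2 := fun y => (rp_eq y).symm
  simp only [e1, TensorProduct.sum_tmul, TensorProduct.tmul_sum, map_sum,
    TensorProduct.assoc_tmul] at h2
  exact h2

/-- counit law -/
theorem counit_left (x : H) : ∑ i ∈ (rp (k := k) x).n, ep k i.1 • i.2 = x := by
  have h := Coalgebra.rTensor_counit_comul (R := k) (A := H) x
  change LinearMap.rTensor H _ (dl k x) = _ at h
  rw [← rp_eq x] at h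
  simp only [map_sum, LinearMap.rTensor_tmul] at h
  have h2 := congrArg (TensorProduct.lid k H) h
  simpa only [map_sum, TensorProduct.lid_tmul, one_smul] using h2

theorem counit_right (x : H) : ∑ i ∈ (rp (k := k) x).n, ep k i.2 • i.1 = x := by
  have h := Coalgebra.lTensor_counit_comul (R := k) (A := H) x
  change LinearMap.lTensor H _ (dl k x) = _ at h
  rw [← rp_eq x] at h
  simp only [map_sum, LinearMap.lTensor_tmul] at h
  have h2 := congrArg (TensorProduct.rid k H) h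
  simpa only [map_sum, TensorProduct.rid_tmul, one_smul] using h2

variable {S : H →ₗ[k] H} (hw : IsWeakHopf k H S)

theorem et_sum (x : H) : et S x = ∑ i ∈ (rp (k := k) x).n, i.1 * S i.2 := by
  change LinearMap.mul' k H (LinearMap.lTensor H S (dl k x)) = _
  rw [← rp_eq x]
  simp only [map_sum, LinearMap.lTensor_tmul, LinearMap.mul'_apply]

theorem es_sum (x : H) : es S x = ∑ i ∈ (rp (k := k) x).n, S i.1 * i.2 := by
  change LinearMap.mul' k H (LinearMap.rTensor H S (dl k x)) = _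
  rw [← rp_eq x]
  simp only [map_sum, LinearMap.rTensor_tmul, LinearMap.mul'_apply]

include hw

theorem et_one (x : H) : et S x = ∑ i ∈ (rp (k := k) (1 : H)).n, ep k (i.1 * x) • i.2 := by
  have h := hw.antipode₁ x
  change et S x = TensorProduct.lid k H (TensorProduct.map _ LinearMap.id (dl k (1 : H))) at h
  rw [h, ← rp_eq (1 : H)]
  simp only [map_sum, TensorProduct.map_tmul, TensorProduct.lid_tmul, LinearMap.comp_apply,
    LinearMap.mulRight_apply, LinearMap.id_apply]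

theorem es_one (x : H) : es S x = ∑ i ∈ (rp (k := k) (1 : H)).n, ep k (x * i.2) • i.1 := by
  have h := hw.antipode₂ x
  change es S x = TensorProduct.rid k H (TensorProduct.map LinearMap.id _ (dl k (1 : H))) at h
  rw [h, ← rp_eq (1 : H)]
  simp only [map_sum, TensorProduct.map_tmul, TensorProduct.rid_tmul, LinearMap.comp_apply,
    LinearMap.mulLeft_apply, LinearMap.id_apply]

/-- the first form of the unit axiom: `1₁ ⊗ 1₂ ⊗ 1₃ = 1₁ ⊗ 1₂ 1₁' ⊗ 1₂'` -/
theorem one1 {M : Type} [AddCommGroup M] [Module k M] (F : H ⊗[k] (H ⊗[k] H) →ₗ[k] M) :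
    ∑ i ∈ (rp (k := k) (1 : H)).n, ∑ j ∈ (rp (k := k) i.1).n, F (j.1 ⊗ₜ (j.2 ⊗ₜ i.2)) =
    ∑ i ∈ (rp (k := k) (1 : H)).n, ∑ j ∈ (rp (k := k) (1 : H)).n,
      F (i.1 ⊗ₜ ((i.2 * j.1) ⊗ₜ j.2)) := by
  have h2 := congrArg F hw.comul_one₁
  change F (TensorProduct.assoc k H H H (LinearMap.rTensor H _ (dl k (1 : H)))) =
    F (TensorProduct.assoc k H H H (dl k (1 : H) ⊗ₜ[k] (1 : H)) * ((1 : H) ⊗ₜ[k] dl k (1 : H)))
    at h2
  rw [← rp_eq (1 : H)] at h2
  simp only [map_sum, LinearMap.rTensor_tmul, TensorProduct.sum_tmul, TensorProduct.tmul_sum,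
    TensorProduct.assoc_tmul, Finset.sum_mul, Finset.mul_sum,
    Algebra.TensorProduct.tmul_mul_tmul, one_mul, mul_one] at h2
  have e1 : ∀ y : H, CoalgebraStruct.comul (R := k) (A := H) y =
    ∑ i ∈ (rp (k := k) y).n, i.1 ⊗ₜ[k] i.2 := fun y => (rp_eq y).symm
  simp only [e1, TensorProduct.sum_tmul, map_sum, TensorProduct.assoc_tmul] at h2
  rw [h2, Finset.sum_comm]

/-- the second form of the unit axiom: `1₁ ⊗ 1₂ ⊗ 1₃ = 1₁ ⊗ 1₁' 1₂ ⊗ 1₂'` -/
theorem one2 {M : Type} [AddCommGroup M] [Module k M] (F : H ⊗[k] (H ⊗[k] H) →ₗ[k] M) :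
    ∑ i ∈ (rp (k := k) (1 : H)).n, ∑ j ∈ (rp (k := k) i.1).n, F (j.1 ⊗ₜ (j.2 ⊗ₜ i.2)) =
    ∑ i ∈ (rp (k := k) (1 : H)).n, ∑ j ∈ (rp (k := k) (1 : H)).n,
      F (i.1 ⊗ₜ ((j.1 * i.2) ⊗ₜ j.2)) := by
  have h2 := congrArg F hw.comul_one₂
  change F (TensorProduct.assoc k H H H (LinearMap.rTensor H _ (dl k (1 : H)))) =
    F (((1 : H) ⊗ₜ[k] dl k (1 : H)) * TensorProduct.assoc k H H H (dl k (1 : H) ⊗ₜ[k] (1 : H)))
    at h2
  rw [← rp_eq (1 : H)] at h2
  simp only [map_sum, LinearMap.rTensor_tmul, TensorProduct.sum_tmul, TensorProduct.tmul_sum,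
    TensorProduct.assoc_tmul, Finset.sum_mul, Finset.mul_sum,
    Algebra.TensorProduct.tmul_mul_tmul, one_mul, mul_one] at h2
  have e1 : ∀ y : H, CoalgebraStruct.comul (R := k) (A := H) y =
    ∑ i ∈ (rp (k := k) y).n, i.1 ⊗ₜ[k] i.2 := fun y => (rp_eq y).symm
  simp only [e1, TensorProduct.sum_tmul, map_sum, TensorProduct.assoc_tmul] at h2
  rw [h2]

/-- multiplicativity of the coproduct, expanded -/
theorem mul_sum {M : Type} [AddCommGroup M] [Module k M] (G : H ⊗[k] H →ₗ[k] M) (x y : H) :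
    G (dl k (x * y)) =
    ∑ i ∈ (rp (k := k) x).n, ∑ j ∈ (rp (k := k) y).n, G ((i.1 * j.1) ⊗ₜ (i.2 * j.2)) := by
  have h := congrArg G (hw.comul_mul x y)
  change G (dl k (x * y)) = G (dl k x * dl k y) at h
  rw [h, ← rp_eq x, ← rp_eq y]
  simp only [Finset.sum_mul, Finset.mul_sum, Algebra.TensorProduct.tmul_mul_tmul, map_sum]
  rw [Finset.sum_comm]

/-- (i) `x₁ ⊗ e_t(x₂) = 1₁ x ⊗ 1₂` -/
theorem id_i (x : H) : LinearMap.lTensor H (et S) (dl k x) = dl k (1 : H) * (x ⊗ₜ[k] 1) := by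
  have h0 : LinearMap.lTensor H (et S) (dl k x) = LinearMap.lTensor H (et S) (dl k (1 * x)) := by
    rw [one_mul]
  rw [h0, mul_sum hw]
  simp only [LinearMap.lTensor_tmul, et_one hw, TensorProduct.tmul_sum]
  let F : (H × H) → H ⊗[k] (H ⊗[k] H) →ₗ[k] H ⊗[k] H := fun a =>
    TensorProduct.map (LinearMap.mulRight k a.1) ((TensorProduct.lid k H).toLinearMap ∘ₗ
      TensorProduct.map (CoalgebraStruct.counit (R := k) (A := H) ∘ₗ LinearMap.mulRight k a.2)
        LinearMap.id)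
  have hF : ∀ (a : H × H) (u v w : H), F a (u ⊗ₜ (v ⊗ₜ w)) =
      (u * a.1) ⊗ₜ[k] (ep k (v * a.2) • w) := by
    intro a u v w
    simp [F]
  have h1 : ∀ a : H × H, ∑ i ∈ (rp (k := k) (1 : H)).n, ∑ j ∈ (rp (k := k) (1 : H)).n,
      (i.1 * a.1) ⊗ₜ[k] (ep k (j.1 * (i.2 * a.2)) • j.2) =
      ∑ i ∈ (rp (k := k) (1 : H)).n, ∑ j ∈ (rp (k := k) i.1).n,
        (j.1 * a.1) ⊗ₜ[k] (ep k (j.2 * a.2) • i.2) := by
    intro a
    have h := one2 hw (F a)
    simp only [hF] at h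
    rw [h]
    simp only [mul_assoc]
  rw [Finset.sum_comm]
  simp only [h1]
  rw [Finset.sum_comm]
  rw [← rp_eq (1 : H), Finset.sum_mul]
  refine Finset.sum_congr rfl fun i _ => ?_
  rw [Algebra.TensorProduct.tmul_mul_tmul, mul_one]
  let G : H ⊗[k] H →ₗ[k] H ⊗[k] H := (TensorProduct.mk k H H).flip i.2 ∘ₗ
    (TensorProduct.rid k H).toLinearMap ∘ₗ
      LinearMap.lTensor H (CoalgebraStruct.counit (R := k) (A := H))
  have hG : ∀ u v : H, G (u ⊗ₜ v) = u ⊗ₜ[k] (ep k v • i.2) := by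
    intro u v
    simp [G]
  have h2 := mul_sum hw G i.1 x
  simp only [hG] at h2
  rw [Finset.sum_comm, ← h2]
  change ((TensorProduct.rid k H) (LinearMap.lTensor H _ (dl k (i.1 * x)))) ⊗ₜ[k] i.2 = _
  rw [Coalgebra.lTensor_counit_comul, TensorProduct.rid_tmul, one_smul]

/-- `ε(xyz) = ε(x y₁) ε(y₂ z)` -/
theorem ep1 (x y z : H) : ep k (x * y * z) =
    ∑ i ∈ (rp (k := k) y).n, ep k (x * i.1) * ep k (i.2 * z) := by
  have h := hw.counit_mul₁ x y z
  change _ = LinearMap.mul' k k (TensorProduct.map _ _ (dl k y)) at h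
  rw [← rp_eq y] at h
  simpa only [map_sum, TensorProduct.map_tmul, LinearMap.mul'_apply, LinearMap.comp_apply,
    LinearMap.mulLeft_apply, LinearMap.mulRight_apply] using h

/-- `ε(xyz) = ε(x y₂) ε(y₁ z)` -/
theorem ep2 (x y z : H) : ep k (x * y * z) =
    ∑ i ∈ (rp (k := k) y).n, ep k (x * i.2) * ep k (i.1 * z) := by
  have h := hw.counit_mul₂ x y z
  change _ = LinearMap.mul' k k (TensorProduct.map _ _ (TensorProduct.comm k H H (dl k y))) at h
  rw [← rp_eq y] at h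
  simpa only [map_sum, TensorProduct.comm_tmul, TensorProduct.map_tmul, LinearMap.mul'_apply,
    LinearMap.comp_apply, LinearMap.mulLeft_apply, LinearMap.mulRight_apply] using h

/-- `S(x) = e_s(x₁) S(x₂)` -/
theorem S_es (x : H) : S x = ∑ i ∈ (rp (k := k) x).n, es S i.1 * S i.2 := by
  have h := hw.antipode₃ x
  change LinearMap.mul' k H (TensorProduct.map _ S (LinearMap.rTensor H _ (dl k x))) = _ at h
  rw [← rp_eq x] at h
  simp only [map_sum, LinearMap.rTensor_tmul, TensorProduct.map_tmul, LinearMap.mul'_apply,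
    LinearMap.comp_apply] at h
  rw [← h]
  rfl

/-- `S(x) = S(x₁) e_t(x₂)` -/
theorem S_et (x : H) : S x = ∑ i ∈ (rp (k := k) x).n, S i.1 * et S i.2 := by
  rw [S_es hw x]
  simp only [es_sum, et_sum, Finset.sum_mul, Finset.mul_sum]
  have h := coassoc_sum (k := k) (LinearMap.mul' k H ∘ₗ
    TensorProduct.map S (LinearMap.mul' k H ∘ₗ LinearMap.lTensor H S)) x
  simp only [LinearMap.comp_apply, TensorProduct.map_tmul, LinearMap.lTensor_tmul,
    LinearMap.mul'_apply] at h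
  simp only [mul_assoc]
  exact h

/-- `S(x) = S(1₁ x) 1₂` -/
theorem S_one_mul (x : H) : S x = ∑ i ∈ (rp (k := k) (1 : H)).n, S (i.1 * x) * i.2 := by
  rw [S_et hw x]
  have h := congrArg (LinearMap.mul' k H ∘ₗ LinearMap.rTensor H S) (id_i hw x)
  rw [← rp_eq x, ← rp_eq (1 : H), Finset.sum_mul] at h
  simpa only [map_sum, LinearMap.comp_apply, LinearMap.lTensor_tmul, LinearMap.rTensor_tmul,
    LinearMap.mul'_apply, Algebra.TensorProduct.tmul_mul_tmul, mul_one] using h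

/-- `1₁ ⊗ S(1₂) = 1₁ ⊗ e_s(1₂)` -/
theorem S_es_one : LinearMap.lTensor H S (dl k (1 : H)) =
    LinearMap.lTensor H (es S) (dl k (1 : H)) := by
  rw [← rp_eq (1 : H)]
  simp only [map_sum, LinearMap.lTensor_tmul]
  let F : H ⊗[k] (H ⊗[k] H) →ₗ[k] H ⊗[k] H :=
    LinearMap.lTensor H (LinearMap.mul' k H ∘ₗ LinearMap.rTensor H S)
  have hF : ∀ u v w : H, F (u ⊗ₜ (v ⊗ₜ w)) = u ⊗ₜ[k] (S v * w) := by
    intro u v w
    simp [F]
  have h := one2 hw F
  rw [coassoc_sum] at h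
  simp only [hF] at h
  simp only [es_sum, TensorProduct.tmul_sum]
  rw [h]
  refine Finset.sum_congr rfl fun i _ => ?_
  rw [S_one_mul hw i.2, TensorProduct.tmul_sum]

/-- `x₁ ⊗ e_s(x₂) = x 1₁ ⊗ e_s(1₂)` -/
theorem es_right (x : H) : LinearMap.lTensor H (es S) (dl k x) =
    (x ⊗ₜ[k] 1) * LinearMap.lTensor H (es S) (dl k (1 : H)) := by
  have h0 : LinearMap.lTensor H (es S) (dl k x) = LinearMap.lTensor H (es S) (dl k (x * 1)) := by
    rw [mul_one]
  rw [h0, mul_sum hw, ← rp_eq (1 : H)]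
  simp only [LinearMap.lTensor_tmul, map_sum, Finset.mul_sum,
    Algebra.TensorProduct.tmul_mul_tmul, one_mul]
  let F : (H × H) → H ⊗[k] (H ⊗[k] H) →ₗ[k] H ⊗[k] H := fun a =>
    TensorProduct.map (LinearMap.mulLeft k a.1) ((TensorProduct.lid k H).toLinearMap ∘ₗ
      TensorProduct.map (CoalgebraStruct.counit (R := k) (A := H) ∘ₗ LinearMap.mulLeft k a.2)
        (es S))
  have hF : ∀ (a : H × H) (u v w : H), F a (u ⊗ₜ (v ⊗ₜ w)) =
      (a.1 * u) ⊗ₜ[k] (ep k (a.2 * v) • es S w) := by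
    intro a u v w
    simp [F]
  have h1 : ∀ a i : H × H, (a.1 * i.1) ⊗ₜ[k] es S (a.2 * i.2) =
      ∑ j ∈ (rp (k := k) i.2).n, F a (i.1 ⊗ₜ (j.1 ⊗ₜ j.2)) := by
    intro a i
    simp only [hF]
    rw [← TensorProduct.tmul_sum]
    congr 1
    simp only [es_one hw, ep1 hw, Finset.sum_smul, Finset.smul_sum, smul_smul]
    rw [Finset.sum_comm]
  simp only [h1]
  have h2 : ∀ a : H × H, ∑ i ∈ (rp (k := k) (1 : H)).n, ∑ j ∈ (rp (k := k) i.2).n,
      F a (i.1 ⊗ₜ (j.1 ⊗ₜ j.2)) = ∑ i ∈ (rp (k := k) (1 : H)).n, ∑ j ∈ (rp (k := k) i.1).n,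
      F a (j.1 ⊗ₜ (j.2 ⊗ₜ i.2)) := fun a => (coassoc_sum (F a) 1).symm
  simp only [h2]
  simp only [hF]
  rw [Finset.sum_comm]
  refine Finset.sum_congr rfl fun i _ => ?_
  let G : H ⊗[k] H →ₗ[k] H ⊗[k] H := (TensorProduct.mk k H H).flip (es S i.2) ∘ₗ
    (TensorProduct.rid k H).toLinearMap ∘ₗ
      LinearMap.lTensor H (CoalgebraStruct.counit (R := k) (A := H))
  have hG : ∀ u v : H, G (u ⊗ₜ v) = u ⊗ₜ[k] (ep k v • es S i.2) := by
    intro u v
    simp [G]
  have h3 := mul_sum hw G x i.1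
  simp only [hG] at h3
  rw [Finset.sum_comm] at h3
  rw [Finset.sum_comm, ← h3]
  change ((TensorProduct.rid k H) (LinearMap.lTensor H _ (dl k (x * i.1)))) ⊗ₜ[k] es S i.2 = _
  rw [Coalgebra.lTensor_counit_comul, TensorProduct.rid_tmul, one_smul]

/-- (ii) `x₁ ⊗ e_s(x₂) = x 1₁ ⊗ S(1₂)` -/
theorem id_ii (x : H) : LinearMap.lTensor H (es S) (dl k x) =
    (x ⊗ₜ[k] 1) * LinearMap.lTensor H S (dl k (1 : H)) := by
  rw [S_es_one hw, es_right hw x]

/-- (iii) -/
theorem S_one : S 1 = 1 := by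
  have h : S (1 : H) = es S 1 := by
    rw [S_one_mul hw 1, es_sum]
    simp only [mul_one]
  rw [h, es_one hw]
  simp only [one_mul]
  exact counit_right (k := k) 1

/-- `ε(a e_t(y)) = ε(a y)` -/
theorem ep_et (a y : H) : ep k (a * et S y) = ep k (a * y) := by
  have h := ep2 hw a 1 y
  rw [mul_one] at h
  rw [h, et_one hw y, Finset.mul_sum]
  simp only [ep, map_sum, mul_smul_comm, map_smul, smul_eq_mul]
  refine Finset.sum_congr rfl fun i _ => ?_
  rw [mul_comm]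

/-- `ε(e_s(x) y) = ε(x y)` -/
theorem ep_es (x y : H) : ep k (es S x * y) = ep k (x * y) := by
  have h := ep2 hw x 1 y
  rw [mul_one] at h
  rw [h, es_one hw x, Finset.sum_mul]
  simp only [ep, map_sum, smul_mul_assoc, map_smul, smul_eq_mul]

theorem et_mul (x y : H) : et S (x * y) = et S (x * et S y) := by
  rw [et_one hw, et_one hw (x * et S y)]
  simp only [← mul_assoc, ep_et hw]

theorem es_mul (x y : H) : es S (x * y) = es S (es S x * y) := by
  rw [es_one hw, es_one hw (es S x * y)]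
  simp only [mul_assoc, ep_es hw]

/-- `Δ(e_t(y)) = 1₁ e_t(y) ⊗ 1₂` -/
theorem dl_et (y : H) : dl k (et S y) = dl k (1 : H) * (et S y ⊗ₜ[k] 1) := by
  let F : H ⊗[k] (H ⊗[k] H) →ₗ[k] H ⊗[k] H :=
    (TensorProduct.lid k (H ⊗[k] H)).toLinearMap ∘ₗ
      TensorProduct.map (CoalgebraStruct.counit (R := k) (A := H) ∘ₗ LinearMap.mulRight k y)
        LinearMap.id
  have hF : ∀ u v w : H, F (u ⊗ₜ (v ⊗ₜ w)) = ep k (u * y) • (v ⊗ₜ[k] w) := by
    intro u v w
    simp [F]
  have h := one2 hw F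
  rw [coassoc_sum] at h
  simp only [hF] at h
  simp only [← Finset.smul_sum, rp_eq] at h
  have h1 : dl k (et S y) = ∑ i ∈ (rp (k := k) (1 : H)).n, ep k (i.1 * y) • dl k i.2 := by
    rw [et_one hw y]
    simp only [dl, map_sum, map_smul]
  rw [h1, h]
  simp only [Finset.smul_sum]
  rw [Finset.sum_comm, ← rp_eq (1 : H), Finset.sum_mul]
  refine Finset.sum_congr rfl fun i _ => ?_
  rw [Algebra.TensorProduct.tmul_mul_tmul, mul_one, et_one hw y, Finset.mul_sum,
    TensorProduct.sum_tmul]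
  simp only [mul_smul_comm, TensorProduct.smul_tmul']

/-- `Δ(e_t(y)) = e_t(y) 1₁ ⊗ 1₂` -/
theorem dl_et' (y : H) : dl k (et S y) = (et S y ⊗ₜ[k] 1) * dl k (1 : H) := by
  let F : H ⊗[k] (H ⊗[k] H) →ₗ[k] H ⊗[k] H :=
    (TensorProduct.lid k (H ⊗[k] H)).toLinearMap ∘ₗ
      TensorProduct.map (CoalgebraStruct.counit (R := k) (A := H) ∘ₗ LinearMap.mulRight k y)
        LinearMap.id
  have hF : ∀ u v w : H, F (u ⊗ₜ (v ⊗ₜ w)) = ep k (u * y) • (v ⊗ₜ[k] w) := by
    intro u v w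
    simp [F]
  have h := one1 hw F
  rw [coassoc_sum] at h
  simp only [hF] at h
  simp only [← Finset.smul_sum, rp_eq] at h
  have h1 : dl k (et S y) = ∑ i ∈ (rp (k := k) (1 : H)).n, ep k (i.1 * y) • dl k i.2 := by
    rw [et_one hw y]
    simp only [dl, map_sum, map_smul]
  rw [h1, h]
  simp only [Finset.smul_sum]
  rw [Finset.sum_comm, ← rp_eq (1 : H), Finset.mul_sum]
  refine Finset.sum_congr rfl fun i _ => ?_
  rw [Algebra.TensorProduct.tmul_mul_tmul, one_mul, et_one hw y, Finset.sum_mul,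
    TensorProduct.sum_tmul]
  simp only [smul_mul_assoc, TensorProduct.smul_tmul']

/-- `Δ(e_s(x)) = 1₁ ⊗ 1₂ e_s(x)` -/
theorem dl_es (x : H) : dl k (es S x) = dl k (1 : H) * ((1 : H) ⊗ₜ[k] es S x) := by
  let F : H ⊗[k] (H ⊗[k] H) →ₗ[k] H ⊗[k] H :=
    LinearMap.lTensor H ((TensorProduct.rid k H).toLinearMap ∘ₗ
      TensorProduct.map LinearMap.id
        (CoalgebraStruct.counit (R := k) (A := H) ∘ₗ LinearMap.mulLeft k x))
  have hF : ∀ u v w : H, F (u ⊗ₜ (v ⊗ₜ w)) = u ⊗ₜ[k] (ep k (x * w) • v) := by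
    intro u v w
    simp [F]
  have h := one1 hw F
  simp only [hF] at h
  have h1 : dl k (es S x) = ∑ i ∈ (rp (k := k) (1 : H)).n, ∑ j ∈ (rp (k := k) i.1).n,
      j.1 ⊗ₜ[k] (ep k (x * i.2) • j.2) := by
    rw [es_one hw x]
    simp only [TensorProduct.tmul_smul, ← Finset.smul_sum, rp_eq]
    simp only [dl, map_sum, map_smul]
  rw [h1, h, ← rp_eq (1 : H), Finset.sum_mul]
  refine Finset.sum_congr rfl fun i _ => ?_
  rw [Algebra.TensorProduct.tmul_mul_tmul, mul_one, es_one hw x, Finset.mul_sum,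
    TensorProduct.tmul_sum]
  simp only [mul_smul_comm]

/-- `Δ(e_s(x)) = 1₁ ⊗ e_s(x) 1₂` -/
theorem dl_es' (x : H) : dl k (es S x) = ((1 : H) ⊗ₜ[k] es S x) * dl k (1 : H) := by
  let F : H ⊗[k] (H ⊗[k] H) →ₗ[k] H ⊗[k] H :=
    LinearMap.lTensor H ((TensorProduct.rid k H).toLinearMap ∘ₗ
      TensorProduct.map LinearMap.id
        (CoalgebraStruct.counit (R := k) (A := H) ∘ₗ LinearMap.mulLeft k x))
  have hF : ∀ u v w : H, F (u ⊗ₜ (v ⊗ₜ w)) = u ⊗ₜ[k] (ep k (x * w) • v) := by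
    intro u v w
    simp [F]
  have h := one2 hw F
  simp only [hF] at h
  have h1 : dl k (es S x) = ∑ i ∈ (rp (k := k) (1 : H)).n, ∑ j ∈ (rp (k := k) i.1).n,
      j.1 ⊗ₜ[k] (ep k (x * i.2) • j.2) := by
    rw [es_one hw x]
    simp only [TensorProduct.tmul_smul, ← Finset.smul_sum, rp_eq]
    simp only [dl, map_sum, map_smul]
  rw [h1, h, ← rp_eq (1 : H), Finset.mul_sum]
  refine Finset.sum_congr rfl fun i _ => ?_
  rw [Algebra.TensorProduct.tmul_mul_tmul, one_mul, es_one hw x, Finset.sum_mul,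
    TensorProduct.tmul_sum]
  simp only [smul_mul_assoc]

theorem dl_one_mul (x : H) : dl k (1 : H) * dl k x = dl k x := by
  have h := hw.comul_mul 1 x
  rw [one_mul] at h
  exact h.symm

theorem dl_mul_one (x : H) : dl k x * dl k (1 : H) = dl k x := by
  have h := hw.comul_mul x 1
  rw [mul_one] at h
  exact h.symm

/-- the target and source counital subalgebras commute -/
theorem et_es_comm (x y : H) : et S y * es S x = es S x * et S y := by
  have h1 : dl k (et S y * es S x) = dl k (es S x * et S y) := by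
    have a1 : dl k (et S y * es S x) = dl k (et S y) * dl k (es S x) := hw.comul_mul _ _
    have a2 : dl k (es S x * et S y) = dl k (es S x) * dl k (et S y) := hw.comul_mul _ _
    have b1 : dl k (et S y) = dl k (1 : H) * (et S y ⊗ₜ[k] 1) := dl_et hw y
    have b2 : dl k (et S y) = (et S y ⊗ₜ[k] 1) * dl k (1 : H) := dl_et' hw y
    have b3 : dl k (es S x) = dl k (1 : H) * ((1 : H) ⊗ₜ[k] es S x) := dl_es hw x
    have b4 : dl k (es S x) = ((1 : H) ⊗ₜ[k] es S x) * dl k (1 : H) := dl_es' hw x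
    have c1 : dl k (et S y) * dl k (es S x) =
        dl k (1 : H) * (et S y ⊗ₜ[k] es S x) * dl k (1 : H) := by
      rw [b1, b4, mul_assoc, mul_assoc, ← mul_assoc (et S y ⊗ₜ[k] (1 : H)),
        Algebra.TensorProduct.tmul_mul_tmul, mul_one, one_mul]
    have c2 : dl k (es S x) * dl k (et S y) =
        dl k (1 : H) * (et S y ⊗ₜ[k] es S x) * dl k (1 : H) := by
      rw [b3, b2, mul_assoc, mul_assoc, ← mul_assoc ((1 : H) ⊗ₜ[k] es S x),
        Algebra.TensorProduct.tmul_mul_tmul, mul_one, one_mul]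
    rw [a1, a2, c1, c2]
  have h2 := congrArg (fun t => TensorProduct.lid k H
    (LinearMap.rTensor H (CoalgebraStruct.counit (R := k) (A := H)) t)) h1
  simpa only [dl, Coalgebra.rTensor_counit_comul, TensorProduct.lid_tmul, one_smul] using h2

/-- `e_t(x z) = x₁ z S(x₂)` for `z = e_t(y)` -/
theorem et_mul_et (x y : H) : et S (x * et S y) =
    ∑ i ∈ (rp (k := k) x).n, i.1 * et S y * S i.2 := by
  change LinearMap.mul' k H (LinearMap.lTensor H S (dl k (x * et S y))) = _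
  have h : dl k (x * et S y) = dl k x * (et S y ⊗ₜ[k] 1) := by
    have a1 : dl k (x * et S y) = dl k x * dl k (et S y) := hw.comul_mul _ _
    rw [a1, dl_et hw, ← mul_assoc, dl_mul_one hw]
  rw [h, ← rp_eq x, Finset.sum_mul]
  simp only [Algebra.TensorProduct.tmul_mul_tmul, mul_one, map_sum, LinearMap.lTensor_tmul,
    LinearMap.mul'_apply]

/-- `e_s(w y) = S(y₁) w y₂` for `w = e_s(x)` -/
theorem es_es_mul (x y : H) : es S (es S x * y) =
    ∑ i ∈ (rp (k := k) y).n, S i.1 * (es S x * i.2) := by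
  change LinearMap.mul' k H (LinearMap.rTensor H S (dl k (es S x * y))) = _
  have h : dl k (es S x * y) = ((1 : H) ⊗ₜ[k] es S x) * dl k y := by
    have a1 : dl k (es S x * y) = dl k (es S x) * dl k y := hw.comul_mul _ _
    rw [a1, dl_es' hw, mul_assoc, dl_one_mul hw]
  rw [h, ← rp_eq y, Finset.mul_sum]
  simp only [Algebra.TensorProduct.tmul_mul_tmul, one_mul, map_sum, LinearMap.rTensor_tmul,
    LinearMap.mul'_apply]

/-- the trilinear map `u ⊗ (v ⊗ w) ↦ f u * (v * m * g w)` -/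
noncomputable def tri (f g : H →ₗ[k] H) (m : H) : H ⊗[k] (H ⊗[k] H) →ₗ[k] H :=
  LinearMap.mul' k H ∘ₗ TensorProduct.map f
    (LinearMap.mul' k H ∘ₗ TensorProduct.map (LinearMap.mulRight k m) g)

omit hw [Coalgebra k H] in
theorem tri_tmul (f g : H →ₗ[k] H) (m u v w : H) :
    tri f g m (u ⊗ₜ (v ⊗ₜ w)) = f u * (v * m * g w) := by
  simp [tri]

/-- `S` is antimultiplicative -/
theorem S_mul (x y : H) : S (x * y) = S y * S x := by
  have s1 : S (x * y) = ∑ a ∈ (rp (k := k) x).n, ∑ b ∈ (rp (k := k) y).n,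
      S (a.1 * b.1) * et S (a.2 * b.2) := by
    rw [S_et hw (x * y)]
    have h := mul_sum hw (LinearMap.mul' k H ∘ₗ TensorProduct.map S (et S)) x y
    rw [← rp_eq (x * y)] at h
    simpa only [map_sum, LinearMap.comp_apply, TensorProduct.map_tmul, LinearMap.mul'_apply]
      using h
  have s2 : S (x * y) = ∑ a ∈ (rp (k := k) x).n, ∑ c ∈ (rp (k := k) a.1).n,
      ∑ b ∈ (rp (k := k) y).n, S (c.1 * b.1) * (c.2 * et S b.2 * S a.2) := by
    rw [s1, Finset.sum_comm]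
    have h1 : ∀ b : H × H, ∑ a ∈ (rp (k := k) x).n, S (a.1 * b.1) * et S (a.2 * b.2) =
        ∑ a ∈ (rp (k := k) x).n, ∑ c ∈ (rp (k := k) a.1).n,
          S (c.1 * b.1) * (c.2 * et S b.2 * S a.2) := by
      intro b
      have h := coassoc_sum (k := k) (tri (S ∘ₗ LinearMap.mulRight k b.1) S (et S b.2)) x
      simp only [tri_tmul, LinearMap.comp_apply, LinearMap.mulRight_apply] at h
      rw [h]
      refine Finset.sum_congr rfl fun a _ => ?_
      rw [et_mul hw, et_mul_et hw, Finset.mul_sum]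
    simp only [h1]
    rw [Finset.sum_comm]
    refine Finset.sum_congr rfl fun a _ => ?_
    rw [Finset.sum_comm]
  have s3 : S (x * y) = ∑ a ∈ (rp (k := k) x).n, ∑ b ∈ (rp (k := k) y).n,
      es S (a.1 * b.1) * (S b.2 * S a.2) := by
    rw [s2]
    refine Finset.sum_congr rfl fun a _ => ?_
    have h1 : ∀ c : H × H, ∑ b ∈ (rp (k := k) y).n, S (c.1 * b.1) * (c.2 * et S b.2 * S a.2) =
        ∑ b ∈ (rp (k := k) y).n, ∑ d ∈ (rp (k := k) b.1).n,
          S (c.1 * d.1) * (c.2 * d.2) * (S b.2 * S a.2) := by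
      intro c
      have h := coassoc_sum (k := k) (LinearMap.mulRight k (S a.2) ∘ₗ
        tri (LinearMap.mulRight k c.2 ∘ₗ S ∘ₗ LinearMap.mulLeft k c.1) S 1) y
      simp only [LinearMap.comp_apply, tri_tmul, LinearMap.mulRight_apply,
        LinearMap.mulLeft_apply, mul_one] at h
      simp only [et_sum, Finset.mul_sum, Finset.sum_mul]
      simp only [mul_assoc] at h ⊢
      exact h.symm
    simp only [h1]
    rw [Finset.sum_comm]
    refine Finset.sum_congr rfl fun b _ => ?_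
    have h2 := mul_sum hw (LinearMap.mul' k H ∘ₗ LinearMap.rTensor H S) a.1 b.1
    change es S (a.1 * b.1) = _ at h2
    simp only [LinearMap.comp_apply, LinearMap.rTensor_tmul, LinearMap.mul'_apply] at h2
    rw [h2]
    simp only [Finset.sum_mul]
  rw [s3, S_es hw x, Finset.mul_sum]
  refine Finset.sum_congr rfl fun a _ => ?_
  have h3 := coassoc_sum (k := k) (LinearMap.mulRight k (S a.2) ∘ₗ
        tri (LinearMap.mulRight k (es S a.1) ∘ₗ S) S 1) y
  simp only [LinearMap.comp_apply, tri_tmul, LinearMap.mulRight_apply, mul_one] at h3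
  have h4 : ∀ b : H × H, es S (a.1 * b.1) * (S b.2 * S a.2) = ∑ d ∈ (rp (k := k) b.1).n,
      S d.1 * es S a.1 * (d.2 * S b.2) * S a.2 := by
    intro b
    rw [es_mul hw, es_es_mul hw, Finset.sum_mul]
    simp only [mul_assoc]
  simp only [h4]
  rw [h3, S_et hw y, Finset.sum_mul]
  refine Finset.sum_congr rfl fun b _ => ?_
  rw [mul_assoc (S b.1), ← mul_assoc (et S b.2), et_es_comm hw, et_sum b.2]
  simp only [Finset.mul_sum, Finset.sum_mul, mul_assoc]

end

end TW1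

/-- Task W1. -/
theorem taskW1 : TaskW1 := by
  intro k _ H _ _ _ S hw
  exact ⟨TW1.S_one hw, TW1.S_mul hw, TW1.id_i hw, TW1.id_ii hw⟩

end Pool.Agent.Helper202_BG
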