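import Pool.Agent.Helper202_BG.Part1
import Pool.Agent.Helper202_BG.P3i
import Pool.Agent.Helper202_BG.W1

/-!
Noetherian affine PI weak Hopf algebras have finite injective dimension.
-/

set_option autoImplicit false

open CategoryTheory
open scoped TensorProduct

namespace Pool.Agent.Helper202_BG

/-- one-sided version -/
theorem onesided (hMain : TaskMain) (hW2 : TaskW2) (hY3 : TaskY3) (k : Type) [Field k] (H : Type)
    [Ring H] [Algebra k H] [Coalgebra k H] (S : H →ₗ[k] H) (hS : IsWeakHopf k H S)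
    [IsNoetherianRing H] [IsNoetherianRing Hᵐᵒᵖ] [Algebra.FiniteType k H] (d : ℕ)
    (hd : MLPI k H d) : ∃ n : ℕ, HasInjectiveDimensionLT (ModuleCat.of H H) n :=
  hMain k H d hd (hW2 k H S hS)

theorem twosided (hMain : TaskMain) (hW2 : TaskW2) (hY3 : TaskY3) (hOp : TaskOp) (hY1 : TaskY1)
    (hY4 : TaskY4) (hY6 : TaskY6) (hY7 : TaskY7)
    (k : Type) [Field k] (H : Type)
    [Ring H] [Algebra k H] [Coalgebra k H] (S : H →ₗ[k] H) (hS : IsWeakHopf k H S)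
    [IsNoetherianRing H] [IsNoetherianRing Hᵐᵒᵖ] [Algebra.FiniteType k H]
    (hPI : ∃ (m : ℕ) (f : FreeAlgebra k (Fin m)), f ≠ 0 ∧
      ∀ a : Fin m → H, FreeAlgebra.lift k a f = 0) :
    (∃ n : ℕ, HasInjectiveDimensionLT (ModuleCat.of H H) n) ∧
      (∃ n : ℕ, HasInjectiveDimensionLT (ModuleCat.of Hᵐᵒᵖ H) n) := by
  obtain ⟨d, hd⟩ := hY3 k H hPI
  refine ⟨onesided hMain hW2 hY3 k H S hS d hd, hY6 H ?_⟩
  obtain ⟨_, S', hS'⟩ := hOp k H S hS
  have h1 : IsNoetherianRing Hᵐᵒᵖᵐᵒᵖ := hY7 H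
  have h2 : Algebra.FiniteType k Hᵐᵒᵖ := hY4 k H
  exact onesided hMain hW2 hY3 k Hᵐᵒᵖ S' hS' d (hY1 k H d hd)

end Pool.Agent.Helper202_BG
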