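import Pool.Agent.Helper202_BG.W1

/-!
Task Op: the opposite algebra with the opposite coproduct is again a weak Hopf algebra.
-/

set_option autoImplicit false

open scoped TensorProduct

namespace Pool.Agent.Helper202_BG
namespace TOp

open TW1

section
variable {k H B : Type} [Field k] [Ring H] [Algebra k H] [Coalgebra k H]
variable [Ring B] [Algebra k B]

/-- the opposite coproduct transported along `φ` -/
noncomputable def opComul (φ : H ≃ₗ[k] B) : B →ₗ[k] B ⊗[k] B :=
  TensorProduct.map φ.toLinearMap φ.toLinearMap ∘ₗ (TensorProduct.comm k H H).toLinearMap ∘ₗ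
    CoalgebraStruct.comul (R := k) (A := H) ∘ₗ φ.symm.toLinearMap

theorem opComul_apply (φ : H ≃ₗ[k] B) (x : H) :
    opComul φ (φ x) = ∑ i ∈ (rp (k := k) x).n, φ i.2 ⊗ₜ[k] φ i.1 := by
  have h : opComul φ (φ x) = TensorProduct.map φ.toLinearMap φ.toLinearMap
      (TensorProduct.comm k H H (dl k x)) := by
    simp [opComul]
  rw [h, ← rp_eq x]
  simp

/-- the trilinear flip -/
noncomputable def flip3 (φ : H ≃ₗ[k] B) : H ⊗[k] (H ⊗[k] H) →ₗ[k] B ⊗[k] (B ⊗[k] B) :=
  (TensorProduct.assoc k B B B).toLinearMap ∘ₗ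
    (TensorProduct.comm k B (B ⊗[k] B)).toLinearMap ∘ₗ
    TensorProduct.map φ.toLinearMap ((TensorProduct.comm k B B).toLinearMap ∘ₗ
      TensorProduct.map φ.toLinearMap φ.toLinearMap)

omit [Coalgebra k H] in
theorem flip3_tmul (φ : H ≃ₗ[k] B) (u v w : H) :
    flip3 φ (u ⊗ₜ (v ⊗ₜ w)) = φ w ⊗ₜ[k] (φ v ⊗ₜ[k] φ u) := by
  simp [flip3]

theorem opCoassoc (φ : H ≃ₗ[k] B) (x : H) :
    TensorProduct.assoc k B B B (LinearMap.rTensor B (opComul φ) (opComul φ (φ x))) =
      ∑ i ∈ (rp (k := k) x).n, ∑ j ∈ (rp (k := k) i.1).n, flip3 φ (j.1 ⊗ₜ (j.2 ⊗ₜ i.2)) := by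
  rw [coassoc_sum, opComul_apply]
  simp only [map_sum, LinearMap.rTensor_tmul, opComul_apply, TensorProduct.sum_tmul,
    TensorProduct.assoc_tmul, flip3_tmul]

/-- the opposite coalgebra transported along `φ` -/
@[instance_reducible] noncomputable def opCoalg (φ : H ≃ₗ[k] B) : Coalgebra k B where
  comul := opComul φ
  counit := CoalgebraStruct.counit (R := k) (A := H) ∘ₗ φ.symm.toLinearMap
  coassoc := by
    refine LinearMap.ext fun b => ?_
    obtain ⟨x, rfl⟩ := φ.surjective b
    change TensorProduct.assoc k B B B (LinearMap.rTensor B (opComul φ) (opComul φ (φ x))) =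
      LinearMap.lTensor B (opComul φ) (opComul φ (φ x))
    rw [opCoassoc, opComul_apply]
    simp only [map_sum, LinearMap.lTensor_tmul, opComul_apply, TensorProduct.tmul_sum,
      flip3_tmul]
  rTensor_counit_comp_comul := by
    refine LinearMap.ext fun b => ?_
    obtain ⟨x, rfl⟩ := φ.surjective b
    change LinearMap.rTensor B _ (opComul φ (φ x)) = (1 : k) ⊗ₜ[k] φ x
    rw [opComul_apply]
    simp only [map_sum, LinearMap.rTensor_tmul, LinearMap.comp_apply, LinearEquiv.coe_coe,
      LinearEquiv.symm_apply_apply]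
    have h := congrArg (fun t => (1 : k) ⊗ₜ[k] φ t) (counit_right (k := k) x)
    simp only [map_sum, TensorProduct.tmul_sum, map_smul] at h
    rw [← h]
    refine Finset.sum_congr rfl fun i _ => ?_
    rw [← TensorProduct.smul_tmul, smul_eq_mul, mul_one]
  lTensor_counit_comp_comul := by
    refine LinearMap.ext fun b => ?_
    obtain ⟨x, rfl⟩ := φ.surjective b
    change LinearMap.lTensor B _ (opComul φ (φ x)) = φ x ⊗ₜ[k] (1 : k)
    rw [opComul_apply]
    simp only [map_sum, LinearMap.lTensor_tmul, LinearMap.comp_apply, LinearEquiv.coe_coe,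
      LinearEquiv.symm_apply_apply]
    have h := congrArg (fun t => φ t ⊗ₜ[k] (1 : k)) (counit_left (k := k) x)
    simp only [map_sum, TensorProduct.sum_tmul, map_smul] at h
    rw [← h]
    refine Finset.sum_congr rfl fun i _ => ?_
    rw [TensorProduct.smul_tmul, smul_eq_mul, mul_one]

end

section
variable {k H B : Type} [Field k] [Ring H] [Algebra k H] [Coalgebra k H]
variable [Ring B] [Algebra k B] [Coalgebra k B]

/-- The opposite algebra with the opposite coproduct is a weak Hopf algebra. -/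
theorem op_gen {S : H →ₗ[k] H} (hw : IsWeakHopf k H S) (φ : H ≃ₗ[k] B) (h1 : φ 1 = 1)
    (hmul : ∀ x y : H, φ (x * y) = φ y * φ x)
    (hd : ∀ x : H, CoalgebraStruct.comul (R := k) (A := B) (φ x) = opComul φ (φ x))
    (he : ∀ x : H, CoalgebraStruct.counit (R := k) (A := B) (φ x) =
      CoalgebraStruct.counit (R := k) (A := H) x) :
    IsWeakHopf k B (φ.toLinearMap ∘ₗ S ∘ₗ φ.symm.toLinearMap) := by
  have hd' : ∀ x : H, CoalgebraStruct.comul (R := k) (A := B) (φ x) =
      ∑ i ∈ (rp (k := k) x).n, φ i.2 ⊗ₜ[k] φ i.1 := fun x => by rw [hd, opComul_apply]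
  have hd1 : CoalgebraStruct.comul (R := k) (A := B) (1 : B) =
      ∑ i ∈ (rp (k := k) (1 : H)).n, φ i.2 ⊗ₜ[k] φ i.1 := by rw [← h1, hd']
  have hco : TensorProduct.assoc k B B B
        (LinearMap.rTensor B (CoalgebraStruct.comul (R := k) (A := B))
          (CoalgebraStruct.comul (R := k) (A := B) (1 : B))) =
      ∑ i ∈ (rp (k := k) (1 : H)).n, ∑ j ∈ (rp (k := k) i.1).n,
        flip3 φ (j.1 ⊗ₜ (j.2 ⊗ₜ i.2)) := by
    rw [coassoc_sum, hd1]
    simp only [map_sum, LinearMap.rTensor_tmul, hd', TensorProduct.sum_tmul,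
      TensorProduct.assoc_tmul, flip3_tmul]
  have hS : ∀ x : H, (φ.toLinearMap ∘ₗ S ∘ₗ φ.symm.toLinearMap) (φ x) = φ (S x) := by
    intro x; simp
  generalize φ.toLinearMap ∘ₗ S ∘ₗ φ.symm.toLinearMap = T at hS ⊢
  refine ⟨?_, ?_, ?_, ?_, ?_, ?_, ?_, ?_⟩
  · intro a b
    obtain ⟨x, rfl⟩ := φ.surjective a
    obtain ⟨y, rfl⟩ := φ.surjective b
    rw [← hmul, hd, hd' x, hd' y]
    have h := mul_sum hw (TensorProduct.map φ.toLinearMap φ.toLinearMap ∘ₗ
      (TensorProduct.comm k H H).toLinearMap) y x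
    have h2 : opComul φ (φ (y * x)) = (TensorProduct.map φ.toLinearMap φ.toLinearMap ∘ₗ
      (TensorProduct.comm k H H).toLinearMap) (dl k (y * x)) := by
      simp [opComul]
    rw [h2, h]
    simp only [LinearMap.comp_apply, LinearEquiv.coe_coe, TensorProduct.comm_tmul,
      TensorProduct.map_tmul, Finset.sum_mul, Finset.mul_sum,
      Algebra.TensorProduct.tmul_mul_tmul, hmul]
    try rw [Finset.sum_comm]
  · rw [hco, one1 hw, hd1]
    simp only [map_sum, TensorProduct.sum_tmul, TensorProduct.tmul_sum,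
      TensorProduct.assoc_tmul, Finset.sum_mul, Finset.mul_sum,
      Algebra.TensorProduct.tmul_mul_tmul, one_mul, mul_one, flip3_tmul, hmul]
    try rw [Finset.sum_comm]
  · rw [hco, one2 hw, hd1]
    simp only [map_sum, TensorProduct.sum_tmul, TensorProduct.tmul_sum,
      TensorProduct.assoc_tmul, Finset.sum_mul, Finset.mul_sum,
      Algebra.TensorProduct.tmul_mul_tmul, one_mul, mul_one, flip3_tmul, hmul]
    try rw [Finset.sum_comm]
  · intro a b c
    obtain ⟨x, rfl⟩ := φ.surjective a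
    obtain ⟨y, rfl⟩ := φ.surjective b
    obtain ⟨z, rfl⟩ := φ.surjective c
    rw [hd', ← hmul, ← hmul, he, ← mul_assoc]
    have h := ep1 hw z y x
    change ep k (z * y * x) = _
    rw [h]
    simp only [map_sum, TensorProduct.map_tmul, LinearMap.mul'_apply, LinearMap.comp_apply,
      LinearMap.mulLeft_apply, LinearMap.mulRight_apply, ← hmul, he]
    refine Finset.sum_congr rfl fun i _ => mul_comm _ _
  · intro a b c
    obtain ⟨x, rfl⟩ := φ.surjective a
    obtain ⟨y, rfl⟩ := φ.surjective b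
    obtain ⟨z, rfl⟩ := φ.surjective c
    rw [hd', ← hmul, ← hmul, he, ← mul_assoc]
    have h := ep2 hw z y x
    change ep k (z * y * x) = _
    rw [h]
    simp only [map_sum, TensorProduct.comm_tmul, TensorProduct.map_tmul, LinearMap.mul'_apply,
      LinearMap.comp_apply, LinearMap.mulLeft_apply, LinearMap.mulRight_apply, ← hmul, he]
    refine Finset.sum_congr rfl fun i _ => mul_comm _ _
  · intro a
    obtain ⟨x, rfl⟩ := φ.surjective a
    rw [hd', hd1]
    simp only [map_sum, TensorProduct.map_tmul, LinearMap.mul'_apply, LinearMap.id_apply, hS,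
      TensorProduct.lid_tmul, LinearMap.comp_apply,
      LinearMap.mulRight_apply, ← hmul, he]
    rw [← map_sum, ← es_sum, es_one hw]
    simp only [map_sum, map_smul]
  · intro a
    obtain ⟨x, rfl⟩ := φ.surjective a
    rw [hd', hd1]
    simp only [map_sum, TensorProduct.map_tmul, LinearMap.mul'_apply, LinearMap.id_apply, hS,
      TensorProduct.rid_tmul, LinearMap.comp_apply,
      LinearMap.mulLeft_apply, ← hmul, he]
    rw [← map_sum, ← et_sum, et_one hw]
    simp only [map_sum, map_smul]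
  · intro a
    obtain ⟨x, rfl⟩ := φ.surjective a
    rw [hd', hS]
    simp only [map_sum, LinearMap.rTensor_tmul, hd', TensorProduct.map_tmul,
      TensorProduct.sum_tmul, LinearMap.mul'_apply, LinearMap.comp_apply,
      LinearMap.id_apply, hS]
    rw [S_et hw x, map_sum]
    refine Finset.sum_congr rfl fun i _ => ?_
    rw [hmul, et_sum, map_sum]
    simp only [hmul, Finset.sum_mul]

end

end TOp

/-- Task Op. -/
theorem taskOp : TaskOp := by
  intro k _ H _ _ _ S hw
  exact ⟨TOp.opCoalg (MulOpposite.opLinearEquiv k), _,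
    @TOp.op_gen k H Hᵐᵒᵖ _ _ _ _ _ _ (TOp.opCoalg (MulOpposite.opLinearEquiv k)) S hw
      (MulOpposite.opLinearEquiv k) rfl (fun x y => rfl) (fun x => rfl) (fun x => rfl)⟩

end Pool.Agent.Helper202_BG
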