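import Pool.Agent.Helper202_BG.P3d
import Pool.Agent.Helper202_BG.Stmts2

/-!
Tasks X1 and X2.
-/

set_option autoImplicit false

open CategoryTheory
open scoped TensorProduct

namespace Pool.Agent.Helper202_BG

namespace TX

theorem taskX2 : TaskX2 := by
  intro A _ M _ _ X _ _ c hc u v hu hv n ξ
  induction n generalizing X with
  | zero =>
    obtain ⟨f, rfl⟩ := hom0_surj ξ
    rw [pre_hom0, post_hom0]
    congr 1
    ext m
    rw [LinearMap.comp_apply, LinearMap.comp_apply, hu, hv, map_smul]
  | succ n ih =>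
    obtain ⟨J, _, _, ι, hι, hJ⟩ := exists_inj (A := A) X
    have hs : SES ι (LinearMap.range ι).mkQ := SES.ofInj hι
    obtain ⟨ζ, rfl⟩ := cov1 hs ξ (E_injective hJ _)
    let vJ : J →ₗ[A] J :=
      { toFun := fun x => c • x
        map_add' := fun x y => smul_add _ _ _
        map_smul' := fun a x => by rw [RingHom.id_apply, ← mul_smul, ← mul_smul, hc] }
    let vQ : (J ⧸ LinearMap.range ι) →ₗ[A] (J ⧸ LinearMap.range ι) :=
      { toFun := fun x => c • x
        map_add' := fun x y => smul_add _ _ _
        map_smul' := fun a x => by rw [RingHom.id_apply, ← mul_smul, ← mul_smul, hc] }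
    rw [pre_dl, ih (J ⧸ LinearMap.range ι) vQ (fun x => rfl) ζ]
    symm
    apply dl_nat hs hs v vJ vQ
    · ext x
      change ι (v x) = c • ι x
      rw [hv, map_smul]
    · ext x
      change (LinearMap.range ι).mkQ (c • x) = c • (LinearMap.range ι).mkQ x
      rw [map_smul]

theorem rmul_one (A : Type) [Ring A] : rmul A 1 = LinearMap.id := by
  apply LinearMap.ext; intro x; simp [rmul]

theorem rmul_mul (A : Type) [Ring A] (r s : Aᵐᵒᵖ) : rmul A (r * s) = rmul A r ∘ₗ rmul A s := by
  apply LinearMap.ext; intro x; simp [rmul, mul_assoc]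

theorem rmul_add (A : Type) [Ring A] (r s : Aᵐᵒᵖ) : rmul A (r + s) = rmul A r + rmul A s := by
  apply LinearMap.ext; intro x; simp [rmul, mul_add]

theorem rmul_zero (A : Type) [Ring A] : rmul A 0 = 0 := by
  apply LinearMap.ext; intro x; simp [rmul]

/-- the right module structure -/
@[instance_reducible]
noncomputable def modE (A : Type) [Ring A] (M : Type) [AddCommGroup M] [Module A M] (n : ℕ) :
    Module Aᵐᵒᵖ (E A M A n) where
  smul r ξ := post (rmul A r) ξ
  one_smul ξ := by
    change post (rmul A 1) ξ = ξ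
    rw [rmul_one, post_id]
  mul_smul r s ξ := by
    change post (rmul A (r * s)) ξ = post (rmul A r) (post (rmul A s) ξ)
    rw [rmul_mul, post_comp]
  smul_zero r := post_zero _
  smul_add r ξ η := post_add _ _ _
  add_smul r s ξ := by
    change post (rmul A (r + s)) ξ = post (rmul A r) ξ + post (rmul A s) ξ
    rw [rmul_add, add_post]
  zero_smul ξ := by
    change post (rmul A 0) ξ = 0
    rw [rmul_zero, zero_post]

theorem noeth0 (A : Type) [Ring A] [IsNoetherianRing Aᵐᵒᵖ] : IsNoetherian Aᵐᵒᵖ A := by
  let e : Aᵐᵒᵖ ≃ₗ[Aᵐᵒᵖ] A :=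
    { toFun := fun x => x.unop
      invFun := fun x => MulOpposite.op x
      left_inv := fun x => rfl
      right_inv := fun x => rfl
      map_add' := fun x y => rfl
      map_smul' := fun x y => rfl }
  exact isNoetherian_of_linearEquiv e

theorem noethE (A : Type) [Ring A] [IsNoetherianRing A] [IsNoetherianRing Aᵐᵒᵖ] (n : ℕ) :
    ∀ (M : Type) [AddCommGroup M] [Module A M] [Module.Finite A M],
    @IsNoetherian Aᵐᵒᵖ (E A M A n) _ _ (modE A M n) := by
  induction n with
  | zero =>
    intro M _ _ _
    let _ := modE A M 0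
    have hA : IsNoetherian Aᵐᵒᵖ A := noeth0 A
    obtain ⟨m, x, hx⟩ := Module.Finite.exists_fin (R := A) (M := M)
    choose g hg using fun ξ : E A M A 0 => hom0_surj ξ
    let Φ : E A M A 0 →ₗ[Aᵐᵒᵖ] (Fin m → A) :=
      { toFun := fun ξ j => g ξ (x j)
        map_add' := fun ξ η => by
          have h1 : g (ξ + η) = g ξ + g η := by
            apply hom0_inj
            rw [hom0_add, hg, hg, hg]
          funext j
          rw [h1]; rfl
        map_smul' := fun r ξ => by
          have h1 : g (r • ξ) = rmul A r ∘ₗ g ξ := by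
            apply hom0_inj
            rw [← post_hom0, hg, hg]
            rfl
          funext j
          rw [h1]; rfl }
    refine isNoetherian_of_injective Φ ?_
    intro ξ η h
    rw [← hg ξ, ← hg η]
    congr 1
    have h2 : Set.EqOn (g ξ) (g η) (Set.range x) := by
      rintro _ ⟨j, rfl⟩
      exact congrFun h j
    exact LinearMap.ext_on hx h2
  | succ n ih =>
    intro M _ _ _
    obtain ⟨m, p, hp⟩ := Module.Finite.exists_fin' A M
    have hno : IsNoetherian A (Fin m → A) := inferInstance
    have hs : SES (LinearMap.ker p).subtype p := SES.ofSurj hp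
    let _ := modE A (LinearMap.ker p) n
    let _ := modE A M (n + 1)
    have h1 : IsNoetherian Aᵐᵒᵖ (E A (LinearMap.ker p) A n) := ih (LinearMap.ker p)
    let Φ : E A (LinearMap.ker p) A n →ₗ[Aᵐᵒᵖ] E A M A (n + 1) :=
      { toFun := fun ζ => dr hs ζ
        map_add' := fun ζ η => dr_add hs ζ η
        map_smul' := fun r ζ => (post_dr hs (rmul A r) ζ).symm }
    have hsurj : Function.Surjective Φ := by
      intro ξ
      obtain ⟨ζ, hζ⟩ := con3 hs ξ (E_proj _)
      exact ⟨ζ, hζ⟩
    exact isNoetherian_of_surjective Φ (LinearMap.range_eq_top.2 hsurj)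

theorem taskX1 : TaskX1 := by
  intro A _ _ _ M _ _ _ n
  exact ⟨modE A M n, fun r ξ => rfl, noethE A n M⟩

end TX

end Pool.Agent.Helper202_BG
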