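import Pool.Agent.Helper202_BG.P3b
import Pool.Agent.Helper202_BG.Stmts2

/-!
Task X3.
-/

set_option autoImplicit false

open CategoryTheory
open scoped TensorProduct

namespace Pool.Agent.Helper202_BG

namespace TX

theorem aeval_intertwine {k : Type} [Field k] {X Y : Type} [AddCommGroup X] [Module k X]
    [AddCommGroup Y] [Module k Y] (T : Module.End k X) (T' : Module.End k Y) (q : X →ₗ[k] Y)
    (h : ∀ x, T' (q x) = q (T x)) (f : Polynomial k) (x : X) :
    Polynomial.aeval T' f (q x) = q (Polynomial.aeval T f x) := by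
  induction f using Polynomial.induction_on generalizing x with
  | C c =>
    rw [Polynomial.aeval_C, Polynomial.aeval_C]
    change c • q x = q (c • x)
    rw [map_smul]
  | add p r hp hr =>
    rw [map_add, map_add, LinearMap.add_apply, LinearMap.add_apply, map_add, hp, hr]
  | monomial n c ih =>
    have h0 : (Polynomial.C c * Polynomial.X ^ (n + 1) : Polynomial k) =
        (Polynomial.C c * Polynomial.X ^ n) * Polynomial.X := by
      rw [pow_succ, mul_assoc]
    rw [h0, map_mul (Polynomial.aeval T) (Polynomial.C c * Polynomial.X ^ n) Polynomial.X,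
      map_mul (Polynomial.aeval T') (Polynomial.C c * Polynomial.X ^ n) Polynomial.X,
      Polynomial.aeval_X, Polynomial.aeval_X]
    change Polynomial.aeval T' (Polynomial.C c * Polynomial.X ^ n) (T' (q x)) =
      q (Polynomial.aeval T (Polynomial.C c * Polynomial.X ^ n) (T x))
    rw [h, ih]

theorem taskX3 : TaskX3 := by
  intro k _ R _ _ hS X _ _ _ _ _ T hT hsurj x
  by_contra hx
  have hnt : Nontrivial X := ⟨⟨x, 0, hx⟩⟩
  obtain ⟨X₁, hX₁, -⟩ := (eq_top_or_exists_le_coatom (⊥ : Submodule R X)).resolve_left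
    bot_ne_top
  have hsimple : IsSimpleModule R (X ⧸ X₁) := isSimpleModule_iff_isCoatom.2 hX₁
  have hSfin : Module.Finite k (X ⧸ X₁) := hS (X ⧸ X₁)
  let I : Ideal R := Module.annihilator R (X ⧸ X₁)
  have hI : ∀ a : R, a ∈ I ↔ ∀ v : X ⧸ X₁, a • v = 0 := fun a => Module.mem_annihilator
  let φ : R →ₐ[k] Module.End k (X ⧸ X₁) := Algebra.lsmul k k (X ⧸ X₁)
  have hIfin : Module.Finite k (R ⧸ (I.restrictScalars k : Submodule k R)) := by
    let ψ : (R ⧸ (I.restrictScalars k : Submodule k R)) →ₗ[k] Module.End k (X ⧸ X₁) :=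
      (I.restrictScalars k).liftQ φ.toLinearMap (fun a ha => by
        have h1 : φ a = 0 := by
          apply LinearMap.ext
          intro v
          exact (hI a).1 ha v
        exact LinearMap.mem_ker.2 h1)
    refine Module.Finite.of_injective ψ ?_
    rw [← LinearMap.ker_eq_bot]
    apply Submodule.ker_liftQ_eq_bot
    intro a ha
    have h1 : φ a = 0 := LinearMap.mem_ker.1 ha
    exact (hI a).2 (fun v => LinearMap.congr_fun h1 v)
  let N : Submodule R X := Submodule.span R {y | ∃ a ∈ I, ∃ x : X, y = a • x}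
  have hN₁ : N ≤ X₁ := by
    apply Submodule.span_le.2
    rintro _ ⟨a, ha, x, rfl⟩
    have h1 := (hI a).1 ha (X₁.mkQ x)
    rw [← map_smul, Submodule.mkQ_apply, Submodule.Quotient.mk_eq_zero] at h1
    exact h1
  have hTN : ∀ y ∈ N, T y ∈ N := by
    intro y hy
    refine Submodule.span_induction (p := fun y _ => T y ∈ N) ?_ ?_ ?_ ?_ hy
    · rintro _ ⟨a, ha, x, rfl⟩
      rw [hT]
      exact Submodule.subset_span ⟨a, ha, T x, rfl⟩
    · rw [map_zero]; exact N.zero_mem
    · intro y z _ _ h1 h2
      rw [map_add]; exact N.add_mem h1 h2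
    · intro r y _ h1
      rw [hT]; exact N.smul_mem r h1
  obtain ⟨m, v, hv⟩ := Module.Finite.exists_fin (R := R) (M := X)
  have hfin : Module.Finite k (X ⧸ N) := by
    let g : Fin m → (R →ₗ[k] (X ⧸ N)) := fun j =>
      { toFun := fun r => r • N.mkQ (v j)
        map_add' := fun r s => by rw [add_smul]
        map_smul' := fun c r => by
          rw [RingHom.id_apply, smul_assoc] }
    have hg : ∀ j, Module.Finite k (LinearMap.range (g j)) := by
      intro j
      have hk : (I.restrictScalars k : Submodule k R) ≤ LinearMap.ker (g j) := by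
        intro r hr
        rw [LinearMap.mem_ker]
        change r • N.mkQ (v j) = 0
        rw [← map_smul, Submodule.mkQ_apply, Submodule.Quotient.mk_eq_zero]
        exact Submodule.subset_span ⟨r, hr, v j, rfl⟩
      let g' := (I.restrictScalars k).liftQ (g j) hk
      have : LinearMap.range (g j) = LinearMap.range g' := by
        rw [Submodule.range_liftQ]
      rw [this]
      infer_instance
    have htop : (⊤ : Submodule k (X ⧸ N)) = ⨆ j, LinearMap.range (g j) := by
      symm
      rw [eq_top_iff]
      intro y _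
      obtain ⟨x, rfl⟩ := N.mkQ_surjective y
      have hx : x ∈ Submodule.span R (Set.range v) := by rw [hv]; trivial
      rw [Submodule.mem_span_range_iff_exists_fun] at hx
      obtain ⟨c, rfl⟩ := hx
      rw [map_sum]
      refine Submodule.sum_mem _ fun j _ => ?_
      refine Submodule.mem_iSup_of_mem j ⟨c j, ?_⟩
      change c j • N.mkQ (v j) = N.mkQ (c j • v j)
      rw [map_smul]
    refine ⟨?_⟩
    rw [htop, Submodule.fg_iff_finiteDimensional]
    exact Submodule.finite_iSup _
  let Nk : Submodule k X := N.restrictScalars k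
  let T' : Module.End k (X ⧸ Nk) := Nk.mapQ Nk T (fun y hy => hTN y hy)
  have hfin' : Module.Finite k (X ⧸ Nk) := hfin
  obtain ⟨f, hf, hf0⟩ := poly_kill (k := k) T'
  apply hX₁.1
  rw [eq_top_iff]
  intro y _
  apply hN₁
  obtain ⟨w, rfl⟩ := hsurj f hf y
  have h1 := aeval_intertwine T T' Nk.mkQ (fun x => rfl) f w
  rw [hf0] at h1
  have h2 : Nk.mkQ (Polynomial.aeval T f w) = 0 := h1.symm
  rw [Submodule.mkQ_apply, Submodule.Quotient.mk_eq_zero] at h2
  exact h2

end TX

end Pool.Agent.Helper202_BG
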