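import Pool.Agent.Helper202_BG.Stmts2
import Pool.Agent.Helper202_BG.P3d

/-!
Task X4: injective dimension from the vanishing of Ext on cyclic modules.
-/

set_option autoImplicit false

open CategoryTheory

namespace Pool.Agent.Helper202_BG

/-- Task X4. -/
theorem taskX4 : TaskX4 := by
  intro A _ e
  induction e with
  | zero =>
    intro X _ _ hX
    have hB : Module.Baer A X := by
      intro L f
      have h := SES.mkQ (A := A) (Y := A) L
      obtain ⟨ζ, hζ⟩ := con1 h (hom0 f) (hX L 1 Nat.one_pos _)
      obtain ⟨g, rfl⟩ := hom0_surj ζ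
      rw [pre_hom0] at hζ
      have hg := hom0_inj hζ
      exact ⟨g, fun x hx => LinearMap.congr_fun hg ⟨x, hx⟩⟩
    have h1 : Module.Injective A X := hB.injective
    have h2 : Injective (ModuleCat.of A X) := Module.injective_object_of_injective_module A X
    exact injective_iff_hasInjectiveDimensionLT_one.mp h2
  | succ e ih =>
    intro X _ _ hX
    obtain ⟨J, _, _, ι, hι, hJ⟩ := exists_inj (A := A) X
    have h := SES.ofInj hι
    have h3 : HasInjectiveDimensionLT (ModuleCat.of A (J ⧸ LinearMap.range ι)) (e + 1) := by
      refine ih _ ?_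
      intro L n hn ξ
      have h1 : dl h ξ = 0 := hX L (n + 1) (by omega) _
      obtain ⟨ζ, hζ⟩ := cov3 h ξ h1
      obtain ⟨m, rfl⟩ : ∃ m, n = m + 1 := ⟨n - 1, by omega⟩
      have h2 : ζ = 0 := E_injective hJ ζ
      rw [← hζ, h2, post_zero]
    have h1 : Module.Injective A J := hJ.injective
    have h2 : Injective (ModuleCat.of A J) := Module.injective_object_of_injective_module A J
    exact (h.sh.hasInjectiveDimensionLT_X₃_iff e h2).mp h3

end Pool.Agent.Helper202_BG
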