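import Pool.Agent.Helper202_BG.Stmts2
import Pool.Agent.Helper202_BG.D0
import Pool.Agent.H67.PI.Lin

/-!
Tasks Y1 to Y7: small facts on opposite algebras, base change and multilinear identities.
-/

set_option autoImplicit false

open CategoryTheory
open scoped TensorProduct

namespace Pool.Agent.Helper202_BG

namespace TY

theorem reverse_ofFn {α : Type} {n : ℕ} (f : Fin n → α) :
    (List.ofFn f).reverse = List.ofFn (fun i => f (Fin.rev i)) := by
  apply List.ext_getElem
  · simp
  · intro i h1 h2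
    rw [List.getElem_reverse, List.getElem_ofFn, List.getElem_ofFn]
    congr 1
    apply Fin.ext
    simp only [List.length_ofFn, Fin.rev]
    omega

theorem unop_prod {A : Type} [Ring A] {n : ℕ} (f : Fin n → Aᵐᵒᵖ) :
    MulOpposite.unop (List.ofFn f).prod =
      (List.ofFn (fun i => MulOpposite.unop (f (Fin.rev i)))).prod := by
  rw [MulOpposite.unop_list_prod, List.map_ofFn, reverse_ofFn]
  rfl

end TY

/-- Task Y1 -/
theorem taskY1 : TaskY1 := by
  intro k _ A _ _ d ⟨c, hc1, hc⟩
  classical
  let e : Equiv.Perm (Fin d) := Fin.revPerm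
  refine ⟨fun τ => c (e * τ * e), ?_, ?_⟩
  · have : e * 1 * e = 1 := by
      ext i; simp [e]
    change c (e * 1 * e) = 1
    rw [this, hc1]
  · intro a
    apply MulOpposite.unop_injective
    rw [MulOpposite.unop_zero, ← hc (fun i => MulOpposite.unop (a (Fin.rev i))),
      Finset.unop_sum]
    refine Fintype.sum_equiv ((Equiv.mulLeft e).trans (Equiv.mulRight e)) _ _ ?_
    intro τ
    rw [MulOpposite.unop_smul, TY.unop_prod]
    have h1 : ∀ i, Fin.rev (((Equiv.mulLeft e).trans (Equiv.mulRight e) τ) i) = τ (Fin.rev i) := by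
      intro i
      simp [e]
    simp only [h1]
    rfl

/-- Task Y2 -/
theorem taskY2 : TaskY2 := by
  intro k _ A _ _ d ⟨c, hc1, hc⟩ K _ _
  refine ⟨fun τ => algebraMap k K (c τ), by simp only [hc1, map_one], ?_⟩
  let F : MultilinearMap K (fun _ : Fin d => K ⊗[k] A) (K ⊗[k] A) :=
    ∑ τ : Equiv.Perm (Fin d), algebraMap k K (c τ) •
      (MultilinearMap.mkPiAlgebraFin K d (K ⊗[k] A)).domDomCongr τ
  have hF : ∀ a, F a = ∑ τ, algebraMap k K (c τ) • (List.ofFn fun i => a (τ i)).prod := by
    intro a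
    rw [sum_apply]
    refine Finset.sum_congr rfl fun τ _ => ?_
    rfl
  intro a
  rw [← hF]
  refine TD0.multilinear_span F (Set.range fun x : A => (1 : K) ⊗ₜ[k] x) ?_ ?_ a
  · rw [eq_top_iff]
    rintro x -
    induction x using TensorProduct.induction_on with
    | zero => exact Submodule.zero_mem _
    | tmul z x =>
      have : z ⊗ₜ[k] x = z • ((1 : K) ⊗ₜ[k] x) := by
        rw [TensorProduct.smul_tmul', smul_eq_mul, mul_one]
      rw [this]
      exact Submodule.smul_mem _ _ (Submodule.subset_span ⟨x, rfl⟩)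
    | add x y hx hy => exact Submodule.add_mem _ hx hy
  · intro v hv
    choose w hw using hv
    rw [hF]
    have h1 : ∀ τ : Equiv.Perm (Fin d), algebraMap k K (c τ) • (List.ofFn fun i => v (τ i)).prod =
        Algebra.TensorProduct.includeRight (R := k) (A := K) (B := A)
          (c τ • (List.ofFn fun i => w (τ i)).prod) := by
      intro τ
      have h2 : (fun i => v (τ i)) =
          fun i => (Algebra.TensorProduct.includeRight (R := k) (A := K) (B := A)) (w (τ i)) := by
        funext i
        exact (hw (τ i)).symm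
      rw [map_smul, map_list_prod, List.map_ofFn, h2, algebraMap_smul]
      rfl
    simp only [h1]
    rw [← map_sum, hc, map_zero]

/-- Task Y3 -/
theorem taskY3 : TaskY3 := by
  intro k _ A _ _ ⟨m, f, hf, h⟩
  obtain ⟨d, c, hc1, hc⟩ := Pool.Agent.H67.PI.linearise (⊤ : Submodule k A) f hf
    (fun a _ => h a)
  exact ⟨d, c, hc1, fun a => hc a (fun _ => trivial)⟩

/-- Task Y4 -/
theorem taskY4 : TaskY4 := by
  intro k _ A _ _ hA
  classical
  obtain ⟨s, hs⟩ := hA.out
  refine ⟨⟨s.image MulOpposite.op, ?_⟩⟩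
  have h1 : ∀ x ∈ Algebra.adjoin k (s : Set A), MulOpposite.op x ∈
      Algebra.adjoin k ((s.image MulOpposite.op : Finset Aᵐᵒᵖ) : Set Aᵐᵒᵖ) := by
    intro x hx
    induction hx using Algebra.adjoin_induction with
    | mem x hx =>
      apply Algebra.subset_adjoin
      simpa using hx
    | algebraMap r => exact Subalgebra.algebraMap_mem _ r
    | add x y _ _ hx hy => exact Subalgebra.add_mem _ hx hy
    | mul x y _ _ hx hy => rw [MulOpposite.op_mul]; exact Subalgebra.mul_mem _ hy hx
  rw [eq_top_iff]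
  rintro x -
  have h2 := h1 x.unop (by rw [hs]; trivial)
  simpa using h2

/-- Task Y5 -/
theorem taskY5 : TaskY5 := by
  intro k _ A _ _ hA K _ _
  classical
  obtain ⟨s, hs⟩ := hA.out
  refine ⟨⟨s.image (fun x => (1 : K) ⊗ₜ[k] x), ?_⟩⟩
  have h1 : ∀ x ∈ Algebra.adjoin k (s : Set A), (1 : K) ⊗ₜ[k] x ∈
      Algebra.adjoin K ((s.image (fun x => (1 : K) ⊗ₜ[k] x) : Finset (K ⊗[k] A)) :
        Set (K ⊗[k] A)) := by
    intro x hx
    induction hx using Algebra.adjoin_induction with
    | mem x hx =>
      apply Algebra.subset_adjoin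
      rw [Finset.coe_image]
      exact ⟨x, hx, rfl⟩
    | algebraMap r =>
      have : (1 : K) ⊗ₜ[k] (algebraMap k A r) = algebraMap K (K ⊗[k] A) (algebraMap k K r) := by
        rw [Algebra.TensorProduct.algebraMap_apply, Algebra.algebraMap_eq_smul_one,
          TensorProduct.tmul_smul, TensorProduct.smul_tmul', Algebra.smul_def, mul_one]
        rfl
      rw [this]
      exact Subalgebra.algebraMap_mem _ _
    | add x y _ _ hx hy => rw [TensorProduct.tmul_add]; exact Subalgebra.add_mem _ hx hy
    | mul x y _ _ hx hy =>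
      have : (1 : K) ⊗ₜ[k] (x * y) = ((1 : K) ⊗ₜ[k] x) * ((1 : K) ⊗ₜ[k] y) := by
        rw [Algebra.TensorProduct.tmul_mul_tmul, one_mul]
      rw [this]
      exact Subalgebra.mul_mem _ hx hy
  rw [eq_top_iff]
  rintro x -
  induction x using TensorProduct.induction_on with
  | zero => exact Subalgebra.zero_mem _
  | tmul z x =>
    have : z ⊗ₜ[k] x = z • ((1 : K) ⊗ₜ[k] x) := by
      rw [TensorProduct.smul_tmul', smul_eq_mul, mul_one]
    rw [this]
    exact Subalgebra.smul_mem _ (h1 x (by rw [hs]; trivial)) z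
  | add x y hx hy => exact Subalgebra.add_mem _ hx hy

/-- Task Y6 -/
theorem taskY6 : TaskY6 := by
  intro H _ ⟨n, hn⟩
  let e : Hᵐᵒᵖ ≃ₗ[Hᵐᵒᵖ] H :=
    { toFun := MulOpposite.unop
      invFun := MulOpposite.op
      left_inv := fun _ => rfl
      right_inv := fun _ => rfl
      map_add' := fun _ _ => rfl
      map_smul' := fun _ _ => rfl }
  exact ⟨n, hasInjectiveDimensionLT_of_iso e.toModuleIso n⟩

/-- Task Y7 -/
theorem taskY7 : TaskY7 := by
  intro H _ _
  exact isNoetherianRing_of_ringEquiv H (RingEquiv.opOp H)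

end Pool.Agent.Helper202_BG
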