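import Pool.Agent.Helper202_BG.Stmts2

/-!
Task Z: injectivity on Ext groups for a weak Hopf algebra.
-/

set_option autoImplicit false

open CategoryTheory
open scoped TensorProduct

namespace Pool.Agent.Helper202_BG

namespace TZm

section
variable {k H : Type} [Field k] [Ring H] [Algebra k H] [Coalgebra k H] [CM k H]
variable {X : Type} [AddCommGroup X] [Module H X] [Module k X] [IsScalarTower k H X]
variable {Y : Type} [AddCommGroup Y] [Module H Y] [Module k Y] [IsScalarTower k H Y]
variable {Z : Type} [AddCommGroup Z] [Module H Z] [Module k Z] [IsScalarTower k H Z]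

theorem ses_ten (V : Type) [AddCommGroup V] [Module H V] [Module k V] [IsScalarTower k H V]
    {i : X →ₗ[H] Y} {p : Y →ₗ[H] Z} (h : SES i p) :
    SES (Ten.map (k := k) i (LinearMap.id : V →ₗ[H] V))
      (Ten.map (k := k) p (LinearMap.id : V →ₗ[H] V)) := by
  have hi : ∀ x : X ⊗[k] V, tmap i (LinearMap.id : V →ₗ[H] V) x =
      LinearMap.rTensor V (i.restrictScalars k) x := fun x => rfl
  have hp : ∀ x : Y ⊗[k] V, tmap p (LinearMap.id : V →ₗ[H] V) x =
      LinearMap.rTensor V (p.restrictScalars k) x := fun x => rfl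
  have hiinj : Function.Injective (LinearMap.rTensor V (i.restrictScalars k)) :=
    Module.Flat.rTensor_preserves_injective_linearMap _ h.inj
  have hpsurj : Function.Surjective (LinearMap.rTensor V (p.restrictScalars k)) :=
    LinearMap.rTensor_surjective V h.surj
  have hex : Function.Exact (LinearMap.rTensor V (i.restrictScalars k))
      (LinearMap.rTensor V (p.restrictScalars k)) := by
    apply rTensor_exact
    · intro y
      constructor
      · intro hy
        exact (h.exact y).1 hy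
      · rintro ⟨x, hx⟩
        exact (h.exact y).2 ⟨x, hx⟩
    · exact h.surj
  refine ⟨?_, ?_, ?_⟩
  · intro x x' hxx'
    apply Ten.val_inj
    apply hiinj
    rw [← hi, ← hi, ← Ten.val_map, ← Ten.val_map, hxx']
  · intro z
    obtain ⟨y, hy⟩ := hpsurj (Ten.val k H Z V z)
    refine ⟨Ten.pr k H Y V y, ?_⟩
    rw [Ten.map_pr, hp, hy, Ten.pr_val]
  · intro y
    constructor
    · intro hy
      have h1 : LinearMap.rTensor V (p.restrictScalars k) (Ten.val k H Y V y) = 0 := by
        rw [← hp, ← Ten.val_map, hy, map_zero]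
      obtain ⟨x, hx⟩ := (hex _).1 h1
      refine ⟨Ten.pr k H X V x, ?_⟩
      rw [Ten.map_pr, hi, hx, Ten.pr_val]
    · rintro ⟨x, rfl⟩
      apply Ten.val_inj
      rw [Ten.val_map, Ten.val_map, hi, hp, map_zero]
      exact (hex _).2 ⟨_, rfl⟩

theorem surj_ten (W : Type) [AddCommGroup W] [Module H W] [Module k W] [IsScalarTower k H W]
    {p : Y →ₗ[H] Z} (h : Function.Surjective p) :
    Function.Surjective (Ten.map (k := k) (LinearMap.id : W →ₗ[H] W) p) := by
  have hp : ∀ x : W ⊗[k] Y, tmap (LinearMap.id : W →ₗ[H] W) p x =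
      LinearMap.lTensor W (p.restrictScalars k) x := fun x => rfl
  have hpsurj : Function.Surjective (LinearMap.lTensor W (p.restrictScalars k)) :=
    LinearMap.lTensor_surjective W h
  intro z
  obtain ⟨y, hy⟩ := hpsurj (Ten.val k H W Z z)
  refine ⟨Ten.pr k H W Y y, ?_⟩
  rw [Ten.map_pr, hp, hy, Ten.pr_val]

end

theorem exists_cover (hL2 : TaskL2) (k : Type) [Field k] (H : Type) [Ring H]
    [Algebra k H] [Coalgebra k H] [CM k H] (S : H →ₗ[k] H) (hS : WHId k H S)
    (W : Type) [AddCommGroup W] [Module H W] [Module k W] [IsScalarTower k H W] :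
    ∃ (P : Type) (_ : AddCommGroup P) (_ : Module H P) (_ : Module k P)
      (_ : IsScalarTower k H P) (p : P →ₗ[H] W), Function.Surjective p ∧
      ∀ (V : Type) [AddCommGroup V] [Module H V] [Module k V] [IsScalarTower k H V],
        Module.Projective H (Ten k H P V) := by
  refine ⟨W →₀ H, inferInstance, inferInstance, inferInstance, inferInstance,
    Finsupp.linearCombination H id, fun w => ⟨Finsupp.single w 1, by simp⟩, ?_⟩
  intro V _ _ _ _
  exact hL2 k H S hS W V

theorem claimS (hL2 : TaskL2) (hL4 : TaskL4) (k : Type) [Field k] (H : Type) [Ring H]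
    [Algebra k H] [Coalgebra k H] [CM k H] (S : H →ₗ[k] H) (hS : WHId k H S)
    (V : Type) [AddCommGroup V] [Module H V] [Module k V] [IsScalarTower k H V]
      [Module.Finite k V]
      (V' : Type) [AddCommGroup V'] [Module H V'] [Module k V'] [IsScalarTower k H V']
      [Module.Finite k V']
      (π : V' →ₗ[H] V) (hπ : Function.Surjective π) (n : ℕ) :
    ∀ (W : Type) [AddCommGroup W] [Module H W] [Module k W] [IsScalarTower k H W]
      (ξ : E H (Ten k H W V) H n),
      pre (Ten.map (k := k) (LinearMap.id : W →ₗ[H] W) π) ξ = 0 → ξ = 0 := by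
  induction n with
  | zero =>
    intro W _ _ _ _ ξ hξ
    obtain ⟨f, rfl⟩ := hom0_surj ξ
    rw [pre_hom0, hom0_eq_zero] at hξ
    rw [hom0_eq_zero]
    ext x
    obtain ⟨y, rfl⟩ := surj_ten (k := k) W hπ x
    exact LinearMap.congr_fun hξ y
  | succ n ih =>
    intro W _ _ _ _ ξ hξ
    obtain ⟨P, _, _, _, _, p, hp, hP⟩ := exists_cover hL2 k H S hS W
    have hs := SES.ofSurj hp
    have hsV := ses_ten (k := k) V hs
    have hsV' := ses_ten (k := k) V' hs
    have hproj : Module.Projective H (Ten k H P V) := hP V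
    have hproj' : Module.Projective H (Ten k H P V') := hP V'
    obtain ⟨ζ, rfl⟩ := con3 hsV ξ (E_proj _)
    have hnat : dr hsV' (pre (Ten.map (k := k) LinearMap.id π) ζ) =
        pre (Ten.map (k := k) LinearMap.id π) (dr hsV ζ) := by
      refine dr_nat hsV' hsV (Ten.map (k := k) LinearMap.id π)
        (Ten.map (k := k) LinearMap.id π) (Ten.map (k := k) LinearMap.id π) ?_ ?_ ζ
      · rw [Ten.map_comp, Ten.map_comp]; rfl
      · rw [Ten.map_comp, Ten.map_comp]; rfl
    rw [hξ] at hnat
    obtain ⟨η, hη⟩ := con1 hsV' _ hnat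
    cases n with
    | zero =>
      obtain ⟨f, rfl⟩ := hom0_surj ζ
      obtain ⟨F', rfl⟩ := hom0_surj η
      rw [pre_hom0, pre_hom0] at hη
      obtain ⟨F, hF⟩ := hL4 k H S hS V V' π hπ (LinearMap.ker p) P
        (LinearMap.ker p).subtype (Submodule.injective_subtype _) f F' (hom0_inj hη)
      rw [← hF, ← pre_hom0, dr_pre]
    | succ n =>
      have h1 : η = 0 := E_proj _
      rw [h1, pre_zero] at hη
      rw [ih (LinearMap.ker p) ζ hη.symm, dr_zero]

theorem taskZ : TaskZ := by
  intro hL2 hL4 hL5 hW1 k _ H _ _ _ S hS V V' _ _ _ _ _ _ _ _ _ _ π hπ n ξ hξ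
  have hcm : CM k H := ⟨hS.comul_mul⟩
  obtain ⟨h1, h2, h3, h4⟩ := hW1 k H S hS
  have hid : WHId k H S := ⟨h1, h2, h3, h4⟩
  obtain ⟨W₀, _, _, _, _, r, hr, hnat⟩ := hL5 k H S hS
  obtain ⟨s, hs⟩ := hr V
  have h5 : pre (Ten.map (k := k) (LinearMap.id : W₀ →ₗ[H] W₀) π) (pre (r V) ξ) = 0 := by
    rw [← pre_comp, ← hnat V V' π, pre_comp, hξ, pre_zero]
  have h6 := claimS hL2 hL4 k H S hid V V' π hπ n W₀ _ h5
  rw [← pre_id ξ, ← hs, pre_comp, h6, pre_zero]

end TZm

end Pool.Agent.Helper202_BG
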