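import Pool.Agent.Helper202_BG.Main
import Pool.Agent.Helper202_BG.Op
import Pool.Agent.Helper202_BG.L2
import Pool.Agent.Helper202_BG.L4
import Pool.Agent.Helper202_BG.L5
import Pool.Agent.Helper202_BG.X4
import Pool.Agent.Helper202_BG.X3m
import Pool.Agent.Helper202_BG.X12
import Pool.Agent.Helper202_BG.Y
import Pool.Agent.Helper202_BG.Zm

/-!
Noetherian affine PI weak Hopf algebras have finite injective dimension: final assembly.
-/

set_option autoImplicit false

open CategoryTheory
open scoped TensorProduct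

namespace Pool.Agent.Helper202_BG

theorem all_main : TaskMain :=
  taskMain allF allG taskH allI allP1 allP6 TX.taskX1 TX.taskX2 TX.taskX3 taskX4 taskY1 taskY2 taskY4
    taskY5

theorem all_W2 : TaskW2 := TZm.taskZ taskL2 taskL4 taskL5 taskW1

theorem all_twosided (k : Type) [Field k] (H : Type)
    [Ring H] [Algebra k H] [Coalgebra k H] (S : H →ₗ[k] H) (hS : IsWeakHopf k H S)
    [IsNoetherianRing H] [IsNoetherianRing Hᵐᵒᵖ] [Algebra.FiniteType k H]
    (hPI : ∃ (m : ℕ) (f : FreeAlgebra k (Fin m)), f ≠ 0 ∧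
      ∀ a : Fin m → H, FreeAlgebra.lift k a f = 0) :
    (∃ n : ℕ, HasInjectiveDimensionLT (ModuleCat.of H H) n) ∧
      (∃ n : ℕ, HasInjectiveDimensionLT (ModuleCat.of Hᵐᵒᵖ H) n) :=
  twosided all_main all_W2 taskY3 taskOp taskY1 taskY4 taskY6 taskY7 k H S hS hPI

end Pool.Agent.Helper202_BG
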