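import Pool.Agent.Helper202_BG.Stmts

/-!
Task P1 of the project BG202: on a finitely generated infinite-dimensional prime module there is a
central multiplication which is transcendental. The preparatory theorem `TP.prep` is also used for
Task P6.
-/

set_option autoImplicit false

open CategoryTheory
open scoped TensorProduct

namespace Pool.Agent.Helper202_BG

namespace TP

section
variable {k A M : Type} [Field k] [Ring A] [Algebra k A] [AddCommGroup M] [Module A M]
  [Module k M] [IsScalarTower k A M]

/-- the action of `A` on `M` -/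
noncomputable def act (k A M : Type) [Field k] [Ring A] [Algebra k A] [AddCommGroup M] [Module A M]
    [Module k M] [IsScalarTower k A M] : A →ₐ[k] Module.End k M := Algebra.lsmul k k M

@[simp] theorem act_apply (a : A) (m : M) : act k A M a m = a • m := rfl

theorem primeR_range (hM : PrimeM A M) : PrimeR (act k A M).range := by
  obtain ⟨hnt, hM⟩ := hM
  constructor
  · obtain ⟨m, hm⟩ := exists_ne (0 : M)
    refine ⟨⟨0, 1, fun h => hm ?_⟩⟩
    have h1 : (0 : Module.End k M) = 1 := congrArg Subtype.val h
    have h2 := LinearMap.congr_fun h1 m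
    simpa using h2.symm
  · rintro ⟨_, ⟨a, rfl⟩⟩ ⟨_, ⟨b, rfl⟩⟩ hab
    by_cases hb : ∀ m : M, b • m = 0
    · right
      refine Subtype.ext (LinearMap.ext fun m => ?_)
      exact hb m
    · left
      push Not at hb
      obtain ⟨m, hm⟩ := hb
      refine Subtype.ext (LinearMap.ext fun x => ?_)
      refine hM a (b • m) hm (fun r => ?_) x
      have h1 := congrArg Subtype.val (hab ⟨act k A M r, r, rfl⟩)
      have h2 := LinearMap.congr_fun h1 m
      exact h2

theorem not_finite_range [Module.Finite A M] (hnf : ¬ Module.Finite k M) :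
    ¬ Module.Finite k (act k A M).range := by
  intro h
  apply hnf
  obtain ⟨n, s, hs⟩ := Module.Finite.exists_fin (R := A) (M := M)
  let φ : (Fin n → (act k A M).range) →ₗ[k] M :=
    { toFun := fun r => ∑ i, (r i : Module.End k M) (s i)
      map_add' := fun a b => by simp [Finset.sum_add_distrib]
      map_smul' := fun c a => by simp [Finset.smul_sum] }
  refine Module.Finite.of_surjective φ fun x => ?_
  have hx : x ∈ Submodule.span A (Set.range s) := by rw [hs]; trivial
  obtain ⟨c, hc⟩ := (Submodule.mem_span_range_iff_exists_fun A).1 hx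
  exact ⟨fun i => ⟨act k A M (c i), c i, rfl⟩, hc⟩

end

theorem MLPI_of_surjective {k A B : Type} [Field k] [Ring A] [Algebra k A] [Ring B] [Algebra k B]
    (f : A →ₐ[k] B) (hf : Function.Surjective f) {d : ℕ} (h : MLPI k A d) : MLPI k B d := by
  obtain ⟨c, hc1, hc⟩ := h
  refine ⟨c, hc1, fun b => ?_⟩
  choose g hg using hf
  have h1 := congrArg f (hc fun i => g (b i))
  rw [map_zero, map_sum] at h1
  rw [← h1]
  refine Finset.sum_congr rfl fun τ _ => ?_
  rw [map_smul, map_list_prod, List.map_ofFn]
  congr 3
  funext i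
  exact (hg _).symm

theorem prep (hC : TaskC) (hD2 : TaskD2) (hE : TaskE)
    (k : Type) [Field k] (A : Type) [Ring A] [Algebra k A] [IsNoetherianRing A]
    [Algebra.FiniteType k A] (d : ℕ) (hd : MLPI k A d)
    (M : Type) [AddCommGroup M] [Module A M] [Module k M] [IsScalarTower k A M]
    [Module.Finite A M] (hM : PrimeM A M) (hnf : ¬ Module.Finite k M) :
    ∃ Z : Subalgebra k (Module.End k M), Z.FG ∧
      (∀ z ∈ Z, ∃ a : A, act k A M a = z) ∧
      (∀ z ∈ Z, ∀ (a : A) (m : M), z (a • m) = a • z m) ∧
      (∀ z ∈ Z, z ≠ 0 → ∀ m : M, z m = 0 → m = 0) ∧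
      (∃ z ∈ Z, Transcendental k z) ∧
      ∃ (n : ℕ) (v : Fin n → M) (α : Module.End k M), α ∈ Z ∧ α ≠ 0 ∧
        ∀ x : M, ∃ (s : ℕ) (z : Fin n → Module.End k M), (∀ j, z j ∈ Z) ∧
          (α ^ s) x = ∑ j, z j (v j) := by
  have hsurj : Function.Surjective (act k A M).rangeRestrict := AlgHom.rangeRestrict_surjective _
  have hP : PrimeR (act k A M).range := primeR_range hM
  have hmlpi : MLPI k (act k A M).range d := MLPI_of_surjective _ hsurj hd
  have hnoeth : IsNoetherianRing (act k A M).range :=
    isNoetherianRing_of_surjective A _ (act k A M).rangeRestrict.toRingHom hsurj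
  have hft : Algebra.FiniteType k (act k A M).range :=
    Algebra.FiniteType.of_surjective (act k A M).rangeRestrict hsurj
  obtain ⟨n, _, hdet⟩ := hC k (act k A M).range d hmlpi hP
  have hfc := hD2 k (act k A M).range n hP hdet
  obtain ⟨Z, ⟨hZfg, hZc, N, u, α, hαZ, hα0, hu⟩, htr⟩ := hE k (act k A M).range hP hfc
  obtain ⟨z₀, hz₀, hz₀t⟩ := htr (not_finite_range hnf)
  have hcomm : ∀ z ∈ Z, ∀ (a : A) (m : M), (z : Module.End k M) (a • m) =
      a • (z : Module.End k M) m := by
    intro z hz a m
    have h1 := congrArg Subtype.val (hZc z hz ⟨act k A M a, a, rfl⟩)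
    exact LinearMap.congr_fun h1 m
  refine ⟨Z.map (act k A M).range.val, hZfg.map _, ?_, ?_, ?_, ?_, ?_⟩
  · rintro _ ⟨⟨_, ⟨a, rfl⟩⟩, _, rfl⟩
    exact ⟨a, rfl⟩
  · rintro _ ⟨z, hz, rfl⟩ a m
    exact hcomm z hz a m
  · rintro _ ⟨z, hz, rfl⟩ hz0 m hzm
    by_contra hm
    apply hz0
    obtain ⟨a, ha⟩ := z.2
    have ha' : ∀ m : M, a • m = (z : Module.End k M) m := fun m => by
      rw [← ha]; rfl
    change (z : Module.End k M) = 0
    refine LinearMap.ext fun x => ?_
    rw [← ha' x]
    refine hM.2 a m hm (fun r => ?_) x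
    have hzm' : (z : Module.End k M) m = 0 := hzm
    rw [ha', hcomm z hz r m, hzm', smul_zero]
  · refine ⟨(act k A M).range.val z₀, ⟨z₀, hz₀, rfl⟩, ?_⟩
    intro h
    exact hz₀t ((isAlgebraic_algHom_iff (act k A M).range.val Subtype.val_injective).1 h)
  · obtain ⟨n, m, hm⟩ := Module.Finite.exists_fin (R := A) (M := M)
    -- the family `u j (m i)` indexed by `Fin (n * N)`
    refine ⟨n * N, fun p => (u (finProdFinEquiv.symm p).2 : Module.End k M)
      (m (finProdFinEquiv.symm p).1), α, ⟨α, hαZ, rfl⟩, ?_, ?_⟩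
    · intro h
      exact hα0 (Subtype.ext h)
    · intro x
      have hx : x ∈ Submodule.span A (Set.range m) := by rw [hm]; trivial
      obtain ⟨c, hc⟩ := (Submodule.mem_span_range_iff_exists_fun A).1 hx
      choose s z hz hs using fun i => hu ⟨act k A M (c i), c i, rfl⟩
      -- common exponent
      let t : ℕ := ∑ i, s i
      have hst : ∀ i, ∃ e, t = e + s i := fun i => by
        have : s i ≤ t := Finset.single_le_sum (f := s) (fun _ _ => Nat.zero_le _)
          (Finset.mem_univ i)
        exact ⟨t - s i, (Nat.sub_add_cancel this).symm⟩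
      choose e he using hst
      refine ⟨t, fun p => ((α ^ e (finProdFinEquiv.symm p).1 *
        z (finProdFinEquiv.symm p).1 (finProdFinEquiv.symm p).2 : (act k A M).range) :
          Module.End k M), fun p => ⟨_, Z.mul_mem (Z.pow_mem hαZ _) (hz _ _), rfl⟩, ?_⟩
      have hterm : ∀ i, ((α : Module.End k M) ^ t) (c i • m i) =
          ∑ j, ((α ^ e i * z i j : (act k A M).range) : Module.End k M)
            ((u j : Module.End k M) (m i)) := by
        intro i
        have h1 : α ^ t * (⟨act k A M (c i), c i, rfl⟩ : (act k A M).range) =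
            ∑ j, α ^ e i * z i j * u j := by
          rw [he i, pow_add, mul_assoc, hs i, Finset.mul_sum]
          exact Finset.sum_congr rfl fun j _ => (mul_assoc _ _ _).symm
        have h2 := congrArg Subtype.val h1
        have h3 := LinearMap.congr_fun h2 (m i)
        have h4 : (((∑ j, α ^ e i * z i j * u j : (act k A M).range) : Module.End k M)) (m i) =
            ∑ j, ((α ^ e i * z i j : (act k A M).range) : Module.End k M)
              ((u j : Module.End k M) (m i)) := by
          rw [AddSubmonoidClass.coe_finsetSum, LinearMap.sum_apply]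
          rfl
        rw [← h4, ← h3]
        rfl
      calc ((α : Module.End k M) ^ t) x = ∑ i, ((α : Module.End k M) ^ t) (c i • m i) := by
            rw [← hc, map_sum]
        _ = ∑ i, ∑ j, ((α ^ e i * z i j : (act k A M).range) : Module.End k M)
            ((u j : Module.End k M) (m i)) := Finset.sum_congr rfl fun i _ => hterm i
        _ = ∑ p : Fin n × Fin N, ((α ^ e p.1 * z p.1 p.2 : (act k A M).range) : Module.End k M)
            ((u p.2 : Module.End k M) (m p.1)) := by rw [Fintype.sum_prod_type]
        _ = _ := by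
            rw [← finProdFinEquiv.symm.sum_comp]

end TP

/-- Task P1. -/
theorem taskP1 (hC : TaskC) (hD2 : TaskD2) (hE : TaskE) : TaskP1 := by
  intro k _ A _ _ _ _ d hd M _ _ _ _ _ hM hnf
  obtain ⟨Z, _, hlift, hcomm, hinj, ⟨z, hz, hzt⟩, _⟩ := TP.prep hC hD2 hE k A d hd M hM hnf
  obtain ⟨a, ha⟩ := hlift z hz
  have haz : ∀ m : M, a • m = z m := fun m => by rw [← ha]; rfl
  refine ⟨a, fun r x => ?_, fun f hf x hx => ?_⟩
  · rw [sub_smul, mul_smul, mul_smul, haz, haz, hcomm z hz, sub_self]
  · have h1 : TP.act k A M (Polynomial.aeval a f) = Polynomial.aeval z f := by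
      rw [← ha, Polynomial.aeval_algHom_apply]
    have h2 : Polynomial.aeval z f ≠ 0 := fun h =>
      hf ((transcendental_iff.1 hzt) f h)
    refine hinj _ ?_ h2 x ?_
    · have : Polynomial.aeval z f = ((Polynomial.aeval (⟨z, hz⟩ : Z) f : Z) : Module.End k M) := by
        rw [← Subalgebra.coe_val, ← Polynomial.aeval_algHom_apply]
        rfl
      rw [this]
      exact Subtype.property _
    · rw [← h1]
      exact hx

end Pool.Agent.Helper202_BG
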