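import Pool.Agent.Helper202_BG.ExtTools

/-!
Part 3 (a): locally finite parts of injective modules.
-/

set_option autoImplicit false

open CategoryTheory
open scoped TensorProduct

namespace Pool.Agent.Helper202_BG

section
variable {K B : Type} [Field K] [Ring B] [Algebra K B]
variable {J : Type} [AddCommGroup J] [Module B J] [Module K J] [IsScalarTower K B J]

/-- a submodule of finite dimension over the base field -/
def FD (K : Type) {B J : Type} [Field K] [Ring B] [AddCommGroup J] [Module B J]
    [Module K J] [Algebra K B] [IsScalarTower K B J] (N : Submodule B J) : Prop :=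
  (N.restrictScalars K).FG

theorem FD_iff (N : Submodule B J) : FD K N ↔ Module.Finite K N := by
  rw [FD, Submodule.fg_iff_finiteDimensional]
  exact Iff.rfl

theorem FD.mono {N N' : Submodule B J} (h : N ≤ N') (h' : FD K N') : FD K N := by
  rw [FD, Submodule.fg_iff_finiteDimensional] at h' ⊢
  exact Submodule.finiteDimensional_of_le (S₁ := N.restrictScalars K)
    (S₂ := N'.restrictScalars K) h

theorem FD.sup {N N' : Submodule B J} (h : FD K N) (h' : FD K N') : FD K (N ⊔ N') := by
  have : (N ⊔ N').restrictScalars K = N.restrictScalars K ⊔ N'.restrictScalars K := by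
    ext x
    simp [Submodule.mem_sup]
  rw [FD, this]
  exact Submodule.FG.sup h h'

theorem FD.bot : FD K (⊥ : Submodule B J) := by
  have : (⊥ : Submodule B J).restrictScalars K = ⊥ := by ext x; simp
  rw [FD, this]
  exact Submodule.fg_bot

variable {J' : Type} [AddCommGroup J'] [Module B J'] [Module K J'] [IsScalarTower K B J']

theorem FD.map {N : Submodule B J} (h : FD K N) (f : J →ₗ[B] J') : FD K (N.map f) := by
  have : (N.map f).restrictScalars K = (N.restrictScalars K).map (f.restrictScalars K) := by
    ext x; simp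
  rw [FD, this]
  exact Submodule.FG.map _ h

theorem FD.comap_of_inj {N : Submodule B J'} (h : FD K N) (f : J →ₗ[B] J')
    (hf : Function.Injective f) : FD K (N.comap f) := by
  rw [FD_iff] at h ⊢
  let g : N.comap f →ₗ[K] N :=
    { toFun := fun x => ⟨f x.1, x.2⟩
      map_add' := fun x y => by ext; simp
      map_smul' := fun c x => by
        ext
        exact LinearMap.map_smul_of_tower f c x.1 }
  exact Module.Finite.of_injective g (fun x y hxy => by
    apply Subtype.ext
    apply hf
    exact congrArg Subtype.val hxy)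

theorem fd_of_fg (N : Submodule B J) (hfg : N.FG)
    (h : ∀ x ∈ N, FD K (Submodule.span B {x})) : FD K N := by
  revert h
  refine Submodule.fg_induction
    (motive := fun N _ => (∀ x ∈ N, FD K (Submodule.span B {x})) → FD K N)
    ?_ ?_ N hfg
  · intro x h
    exact h x (Submodule.mem_span_singleton_self x)
  · intro M₁ M₂ _ _ h₁ h₂ h
    exact FD.sup (h₁ fun x hx => h x (Submodule.mem_sup_left hx))
      (h₂ fun x hx => h x (Submodule.mem_sup_right hx))

variable (K B J) in
/-- the locally finite part -/
def Gam : Submodule B J where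
  carrier := {x | FD K (Submodule.span B {x})}
  zero_mem' := by
    change FD K (Submodule.span B {0})
    rw [Submodule.span_zero_singleton]
    exact FD.bot
  add_mem' := by
    intro x y hx hy
    refine FD.mono (N' := Submodule.span B {x} ⊔ Submodule.span B {y}) ?_ (FD.sup hx hy)
    rw [Submodule.span_singleton_le_iff_mem]
    exact Submodule.add_mem_sup (Submodule.mem_span_singleton_self x)
      (Submodule.mem_span_singleton_self y)
  smul_mem' := by
    intro b x hx
    refine FD.mono (N' := Submodule.span B {x}) ?_ hx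
    rw [Submodule.span_singleton_le_iff_mem]
    exact Submodule.smul_mem _ b (Submodule.mem_span_singleton_self x)

theorem mem_Gam {x : J} : x ∈ Gam K B J ↔ FD K (Submodule.span B {x}) := Iff.rfl

theorem le_Gam {N : Submodule B J} (h : FD K N) : N ≤ Gam K B J := by
  intro x hx
  exact FD.mono ((Submodule.span_singleton_le_iff_mem x N).2 hx) h

/-- locally finite modules -/
def LocFin (K B J : Type) [Field K] [Ring B] [Algebra K B] [AddCommGroup J] [Module B J]
    [Module K J] [IsScalarTower K B J] : Prop :=
  ∀ x : J, FD K (Submodule.span B {x})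

theorem LocFin.of_inj (h : LocFin K B J') (f : J →ₗ[B] J') (hf : Function.Injective f) :
    LocFin K B J := by
  intro x
  have h1 := FD.comap_of_inj (h (f x)) f hf
  refine FD.mono ?_ h1
  rw [Submodule.span_singleton_le_iff_mem, Submodule.mem_comap]
  exact Submodule.mem_span_singleton_self _

theorem LocFin.of_surj (h : LocFin K B J) (f : J →ₗ[B] J') (hf : Function.Surjective f) :
    LocFin K B J' := by
  intro y
  obtain ⟨x, rfl⟩ := hf y
  have h1 := (h x).map f
  rwa [Submodule.map_span, Set.image_singleton] at h1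

theorem locFin_Gam : LocFin K B (Gam K B J) := by
  intro x
  have h1 : FD K (Submodule.span B {x.1}) := x.2
  have h2 := FD.comap_of_inj h1 (Gam K B J).subtype (Gam K B J).injective_subtype
  refine FD.mono ?_ h2
  rw [Submodule.span_singleton_le_iff_mem, Submodule.mem_comap]
  exact Submodule.mem_span_singleton_self _

theorem LocFin.fd_of_fg (h : LocFin K B J) (N : Submodule B J) (hfg : N.FG) : FD K N :=
  Pool.Agent.Helper202_BG.fd_of_fg N hfg fun x _ => h x

/-- maximal submodules with a prescribed intersection -/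
theorem exists_maximal_inter {M : Type} [AddCommGroup M] [Module B M] (L N₀ : Submodule B M)
    (h : N₀ ≤ L) :
    ∃ L' : Submodule B M, L' ⊓ L = N₀ ∧
      ∀ N : Submodule B M, L' < N → ∃ x ∈ N, x ∈ L ∧ x ∉ N₀ := by
  obtain ⟨L', hL', hmax⟩ := zorn_le_nonempty₀ {N : Submodule B M | N ⊓ L = N₀} (by
    intro c hc hchain y hy
    refine ⟨sSup c, ?_, fun z hz => le_sSup hz⟩
    apply le_antisymm
    · rintro x ⟨hx1, hx2⟩
      obtain ⟨z, hz, hxz⟩ := (Submodule.mem_sSup_of_directed ⟨y, hy⟩ hchain.directedOn).1 hx1
      have := hc hz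
      rw [Set.mem_ofPred_eq] at this
      rw [← this]
      exact ⟨hxz, hx2⟩
    · have := hc hy
      rw [Set.mem_ofPred_eq] at this
      rw [← this]
      exact inf_le_inf_right _ (le_sSup hy)) N₀ (by simpa using h)
  refine ⟨L', hmax.1, ?_⟩
  intro N hN
  by_contra hcon
  push Not at hcon
  have h1 : N ⊓ L = N₀ := by
    apply le_antisymm
    · rintro x ⟨hx1, hx2⟩
      exact hcon x hx1 hx2
    · have h2 : L' ⊓ L = N₀ := hmax.1
      rw [← h2]
      exact inf_le_inf_right _ hN.le
  exact absurd (hmax.2 h1 hN.le) hN.not_ge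

/-- the locally finite part of an injective module is injective -/
theorem baer_Gam [IsNoetherianRing B] (hess : Ess K B) (hJ : Module.Baer B J) :
    Module.Baer B (Gam K B J) := by
  intro L f
  -- the kernel
  let f' : L →ₗ[B] J := (Gam K B J).subtype ∘ₗ f
  let N₀ : Submodule B B := (LinearMap.ker f).map L.subtype
  have hN₀ : N₀ ≤ L := by
    rintro _ ⟨x, -, rfl⟩
    exact x.2
  obtain ⟨L', hL', hmax⟩ := exists_maximal_inter L N₀ hN₀
  -- the map from L to the quotient
  let q : L →ₗ[B] (B ⧸ L') := L'.mkQ ∘ₗ L.subtype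
  have hker : LinearMap.ker q = LinearMap.ker f := by
    ext x
    rw [LinearMap.mem_ker, LinearMap.comp_apply, Submodule.mkQ_apply,
      Submodule.Quotient.mk_eq_zero, Submodule.subtype_apply]
    constructor
    · intro hx
      have : x.1 ∈ N₀ := by rw [← hL']; exact ⟨hx, x.2⟩
      obtain ⟨y, hy, hyx⟩ := this
      have : y = x := Subtype.ext hyx
      rw [← this]; exact hy
    · intro hx
      have : x.1 ∈ N₀ := ⟨x, hx, rfl⟩
      rw [← hL'] at this
      exact this.1
  -- the image of f is finite-dimensional
  have hrf : FD K (LinearMap.range f) := by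
    refine (locFin_Gam (K := K) (B := B) (J := J)).fd_of_fg _ ?_
    have : L.FG := IsNoetherian.noetherian L
    rw [LinearMap.range_eq_map]
    exact Submodule.FG.map _ ((Submodule.fg_top L).2 this)
  let e1 : (L ⧸ LinearMap.ker f) ≃ₗ[B] LinearMap.range f := f.quotKerEquivRange
  let e2 : (L ⧸ LinearMap.ker q) ≃ₗ[B] LinearMap.range q := q.quotKerEquivRange
  let e3 : (L ⧸ LinearMap.ker q) ≃ₗ[B] (L ⧸ LinearMap.ker f) :=
    Submodule.quotEquivOfEq _ _ hker
  have hfinU : Module.Finite K (LinearMap.range q) := by
    have h1 : Module.Finite K (LinearMap.range f) := (FD_iff _).1 hrf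
    let e : LinearMap.range f ≃ₗ[B] LinearMap.range q := e1.symm.trans (e3.symm.trans e2)
    exact Module.Finite.equiv (e.restrictScalars K)
  have hfinQ : Module.Finite K (B ⧸ L') := by
    apply hess (B ⧸ L') (LinearMap.range q) hfinU
    intro N hN hcon
    let N' : Submodule B B := N.comap L'.mkQ
    have hlt : L' < N' := by
      refine lt_of_le_of_ne ?_ ?_
      · intro x hx
        change L'.mkQ x ∈ N
        rw [Submodule.mkQ_apply, (Submodule.Quotient.mk_eq_zero _).2 hx]
        exact N.zero_mem
      · intro heq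
        apply hN
        rw [Submodule.eq_bot_iff]
        intro y hy
        obtain ⟨x, rfl⟩ := L'.mkQ_surjective y
        have : x ∈ N' := hy
        rw [← heq] at this
        rw [Submodule.mkQ_apply]
        exact (Submodule.Quotient.mk_eq_zero _).2 this
    obtain ⟨x, hx1, hx2, hx3⟩ := hmax N' hlt
    have h1 : L'.mkQ x ∈ LinearMap.range q ⊓ N := ⟨⟨⟨x, hx2⟩, rfl⟩, hx1⟩
    rw [hcon, Submodule.mem_bot, Submodule.mkQ_apply, Submodule.Quotient.mk_eq_zero] at h1
    apply hx3
    rw [← hL']
    exact ⟨h1, hx2⟩
  -- extend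
  let qb : (L ⧸ LinearMap.ker f) →ₗ[B] (B ⧸ L') := (LinearMap.ker f).liftQ q hker.ge
  have hqb : Function.Injective qb := by
    rw [← LinearMap.ker_eq_bot, Submodule.ker_liftQ_eq_bot _ _ _ hker.le]
  let fb : (L ⧸ LinearMap.ker f) →ₗ[B] J :=
    (LinearMap.ker f).liftQ f' (fun x hx => by
      rw [LinearMap.mem_ker] at hx ⊢
      rw [LinearMap.comp_apply, hx, map_zero])
  obtain ⟨g, hg⟩ := Module.Baer.extension_property hJ qb hqb fb
  -- the image of g is locally finite
  have hg1 : ∀ y, g y ∈ Gam K B J := by
    have h2 : FD K (LinearMap.range g) := by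
      rw [LinearMap.range_eq_map]
      apply FD.map
      rw [FD_iff]
      exact Module.Finite.equiv
        ((Submodule.topEquiv (R := B) (M := B ⧸ L')).symm.restrictScalars K)
    intro y
    exact le_Gam h2 ⟨y, rfl⟩
  let g' : (B ⧸ L') →ₗ[B] Gam K B J := g.codRestrict _ hg1
  refine ⟨g' ∘ₗ L'.mkQ, ?_⟩
  intro x hx
  apply Subtype.ext
  change g (L'.mkQ x) = (f ⟨x, hx⟩ : Gam K B J).1
  have h3 := LinearMap.congr_fun hg (Submodule.Quotient.mk ⟨x, hx⟩)
  exact h3

end

end Pool.Agent.Helper202_BG
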