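import Pool.Agent.Helper202_BG.P3a

/-!
Part 3 (b): extensions of finite-dimensional modules by modules without finite-dimensional
submodules.
-/

set_option autoImplicit false

open CategoryTheory
open scoped TensorProduct

namespace Pool.Agent.Helper202_BG

/-- All extensions of finite-dimensional modules by `X` split. -/
def SplitX (k A X : Type) [Field k] [Ring A] [Algebra k A] [AddCommGroup X] [Module A X] : Prop :=
  ∀ (V : Type) [AddCommGroup V] [Module A V] [Module k V] [IsScalarTower k A V]
    [Module.Finite k V] (Y : Type) [AddCommGroup Y] [Module A Y] (i : X →ₗ[A] Y) (p : Y →ₗ[A] V),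
    SES i p → ∃ s : V →ₗ[A] Y, p ∘ₗ s = LinearMap.id

section
variable {k A : Type} [Field k] [Ring A] [Algebra k A]

theorem hom_smul_k {V W : Type} [AddCommGroup V] [Module A V] [Module k V] [IsScalarTower k A V]
    [AddCommGroup W] [Module A W] [Module k W] [IsScalarTower k A W] (f : V →ₗ[A] W) (c : k)
    (v : V) : f (c • v) = c • f v :=
  LinearMap.map_smul_of_tower f c v

/-- right ideals of a right noetherian ring are finitely generated -/
theorem right_fg [IsNoetherianRing Aᵐᵒᵖ] (Q : Ideal A) [Q.IsTwoSided] :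
    ∃ (m : ℕ) (a : Fin m → A), (∀ j, a j ∈ Q) ∧
      ∀ x ∈ Q, ∃ r : Fin m → A, x = ∑ j, a j * r j := by
  let Q' : Ideal Aᵐᵒᵖ :=
    { carrier := {x | x.unop ∈ Q}
      add_mem' := fun {x y} hx hy => Q.add_mem hx hy
      zero_mem' := Q.zero_mem
      smul_mem' := fun c x hx => by
        change (c * x).unop ∈ Q
        rw [MulOpposite.unop_mul]
        exact Ideal.IsTwoSided.mul_mem_of_left _ hx }
  obtain ⟨m, a, ha⟩ := Submodule.fg_iff_exists_fin_generating_family.1
    (IsNoetherian.noetherian Q')
  refine ⟨m, fun j => (a j).unop, fun j => ?_, ?_⟩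
  · have : a j ∈ Q' := by rw [← ha]; exact Submodule.subset_span ⟨j, rfl⟩
    exact this
  · intro x hx
    have : MulOpposite.op x ∈ Q' := hx
    rw [← ha, Submodule.mem_span_range_iff_exists_fun] at this
    obtain ⟨c, hc⟩ := this
    refine ⟨fun j => (c j).unop, ?_⟩
    have h1 := congrArg MulOpposite.unop hc
    rw [MulOpposite.unop_op] at h1
    rw [← h1]
    simp [Finset.unop_sum]

/-- a finite-dimensional module is killed by a nonzero polynomial in each element commuting
with the action -/
theorem poly_kill {V : Type} [AddCommGroup V] [Module k V] [Module.Finite k V]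
    (T : Module.End k V) : ∃ f : Polynomial k, f ≠ 0 ∧ Polynomial.aeval T f = 0 := by
  obtain ⟨f, hf, hf0⟩ := (Algebra.IsAlgebraic.isAlgebraic (R := k) T : IsAlgebraic k T)
  exact ⟨f, hf, hf0⟩

theorem aeval_smul {V : Type} [AddCommGroup V] [Module A V] [Module k V] [IsScalarTower k A V]
    (z : A) (f : Polynomial k) (v : V) :
    Polynomial.aeval z f • v = Polynomial.aeval (Algebra.lsmul k k V z) f v := by
  rw [Polynomial.aeval_algHom_apply]
  rfl

end

/-- Part 3 (b) -/
theorem split_of_central {k A : Type} [Field k] [Ring A] [Algebra k A] [IsNoetherianRing Aᵐᵒᵖ]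
    {W : Type} [AddCommGroup W] [Module A W] (P : Ideal A) [P.IsTwoSided]
    (hP : ∀ a ∈ P, ∀ w : W, a • w = 0) (z : A) (hz : ∀ r : A, z * r - r * z ∈ P)
    (hinj : ∀ f : Polynomial k, f ≠ 0 → ∀ w : W, Polynomial.aeval z f • w = 0 → w = 0)
    (hsurj : ∀ f : Polynomial k, f ≠ 0 → ∀ w : W, ∃ w', Polynomial.aeval z f • w' = w) :
    SplitX k A W := by
  intro V _ _ _ _ _ Y _ _ i p h
  let _ : Module k Y := Module.compHom Y (algebraMap k A)
  have _ : IsScalarTower k A Y := ⟨fun c a y => by
    rw [Algebra.smul_def, mul_smul]; rfl⟩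
  let _ : Module k W := Module.compHom W (algebraMap k A)
  have _ : IsScalarTower k A W := ⟨fun c a y => by
    rw [Algebra.smul_def, mul_smul]; rfl⟩
  -- the annihilator of V
  let φ : A →ₐ[k] Module.End k V := Algebra.lsmul k k V
  let I : Ideal A := RingHom.ker φ.toRingHom
  have hI : ∀ a : A, a ∈ I ↔ ∀ v : V, a • v = 0 := by
    intro a
    rw [RingHom.mem_ker]
    constructor
    · intro ha v
      exact LinearMap.congr_fun ha v
    · intro ha
      apply LinearMap.ext
      intro v
      exact ha v
  have hIfin : Module.Finite k (A ⧸ (I.restrictScalars k : Submodule k A)) := by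
    let ψ : (A ⧸ (I.restrictScalars k : Submodule k A)) →ₗ[k] Module.End k V :=
      (I.restrictScalars k).liftQ φ.toLinearMap (fun a ha => by
        have h1 : φ a = 0 := RingHom.mem_ker.1 ha
        exact LinearMap.mem_ker.2 h1)
    refine Module.Finite.of_injective ψ ?_
    rw [← LinearMap.ker_eq_bot]
    apply Submodule.ker_liftQ_eq_bot
    intro a ha
    have h1 : φ a = 0 := LinearMap.mem_ker.1 ha
    exact (RingHom.mem_ker.2 h1 : a ∈ RingHom.ker φ.toRingHom)
  let Q : Ideal A := P ⊓ I
  have hQ : Q.IsTwoSided := ⟨fun {a} b ha =>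
    ⟨Ideal.IsTwoSided.mul_mem_of_left b ha.1, Ideal.IsTwoSided.mul_mem_of_left b ha.2⟩⟩
  -- elements of I map Y into W
  have hIY : ∀ a ∈ I, ∀ y : Y, ∃ w, i w = a • y := by
    intro a ha y
    apply (h.exact _).1
    rw [map_smul]
    exact (hI a).1 ha _
  -- Q kills Y
  have hQY : ∀ a ∈ Q, ∀ y : Y, a • y = 0 := by
    intro a ha y
    obtain ⟨m, b, hb, hgen⟩ := right_fg Q
    -- the submodule Q y
    let N : Submodule A Y := Submodule.map (LinearMap.toSpanSingleton A Y y) Q
    have hNfd : FD k N := by
      let g : Fin m → (A →ₗ[k] Y) := fun j =>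
        { toFun := fun r => b j • r • y
          map_add' := fun r s => by rw [add_smul, smul_add]
          map_smul' := fun c r => by
            rw [RingHom.id_apply, smul_assoc, smul_comm (b j) c (r • y)] }
      have hg : ∀ j, Module.Finite k (LinearMap.range (g j)) := by
        intro j
        have hk : (I.restrictScalars k : Submodule k A) ≤ LinearMap.ker (g j) := by
          intro r hr
          rw [LinearMap.mem_ker]
          obtain ⟨w, hw⟩ := hIY r hr y
          change b j • r • y = 0
          rw [← hw, ← map_smul, hP _ (hb j).1, map_zero]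
        let g' := (I.restrictScalars k).liftQ (g j) hk
        have : LinearMap.range (g j) = LinearMap.range g' := by
          rw [Submodule.range_liftQ]
        rw [this]
        infer_instance
      have hle : N.restrictScalars k ≤ ⨆ j, LinearMap.range (g j) := by
        rintro _ ⟨x, hx, rfl⟩
        obtain ⟨r, hr⟩ := hgen x hx
        rw [hr, LinearMap.toSpanSingleton_apply, Finset.sum_smul]
        refine Submodule.sum_mem _ fun j _ => ?_
        refine Submodule.mem_iSup_of_mem j ⟨r j, ?_⟩
        change b j • r j • y = (b j * r j) • y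
        rw [mul_smul]
      rw [FD, Submodule.fg_iff_finiteDimensional]
      have : Module.Finite k (⨆ j, LinearMap.range (g j) : Submodule k Y) :=
        Submodule.finite_iSup _
      exact Submodule.finiteDimensional_of_le hle
    have hNk : Module.Finite k N := (FD_iff N).1 hNfd
    -- a polynomial kills N
    obtain ⟨f, hf, hf0⟩ := poly_kill (k := k) (Algebra.lsmul k k N z)
    have hay : a • y ∈ N := ⟨a, ha, rfl⟩
    have h1 : Polynomial.aeval z f • (⟨a • y, hay⟩ : N) = 0 := by
      rw [aeval_smul, hf0]; rfl
    have h2 : Polynomial.aeval z f • (a • y) = 0 := congrArg Subtype.val h1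
    obtain ⟨w, hw⟩ := hIY a ha.2 y
    rw [← hw, ← map_smul] at h2
    have h3 := hinj f hf w (h.inj (h2.trans (map_zero i).symm))
    rw [← hw, h3, map_zero]
  -- a polynomial in z kills V
  obtain ⟨f, hf, hf0⟩ := poly_kill (k := k) (Algebra.lsmul k k V z)
  have hcI : Polynomial.aeval z f ∈ I := by
    rw [hI]
    intro v
    rw [aeval_smul, hf0]; rfl
  -- f(z) is central modulo P
  have hcP : ∀ r : A, Polynomial.aeval z f * r - r * Polynomial.aeval z f ∈ P := by
    let π := Ideal.Quotient.mk P
    have hzc : ∀ r : A, Commute (π z) (π r) := by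
      intro r
      have h1 := Ideal.Quotient.eq_zero_iff_mem.2 (hz r)
      rw [map_sub, map_mul, map_mul, sub_eq_zero] at h1
      exact h1
    have h2 : ∀ r : A, Commute (π (Polynomial.aeval z f)) (π r) := by
      intro r
      rw [Polynomial.aeval_eq_sum_range, map_sum]
      refine Commute.sum_left _ _ _ fun n _ => ?_
      rw [Algebra.smul_def, map_mul, map_pow]
      refine Commute.mul_left ?_ ((hzc r).pow_left n)
      rw [commute_iff_eq, ← map_mul, ← map_mul, Algebra.commutes]
    intro r
    rw [← Ideal.Quotient.eq_zero_iff_mem, map_sub, map_mul, map_mul, (h2 r).eq, sub_self]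
  have hcY : ∀ (r : A) (y : Y), Polynomial.aeval z f • r • y = r • Polynomial.aeval z f • y := by
    intro r y
    have h1 : Polynomial.aeval z f * r - r * Polynomial.aeval z f ∈ Q :=
      ⟨hcP r, I.sub_mem (Ideal.IsTwoSided.mul_mem_of_left r hcI) (I.mul_mem_left r hcI)⟩
    have h2 := hQY _ h1 y
    rw [sub_smul, mul_smul, mul_smul, sub_eq_zero] at h2
    exact h2
  let γ : Y →ₗ[A] Y :=
    { toFun := fun y => Polynomial.aeval z f • y
      map_add' := fun x y => smul_add _ _ _
      map_smul' := fun r y => hcY r y }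
  let q : LinearMap.ker γ →ₗ[A] V := p ∘ₗ (LinearMap.ker γ).subtype
  have hq : Function.Bijective q := by
    constructor
    · rw [injective_iff_map_eq_zero]
      rintro ⟨y, hy⟩ hqy
      obtain ⟨w, hw⟩ := (h.exact y).1 hqy
      have h1 : Polynomial.aeval z f • w = 0 := by
        apply h.inj
        rw [map_smul, hw, map_zero]
        exact hy
      apply Subtype.ext
      change y = 0
      rw [← hw, hinj f hf w h1, map_zero]
    · intro v
      obtain ⟨y, rfl⟩ := h.surj v
      obtain ⟨w, hw⟩ := hIY _ hcI y
      obtain ⟨w', hw'⟩ := hsurj f hf w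
      refine ⟨⟨y - i w', ?_⟩, ?_⟩
      · rw [LinearMap.mem_ker]
        change Polynomial.aeval z f • (y - i w') = 0
        rw [smul_sub, ← map_smul, hw', hw, sub_self]
      · change p (y - i w') = p y
        rw [map_sub, (h.exact (i w')).2 ⟨w', rfl⟩, sub_zero]
  let e : LinearMap.ker γ ≃ₗ[A] V := LinearEquiv.ofBijective q hq
  refine ⟨(LinearMap.ker γ).subtype ∘ₗ e.symm.toLinearMap, ?_⟩
  ext v
  exact e.apply_symm_apply v

end Pool.Agent.Helper202_BG
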