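import Pool.Agent.Helper202_BG.P3b

/-!
Part 3 (c): prime submodules and filtrations.
-/

set_option autoImplicit false

open CategoryTheory
open scoped TensorProduct

namespace Pool.Agent.Helper202_BG

section
variable {A : Type} [Ring A] [IsNoetherianRing A]

/-- Every nonzero module contains a cyclic prime submodule. -/
theorem exists_primeM (X : Type) [AddCommGroup X] [Module A X] (x₀ : X) (hx₀ : x₀ ≠ 0) :
    ∃ x : X, x ≠ 0 ∧ PrimeM A (Submodule.span A {x}) := by
  let S : Set (Ideal A) := {I | ∃ x : X, x ≠ 0 ∧ Module.annihilator A (Submodule.span A {x}) = I}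
  obtain ⟨I, ⟨x, hx, rfl⟩, hmax⟩ := set_has_maximal_iff_noetherian.2
    (inferInstanceAs (IsNoetherian A A)) S ⟨_, x₀, hx₀, rfl⟩
  refine ⟨x, hx, ?_, ?_⟩
  · refine ⟨⟨⟨x, Submodule.mem_span_singleton_self x⟩, 0, ?_⟩⟩
    intro h
    exact hx (congrArg Subtype.val h)
  · rintro a ⟨m, hm⟩ hm0 ha ⟨y, hy⟩
    have hm0' : m ≠ 0 := fun h => hm0 (Subtype.ext h)
    have hle : Module.annihilator A (Submodule.span A {x}) ≤
        Module.annihilator A (Submodule.span A {m}) := by
      intro b hb
      rw [Module.mem_annihilator] at hb ⊢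
      rintro ⟨w, hw⟩
      have hw' : w ∈ Submodule.span A {x} :=
        (Submodule.span_singleton_le_iff_mem _ _).2 hm hw
      have h1 : b • w = 0 := congrArg Subtype.val (hb ⟨w, hw'⟩)
      exact Subtype.ext h1
    have heq : Module.annihilator A (Submodule.span A {x}) =
        Module.annihilator A (Submodule.span A {m}) := by
      by_contra hne
      exact hmax _ ⟨m, hm0', rfl⟩ (lt_of_le_of_ne hle hne)
    have h1 : a ∈ Module.annihilator A (Submodule.span A {m}) := by
      rw [Module.mem_annihilator]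
      rintro ⟨w, hw⟩
      obtain ⟨r, rfl⟩ := Submodule.mem_span_singleton.1 hw
      have h1 : a • r • m = 0 := congrArg Subtype.val (ha r)
      exact Subtype.ext h1
    rw [← heq, Module.mem_annihilator] at h1
    exact h1 _

end

section
variable {k A : Type} [Field k] [Ring A] [Algebra k A] [IsNoetherianRing A]

/-- Induction along filtrations with prime factors. -/
theorem filt (Q : ∀ (X : Type) [AddCommGroup X] [Module A X] [Module k X]
      [IsScalarTower k A X], Prop)
    (hext : ∀ (X : Type) [AddCommGroup X] [Module A X] [Module k X] [IsScalarTower k A X]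
      (Y : Type) [AddCommGroup Y] [Module A Y] [Module k Y] [IsScalarTower k A Y]
      (Z : Type) [AddCommGroup Z] [Module A Z] [Module k Z] [IsScalarTower k A Z]
      (i : X →ₗ[A] Y) (p : Y →ₗ[A] Z), SES i p → Q X → Q Z → Q Y)
    (hzero : ∀ (X : Type) [AddCommGroup X] [Module A X] [Module k X] [IsScalarTower k A X],
      Subsingleton X → Q X)
    (M : Type) [AddCommGroup M] [Module A M] [Module k M] [IsScalarTower k A M]
    [Module.Finite A M]
    (hprime : ∀ (X : Type) [AddCommGroup X] [Module A X] [Module k X] [IsScalarTower k A X]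
      [Module.Finite A X], PrimeM A X → (∀ a : A, (∀ m : M, a • m = 0) → ∀ x : X, a • x = 0) →
      Q X) : Q M := by
  have hnoeth : IsNoetherian A M := isNoetherian_of_isNoetherianRing_of_finite A M
  obtain ⟨N, hN, hmax⟩ := set_has_maximal_iff_noetherian.2 hnoeth
    {N : Submodule A M | Q N} ⟨⊥, hzero _ inferInstance⟩
  have hN : Q N := hN
  by_cases htop : N = ⊤
  · subst htop
    refine hext (⊤ : Submodule A M) M PUnit (⊤ : Submodule A M).subtype 0 ?_ hN
      (hzero PUnit inferInstance)
    exact ⟨Submodule.injective_subtype _, fun y => ⟨0, rfl⟩, fun y => ⟨fun _ => ⟨⟨y, trivial⟩, rfl⟩,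
      fun _ => rfl⟩⟩
  · exfalso
    obtain ⟨x₀, hx₀⟩ : ∃ x : M, x ∉ N := by
      by_contra hcon
      push Not at hcon
      exact htop (eq_top_iff.2 fun x _ => hcon x)
    have hx₀' : N.mkQ x₀ ≠ 0 := by
      rw [Submodule.mkQ_apply, Ne, Submodule.Quotient.mk_eq_zero]
      exact hx₀
    obtain ⟨y, hy, hprimeM⟩ := exists_primeM (A := A) (M ⧸ N) (N.mkQ x₀) hx₀'
    let T' : Submodule A (M ⧸ N) := Submodule.span A {y}
    let T : Submodule A M := T'.comap N.mkQ
    have hNT : N ≤ T := by
      intro x hx
      change N.mkQ x ∈ T'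
      rw [Submodule.mkQ_apply, (Submodule.Quotient.mk_eq_zero _).2 hx]
      exact T'.zero_mem
    have hQT' : Q T' := by
      refine hprime T' hprimeM ?_
      rintro a ha ⟨x, hx⟩
      obtain ⟨x, rfl⟩ := N.mkQ_surjective x
      apply Subtype.ext
      change a • N.mkQ x = 0
      rw [← map_smul, ha, map_zero]
    have hQT : Q T := by
      let i : N →ₗ[A] T := Submodule.inclusion hNT
      let p : T →ₗ[A] T' := (N.mkQ ∘ₗ T.subtype).codRestrict T' (fun x => x.2)
      refine hext N T T' i p ⟨Submodule.inclusion_injective hNT, ?_, ?_⟩ hN hQT'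
      · rintro ⟨z, hz⟩
        obtain ⟨x, rfl⟩ := N.mkQ_surjective z
        exact ⟨⟨x, hz⟩, rfl⟩
      · rintro ⟨x, hx⟩
        constructor
        · intro h
          have h1 : N.mkQ x = 0 := congrArg Subtype.val h
          rw [Submodule.mkQ_apply, Submodule.Quotient.mk_eq_zero] at h1
          exact ⟨⟨x, h1⟩, rfl⟩
        · rintro ⟨⟨w, hw⟩, hwx⟩
          have h2 : w = x := congrArg Subtype.val hwx
          apply Subtype.ext
          change N.mkQ x = 0
          rw [Submodule.mkQ_apply, Submodule.Quotient.mk_eq_zero, ← h2]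
          exact hw
    refine hmax T hQT (lt_of_le_of_ne hNT ?_)
    intro heq
    apply hy
    obtain ⟨x, rfl⟩ := N.mkQ_surjective y
    have : x ∈ T := Submodule.mem_span_singleton_self (N.mkQ x)
    rw [← heq] at this
    rw [Submodule.mkQ_apply]
    exact (Submodule.Quotient.mk_eq_zero _).2 this

end

end Pool.Agent.Helper202_BG
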