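import Pool.Agent.Helper202_BG.P3d

/-!
Part 3 (c): splittings over an extension of the base field.
-/

set_option autoImplicit false

open CategoryTheory
open scoped TensorProduct

namespace Pool.Agent.Helper202_BG

/-- the conclusion of Task P1 for one algebra -/
def P1s (k A : Type) [Field k] [Ring A] [Algebra k A] : Prop :=
  ∀ (M : Type) [AddCommGroup M] [Module A M] [Module k M] [IsScalarTower k A M]
      [Module.Finite A M], PrimeM A M → ¬ Module.Finite k M →
      ∃ z : A, (∀ (r : A) (x : M), (z * r - r * z) • x = 0) ∧
        ∀ f : Polynomial k, f ≠ 0 → ∀ x : M, Polynomial.aeval z f • x = 0 → x = 0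

/-- `B` behaves like `K ⊗ A` -/
class BExt (k A K B : Type) [Field k] [Ring A] [Algebra k A] [Field K] [Algebra k K] [Ring B]
    [Algebra K B] [Algebra k B] [Module A B] : Prop where
  t1 : IsScalarTower k K B
  t2 : IsScalarTower A B B
  t3 : IsScalarTower k A B
  comm : ∀ (a : A) (c : K), (a • (1 : B)) * (c • (1 : B)) = (c • (1 : B)) * (a • (1 : B))
  span : ∀ b : B, b ∈ Submodule.span K (Set.range fun a : A => (a • (1 : B)))
  baer : ∀ (J : Type) [AddCommGroup J] [Module B J] [Module A J] [IsScalarTower A B J],
    Module.Baer B J → Module.Baer A J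

section
variable {k A K B : Type} [Field k] [Ring A] [Algebra k A] [Field K] [Algebra k K] [Ring B]
    [Algebra K B] [Algebra k B] [Module A B] [hB : BExt k A K B]

section
variable {X : Type} [AddCommGroup X] [Module B X] [Module A X] [IsScalarTower A B X]
  [Module K X] [IsScalarTower K B X]

theorem one_smul_A (a : A) (x : X) : (a • (1 : B)) • x = a • x := by
  rw [smul_assoc, one_smul]

theorem one_smul_K (c : K) (x : X) : (c • (1 : B)) • x = c • x := by
  rw [smul_assoc, one_smul]

include hB in
theorem comm_AK (a : A) (c : K) (x : X) : a • c • x = c • a • x := by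
  have h := hB.comm a c
  have h1 := congrArg (fun b : B => b • x) h
  simp only [mul_smul, one_smul_A] at h1
  exact h1

variable (k A K B X) in
include hB in
/-- multiplication by an element of `K` is `A`-linear -/
def csm (c : K) : X →ₗ[A] X where
  toFun x := c • x
  map_add' x y := smul_add c x y
  map_smul' a x := (comm_AK (k := k) (B := B) a c x).symm

variable [Module k X] [IsScalarTower k B X]

omit [Module K X] [IsScalarTower K B X] in
include hB in
theorem tower_kAX : IsScalarTower k A X := by
  have := hB.t3
  refine ⟨fun c a x => ?_⟩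
  have h1 : ((c • a) • (1 : B)) • x = (c • a) • x := one_smul_A _ _
  rw [← h1, smul_assoc c a (1 : B), smul_assoc c (a • (1 : B)) x, one_smul_A]

omit [Module A X] [IsScalarTower A B X] in
include hB in
theorem tower_kKX : IsScalarTower k K X := by
  have := hB.t1
  refine ⟨fun c a x => ?_⟩
  have h1 : ((c • a) • (1 : B)) • x = (c • a) • x := one_smul_K _ _
  rw [← h1, smul_assoc c a (1 : B), smul_assoc c (a • (1 : B)) x, one_smul_K]

end

include hB in
/-- an additive map commuting with `A` and `K` commutes with `B` -/
theorem B_linear {X : Type} [AddCommGroup X] [Module B X] [Module A X] [IsScalarTower A B X]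
    [Module K X] [IsScalarTower K B X] (f : X →+ X) (x : X)
    (hA : ∀ (a : A), f (a • x) = a • f x) (hK : ∀ (c : K) (y : X), f (c • y) = c • f y)
    (b : B) : f (b • x) = b • f x := by
  refine Submodule.span_induction (p := fun b _ => f (b • x) = b • f x) ?_ ?_ ?_ ?_ (hB.span b)
  · rintro _ ⟨a, rfl⟩
    simp only [one_smul_A]
    exact hA a
  · simp
  · intro b c _ _ h1 h2
    rw [add_smul, map_add, h1, h2, add_smul]
  · intro c b _ h
    rw [smul_assoc, hK, h, smul_assoc]

theorem aeval_central (P : Ideal A) [P.IsTwoSided] (z : A) (hz : ∀ r : A, z * r - r * z ∈ P)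
    (f : Polynomial k) (r : A) : Polynomial.aeval z f * r - r * Polynomial.aeval z f ∈ P := by
  let π := Ideal.Quotient.mk P
  have hzc : ∀ r : A, Commute (π z) (π r) := by
    intro r
    have h1 := Ideal.Quotient.eq_zero_iff_mem.2 (hz r)
    rw [map_sub, map_mul, map_mul, sub_eq_zero] at h1
    exact h1
  have h2 : ∀ r : A, Commute (π (Polynomial.aeval z f)) (π r) := by
    intro r
    rw [Polynomial.aeval_eq_sum_range, map_sum]
    refine Commute.sum_left _ _ _ fun n _ => ?_
    rw [Algebra.smul_def, map_mul, map_pow]
    refine Commute.mul_left ?_ ((hzc r).pow_left n)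
    rw [commute_iff_eq, ← map_mul, ← map_mul, Algebra.commutes]
  rw [← Ideal.Quotient.eq_zero_iff_mem, map_sub, map_mul, map_mul, (h2 r).eq, sub_self]

include hB in
/-- (c) for simple modules -/
theorem split_simple [IsNoetherianRing A] [IsNoetherianRing Aᵐᵒᵖ] (hP1 : P1s k A)
    (T : Type) [AddCommGroup T] [Module B T] [Module A T] [IsScalarTower A B T] [Module K T]
    [IsScalarTower K B T] [Module k T] [IsScalarTower k B T] [IsScalarTower k A T]
    [IsSimpleModule B T]
    (hno : NoFin k A T) : SplitX k A T := by
  have hnt : Nontrivial T := IsSimpleModule.nontrivial B T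
  obtain ⟨x₀, hx₀⟩ := exists_ne (0 : T)
  obtain ⟨x, hx, hprime⟩ := exists_primeM (A := A) T x₀ hx₀
  let M : Submodule A T := Submodule.span A {x}
  have hxM : x ∈ M := Submodule.mem_span_singleton_self x
  have hMfin : ¬ Module.Finite k M := by
    intro h
    have h1 : M = ⊥ := hno M ((FD_iff M).2 h)
    rw [h1] at hxM
    exact hx hxM
  obtain ⟨z, hz, hinj⟩ := hP1 M hprime hMfin
  have hgen : ∀ t : T, ∃ b : B, b • x = t :=
    fun t => IsSimpleModule.toSpanSingleton_surjective B hx t
  -- an element of A killing M kills T
  have hkill : ∀ a : A, (∀ m ∈ M, a • m = 0) → ∀ t : T, a • t = 0 := by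
    intro a ha t
    obtain ⟨b, rfl⟩ := hgen t
    refine Submodule.span_induction (p := fun b _ => a • (b • x) = 0) ?_ ?_ ?_ ?_ (hB.span b)
    · rintro _ ⟨a', rfl⟩
      simp only [one_smul_A]
      exact ha _ (M.smul_mem a' hxM)
    · simp
    · intro b c _ _ h1 h2
      rw [add_smul, smul_add, h1, h2, add_zero]
    · intro c b _ h
      rw [smul_assoc, comm_AK (k := k) (B := B), h, smul_zero]
  let P : Ideal A := Module.annihilator A T
  have hzP : ∀ r : A, z * r - r * z ∈ P := by
    intro r
    rw [Module.mem_annihilator]
    refine hkill _ fun m hm => ?_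
    exact congrArg Subtype.val (hz r ⟨m, hm⟩)
  have hbij : ∀ f : Polynomial k, f ≠ 0 →
      Function.Bijective (fun t : T => Polynomial.aeval z f • t) := by
    intro f hf
    let γ : T →ₗ[B] T :=
      { toFun := fun t => Polynomial.aeval z f • t
        map_add' := fun s t => smul_add _ _ _
        map_smul' := fun b t => by
          refine B_linear (k := k) (A := A) (K := K)
            (DistribSMul.toAddMonoidHom T (Polynomial.aeval z f)) t ?_ ?_ b
          · intro a
            have h1 := aeval_central P z hzP f a
            rw [Module.mem_annihilator] at h1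
            have h2 := h1 t
            rw [sub_smul, mul_smul, mul_smul, sub_eq_zero] at h2
            exact h2
          · intro c y
            exact comm_AK (k := k) (B := B) _ c y }
    have hγ : γ ≠ 0 := by
      intro h
      apply hx
      have h1 : Polynomial.aeval z f • x = 0 := LinearMap.congr_fun h x
      have h2 := hinj f hf ⟨x, hxM⟩ (Subtype.ext h1)
      exact congrArg Subtype.val h2
    exact LinearMap.bijective_of_ne_zero hγ
  refine split_of_central P (fun a ha w => Module.mem_annihilator.1 ha w) z hzP ?_ ?_
  · intro f hf w hw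
    exact (hbij f hf).1 (by simpa using hw)
  · intro f hf w
    exact (hbij f hf).2 w

theorem ses_restrict {X : Type} [AddCommGroup X] [Module B X] [Module A X]
    [IsScalarTower A B X] (N : Submodule B X) :
    SES (A := A) (N.subtype.restrictScalars A) (N.mkQ.restrictScalars A) := by
  have h := SES.mkQ N
  exact ⟨h.inj, h.surj, h.exact⟩

theorem ses_restrict' {X : Type} [AddCommGroup X] [Module B X] [Module A X]
    [IsScalarTower A B X] {Y : Type} [AddCommGroup Y] [Module B Y] [Module A Y]
    [IsScalarTower A B Y] {Z : Type} [AddCommGroup Z] [Module B Z] [Module A Z]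
    [IsScalarTower A B Z] {i : X →ₗ[B] Y} {p : Y →ₗ[B] Z} (h : SES i p) :
    SES (A := A) (i.restrictScalars A) (p.restrictScalars A) :=
  ⟨h.inj, h.surj, h.exact⟩

theorem split_subsingleton {X : Type} [AddCommGroup X] [Module A X] [Subsingleton X] :
    SplitX k A X := by
  refine split_of_ext ?_
  intro V _ _ _ _ _ ξ
  have : (LinearMap.id : X →ₗ[A] X) = 0 := by
    ext x; exact Subsingleton.elim _ _
  rw [← post_id ξ, this, zero_post]

theorem split_ext {X : Type} [AddCommGroup X] [Module A X]
    {Y : Type} [AddCommGroup Y] [Module A Y] {Z : Type} [AddCommGroup Z] [Module A Z]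
    {i : X →ₗ[A] Y} {p : Y →ₗ[A] Z} (h : SES i p) (hX : SplitX k A X) (hZ : SplitX k A Z) :
    SplitX k A Y := by
  refine split_of_ext ?_
  intro V _ _ _ _ _ ξ
  obtain ⟨ζ, rfl⟩ := cov2 h ξ (ext_of_split hZ V _)
  rw [ext_of_split hX V ζ, post_zero]

include hB in
/-- (c) for finite-dimensional modules -/
theorem split_fin [IsNoetherianRing A] [IsNoetherianRing Aᵐᵒᵖ] (hP1 : P1s k A) (n : ℕ) :
    ∀ (X : Type) [AddCommGroup X] [Module B X] [Module A X] [IsScalarTower A B X] [Module K X]
    [IsScalarTower K B X] [Module k X] [IsScalarTower k B X] [IsScalarTower k A X]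
    [Module.Finite K X], Module.finrank K X = n → NoFin k A X → SplitX k A X := by
  induction n using Nat.strong_induction_on with
  | _ n ih =>
  intro X _ _ _ _ _ _ _ _ _ _ hn hno
  by_cases hX : Subsingleton X
  · exact split_subsingleton
  · have hnt : Nontrivial X := not_subsingleton_iff_nontrivial.1 hX
    have hart : IsArtinian B X := isArtinian_of_tower K inferInstance
    obtain ⟨T, hT, -⟩ := (eq_bot_or_exists_atom_le (⊤ : Submodule B X)).resolve_left
      (bot_ne_top).symm
    have hsimple : IsSimpleModule B T := isSimpleModule_iff_isAtom.2 hT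
    have hnoT : NoFin k A T :=
      hno.of_inj (T.subtype.restrictScalars A) T.injective_subtype
    have hT1 : SplitX k A T := split_simple (K := K) (B := B) hP1 T hnoT
    have hs := ses_restrict (A := A) T
    have hnoQ : NoFin k A (X ⧸ T) := NoFin.quot hs hT1 hno
    have hfT : Module.Finite K T :=
      inferInstanceAs (Module.Finite K (T.restrictScalars K))
    have hlt : Module.finrank K (X ⧸ T) < n := by
      have h1 : Module.finrank K T ≠ 0 := by
        rw [Ne, Module.finrank_eq_zero_iff_of_free]
        intro hsub
        have hntT : Nontrivial T := IsSimpleModule.nontrivial B T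
        exact not_subsingleton T hsub
      have h2 := Submodule.finrank_quotient_add_finrank (T.restrictScalars K)
      have h3 : Module.finrank K (X ⧸ T.restrictScalars K) = Module.finrank K (X ⧸ T) := rfl
      have h4 : Module.finrank K (T.restrictScalars K) = Module.finrank K T := rfl
      omega
    have hQ1 := ih _ hlt (X ⧸ T) rfl hnoQ
    exact split_ext hs hT1 hQ1

end

end Pool.Agent.Helper202_BG
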