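import Pool.Agent.Helper202_BG.P3e

/-!
Part 3 (c), (d): locally finite modules over an extension of the base field.
-/

set_option autoImplicit false

open CategoryTheory
open scoped TensorProduct

namespace Pool.Agent.Helper202_BG

section
variable {k A K B : Type} [Field k] [Ring A] [Algebra k A] [Field K] [Algebra k K] [Ring B]
    [Algebra K B] [Algebra k B] [Module A B] [hB : BExt k A K B]

include hB in
/-- (c) for locally finite modules -/
theorem split_locfin [IsNoetherianRing A] [IsNoetherianRing Aᵐᵒᵖ] (hP1 : P1s k A)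
    (X : Type) [AddCommGroup X] [Module B X] [Module A X] [IsScalarTower A B X] [Module K X]
    [IsScalarTower K B X] [Module k X] [IsScalarTower k B X] [IsScalarTower k A X]
    (hX : LocFin K B X) (hno : NoFin k A X) : SplitX k A X := by
  intro V _ _ _ _ _ Y _ _ i p h
  have hVA : Module.Finite A V := Module.Finite.of_restrictScalars_finite k A V
  -- a finitely generated submodule of Y mapping onto V
  obtain ⟨Y₀, hY₀fg, hY₀⟩ : ∃ Y₀ : Submodule A Y, Y₀.FG ∧ ∀ v : V, ∃ y ∈ Y₀, p y = v := by
    obtain ⟨m, v, hv⟩ := Module.Finite.exists_fin (R := A) (M := V)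
    choose y hy using fun j => h.surj (v j)
    refine ⟨Submodule.span A (Set.range y), Submodule.fg_span (Set.finite_range y), ?_⟩
    intro w
    have hw : w ∈ (⊤ : Submodule A V) := trivial
    rw [← hv] at hw
    have h1 : Submodule.map p (Submodule.span A (Set.range y)) =
        Submodule.span A (Set.range v) := by
      rw [Submodule.map_span, ← Set.range_comp]
      congr 2
      funext j
      exact hy j
    rw [← h1] at hw
    obtain ⟨y', hy', rfl⟩ := hw
    exact ⟨y', hy', rfl⟩
  let X₁ : Submodule A X := Y₀.comap i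
  have hX₁ : X₁.FG := by
    apply Submodule.fg_of_fg_map_injective i h.inj
    have hn : IsNoetherian A Y₀ := isNoetherian_of_fg_of_noetherian Y₀ hY₀fg
    have hle : X₁.map i ≤ Y₀ := by
      rintro _ ⟨x, hx, rfl⟩
      exact hx
    exact (isNoetherian_submodule.1 hn) _ hle
  let X₀ : Submodule B X := Submodule.span B (X₁ : Set X)
  have hX₀ : X₀.FG := by
    obtain ⟨s, hs⟩ := hX₁
    refine ⟨s, ?_⟩
    apply le_antisymm
    · apply Submodule.span_mono
      intro x hx
      have : x ∈ Submodule.span A (s : Set X) := Submodule.subset_span hx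
      rw [hs] at this
      exact this
    · apply Submodule.span_le.2
      intro x hx
      have h1 : X₁ ≤ (Submodule.span B (s : Set X)).restrictScalars A := by
        rw [← hs, Submodule.span_le]
        exact Submodule.subset_span
      exact h1 hx
  have hX₀fd : FD K X₀ := hX.fd_of_fg X₀ hX₀
  have hX₀fin : Module.Finite K X₀ := (FD_iff X₀).1 hX₀fd
  have hnoX₀ : NoFin k A X₀ := hno.of_inj (X₀.subtype.restrictScalars A) X₀.injective_subtype
  have hsplit : SplitX k A X₀ := split_fin (K := K) (B := B) hP1 _ X₀ rfl hnoX₀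
  let X₀' : Submodule A X := X₀.restrictScalars A
  let Y₁ : Submodule A Y := X₀'.map i ⊔ Y₀
  let i₁ : X₀ →ₗ[A] Y₁ := (i ∘ₗ X₀.subtype.restrictScalars A).codRestrict Y₁ (fun x =>
    Submodule.mem_sup_left ⟨x.1, x.2, rfl⟩)
  let p₁ : Y₁ →ₗ[A] V := p ∘ₗ Y₁.subtype
  have hs₁ : SES i₁ p₁ := by
    refine ⟨?_, ?_, ?_⟩
    · intro x x' hxx'
      apply Subtype.ext
      exact h.inj (congrArg Subtype.val hxx')
    · intro v
      obtain ⟨y, hy, rfl⟩ := hY₀ v
      exact ⟨⟨y, Submodule.mem_sup_right hy⟩, rfl⟩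
    · rintro ⟨y, hy⟩
      constructor
      · intro hpy
        have hpy' : p y = 0 := hpy
        obtain ⟨y1, hy1, y2, hy2, hyy⟩ := Submodule.mem_sup.1 hy
        obtain ⟨x1, hx1, rfl⟩ := hy1
        obtain ⟨x, hx⟩ := (h.exact y).1 hpy'
        have h2 : i (x - x1) = y2 := by
          rw [map_sub, hx, ← hyy, add_sub_cancel_left]
        have h3 : x - x1 ∈ X₁ := by
          change i (x - x1) ∈ Y₀
          rw [h2]; exact hy2
        have h4 : x ∈ X₀ := by
          have h5 := X₀.add_mem (Submodule.subset_span h3 : x - x1 ∈ X₀) hx1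
          rwa [sub_add_cancel] at h5
        exact ⟨⟨x, h4⟩, Subtype.ext hx⟩
      · rintro ⟨x, hx⟩
        have : i x.1 = y := congrArg Subtype.val hx
        exact (h.exact y).2 ⟨x.1, this⟩
  obtain ⟨s, hs⟩ := hsplit V Y₁ i₁ p₁ hs₁
  refine ⟨Y₁.subtype ∘ₗ s, ?_⟩
  ext v
  exact LinearMap.congr_fun hs v

variable (k A K B) in
include hB in
/-- module structures on a `B`-module -/
theorem exists_structures (J : Type) [AddCommGroup J] [Module B J] :
    ∃ (_ : Module A J) (_ : Module K J) (_ : Module k J), IsScalarTower A B J ∧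
      IsScalarTower K B J ∧ IsScalarTower k B J := by
  have ht := hB.t2
  let _ : Module A J := Module.compHom J (RingHom.smulOneHom : A →+* B)
  let _ : Module K J := Module.compHom J (algebraMap K B)
  let _ : Module k J := Module.compHom J (algebraMap k B)
  refine ⟨inferInstance, inferInstance, inferInstance, ⟨?_⟩, ⟨?_⟩, ⟨?_⟩⟩
  · intro a b x
    change (a • b) • x = (a • (1 : B)) • b • x
    rw [← mul_smul, smul_mul_assoc, one_mul]
  · intro c b x
    change (c • b) • x = (algebraMap K B c) • b • x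
    rw [← mul_smul, Algebra.smul_def]
  · intro c b x
    change (c • b) • x = (algebraMap k B c) • b • x
    rw [← mul_smul, Algebra.smul_def]

include hB in
/-- the `A`-locally finite part is a `B`-submodule -/
theorem Gam_B (X : Type) [AddCommGroup X] [Module B X] [Module A X] [IsScalarTower A B X]
    [Module K X] [IsScalarTower K B X] [Module k X] [IsScalarTower k A X] :
    ∃ G : Submodule B X, ∀ x, x ∈ G ↔ x ∈ Gam k A X := by
  have hK : ∀ (c : K) (x : X), x ∈ Gam k A X → c • x ∈ Gam k A X := by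
    intro c x hx
    rw [mem_Gam] at hx ⊢
    have h1 := hx.map (csm k A K B X c)
    rwa [Submodule.map_span, Set.image_singleton] at h1
  refine ⟨{ carrier := {x | x ∈ Gam k A X}
            add_mem' := fun hx hy => (Gam k A X).add_mem hx hy
            zero_mem' := (Gam k A X).zero_mem
            smul_mem' := ?_ }, fun x => Iff.rfl⟩
  intro b x hx
  change x ∈ Gam k A X at hx
  change b • x ∈ Gam k A X
  refine Submodule.span_induction (p := fun b _ => b • x ∈ Gam k A X) ?_ ?_ ?_ ?_ (hB.span b)
  · rintro _ ⟨a, rfl⟩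
    simp only [one_smul_A]
    exact (Gam k A X).smul_mem a hx
  · rw [zero_smul]; exact (Gam k A X).zero_mem
  · intro b c _ _ h1 h2
    rw [add_smul]; exact (Gam k A X).add_mem h1 h2
  · intro c b _ h
    rw [smul_assoc]; exact hK c _ h

include hB in
/-- (d) vanishing of Ext -/
theorem vanish [IsNoetherianRing A] [IsNoetherianRing Aᵐᵒᵖ] [IsNoetherianRing B]
    (hP1 : P1s k A) (hEA : Ess k A) (hEB : Ess K B) (n : ℕ) :
    ∀ (X : Type) [AddCommGroup X] [Module B X] [Module A X] [IsScalarTower A B X] [Module K X]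
    [IsScalarTower K B X] [Module k X] [IsScalarTower k B X] [IsScalarTower k A X],
    LocFin K B X → NoFin k A X →
    ∀ (V : Type) [AddCommGroup V] [Module A V] [Module k V] [IsScalarTower k A V]
    [Module.Finite k V] (ξ : E A V X n), ξ = 0 := by
  induction n with
  | zero =>
    intro X _ _ _ _ _ _ _ _ _ hX hno V _ _ _ _ _ ξ
    obtain ⟨f, rfl⟩ := hom0_surj ξ
    rw [hom0_eq_zero]
    rw [← LinearMap.range_eq_bot]
    apply hno
    rw [LinearMap.range_eq_map]
    apply FD.map
    rw [FD_iff]
    exact Module.Finite.equiv ((Submodule.topEquiv (R := A) (M := V)).symm.restrictScalars k)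
  | succ n ih =>
    intro X _ _ _ _ _ _ _ _ _ hX hno V _ _ _ _ _ ξ
    obtain ⟨J, _, _, ι, hι, hJ⟩ := exists_inj (A := B) X
    obtain ⟨_, _, _, _, _, _⟩ := exists_structures k A K B J
    have hkAJ : IsScalarTower k A J := tower_kAX (K := K) (B := B)
    have hEBaer : Module.Baer B (Gam K B J) := baer_Gam hEB hJ
    have hEBaerA : Module.Baer A (Gam K B J) := hB.baer _ hEBaer
    have hkAE : IsScalarTower k A (Gam K B J) := tower_kAX (K := K) (B := B)
    have hGBaer : Module.Baer A (Gam k A (Gam K B J)) := baer_Gam hEA hEBaerA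
    obtain ⟨G, hG⟩ := Gam_B (k := k) (A := A) (K := K) (B := B) (Gam K B J)
    -- the quotient
    have hs := ses_restrict (A := A) G
    have hs' : SES (Gam k A (Gam K B J)).subtype (G.mkQ.restrictScalars A) := by
      refine ⟨Submodule.injective_subtype _, hs.surj, fun y => ?_⟩
      rw [hs.exact]
      constructor
      · rintro ⟨x, rfl⟩
        exact ⟨⟨x.1, (hG _).1 x.2⟩, rfl⟩
      · rintro ⟨x, rfl⟩
        exact ⟨⟨x.1, (hG _).2 x.2⟩, rfl⟩
    obtain ⟨hE'Baer, σ, hσ⟩ := retract_baer hs' hGBaer hEBaerA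
    have hkAE' : IsScalarTower k A (Gam K B J ⧸ G) := tower_kAX (K := K) (B := B)
    have hE'no : NoFin k A (Gam K B J ⧸ G) := by
      intro N hN
      rw [Submodule.eq_bot_iff]
      intro z hz
      have h1 : N.map σ ≤ Gam k A (Gam K B J) := le_Gam (hN.map σ)
      have h2 : σ z ∈ G := (hG _).2 (h1 ⟨z, hz, rfl⟩)
      rw [← hσ z]
      change G.mkQ (σ z) = 0
      rw [Submodule.mkQ_apply, Submodule.Quotient.mk_eq_zero]
      exact h2
    have hE'loc : LocFin K B (Gam K B J ⧸ G) :=
      LocFin.of_surj (locFin_Gam (K := K) (B := B) (J := J)) G.mkQ G.mkQ_surjective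
    -- embed X
    have hιG : ∀ x, ι x ∈ Gam K B J := by
      intro x
      rw [mem_Gam]
      have h1 := (hX x).map ι
      rwa [Submodule.map_span, Set.image_singleton] at h1
    let ι₁ : X →ₗ[B] Gam K B J := ι.codRestrict _ hιG
    have hι₁ : Function.Injective ι₁ := fun x y hxy => hι (congrArg Subtype.val hxy)
    let ι₂ : X →ₗ[B] (Gam K B J ⧸ G) := G.mkQ ∘ₗ ι₁
    have hι₂ : Function.Injective ι₂ := by
      rw [injective_iff_map_eq_zero]
      intro x hx
      have h1 : ι₁ x ∈ G := by
        have : G.mkQ (ι₁ x) = 0 := hx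
        rwa [Submodule.mkQ_apply, Submodule.Quotient.mk_eq_zero] at this
      have h2 : ι₁ x ∈ Gam k A (Gam K B J) := (hG _).1 h1
      rw [mem_Gam] at h2
      have h3 := FD.comap_of_inj h2 (ι₁.restrictScalars A) hι₁
      have h4 := hno _ h3
      have h5 : x ∈ (Submodule.span A {ι₁ x}).comap (ι₁.restrictScalars A) :=
        Submodule.mem_span_singleton_self (ι₁ x)
      rw [h4] at h5
      exact h5
    have hSB : SES ι₂ (LinearMap.range ι₂).mkQ := SES.ofInj hι₂
    have hSA := ses_restrict' (A := A) hSB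
    have hkAX1 : IsScalarTower k A ((Gam K B J ⧸ G) ⧸ LinearMap.range ι₂) :=
      tower_kAX (K := K) (B := B)
    have hX1loc : LocFin K B ((Gam K B J ⧸ G) ⧸ LinearMap.range ι₂) :=
      LocFin.of_surj hE'loc (LinearMap.range ι₂).mkQ (LinearMap.range ι₂).mkQ_surjective
    have hXsplit : SplitX k A X := split_locfin (K := K) (B := B) hP1 X hX hno
    have hX1no : NoFin k A ((Gam K B J ⧸ G) ⧸ LinearMap.range ι₂) :=
      NoFin.quot hSA hXsplit hE'no
    obtain ⟨ζ, hζ⟩ := cov1 hSA ξ (E_injective hE'Baer _)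
    rw [← hζ, ih _ hX1loc hX1no V ζ, dl_zero]

end

end Pool.Agent.Helper202_BG
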