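import Pool.Agent.Helper202_BG.P3f

/-!
Part 3: the algebra `K ⊗ A`, and vanishing of Ext for bimodules.
-/

set_option autoImplicit false

open CategoryTheory
open scoped TensorProduct

namespace Pool.Agent.Helper202_BG

section
variable (k A K : Type) [Field k] [Ring A] [Algebra k A] [Field K] [Algebra k K]

/-- the action of `A` on `K ⊗ A` -/
@[instance_reducible]
noncomputable def modAB : Module A (K ⊗[k] A) :=
  Module.compHom (K ⊗[k] A)
    (Algebra.TensorProduct.includeRight : A →ₐ[k] K ⊗[k] A).toRingHom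

/-- the action of `K ⊗ A` on `K ⊗ I` -/
noncomputable def actT (I : Ideal A) : K ⊗[k] A →ₐ[k] Module.End k (K ⊗[k] I) :=
  (Module.endTensorEndAlgHom (R := k) (S := k) (A := k)).comp
    (Algebra.TensorProduct.map (Algebra.lsmul k k K) (Algebra.lsmul k k I))

theorem actT_tmul (I : Ideal A) (c d : K) (a : A) (x : I) :
    actT k A K I (c ⊗ₜ[k] a) (d ⊗ₜ[k] x) = (c * d) ⊗ₜ[k] (a • x) := by
  rw [actT, AlgHom.comp_apply, Algebra.TensorProduct.map_tmul]
  erw [Module.endTensorEndAlgHom_apply]
  rfl

theorem baer_restrict (J : Type) [AddCommGroup J] [Module (K ⊗[k] A) J] [hm : Module A J]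
    (hc : ∀ (a : A) (x : J), ((1 : K) ⊗ₜ[k] a : K ⊗[k] A) • x = a • x)
    (hJ : Module.Baer (K ⊗[k] A) J) : Module.Baer A J := by
  intro I f
  let _ : Module K J := Module.compHom J (algebraMap K (K ⊗[k] A))
  let _ : Module k J := Module.compHom J (algebraMap k (K ⊗[k] A))
  have hK : ∀ (c : K) (x : J), c • x = (c ⊗ₜ[k] (1 : A) : K ⊗[k] A) • x := fun c x => rfl
  have hk : ∀ (c : k) (x : J), c • x = (c • (1 : K ⊗[k] A)) • x := fun c x => by
    rw [← Algebra.algebraMap_eq_smul_one]; rfl
  have hcA : ∀ (a : A) (x : J), a • x = ((1 : K) ⊗ₜ[k] a : K ⊗[k] A) • x :=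
    fun a x => (hc a x).symm
  have hone : (1 : K ⊗[k] A) = (1 : K) ⊗ₜ[k] (1 : A) := rfl
  let bil : K →ₗ[k] I →ₗ[k] J := LinearMap.mk₂ k (fun c x => c • f x)
    (fun c d x => add_smul c d (f x))
    (fun r c x => by
      change (r • c) • f x = r • c • f x
      rw [hK, hk, hK, ← mul_smul, smul_one_mul, TensorProduct.smul_tmul'])
    (fun c x y => by rw [map_add, smul_add])
    (fun r c x => by
      have h1 : r • x = (r • (1 : A)) • x := by rw [smul_assoc, one_smul]
      change c • f (r • x) = r • c • f x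
      rw [h1, map_smul, hcA, hK, hk, hK, ← mul_smul, ← mul_smul,
        Algebra.TensorProduct.tmul_mul_tmul, smul_one_mul, one_mul, mul_one,
        TensorProduct.tmul_smul])
  let ψ₀ : K ⊗[k] I →ₗ[k] J := TensorProduct.lift bil
  have hψ₀ : ∀ (c : K) (x : I), ψ₀ (c ⊗ₜ[k] x) = c • f x := fun c x => rfl
  let modT : Module (K ⊗[k] A) (K ⊗[k] I) := Module.compHom _ (actT k A K I).toRingHom
  have hT : ∀ (b : K ⊗[k] A) (t : K ⊗[k] I), b • t = actT k A K I b t := fun b t => rfl
  let ψ : (K ⊗[k] I) →ₗ[K ⊗[k] A] J :=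
    { toFun := ψ₀
      map_add' := ψ₀.map_add
      map_smul' := fun b t => by
        rw [RingHom.id_apply, hT]
        induction b with
        | zero => simp
        | add b c hb hc => rw [map_add, LinearMap.add_apply, map_add, hb, hc, add_smul]
        | tmul c a =>
          induction t with
          | zero => simp
          | add s t hs ht => rw [map_add, map_add, hs, ht, map_add, smul_add]
          | tmul d x =>
            rw [actT_tmul, hψ₀, hψ₀, map_smul, hK, hcA, hK, ← mul_smul, ← mul_smul,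
              Algebra.TensorProduct.tmul_mul_tmul, Algebra.TensorProduct.tmul_mul_tmul,
              mul_one, one_mul, mul_one] }
  let j₀ : K ⊗[k] I →ₗ[k] K ⊗[k] A :=
    LinearMap.lTensor K ((I.restrictScalars k).subtype)
  have hj₀ : ∀ (c : K) (x : I), j₀ (c ⊗ₜ[k] x) = c ⊗ₜ[k] (x : A) := fun c x => rfl
  have hj₀inj : Function.Injective j₀ :=
    Module.Flat.lTensor_preserves_injective_linearMap _ (Submodule.injective_subtype _)
  let j : (K ⊗[k] I) →ₗ[K ⊗[k] A] (K ⊗[k] A) :=
    { toFun := j₀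
      map_add' := j₀.map_add
      map_smul' := fun b t => by
        rw [RingHom.id_apply, hT]
        induction b with
        | zero => simp
        | add b c hb hc => rw [map_add, LinearMap.add_apply, map_add, hb, hc, add_smul]
        | tmul c a =>
          induction t with
          | zero => simp
          | add s t hs ht => rw [map_add, map_add, hs, ht, map_add, smul_add]
          | tmul d x =>
            rw [actT_tmul, hj₀, hj₀, smul_eq_mul, Algebra.TensorProduct.tmul_mul_tmul]
            rfl }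
  obtain ⟨g, hg⟩ := Module.Baer.extension_property hJ j hj₀inj ψ
  refine ⟨{ toFun := fun a => g ((1 : K) ⊗ₜ[k] a)
            map_add' := fun a b => by rw [TensorProduct.tmul_add, map_add]
            map_smul' := fun a b => by
              rw [RingHom.id_apply, hcA, ← map_smul, smul_eq_mul, smul_eq_mul,
                Algebra.TensorProduct.tmul_mul_tmul, one_mul] }, ?_⟩
  intro x hx
  have h1 := LinearMap.congr_fun hg ((1 : K) ⊗ₜ[k] (⟨x, hx⟩ : I))
  have h2 : ψ ((1 : K) ⊗ₜ[k] (⟨x, hx⟩ : I)) = f ⟨x, hx⟩ := by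
    change (1 : K) • f ⟨x, hx⟩ = f ⟨x, hx⟩
    rw [one_smul]
  exact h1.trans h2

theorem bext : @BExt k A K (K ⊗[k] A) _ _ _ _ _ _ _ _ (modAB k A K) := by
  let _ : Module A (K ⊗[k] A) := modAB k A K
  have hs : ∀ (a : A) (b : K ⊗[k] A), a • b = ((1 : K) ⊗ₜ[k] a) * b := fun a b => rfl
  have hone : (1 : K ⊗[k] A) = (1 : K) ⊗ₜ[k] (1 : A) := rfl
  refine ⟨inferInstance, ⟨?_⟩, ⟨?_⟩, ?_, ?_, ?_⟩
  · intro a b c
    rw [smul_eq_mul, smul_eq_mul, hs, hs, mul_assoc]
  · intro c a b
    rw [hs, hs, TensorProduct.tmul_smul, smul_mul_assoc]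
  · intro a c
    rw [hs, mul_one, hone, TensorProduct.smul_tmul', Algebra.TensorProduct.tmul_mul_tmul,
      Algebra.TensorProduct.tmul_mul_tmul, mul_one, one_mul, mul_one, one_mul]
  · intro b
    induction b with
    | zero => exact Submodule.zero_mem _
    | add x y hx hy => exact Submodule.add_mem _ hx hy
    | tmul c a =>
      have : c ⊗ₜ[k] a = c • ((1 : K) ⊗ₜ[k] a : K ⊗[k] A) := by
        rw [TensorProduct.smul_tmul', smul_eq_mul, mul_one]
      rw [this]
      refine Submodule.smul_mem _ _ (Submodule.subset_span ⟨a, ?_⟩)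
      change a • (1 : K ⊗[k] A) = _
      rw [hs, mul_one]
  · intro J _ _ _ hst hJ
    refine baer_restrict k A K J ?_ hJ
    intro a x
    have h1 : a • (1 : K ⊗[k] A) = (1 : K) ⊗ₜ[k] a := by rw [hs, mul_one]
    rw [← h1, smul_assoc, one_smul]

end

section
variable {k A : Type} [Field k] [Ring A] [Algebra k A]

/-- vanishing of Ext with values in finite-dimensional vector spaces over an extension field -/
theorem vanishW [IsNoetherianRing A] [IsNoetherianRing Aᵐᵒᵖ] (K : Type) [Field K] [Algebra k K]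
    [IsNoetherianRing (K ⊗[k] A)] (hP1 : P1s k A) (hEA : Ess k A) (hEB : Ess K (K ⊗[k] A))
    (W : Type) [AddCommGroup W] [Module A W] [Module K W] [Module k W] [SMulCommClass A K W]
    [IsScalarTower k A W] [IsScalarTower k K W] [Module.Finite K W]
    (hno : NoFin k A W) (n : ℕ)
    (V : Type) [AddCommGroup V] [Module A V] [Module k V] [IsScalarTower k A V]
    [Module.Finite k V] (ξ : E A V W n) : ξ = 0 := by
  have hcomm : SMulCommClass K A W := SMulCommClass.symm _ _ _
  let mAB : Module A (K ⊗[k] A) := modAB k A K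
  have hB : BExt k A K (K ⊗[k] A) := bext k A K
  let mBW : Module (K ⊗[k] A) W := TensorProduct.Algebra.module
  have hsm : ∀ (c : K) (a : A) (w : W), (c ⊗ₜ[k] a : K ⊗[k] A) • w = c • a • w :=
    fun c a w => TensorProduct.Algebra.smul_def c a w
  have hs : ∀ (a : A) (b : K ⊗[k] A), a • b = ((1 : K) ⊗ₜ[k] a) * b := fun a b => rfl
  have t1 : IsScalarTower A (K ⊗[k] A) W := ⟨fun a b w => by
    rw [hs, mul_smul, hsm, one_smul]⟩
  have t2 : IsScalarTower K (K ⊗[k] A) W := ⟨fun c b w => by
    have : c • b = (c ⊗ₜ[k] (1 : A)) * b := by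
      rw [Algebra.smul_def]; rfl
    rw [this, mul_smul, hsm, one_smul]⟩
  have t3 : IsScalarTower k (K ⊗[k] A) W := ⟨fun c b w => by
    have : c • b = ((c • (1 : K)) ⊗ₜ[k] (1 : A)) * b := by
      rw [← TensorProduct.smul_tmul', smul_mul_assoc]
      congr 1
      exact (one_mul b).symm
    rw [this, mul_smul, hsm, one_smul, smul_assoc, one_smul]⟩
  have hloc : LocFin K (K ⊗[k] A) W := fun x => by
    rw [FD_iff]
    exact inferInstanceAs (Module.Finite K
      ((Submodule.span (K ⊗[k] A) {x}).restrictScalars K))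
  exact vanish (k := k) (A := A) (K := K) (B := K ⊗[k] A) hP1 hEA hEB n W hloc hno V ξ

end

end Pool.Agent.Helper202_BG
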