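import Pool.Agent.Helper202_BG.P3g

/-!
Part 3 (e), (f): effaceability.
-/

set_option autoImplicit false

open CategoryTheory
open scoped TensorProduct

namespace Pool.Agent.Helper202_BG

/-- every class in degree `n` is killed by an epimorphism of finite-dimensional modules -/
def Eff (k A : Type) [Field k] [Ring A] [Algebra k A] (n : ℕ) (M : Type) [AddCommGroup M]
    [Module A M] : Prop :=
  ∀ (V : Type) [AddCommGroup V] [Module A V] [Module k V] [IsScalarTower k A V]
    [Module.Finite k V] (ξ : E A V M n), ∃ (V' : Type) (_ : AddCommGroup V') (_ : Module A V')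
    (_ : Module k V') (_ : IsScalarTower k A V') (_ : Module.Finite k V') (π : V' →ₗ[A] V),
    Function.Surjective π ∧ pre π ξ = 0

/-- the conclusion of Task P6 for one algebra -/
def P6s (k A : Type) [Field k] [Ring A] [Algebra k A] : Prop :=
  ∀ (M : Type) [AddCommGroup M] [Module A M] [Module k M] [IsScalarTower k A M]
      [Module.Finite A M], PrimeM A M → ¬ Module.Finite k M →
      ∃ (K : Type) (_ : Field K) (_ : Algebra k K) (_ : Algebra.EssFiniteType k K)
        (W : Type) (_ : AddCommGroup W) (_ : Module A W) (_ : Module K W) (_ : Module k W)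
        (_ : SMulCommClass A K W) (_ : IsScalarTower k A W) (_ : IsScalarTower k K W)
        (ι : M →ₗ[A] W), Function.Injective ι ∧ Module.Finite K W ∧
        (∀ Y : Submodule A W, Module.Finite k Y → Y = ⊥) ∧
        (∀ a : A, (∀ m : M, a • m = 0) → ∀ w : W, a • w = 0) ∧
        ∀ Y : Submodule A W, Y.FG → ∃ c : A, (∃ m : M, c • m ≠ 0) ∧
          ∀ y ∈ Y, c • y ∈ LinearMap.range ι

/-- vanishing of Ext with values in finite-dimensional spaces over extension fields -/
def VanW (k A : Type) [Field k] [Ring A] [Algebra k A] : Prop :=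
  ∀ (K : Type) [Field K] [Algebra k K] [Algebra.EssFiniteType k K]
    (W : Type) [AddCommGroup W] [Module A W] [Module K W] [Module k W] [SMulCommClass A K W]
    [IsScalarTower k A W] [IsScalarTower k K W] [Module.Finite K W], NoFin k A W → ∀ (n : ℕ)
    (V : Type) [AddCommGroup V] [Module A V] [Module k V] [IsScalarTower k A V]
    [Module.Finite k V] (ξ : E A V W n), ξ = 0

section
variable {A : Type} [Ring A] [IsNoetherianRing A]

theorem exists_free_cover (V : Type) [AddCommGroup V] [Module A V] [Module.Finite A V] :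
    ∃ (m : ℕ) (p : (Fin m → A) →ₗ[A] V), Function.Surjective p ∧
      Module.Finite A (LinearMap.ker p) := by
  obtain ⟨m, p, hp⟩ := Module.Finite.exists_fin' A V
  have : IsNoetherian A (Fin m → A) := inferInstance
  exact ⟨m, p, hp, inferInstance⟩

/-- classes come from finitely generated submodules -/
theorem fgsub (n : ℕ) : ∀ (V : Type) [AddCommGroup V] [Module A V] [Module.Finite A V]
    (X : Type) [AddCommGroup X] [Module A X] (ξ : E A V X n),
    ∃ (Y : Submodule A X) (ξ' : E A V Y n), Y.FG ∧ post Y.subtype ξ' = ξ := by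
  induction n with
  | zero =>
    intro V _ _ _ X _ _ ξ
    obtain ⟨f, rfl⟩ := hom0_surj ξ
    refine ⟨LinearMap.range f, hom0 f.rangeRestrict, ?_, ?_⟩
    · rw [LinearMap.range_eq_map]
      exact Submodule.FG.map _ Module.Finite.fg_top
    · rw [post_hom0]; rfl
  | succ n ih =>
    intro V _ _ _ X _ _ ξ
    obtain ⟨m, p, hp, hfin⟩ := exists_free_cover (A := A) V
    have hs : SES (LinearMap.ker p).subtype p := SES.ofSurj hp
    obtain ⟨ζ, hζ⟩ := con3 hs ξ (E_proj _)
    obtain ⟨Y, ζ', hY, hζ'⟩ := ih (LinearMap.ker p) X ζ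
    refine ⟨Y, dr hs ζ', hY, ?_⟩
    rw [post_dr, hζ', hζ]

omit [IsNoetherianRing A] in
theorem fg_lift {Y : Type} [AddCommGroup Y] [Module A Y] {Z : Type} [AddCommGroup Z] [Module A Z]
    (p : Y →ₗ[A] Z) (hp : Function.Surjective p) (C : Submodule A Z) (hC : C.FG) :
    ∃ D : Submodule A Y, D.FG ∧ D.map p = C := by
  obtain ⟨m, v, hv⟩ := Submodule.fg_iff_exists_fin_generating_family.1 hC
  choose y hy using fun j => hp (v j)
  refine ⟨Submodule.span A (Set.range y), Submodule.fg_span (Set.finite_range y), ?_⟩
  rw [Submodule.map_span, ← Set.range_comp, ← hv]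
  congr 2
  funext j
  exact hy j

end

section
variable {k A : Type} [Field k] [Ring A] [Algebra k A]

theorem Eff.ext {n : ℕ} {X : Type} [AddCommGroup X] [Module A X]
    {Y : Type} [AddCommGroup Y] [Module A Y] {Z : Type} [AddCommGroup Z] [Module A Z]
    {i : X →ₗ[A] Y} {p : Y →ₗ[A] Z} (h : SES i p) (hX : Eff k A n X) (hZ : Eff k A n Z) :
    Eff k A n Y := by
  intro V _ _ _ _ _ ξ
  obtain ⟨V', _, _, _, _, _, π, hπ, h1⟩ := hZ V (post p ξ)
  rw [pre_post] at h1
  obtain ⟨ζ, hζ⟩ := cov2 h (pre π ξ) h1
  obtain ⟨V'', _, _, _, _, _, π', hπ', h2⟩ := hX V' ζ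
  refine ⟨V'', inferInstance, inferInstance, inferInstance, inferInstance, inferInstance,
    π ∘ₗ π', hπ.comp hπ', ?_⟩
  rw [pre_comp, ← hζ, pre_post, h2, post_zero]

theorem Eff.subsingleton {n : ℕ} {X : Type} [AddCommGroup X] [Module A X] [Subsingleton X] :
    Eff k A n X := by
  intro V _ _ _ _ _ ξ
  refine ⟨V, inferInstance, inferInstance, inferInstance, inferInstance, inferInstance,
    LinearMap.id, Function.surjective_id, ?_⟩
  have : (LinearMap.id : X →ₗ[A] X) = 0 := by
    ext x; exact Subsingleton.elim _ _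
  rw [pre_id, ← post_id ξ, this, zero_post]

/-- pulling back a homomorphism along a surjection of locally finite modules -/
theorem pull_hom {V : Type} [AddCommGroup V] [Module A V] [Module k V] [IsScalarTower k A V]
    [Module.Finite k V] {Y : Type} [AddCommGroup Y] [Module A Y] [Module k Y]
    [IsScalarTower k A Y] {Z : Type} [AddCommGroup Z] [Module A Z] (p : Y →ₗ[A] Z)
    (hp : Function.Surjective p) (hY : LocFin k A Y) (g : V →ₗ[A] Z) :
    ∃ (V' : Type) (_ : AddCommGroup V') (_ : Module A V')
    (_ : Module k V') (_ : IsScalarTower k A V') (_ : Module.Finite k V') (π : V' →ₗ[A] V)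
    (t : V' →ₗ[A] Y), Function.Surjective π ∧ g ∘ₗ π = p ∘ₗ t := by
  have hVA : Module.Finite A V := Module.Finite.of_restrictScalars_finite k A V
  obtain ⟨D, hD, hDp⟩ := fg_lift p hp (LinearMap.range g) (by
    rw [LinearMap.range_eq_map]
    exact Submodule.FG.map _ Module.Finite.fg_top)
  have hDfin : Module.Finite k D := (FD_iff D).1 (hY.fd_of_fg D hD)
  let V' : Submodule A (V × D) := LinearMap.eqLocus (g ∘ₗ LinearMap.fst A V D)
    ((p ∘ₗ D.subtype) ∘ₗ LinearMap.snd A V D)
  have hfin : Module.Finite k V' :=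
    inferInstanceAs (Module.Finite k (V'.restrictScalars k))
  refine ⟨V', inferInstance, inferInstance, inferInstance, inferInstance, hfin,
    LinearMap.fst A V D ∘ₗ V'.subtype, D.subtype ∘ₗ LinearMap.snd A V D ∘ₗ V'.subtype, ?_, ?_⟩
  · intro v
    have h1 : g v ∈ D.map p := by rw [hDp]; exact ⟨v, rfl⟩
    obtain ⟨y, hy, hyv⟩ := h1
    exact ⟨⟨(v, ⟨y, hy⟩), hyv.symm⟩, rfl⟩
  · ext x
    exact x.2

/-- finite-dimensional modules are effaceable in positive degrees -/
theorem eff_fin [IsNoetherianRing A] (hEA : Ess k A) (m : ℕ) :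
    ∀ (M : Type) [AddCommGroup M] [Module A M] [Module k M] [IsScalarTower k A M]
      [Module.Finite k M], Eff k A (m + 1) M := by
  induction m with
  | zero =>
    intro M _ _ _ _ _ V _ _ _ _ _ ξ
    obtain ⟨J, _, _, ι, hι, hJ⟩ := exists_inj (A := A) M
    let _ : Module k J := Module.compHom J (algebraMap k A)
    have _ : IsScalarTower k A J := ⟨fun c a y => by rw [Algebra.smul_def, mul_smul]; rfl⟩
    have hG : Module.Baer A (Gam k A J) := baer_Gam hEA hJ
    have hι₁ : ∀ x, ι x ∈ Gam k A J := by
      intro x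
      have h1 : FD k (LinearMap.range ι) := by
        rw [LinearMap.range_eq_map]
        apply FD.map
        rw [FD_iff]
        exact Module.Finite.equiv ((Submodule.topEquiv (R := A) (M := M)).symm.restrictScalars k)
      exact le_Gam h1 ⟨x, rfl⟩
    let ι₁ : M →ₗ[A] Gam k A J := ι.codRestrict _ hι₁
    have hs : SES ι₁ (LinearMap.range ι₁).mkQ :=
      SES.ofInj (fun x y hxy => hι (congrArg Subtype.val hxy))
    obtain ⟨ζ, rfl⟩ := cov1 hs ξ (E_injective hG _)
    obtain ⟨g, rfl⟩ := hom0_surj ζ
    obtain ⟨V', _, _, _, _, _, π, t, hπ, ht⟩ :=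
      pull_hom (k := k) (LinearMap.range ι₁).mkQ hs.surj (locFin_Gam (K := k) (B := A) (J := J)) g
    refine ⟨V', inferInstance, inferInstance, inferInstance, inferInstance, inferInstance, π,
      hπ, ?_⟩
    rw [pre_dl, pre_hom0, ht, ← post_hom0, dl_post]
  | succ m ih =>
    intro M _ _ _ _ _ V _ _ _ _ _ ξ
    have hVA : Module.Finite A V := Module.Finite.of_restrictScalars_finite k A V
    obtain ⟨J, _, _, ι, hι, hJ⟩ := exists_inj (A := A) M
    let _ : Module k J := Module.compHom J (algebraMap k A)
    have _ : IsScalarTower k A J := ⟨fun c a y => by rw [Algebra.smul_def, mul_smul]; rfl⟩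
    have hG : Module.Baer A (Gam k A J) := baer_Gam hEA hJ
    have hι₁ : ∀ x, ι x ∈ Gam k A J := by
      intro x
      have h1 : FD k (LinearMap.range ι) := by
        rw [LinearMap.range_eq_map]
        apply FD.map
        rw [FD_iff]
        exact Module.Finite.equiv ((Submodule.topEquiv (R := A) (M := M)).symm.restrictScalars k)
      exact le_Gam h1 ⟨x, rfl⟩
    let ι₁ : M →ₗ[A] Gam k A J := ι.codRestrict _ hι₁
    have hs : SES ι₁ (LinearMap.range ι₁).mkQ :=
      SES.ofInj (fun x y hxy => hι (congrArg Subtype.val hxy))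
    obtain ⟨ζ, rfl⟩ := cov1 hs ξ (E_injective hG _)
    obtain ⟨C, ζ', hC, rfl⟩ := fgsub _ V _ ζ
    have hCfin : Module.Finite k C := (FD_iff C).1
      ((LocFin.of_surj (locFin_Gam (K := k) (B := A) (J := J)) _ hs.surj).fd_of_fg C hC)
    obtain ⟨V', _, _, _, _, _, π, hπ, h1⟩ := ih C V ζ'
    refine ⟨V', inferInstance, inferInstance, inferInstance, inferInstance, inferInstance, π,
      hπ, ?_⟩
    rw [pre_dl, pre_post, h1, post_zero, dl_zero]

theorem primeI_ann {A : Type} [Ring A] (X : Type) [AddCommGroup X] [Module A X]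
    (h : PrimeM A X) : PrimeI (Module.annihilator A X) := by
  obtain ⟨hnt, h⟩ := h
  refine ⟨inferInstance, ?_, ?_⟩
  · intro htop
    obtain ⟨x, hx⟩ := exists_ne (0 : X)
    have h1 : (1 : A) ∈ Module.annihilator A X := by rw [htop]; trivial
    rw [Module.mem_annihilator] at h1
    exact hx (by simpa using h1 x)
  · intro a b hab
    by_contra hcon
    push Not at hcon
    obtain ⟨ha, hb⟩ := hcon
    rw [Module.mem_annihilator] at ha hb
    push Not at hb
    obtain ⟨x, hx⟩ := hb
    apply ha
    intro y
    refine h a (b • x) hx (fun r => ?_) y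
    rw [← mul_smul, ← mul_smul]
    exact Module.mem_annihilator.1 (hab r) x

/-- the main claim on effaceability -/
theorem eff_main [IsNoetherianRing A] (hEA : Ess k A) (hP6 : P6s k A) (hV : VanW k A)
    (δ : Ideal A → ℕ) (hδ : ∀ P P' : Ideal A, PrimeI P → PrimeI P' → P < P' → δ P' < δ P)
    (j : ℕ) : ∀ (M : Type) [AddCommGroup M] [Module A M] [Module.Finite A M],
      (∀ P : Ideal A, PrimeI P → Module.annihilator A M ≤ P → δ P < j) →
      ∀ n, j ≤ n → Eff k A n M := by
  induction j with
  | zero =>
    intro M _ _ _ hM n _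
    by_cases hsub : Subsingleton M
    · exact Eff.subsingleton
    · exfalso
      have hnt : Nontrivial M := not_subsingleton_iff_nontrivial.1 hsub
      obtain ⟨x₀, hx₀⟩ := exists_ne (0 : M)
      obtain ⟨x, hx, hprime⟩ := exists_primeM (A := A) M x₀ hx₀
      have h1 := hM _ (primeI_ann _ hprime) (by
        intro a ha
        rw [Module.mem_annihilator] at ha ⊢
        rintro ⟨y, hy⟩
        exact Subtype.ext (ha y))
      omega
  | succ j ih =>
    intro M _ _ _ hM n hn
    let _ : Module k M := Module.compHom M (algebraMap k A)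
    have _ : IsScalarTower k A M := ⟨fun c a y => by rw [Algebra.smul_def, mul_smul]; rfl⟩
    obtain ⟨m, rfl⟩ : ∃ m, n = m + 1 := ⟨n - 1, by omega⟩
    refine filt (k := k) (A := A) (fun X _ _ _ _ => Eff k A (m + 1) X) ?_ ?_ M ?_
    · intro X _ _ _ _ Y _ _ _ _ Z _ _ _ _ i p h hX hZ
      exact Eff.ext h hX hZ
    · intro X _ _ _ _ hX
      exact Eff.subsingleton
    · intro X _ _ _ _ _ hX hann
      by_cases hfin : Module.Finite k X
      · exact eff_fin hEA m X
      · intro V _ _ _ _ _ ξ
        have hVA : Module.Finite A V := Module.Finite.of_restrictScalars_finite k A V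
        obtain ⟨K, _, _, _, W, _, _, _, _, _, _, _, ι, hι, hKW, hno, hkill, hden⟩ :=
          hP6 X hX hfin
        have hnoW : NoFin k A W := fun N hN => hno N ((FD_iff N).1 hN)
        have hs : SES ι (LinearMap.range ι).mkQ := SES.ofInj hι
        obtain ⟨ζ, rfl⟩ := cov1 hs ξ (hV K W hnoW _ V _)
        obtain ⟨C, ζ', hC, rfl⟩ := fgsub _ V _ ζ
        obtain ⟨D, hD, hDC⟩ := fg_lift _ hs.surj C hC
        obtain ⟨c, ⟨x, hx⟩, hc⟩ := hden D hD
        have hCfg : Module.Finite A C := Module.Finite.iff_fg.2 hC
        have hδX : δ (Module.annihilator A X) < j + 1 := by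
          apply hM _ (primeI_ann X hX)
          intro a ha
          rw [Module.mem_annihilator] at ha ⊢
          exact hann a ha
        have hEffC : Eff k A m C := by
          refine ih C ?_ m (by omega)
          intro P hP hCP
          have h1 : Module.annihilator A X < P := by
            refine lt_of_lt_of_le ?_ hCP
            refine lt_of_le_of_ne ?_ ?_
            · intro a ha
              rw [Module.mem_annihilator] at ha ⊢
              rintro ⟨y, hy⟩
              obtain ⟨w, rfl⟩ := hs.surj y
              apply Subtype.ext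
              change a • (LinearMap.range ι).mkQ w = 0
              rw [← map_smul, hkill a ha, map_zero]
            · intro heq
              apply hx
              have h2 : c ∈ Module.annihilator A C := by
                rw [Module.mem_annihilator]
                rintro ⟨y, hy⟩
                have hy' := hy
                rw [← hDC] at hy'
                obtain ⟨d, hd, rfl⟩ := hy'
                apply Subtype.ext
                change c • (LinearMap.range ι).mkQ d = 0
                rw [← map_smul, Submodule.mkQ_apply]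
                exact (Submodule.Quotient.mk_eq_zero _).2 (hc d hd)
              rw [← heq, Module.mem_annihilator] at h2
              exact h2 x
          have h3 := hδ _ _ (primeI_ann X hX) hP h1
          omega
        obtain ⟨V', _, _, _, _, _, π, hπ, h1⟩ := hEffC V ζ'
        refine ⟨V', inferInstance, inferInstance, inferInstance, inferInstance, inferInstance, π,
          hπ, ?_⟩
        rw [pre_dl, pre_post, h1, post_zero, dl_zero]

/-- (f) -/
theorem ext_fin [IsNoetherianRing A] (hEA : Ess k A) (hP6 : P6s k A) (hV : VanW k A)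
    (δ : Ideal A → ℕ) (hδ : ∀ P P' : Ideal A, PrimeI P → PrimeI P' → P < P' → δ P' < δ P)
    (e : ℕ) (he : ∀ P, PrimeI P → δ P ≤ e) (hEpi : EpiInj k A) (n : ℕ) (hn : e < n)
    (V : Type) [AddCommGroup V] [Module A V] [Module k V] [IsScalarTower k A V]
    [Module.Finite k V] (ξ : E A V A n) : ξ = 0 := by
  obtain ⟨V', _, _, _, _, _, π, hπ, h1⟩ :=
    eff_main hEA hP6 hV δ hδ (e + 1) A (fun P hP _ => by have := he P hP; omega) n hn V ξ
  exact hEpi V V' π hπ n ξ h1

end

end Pool.Agent.Helper202_BG
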