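import Pool.Agent.Helper202_BG.P1

/-!
Task P6 of the project BG202: a finitely generated infinite-dimensional prime module embeds into a
module which is a finite-dimensional vector space over a finitely generated extension field and which
has no nonzero finite-dimensional submodule.
-/

set_option autoImplicit false

open CategoryTheory
open scoped TensorProduct

namespace Pool.Agent.Helper202_BG

namespace TP6

/-- the action of `A` on the scalar extension of `M` -/
noncomputable def Φ (A M Z : Type) [Ring A] [AddCommGroup M] [Module A M]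
    [CommRing Z] [Module Z M] [SMulCommClass A Z M] :
    A →+* Module.End (FractionRing Z) (FractionRing Z ⊗[Z] M) :=
  (Module.End.baseChangeHom Z (FractionRing Z) M).toRingHom.comp (Module.toModuleEnd Z M)

/-- the `A`-module structure on the scalar extension of `M` -/
noncomputable abbrev modA (A M Z : Type) [Ring A] [AddCommGroup M] [Module A M]
    [CommRing Z] [Module Z M] [SMulCommClass A Z M] : Module A (FractionRing Z ⊗[Z] M) :=
  Module.compHom _ (Φ A M Z)

theorem Φ_tmul (A M Z : Type) [Ring A] [AddCommGroup M] [Module A M]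
    [CommRing Z] [Module Z M] [SMulCommClass A Z M] (a : A) (q : FractionRing Z) (m : M) :
    Φ A M Z a (q ⊗ₜ[Z] m) = q ⊗ₜ[Z] (a • m) := rfl

theorem exists_poly {k V : Type} [Field k] [AddCommGroup V] [Module k V] [Module.Finite k V]
    (T : V →ₗ[k] V) : ∃ f : Polynomial k, f ≠ 0 ∧ Polynomial.aeval T f = 0 :=
  ⟨T.charpoly, T.charpoly_monic.ne_zero, T.aeval_self_charpoly⟩

theorem no_fd {k A K W : Type} [Field k] [Ring A] [Algebra k A] [Field K] [Algebra k K]
    [AddCommGroup W] [Module A W] [Module K W] [Module k W] [IsScalarTower k A W]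
    [IsScalarTower k K W] (q : K) (hq : Transcendental k q) (a : A) (ha : ∀ w : W, a • w = q • w)
    (Y : Submodule A W) (hY : Module.Finite k Y) : Y = ⊥ := by
  let T : Y →ₗ[k] Y :=
    { toFun := fun y => a • y
      map_add' := fun x y => smul_add _ _ _
      map_smul' := fun c y => by
        refine Subtype.ext ?_
        change a • (c • (y : W)) = c • (a • (y : W))
        rw [← algebraMap_smul A c (y : W), ← mul_smul, ← Algebra.commutes,
          mul_smul, algebraMap_smul] }
  have hpow : ∀ (n : ℕ) (y : Y), ((T ^ n) y : W) = q ^ n • (y : W) := by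
    intro n
    induction n with
    | zero => intro y; rw [pow_zero, pow_zero, one_smul]; rfl
    | succ n ih =>
      intro y
      rw [pow_succ, Module.End.mul_apply, ih, pow_succ, mul_smul]
      congr 1
      exact ha y
  have hT : ∀ (f : Polynomial k) (y : Y), ((Polynomial.aeval T f) y : W) =
      Polynomial.aeval q f • (y : W) := by
    intro f
    induction f using Polynomial.induction_on' with
    | add p r hp hr =>
      intro y
      rw [map_add, map_add, LinearMap.add_apply, Submodule.coe_add, hp, hr, add_smul]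
    | monomial n c =>
      intro y
      rw [Polynomial.aeval_monomial, Polynomial.aeval_monomial, Module.End.mul_apply,
        Module.algebraMap_end_apply, Submodule.coe_smul_of_tower, hpow, mul_smul,
        algebraMap_smul]
  obtain ⟨f, hf0, hf⟩ : ∃ f : Polynomial k, f ≠ 0 ∧ Polynomial.aeval T f = 0 := exists_poly T
  have h0 : Polynomial.aeval q f ≠ 0 := fun h => hf0 (transcendental_iff.1 hq f h)
  rw [eq_bot_iff]
  intro y hy
  have h1 := hT f ⟨y, hy⟩
  rw [hf] at h1
  have h2 : Polynomial.aeval q f • y = 0 := h1.symm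
  have h3 : y = 0 := by
    rcases smul_eq_zero.1 h2 with h | h
    · exact absurd h h0
    · exact h
  exact h3

theorem core (k A M Z : Type) [Field k] [Ring A] [Algebra k A] [AddCommGroup M] [Module A M]
    [Module k M] [IsScalarTower k A M] [Nontrivial M]
    [CommRing Z] [IsDomain Z] [Algebra k Z] [Algebra.FiniteType k Z]
    [Module Z M] [SMulCommClass A Z M] [IsScalarTower k Z M]
    (htf : ∀ (z : Z) (m : M), z ≠ 0 → z • m = 0 → m = 0)
    (hlift : ∀ z : Z, ∃ a : A, ∀ m : M, a • m = z • m)
    (htr : ∃ z : Z, Transcendental k z)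
    (n : ℕ) (v : Fin n → M)
    (hgen : ∀ x : M, ∃ c : Z, c ≠ 0 ∧ ∃ z : Fin n → Z, c • x = ∑ j, z j • v j) :
      ∃ (K : Type) (_ : Field K) (_ : Algebra k K) (_ : Algebra.EssFiniteType k K)
        (W : Type) (_ : AddCommGroup W) (_ : Module A W) (_ : Module K W) (_ : Module k W)
        (_ : SMulCommClass A K W) (_ : IsScalarTower k A W) (_ : IsScalarTower k K W)
        (ι : M →ₗ[A] W), Function.Injective ι ∧ Module.Finite K W ∧
        (∀ Y : Submodule A W, Module.Finite k Y → Y = ⊥) ∧
        (∀ a : A, (∀ m : M, a • m = 0) → ∀ w : W, a • w = 0) ∧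
        ∀ Y : Submodule A W, Y.FG → ∃ c : A, (∃ m : M, c • m ≠ 0) ∧
          ∀ y ∈ Y, c • y ∈ LinearMap.range ι := by
  classical
  let mA : Module A (FractionRing Z ⊗[Z] M) := modA A M Z
  have hsm : ∀ (a : A) (q : FractionRing Z) (m : M), a • (q ⊗ₜ[Z] m) = q ⊗ₜ[Z] (a • m) :=
    fun a q m => rfl
  have i1 : SMulCommClass A (FractionRing Z) (FractionRing Z ⊗[Z] M) :=
    ⟨fun a q w => (Φ A M Z a).map_smul q w⟩
  have i2 : IsScalarTower k A (FractionRing Z ⊗[Z] M) := ⟨fun c a w => by
    induction w using TensorProduct.induction_on with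
    | zero => rw [smul_zero, smul_zero, smul_zero]
    | tmul q m =>
      rw [hsm, hsm, smul_assoc, ← algebraMap_smul Z c (a • m), TensorProduct.tmul_smul,
        TensorProduct.smul_tmul', TensorProduct.smul_tmul', algebraMap_smul]
    | add x y hx hy => rw [smul_add, smul_add, smul_add, hx, hy]⟩
  have i3 : IsScalarTower k (FractionRing Z) (FractionRing Z ⊗[Z] M) := inferInstance
  have i4 : Algebra.EssFiniteType k (FractionRing Z) := inferInstance
  let ι : M →ₗ[A] (FractionRing Z ⊗[Z] M) :=
    { toFun := fun m => (1 : FractionRing Z) ⊗ₜ[Z] m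
      map_add' := fun x y => TensorProduct.tmul_add _ _ _
      map_smul' := fun a m => (hsm a 1 m).symm }
  have hloc : IsLocalizedModule (nonZeroDivisors Z) (TensorProduct.mk Z (FractionRing Z) M 1) :=
    (isLocalizedModule_iff_isBaseChange (nonZeroDivisors Z) (FractionRing Z) _).2
      (TensorProduct.isBaseChange Z M (FractionRing Z))
  have halg : ∀ (z : Z) (m : M), algebraMap Z (FractionRing Z) z • ι m = ι (z • m) := by
    intro z m
    change algebraMap Z (FractionRing Z) z • ((1 : FractionRing Z) ⊗ₜ[Z] m) = 1 ⊗ₜ[Z] (z • m)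
    rw [algebraMap_smul, TensorProduct.tmul_smul]
  have hinj : Function.Injective ι := by
    intro x y hxy
    obtain ⟨c, hc⟩ := (IsLocalizedModule.eq_iff_exists (nonZeroDivisors Z)
      (TensorProduct.mk Z (FractionRing Z) M 1)).1 hxy
    have hc0 : (c : Z) ≠ 0 := nonZeroDivisors.ne_zero c.2
    have h1 : (c : Z) • (x - y) = 0 := by
      rw [smul_sub]
      exact sub_eq_zero.2 hc
    exact sub_eq_zero.1 (htf _ _ hc0 h1)
  have hne : ∀ z : Z, z ≠ 0 → algebraMap Z (FractionRing Z) z ≠ 0 := fun z hz h =>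
    hz ((IsFractionRing.injective Z (FractionRing Z)) (by rw [h, map_zero]))
  have hact : ∀ (z : Z) (a : A), (∀ m : M, a • m = z • m) → ∀ w : FractionRing Z ⊗[Z] M,
      a • w = algebraMap Z (FractionRing Z) z • w := by
    intro z a ha w
    induction w using TensorProduct.induction_on with
    | zero => rw [smul_zero, smul_zero]
    | tmul q m =>
      rw [hsm, ha, TensorProduct.tmul_smul, algebraMap_smul]
    | add x y hx hy => rw [smul_add, smul_add, hx, hy]
  refine ⟨FractionRing Z, inferInstance, inferInstance, i4, FractionRing Z ⊗[Z] M, inferInstance,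
    mA, inferInstance, inferInstance, i1, i2, i3, ι, hinj, ?_, ?_, ?_, ?_⟩
  · refine ⟨⟨Finset.univ.image fun j => ι (v j), ?_⟩⟩
    rw [eq_top_iff]
    have hι : ∀ m : M, ι m ∈ Submodule.span (FractionRing Z)
        ((Finset.univ.image fun j => ι (v j) : Finset _) : Set (FractionRing Z ⊗[Z] M)) := by
      intro m
      obtain ⟨c, hc0, z, hz⟩ := hgen m
      have h1 : algebraMap Z (FractionRing Z) c • ι m = ∑ j,
          algebraMap Z (FractionRing Z) (z j) • ι (v j) := by
        rw [halg, hz, map_sum]
        exact Finset.sum_congr rfl fun j _ => (halg _ _).symm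
      have h2 : ι m = (algebraMap Z (FractionRing Z) c)⁻¹ • ∑ j,
          algebraMap Z (FractionRing Z) (z j) • ι (v j) := by
        rw [← h1, smul_smul, inv_mul_cancel₀ (hne c hc0), one_smul]
      rw [h2]
      refine Submodule.smul_mem _ _ (Submodule.sum_mem _ fun j _ => Submodule.smul_mem _ _ ?_)
      exact Submodule.subset_span (by simp)
    intro w _
    induction w using TensorProduct.induction_on with
    | zero => exact Submodule.zero_mem _
    | tmul q m =>
      have h1 : q ⊗ₜ[Z] m = q • ι m := by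
        change _ = q • ((1 : FractionRing Z) ⊗ₜ[Z] m)
        rw [TensorProduct.smul_tmul', smul_eq_mul, mul_one]
      rw [h1]
      exact Submodule.smul_mem _ _ (hι m)
    | add x y hx hy => exact Submodule.add_mem _ (hx trivial) (hy trivial)
  · intro Y hY
    obtain ⟨z, hz⟩ := htr
    obtain ⟨a, ha⟩ := hlift z
    have hz' : Transcendental k (algebraMap Z (FractionRing Z) z) :=
      (transcendental_algebraMap_iff (IsFractionRing.injective Z (FractionRing Z))).2 hz
    exact no_fd _ hz' a (hact z a ha) Y hY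
  · intro a ha w
    induction w using TensorProduct.induction_on with
    | zero => rw [smul_zero]
    | tmul q m => rw [hsm, ha, TensorProduct.tmul_zero]
    | add x y hx hy => rw [smul_add, hx, hy, add_zero]
  · intro Y hY
    have key : ∃ z : Z, z ≠ 0 ∧ ∀ y ∈ Y, algebraMap Z (FractionRing Z) z • y ∈
        LinearMap.range ι := by
      induction Y, hY using Submodule.fg_induction with
      | singleton w =>
        obtain ⟨⟨m, c⟩, hc⟩ := IsLocalizedModule.surj (nonZeroDivisors Z)
          (TensorProduct.mk Z (FractionRing Z) M 1) w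
        refine ⟨c, nonZeroDivisors.ne_zero c.2, fun y hy => ?_⟩
        obtain ⟨a, rfl⟩ := Submodule.mem_span_singleton.1 hy
        rw [← smul_comm a]
        refine Submodule.smul_mem _ _ ⟨m, ?_⟩
        rw [algebraMap_smul]
        exact hc.symm
      | sup Y₁ Y₂ _ _ h₁ h₂ =>
        obtain ⟨z₁, hz₁, h₁⟩ := h₁
        obtain ⟨z₂, hz₂, h₂⟩ := h₂
        refine ⟨z₁ * z₂, mul_ne_zero hz₁ hz₂, fun y hy => ?_⟩
        obtain ⟨y₁, hy₁, y₂, hy₂, rfl⟩ := Submodule.mem_sup.1 hy
        obtain ⟨m₁, hm₁⟩ := h₁ y₁ hy₁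
        obtain ⟨m₂, hm₂⟩ := h₂ y₂ hy₂
        refine ⟨z₂ • m₁ + z₁ • m₂, ?_⟩
        rw [map_add, ← halg, ← halg, hm₁, hm₂, smul_add, smul_smul, smul_smul, ← map_mul,
          ← map_mul, mul_comm z₂ z₁]
    obtain ⟨z, hz, hzY⟩ := key
    obtain ⟨c, hc⟩ := hlift z
    refine ⟨c, ?_, fun y hy => ?_⟩
    · obtain ⟨m, hm⟩ := exists_ne (0 : M)
      exact ⟨m, fun h => hm (htf z m hz (by rw [← hc]; exact h))⟩
    · rw [hact z c hc]
      exact hzY y hy

end TP6

/-- Task P6. -/
theorem taskP6 (hC : TaskC) (hD2 : TaskD2) (hE : TaskE) : TaskP6 := by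
  intro k _ A _ _ _ _ d hd M _ _ _ _ _ hM hnf
  obtain ⟨Z, hfg, hlift, hcomm, hinj, ⟨z, hz, hzt⟩, n, v, α, hα, hα0, hgen⟩ :=
    TP.prep hC hD2 hE k A d hd M hM hnf
  have hnt : Nontrivial M := hM.1
  have hntE : Nontrivial (Module.End k M) := inferInstance
  have hcommZ : ∀ z ∈ Z, ∀ w ∈ Z, z * w = w * z := by
    intro z hz w hw
    obtain ⟨a, rfl⟩ := hlift w hw
    refine LinearMap.ext fun m => ?_
    exact hcomm z hz a m
  let _ : CommRing Z :=
    { (inferInstance : Ring Z) with
      mul_comm := fun a b => Subtype.ext (hcommZ _ a.2 _ b.2) }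
  have hdom : IsDomain Z := by
    have : NoZeroDivisors Z := ⟨fun {a b} hab => by
      by_contra hcon
      push Not at hcon
      obtain ⟨ha, hb⟩ := hcon
      have ha' : (a : Module.End k M) ≠ 0 := fun h => ha (Subtype.ext h)
      have hb' : (b : Module.End k M) ≠ 0 := fun h => hb (Subtype.ext h)
      apply hb'
      refine LinearMap.ext fun m => ?_
      refine hinj _ a.2 ha' _ ?_
      exact LinearMap.congr_fun (congrArg Subtype.val hab) m⟩
    exact NoZeroDivisors.to_isDomain Z
  have hft : Algebra.FiniteType k Z := ⟨Subalgebra.fg_top Z |>.2 hfg⟩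
  have hsm : SMulCommClass A Z M := ⟨fun a z m => (hcomm z z.2 a m).symm⟩
  have hst : IsScalarTower k Z M := ⟨fun c z m => rfl⟩
  refine TP6.core k A M Z (fun z m hz h => hinj _ z.2 (fun h' => hz (Subtype.ext h')) m h)
    (fun z => ?_) ⟨⟨z, hz⟩, ?_⟩ n v (fun x => ?_)
  · obtain ⟨a, ha⟩ := hlift z z.2
    exact ⟨a, fun m => LinearMap.congr_fun ha m⟩
  · intro h
    exact hzt ((isAlgebraic_algHom_iff Z.val Subtype.val_injective).2 h)
  · obtain ⟨s, w, hw, hsw⟩ := hgen x
    refine ⟨(⟨α, hα⟩ : Z) ^ s, pow_ne_zero s fun h => hα0 (congrArg Subtype.val h),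
      fun j => ⟨w j, hw j⟩, ?_⟩
    exact hsw

end Pool.Agent.Helper202_BG
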