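import Pool.Agent.Helper202_BG.A
import Pool.Agent.Helper202_BG.B
import Pool.Agent.Helper202_BG.C
import Pool.Agent.Helper202_BG.D0
import Pool.Agent.Helper202_BG.D2
import Pool.Agent.Helper202_BG.E
import Pool.Agent.Helper202_BG.F
import Pool.Agent.Helper202_BG.G
import Pool.Agent.Helper202_BG.H
import Pool.Agent.Helper202_BG.I
import Pool.Agent.Helper202_BG.P1
import Pool.Agent.Helper202_BG.P6

/-!
Noetherian affine PI weak Hopf algebras: the ring-theoretic part, put together.
-/

namespace Pool.Agent.Helper202_BG

theorem allC : TaskC := taskC taskA taskB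

theorem allD2 : TaskD2 := taskD2 taskD0

theorem allF : TaskF := taskF allC allD2 taskE

theorem allG : TaskG := taskG allC taskD0

theorem allP1 : TaskP1 := taskP1 allC allD2 taskE

theorem allI : TaskI := taskI allP1

theorem allP6 : TaskP6 := taskP6 allC allD2 taskE

end Pool.Agent.Helper202_BG
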