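import Pool.Agent.Helper202_BG.Stmts

/-!
The quotient of `A` by the annihilator of a prime module: it is prime, noetherian, affine, and
satisfies the same multilinear identity; hence it has a central model by tasks C, D2, E.
-/

set_option autoImplicit false

namespace Pool.Agent.Helper202_BG.QuotP

/-- the quotient by the annihilator of a prime module is a prime ring -/
theorem annQ_prime {A M : Type} [Ring A] [AddCommGroup M] [Module A M] (h : PrimeM A M) :
    PrimeR (A ⧸ Module.annihilator A M) := by
  obtain ⟨hnt, hp⟩ := h
  refine ⟨?_, ?_⟩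
  · have hne : Module.annihilator A M ≠ ⊤ := by
      intro htop
      obtain ⟨x, hx⟩ := exists_ne (0 : M)
      have h1 : (1 : A) ∈ Module.annihilator A M := by rw [htop]; trivial
      apply hx
      have := Module.mem_annihilator.mp h1 x
      simpa using this
    exact Ideal.Quotient.nontrivial_iff.mpr hne
  · intro a b hab
    obtain ⟨a, rfl⟩ := Ideal.Quotient.mk_surjective a
    obtain ⟨b, rfl⟩ := Ideal.Quotient.mk_surjective b
    by_contra hcon
    push Not at hcon
    obtain ⟨ha, hb⟩ := hcon
    rw [Ne, Ideal.Quotient.eq_zero_iff_mem, Module.mem_annihilator] at ha hb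
    push Not at hb
    obtain ⟨m, hm⟩ := hb
    apply ha
    apply hp a (b • m) hm
    intro r
    have h1 := hab (Ideal.Quotient.mk _ r)
    rw [← map_mul, ← map_mul, Ideal.Quotient.eq_zero_iff_mem, Module.mem_annihilator] at h1
    have h2 := h1 m
    rwa [mul_smul, mul_smul] at h2

/-- a multilinear identity passes to quotients -/
theorem mlpi_of_surjective {k A B : Type} [Field k] [Ring A] [Algebra k A] [Ring B] [Algebra k B]
    {d : ℕ} (f : A →ₐ[k] B) (hf : Function.Surjective f) (h : MLPI k A d) : MLPI k B d := by
  obtain ⟨c, hc1, hc⟩ := h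
  refine ⟨c, hc1, fun b => ?_⟩
  choose g hg using hf
  have h1 := congrArg f (hc fun i => g (b i))
  rw [map_zero, map_sum] at h1
  rw [← h1]
  refine Finset.sum_congr rfl fun τ _ => ?_
  rw [map_smul, map_list_prod, List.map_ofFn]
  congr 2
  refine congrArg List.ofFn (funext fun i => ?_)
  exact (hg _).symm

/-- the central model of the quotient by the annihilator of a prime module -/
theorem exists_model (hC : TaskC) (hD2 : TaskD2) (hE : TaskE) {k A M : Type} [Field k] [Ring A]
    [Algebra k A] [IsNoetherianRing A] [Algebra.FiniteType k A] {d : ℕ} (hd : MLPI k A d)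
    [AddCommGroup M] [Module A M] (hM : PrimeM A M) :
    ∃ Z : Subalgebra k (A ⧸ Module.annihilator A M), Model k (A ⧸ Module.annihilator A M) Z ∧
      (¬ Module.Finite k (A ⧸ Module.annihilator A M) → ∃ z ∈ Z, Transcendental k z) := by
  have hR : PrimeR (A ⧸ Module.annihilator A M) := annQ_prime hM
  have hn : IsNoetherianRing (A ⧸ Module.annihilator A M) :=
    isNoetherianRing_of_surjective A _ (Ideal.Quotient.mk (Module.annihilator A M))
      Ideal.Quotient.mk_surjective
  have hft : Algebra.FiniteType k (A ⧸ Module.annihilator A M) :=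
    Algebra.FiniteType.of_surjective (Ideal.Quotient.mkₐ k (Module.annihilator A M))
      (Ideal.Quotient.mkₐ_surjective k _)
  have hml : MLPI k (A ⧸ Module.annihilator A M) d :=
    mlpi_of_surjective (Ideal.Quotient.mkₐ k (Module.annihilator A M))
      (Ideal.Quotient.mkₐ_surjective k _) hd
  obtain ⟨n, _, hn⟩ := hC k _ d hml hR
  have hF := hD2 k _ n hR hn
  exact hE k _ hR hF

/-- simple modules are prime modules -/
theorem primeM_of_simple {A M : Type} [Ring A] [AddCommGroup M] [Module A M]
    [IsSimpleModule A M] : PrimeM A M := by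
  refine ⟨IsSimpleModule.nontrivial A M, ?_⟩
  intro a m hm h x
  obtain ⟨b, rfl⟩ := IsSimpleModule.toSpanSingleton_surjective A hm x
  exact h b

end Pool.Agent.Helper202_BG.QuotP
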