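import Pool.Agent.Helper202_BG.Defs

/-!
Noetherian affine PI weak Hopf algebras have finite injective dimension: exact statements of the
independent tasks. Right modules over `A` are left modules over `Aᵐᵒᵖ`; `IsNoetherianRing` means left
noetherian.
-/

set_option autoImplicit false

open CategoryTheory
open scoped TensorProduct

namespace Pool.Agent.Helper202_BG

/-! ### Part 1: rings with a polynomial identity -/

/-- Task A (detection of non-nilpotent elements by absolutely irreducible representations). -/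
def TaskA : Prop :=
  ∀ (k : Type) [Field k] (R : Type) [Ring R] [Algebra k R] (d : ℕ), MLPI k R d →
    ∀ β : R, (∀ s : ℕ, β ^ s ≠ 0) → ∃ n, n ≤ d ∧ ∃ D : Rep k R n, D.ρ β ≠ 0

/-- Task B (no nil one-sided ideals). -/
def TaskB : Prop :=
  ∀ (R : Type) [Ring R] [IsNoetherianRing R], PrimeR R →
    ∀ b : R, b ≠ 0 → ∃ r : R, ∀ s : ℕ, (b * r) ^ s ≠ 0

/-- Task C (one size of representations suffices). -/
def TaskC : Prop :=
  ∀ (k : Type) [Field k] (R : Type) [Ring R] [Algebra k R] [IsNoetherianRing R] (d : ℕ),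
    MLPI k R d → PrimeR R → ∃ n, n ≤ d ∧ Det k R n

/-- Task D0 (Razmyslov: central values of generalized linear polynomials). -/
def TaskD0 : Prop :=
  ∀ (k : Type) [Field k] (R : Type) [Ring R] [Algebra k R] (n : ℕ), PrimeR R → Det k R n →
    ∀ b : R, b ≠ 0 → ∃ (m : ℕ) (p q : Fin m → R),
      (∀ x : R, ∑ i, p i * x * q i ∈ Subring.center R) ∧
      ∃ r s : R, ∑ i, p i * (r * b * s) * q i ≠ 0

/-- `R` is, up to one central denominator, finite over its centre. -/
def FinC (R : Type) [Ring R] : Prop :=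
  ∃ (N : ℕ) (u : Fin N → R) (α : R), α ∈ Subring.center R ∧ α ≠ 0 ∧
    ∀ x : R, ∃ z : Fin N → R, (∀ j, z j ∈ Subring.center R) ∧ α * x = ∑ j, z j * u j

/-- Task D2 (Posner's theorem). -/
def TaskD2 : Prop :=
  ∀ (k : Type) [Field k] (R : Type) [Ring R] [Algebra k R] (n : ℕ), PrimeR R → Det k R n → FinC R

/-- `Z` is a finitely generated central subalgebra over which `R` is finite up to powers of one
denominator. -/
def Model (k R : Type) [Field k] [Ring R] [Algebra k R] (Z : Subalgebra k R) : Prop :=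
  Z.FG ∧ (∀ z ∈ Z, ∀ r : R, z * r = r * z) ∧
    ∃ (N : ℕ) (u : Fin N → R) (α : R), α ∈ Z ∧ α ≠ 0 ∧
      ∀ x : R, ∃ (s : ℕ) (z : Fin N → R), (∀ j, z j ∈ Z) ∧ α ^ s * x = ∑ j, z j * u j

/-- Task E (affine version). -/
def TaskE : Prop :=
  ∀ (k : Type) [Field k] (R : Type) [Ring R] [Algebra k R] [Algebra.FiniteType k R],
    PrimeR R → FinC R →
      ∃ Z : Subalgebra k R, Model k R Z ∧ (¬ Module.Finite k R → ∃ z ∈ Z, Transcendental k z)

/-- Task F (Nullstellensatz: simple modules are finite-dimensional). -/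
def TaskF : Prop :=
  ∀ (k : Type) [Field k] (A : Type) [Ring A] [Algebra k A] [IsNoetherianRing A]
    [Algebra.FiniteType k A] (d : ℕ), MLPI k A d →
    ∀ (M : Type) [AddCommGroup M] [Module A M] [Module k M] [IsScalarTower k A M]
      [IsSimpleModule A M], Module.Finite k M

/-- Task G (a dimension function on the prime ideals). -/
def TaskG : Prop :=
  ∀ (k : Type) [Field k] (A : Type) [Ring A] [Algebra k A] [IsNoetherianRing A]
    [Algebra.FiniteType k A] (d : ℕ), MLPI k A d →
    ∃ (δ : Ideal A → ℕ) (e : ℕ), (∀ P, PrimeI P → δ P ≤ e) ∧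
      ∀ P P' : Ideal A, PrimeI P → PrimeI P' → P < P' → δ P' < δ P

/-- Task H (extension of the base field). -/
def TaskH : Prop :=
  ∀ (k : Type) [Field k] (A : Type) [Ring A] [Algebra k A] [IsNoetherianRing A]
    (K : Type) [Field K] [Algebra k K] [Algebra.EssFiniteType k K],
    IsNoetherianRing (K ⊗[k] A)

/-- Task P1 (a transcendental central multiplication on infinite-dimensional prime modules). -/
def TaskP1 : Prop :=
  ∀ (k : Type) [Field k] (A : Type) [Ring A] [Algebra k A] [IsNoetherianRing A]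
    [Algebra.FiniteType k A] (d : ℕ), MLPI k A d →
    ∀ (M : Type) [AddCommGroup M] [Module A M] [Module k M] [IsScalarTower k A M]
      [Module.Finite A M], PrimeM A M → ¬ Module.Finite k M →
      ∃ z : A, (∀ (r : A) (x : M), (z * r - r * z) • x = 0) ∧
        ∀ f : Polynomial k, f ≠ 0 → ∀ x : M, Polynomial.aeval z f • x = 0 → x = 0

/-- Finitely generated essential extensions of finite-dimensional modules are
finite-dimensional. -/
def Ess (K B : Type) [Field K] [Ring B] [Algebra K B] : Prop :=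
  ∀ (X : Type) [AddCommGroup X] [Module B X] [Module K X] [IsScalarTower K B X]
    [Module.Finite B X] (U : Submodule B X), Module.Finite K U →
    (∀ N : Submodule B X, N ≠ ⊥ → U ⊓ N ≠ ⊥) → Module.Finite K X

/-- Task I (essential extensions). -/
def TaskI : Prop :=
  ∀ (k : Type) [Field k] (A : Type) [Ring A] [Algebra k A] [IsNoetherianRing A]
    [Algebra.FiniteType k A] (d : ℕ), MLPI k A d → Ess k A

/-- Task P6 (embedding a prime module into a vector space over an extension field). -/
def TaskP6 : Prop :=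
  ∀ (k : Type) [Field k] (A : Type) [Ring A] [Algebra k A] [IsNoetherianRing A]
    [Algebra.FiniteType k A] (d : ℕ), MLPI k A d →
    ∀ (M : Type) [AddCommGroup M] [Module A M] [Module k M] [IsScalarTower k A M]
      [Module.Finite A M], PrimeM A M → ¬ Module.Finite k M →
      ∃ (K : Type) (_ : Field K) (_ : Algebra k K) (_ : Algebra.EssFiniteType k K)
        (W : Type) (_ : AddCommGroup W) (_ : Module A W) (_ : Module K W) (_ : Module k W)
        (_ : SMulCommClass A K W) (_ : IsScalarTower k A W) (_ : IsScalarTower k K W)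
        (ι : M →ₗ[A] W), Function.Injective ι ∧ Module.Finite K W ∧
        (∀ Y : Submodule A W, Module.Finite k Y → Y = ⊥) ∧
        (∀ a : A, (∀ m : M, a • m = 0) → ∀ w : W, a • w = 0) ∧
        ∀ Y : Submodule A W, Y.FG → ∃ c : A, (∃ m : M, c • m ≠ 0) ∧
          ∀ y ∈ Y, c • y ∈ LinearMap.range ι

/-! ### Part 2: weak Hopf algebras -/

/-- Task W1 (standard identities in a weak Hopf algebra). -/
def TaskW1 : Prop :=
  ∀ (k : Type) [Field k] (H : Type) [Ring H] [Algebra k H] [Coalgebra k H] (S : H →ₗ[k] H),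
    IsWeakHopf k H S →
    S 1 = 1 ∧ (∀ x y : H, S (x * y) = S y * S x) ∧
    (∀ x : H, LinearMap.lTensor H (LinearMap.mul' k H ∘ₗ LinearMap.lTensor H S ∘ₗ
        CoalgebraStruct.comul (R := k) (A := H)) (CoalgebraStruct.comul (R := k) (A := H) x) =
      CoalgebraStruct.comul (R := k) (A := H) (1 : H) * (x ⊗ₜ[k] 1)) ∧
    (∀ x : H, LinearMap.lTensor H (LinearMap.mul' k H ∘ₗ LinearMap.rTensor H S ∘ₗ
        CoalgebraStruct.comul (R := k) (A := H)) (CoalgebraStruct.comul (R := k) (A := H) x) =
      (x ⊗ₜ[k] 1) * LinearMap.lTensor H S (CoalgebraStruct.comul (R := k) (A := H) (1 : H)))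

/-- Epimorphisms between finite-dimensional modules induce injections on `Ext^n(-, A)`. -/
def EpiInj (k A : Type) [Field k] [Ring A] [Algebra k A] : Prop :=
  ∀ (V V' : Type) [AddCommGroup V] [Module A V] [Module k V] [IsScalarTower k A V]
    [Module.Finite k V] [AddCommGroup V'] [Module A V'] [Module k V'] [IsScalarTower k A V']
    [Module.Finite k V'] (π : V' →ₗ[A] V), Function.Surjective π →
    ∀ (n : ℕ) (ξ : E A V A n), pre π ξ = 0 → ξ = 0

/-- Task W2. -/
def TaskW2 : Prop :=
  ∀ (k : Type) [Field k] (H : Type) [Ring H] [Algebra k H] [Coalgebra k H] (S : H →ₗ[k] H),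
    IsWeakHopf k H S → EpiInj k H

/-- Task Op (the opposite algebra with the opposite coproduct). -/
def TaskOp : Prop :=
  ∀ (k : Type) [Field k] (H : Type) [Ring H] [Algebra k H] [Coalgebra k H] (S : H →ₗ[k] H),
    IsWeakHopf k H S →
    ∃ (_ : Coalgebra k Hᵐᵒᵖ) (S' : Hᵐᵒᵖ →ₗ[k] Hᵐᵒᵖ), IsWeakHopf k Hᵐᵒᵖ S'

/-! ### Part 3: homological algebra -/

/-- Main task. -/
def TaskMain : Prop :=
  ∀ (k : Type) [Field k] (A : Type) [Ring A] [Algebra k A] [IsNoetherianRing A]
    [IsNoetherianRing Aᵐᵒᵖ] [Algebra.FiniteType k A] (d : ℕ), MLPI k A d → EpiInj k A →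
    ∃ n : ℕ, HasInjectiveDimensionLT (ModuleCat.of A A) n

end Pool.Agent.Helper202_BG
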