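import Pool.Agent.Helper202_BG.Ten

/-!
Common tools for tasks L2 and L4: one-sided coproduct identities and their actions on modules.
-/

set_option autoImplicit false

open scoped TensorProduct

namespace Pool.Agent.Helper202_BG

set_option linter.unusedSectionVars false

namespace TL

section
variable (k H : Type) [Field k] [Ring H] [Algebra k H] [Coalgebra k H]

/-- the coproduct -/
noncomputable abbrev cm : H →ₗ[k] H ⊗[k] H := CoalgebraStruct.comul (R := k) (A := H)

variable {H}
variable {k}

/-- `a ⊗ b ↦ a₁ ⊗ a₂ S(b)` -/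
noncomputable def N1 (S : H →ₗ[k] H) : H ⊗[k] H →ₗ[k] H ⊗[k] H :=
  LinearMap.lTensor H (LinearMap.mul' k H ∘ₗ LinearMap.lTensor H S) ∘ₗ
    (TensorProduct.assoc k H H H).toLinearMap ∘ₗ LinearMap.rTensor H (cm k H)

/-- `a ⊗ b ↦ a₁ ⊗ S(a₂) b` -/
noncomputable def N2 (S : H →ₗ[k] H) : H ⊗[k] H →ₗ[k] H ⊗[k] H :=
  LinearMap.lTensor H (LinearMap.mul' k H ∘ₗ LinearMap.rTensor H S) ∘ₗ
    (TensorProduct.assoc k H H H).toLinearMap ∘ₗ LinearMap.rTensor H (cm k H)

theorem N1_tmul (S : H →ₗ[k] H) (a b : H) :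
    N1 S (a ⊗ₜ[k] b) = LinearMap.lTensor H (LinearMap.mulRight k (S b)) (cm k H a) := by
  rw [N1, LinearMap.comp_apply, LinearMap.comp_apply, LinearMap.rTensor_tmul]
  generalize cm k H a = t
  induction t with
  | zero => simp
  | add x y hx hy => simp only [TensorProduct.add_tmul, map_add, hx, hy]
  | tmul p q => simp

theorem N2_tmul (S : H →ₗ[k] H) (a b : H) :
    N2 S (a ⊗ₜ[k] b) =
      LinearMap.lTensor H (LinearMap.mulRight k b ∘ₗ S) (cm k H a) := by
  rw [N2, LinearMap.comp_apply, LinearMap.comp_apply, LinearMap.rTensor_tmul]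
  generalize cm k H a = t
  induction t with
  | zero => simp
  | add x y hx hy => simp only [TensorProduct.add_tmul, map_add, hx, hy]
  | tmul p q => simp

theorem N1_cm [CM k H] {S : H →ₗ[k] H} (hS : WHId k H S) (x : H) :
    N1 S (cm k H x) = cm k H 1 * (x ⊗ₜ[k] 1) := by
  rw [← hS.id1 x, N1, LinearMap.comp_apply, LinearMap.comp_apply]
  erw [Coalgebra.coassoc_apply]
  rw [← LinearMap.lTensor_comp_apply]
  rfl

theorem N2_cm [CM k H] {S : H →ₗ[k] H} (hS : WHId k H S) (x : H) :
    N2 S (cm k H x) = (x ⊗ₜ[k] 1) * LinearMap.lTensor H S (cm k H 1) := by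
  rw [← hS.id2 x, N2, LinearMap.comp_apply, LinearMap.comp_apply]
  erw [Coalgebra.coassoc_apply]
  rw [← LinearMap.lTensor_comp_apply]
  rfl

end

section
variable {k H : Type} [Field k] [Ring H] [Algebra k H]
variable {F : Type} [AddCommGroup F] [Module H F] [Module k F] [IsScalarTower k H F]
variable {V : Type} [AddCommGroup V] [Module H V] [Module k V] [IsScalarTower k H V]

/-- evaluation `a ⊗ h ↦ a ⊗ h v` -/
noncomputable def ev (v : V) : F ⊗[k] H →ₗ[k] F ⊗[k] V :=
  LinearMap.lTensor F ((LinearMap.toSpanSingleton H V v).restrictScalars k)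

theorem ev_tmul (v : V) (a : F) (h : H) : ev (k := k) v (a ⊗ₜ[k] h) = a ⊗ₜ[k] (h • v) := by
  simp [ev]

theorem ev_add (v w : V) (x : F ⊗[k] H) : ev (k := k) (v + w) x = ev v x + ev w x := by
  induction x with
  | zero => simp
  | add x y hx hy => simp only [map_add, hx, hy]; abel
  | tmul a h => simp only [ev_tmul, smul_add, TensorProduct.tmul_add]

theorem ev_smul (c : k) (v : V) (x : F ⊗[k] H) : ev (k := k) (c • v) x = c • ev v x := by
  induction x with
  | zero => simp
  | add x y hx hy => simp only [map_add, hx, hy, smul_add]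
  | tmul a h =>
    simp only [ev_tmul]
    rw [← TensorProduct.tmul_smul, ← IsScalarTower.algebraMap_smul H c v, smul_smul,
      ← Algebra.commutes, ← smul_smul, IsScalarTower.algebraMap_smul]

theorem ev_op (v : V) (t : H ⊗[k] H) (x : F ⊗[k] H) :
    ev v (op k H F H t x) = op k H F V t (ev v x) := by
  induction t with
  | zero => simp
  | add a b ha hb => simp only [map_add, LinearMap.add_apply, ha, hb]
  | tmul a b =>
    induction x with
    | zero => simp
    | add x y hx hy => simp only [map_add, hx, hy]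
    | tmul f h => simp only [op_tmul, ev_tmul, smul_eq_mul, mul_smul]

end

end TL

end Pool.Agent.Helper202_BG
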