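import Pool.Agent.Helper202_BG.ExtTools

/-!
Tensor products of modules over an algebra with a multiplicative, possibly nonunital, coproduct.
-/

set_option autoImplicit false

open CategoryTheory
open scoped TensorProduct

namespace Pool.Agent.Helper202_BG

/-- the coproduct is multiplicative -/
class CM (k H : Type) [Field k] [Ring H] [Algebra k H] [Coalgebra k H] : Prop where
  comul_mul : ∀ x y : H, CoalgebraStruct.comul (R := k) (A := H) (x * y)
        = CoalgebraStruct.comul (R := k) (A := H) x * CoalgebraStruct.comul (R := k) (A := H) y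

section
variable (k H : Type) [Field k] [Ring H] [Algebra k H]
variable (W : Type) [AddCommGroup W] [Module H W] [Module k W] [IsScalarTower k H W]
variable (V : Type) [AddCommGroup V] [Module H V] [Module k V] [IsScalarTower k H V]

/-- the action of `H ⊗ H` on `W ⊗ V` -/
noncomputable def op : H ⊗[k] H →ₐ[k] Module.End k (W ⊗[k] V) :=
  (Module.endTensorEndAlgHom (R := k) (S := k) (A := k)).comp
    (Algebra.TensorProduct.map (Algebra.lsmul k k W) (Algebra.lsmul k k V))

theorem op_tmul (a b : H) (w : W) (v : V) :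
    op k H W V (a ⊗ₜ[k] b) (w ⊗ₜ[k] v) = (a • w) ⊗ₜ[k] (b • v) := by
  rw [op, AlgHom.comp_apply, Algebra.TensorProduct.map_tmul]
  erw [Module.endTensorEndAlgHom_apply]
  rfl

variable [Coalgebra k H]

/-- the (nonunital) diagonal action of `H` on `W ⊗ V` -/
noncomputable def dact (h : H) : Module.End k (W ⊗[k] V) :=
  op k H W V (CoalgebraStruct.comul (R := k) (A := H) h)

theorem dact_mul [CM k H] (g h : H) (x : W ⊗[k] V) :
    dact k H W V (g * h) x = dact k H W V g (dact k H W V h x) := by
  rw [dact, CM.comul_mul, map_mul]; rfl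

/-- the module `W # V`, the image of the idempotent `Δ(1)` on `W ⊗ V` -/
def Ten : Type := LinearMap.range (dact k H W V 1)

noncomputable instance : AddCommGroup (Ten k H W V) :=
  inferInstanceAs (AddCommGroup (LinearMap.range (dact k H W V 1)))

noncomputable instance : Module k (Ten k H W V) :=
  inferInstanceAs (Module k (LinearMap.range (dact k H W V 1)))

/-- the inclusion into the tensor product -/
noncomputable def Ten.val : Ten k H W V →ₗ[k] W ⊗[k] V :=
  (LinearMap.range (dact k H W V 1)).subtype

theorem Ten.val_inj : Function.Injective (Ten.val k H W V) :=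
  (LinearMap.range (dact k H W V 1)).injective_subtype

/-- the projection from the tensor product -/
noncomputable def Ten.pr : W ⊗[k] V →ₗ[k] Ten k H W V :=
  (dact k H W V 1).rangeRestrict

theorem Ten.val_pr (x : W ⊗[k] V) : Ten.val k H W V (Ten.pr k H W V x) = dact k H W V 1 x := rfl

theorem Ten.pr_surj : Function.Surjective (Ten.pr k H W V) :=
  LinearMap.surjective_rangeRestrict _

variable [CM k H]

theorem dact_one_dact (h : H) (x : W ⊗[k] V) :
    dact k H W V 1 (dact k H W V h x) = dact k H W V h x := by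
  rw [← dact_mul, one_mul]

theorem dact_dact_one (h : H) (x : W ⊗[k] V) :
    dact k H W V h (dact k H W V 1 x) = dact k H W V h x := by
  rw [← dact_mul, mul_one]

theorem Ten.dact_val (x : Ten k H W V) :
    dact k H W V 1 (Ten.val k H W V x) = Ten.val k H W V x := by
  obtain ⟨y, rfl⟩ := Ten.pr_surj k H W V x
  rw [Ten.val_pr, dact_one_dact]

theorem Ten.pr_val (x : Ten k H W V) : Ten.pr k H W V (Ten.val k H W V x) = x := by
  apply Ten.val_inj
  rw [Ten.val_pr, Ten.dact_val]

omit [CM k H] in
theorem dact_add (g h : H) (x : W ⊗[k] V) :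
    dact k H W V (g + h) x = dact k H W V g x + dact k H W V h x := by
  simp [dact]

omit [CM k H] in
theorem dact_smul (c : k) (h : H) (x : W ⊗[k] V) :
    dact k H W V (c • h) x = c • dact k H W V h x := by
  simp [dact]

noncomputable instance : Module H (Ten k H W V) where
  smul h x := Ten.pr k H W V (dact k H W V h (Ten.val k H W V x))
  one_smul x := by
    change Ten.pr k H W V (dact k H W V 1 (Ten.val k H W V x)) = x
    rw [Ten.dact_val, Ten.pr_val]
  mul_smul g h x := by
    change Ten.pr k H W V (dact k H W V (g * h) (Ten.val k H W V x)) =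
      Ten.pr k H W V (dact k H W V g (Ten.val k H W V (Ten.pr k H W V
        (dact k H W V h (Ten.val k H W V x)))))
    rw [Ten.val_pr, dact_one_dact, dact_mul]
  smul_zero h := by
    change Ten.pr k H W V (dact k H W V h (Ten.val k H W V 0)) = 0
    simp
  smul_add h x y := by
    change Ten.pr k H W V (dact k H W V h (Ten.val k H W V (x + y))) =
      Ten.pr k H W V (dact k H W V h (Ten.val k H W V x)) +
      Ten.pr k H W V (dact k H W V h (Ten.val k H W V y))
    simp
  add_smul g h x := by
    change Ten.pr k H W V (dact k H W V (g + h) (Ten.val k H W V x)) =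
      Ten.pr k H W V (dact k H W V g (Ten.val k H W V x)) +
      Ten.pr k H W V (dact k H W V h (Ten.val k H W V x))
    rw [dact_add, map_add]
  zero_smul x := by
    change Ten.pr k H W V (dact k H W V 0 (Ten.val k H W V x)) = 0
    have : dact k H W V 0 = 0 := by simp [dact]
    rw [this]; simp

/-- the module action in terms of the diagonal action -/
theorem Ten.val_smul (h : H) (x : Ten k H W V) :
    Ten.val k H W V (h • x) = dact k H W V h (Ten.val k H W V x) := by
  change Ten.val k H W V (Ten.pr k H W V (dact k H W V h (Ten.val k H W V x))) = _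
  rw [Ten.val_pr, dact_one_dact]

theorem Ten.smul_pr (h : H) (x : W ⊗[k] V) :
    h • Ten.pr k H W V x = Ten.pr k H W V (dact k H W V h x) := by
  apply Ten.val_inj
  rw [Ten.val_smul, Ten.val_pr, Ten.val_pr, dact_dact_one, dact_one_dact]

instance : IsScalarTower k H (Ten k H W V) where
  smul_assoc c h x := by
    apply Ten.val_inj
    rw [Ten.val_smul, map_smul, Ten.val_smul, dact_smul]

end

section
variable {k H : Type} [Field k] [Ring H] [Algebra k H]
variable {W : Type} [AddCommGroup W] [Module H W] [Module k W] [IsScalarTower k H W]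
variable {V : Type} [AddCommGroup V] [Module H V] [Module k V] [IsScalarTower k H V]
variable {W' : Type} [AddCommGroup W'] [Module H W'] [Module k W'] [IsScalarTower k H W']
variable {V' : Type} [AddCommGroup V'] [Module H V'] [Module k V'] [IsScalarTower k H V']
variable {W'' : Type} [AddCommGroup W''] [Module H W''] [Module k W''] [IsScalarTower k H W'']
variable {V'' : Type} [AddCommGroup V''] [Module H V''] [Module k V''] [IsScalarTower k H V'']

/-- functoriality of the tensor product -/
noncomputable def tmap (f : W →ₗ[H] W') (g : V →ₗ[H] V') : W ⊗[k] V →ₗ[k] W' ⊗[k] V' :=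
  TensorProduct.map (f.restrictScalars k) (g.restrictScalars k)

theorem tmap_tmul (f : W →ₗ[H] W') (g : V →ₗ[H] V') (w : W) (v : V) :
    tmap (k := k) f g (w ⊗ₜ[k] v) = f w ⊗ₜ[k] g v := by
  simp [tmap]

theorem tmap_op (f : W →ₗ[H] W') (g : V →ₗ[H] V') (t : H ⊗[k] H) (x : W ⊗[k] V) :
    tmap f g (op k H W V t x) = op k H W' V' t (tmap f g x) := by
  induction t with
  | zero => simp
  | add a b ha hb => simp only [map_add, LinearMap.add_apply, ha, hb]
  | tmul a b =>
    induction x with
    | zero => simp
    | add x y hx hy => simp only [map_add, hx, hy]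
    | tmul w v => simp only [op_tmul, tmap_tmul, map_smul]

variable [Coalgebra k H]

theorem tmap_dact (f : W →ₗ[H] W') (g : V →ₗ[H] V') (h : H) (x : W ⊗[k] V) :
    tmap f g (dact k H W V h x) = dact k H W' V' h (tmap f g x) :=
  tmap_op f g _ x

variable [CM k H]

/-- functoriality of `W # V` -/
noncomputable def Ten.map (f : W →ₗ[H] W') (g : V →ₗ[H] V') :
    Ten k H W V →ₗ[H] Ten k H W' V' where
  toFun x := Ten.pr k H W' V' (tmap f g (Ten.val k H W V x))
  map_add' x y := by simp
  map_smul' h x := by
    rw [Ten.val_smul, tmap_dact, RingHom.id_apply, Ten.smul_pr]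

theorem Ten.map_apply (f : W →ₗ[H] W') (g : V →ₗ[H] V') (x : Ten k H W V) :
    Ten.map f g x = Ten.pr k H W' V' (tmap f g (Ten.val k H W V x)) := rfl

theorem Ten.val_map (f : W →ₗ[H] W') (g : V →ₗ[H] V') (x : Ten k H W V) :
    Ten.val k H W' V' (Ten.map f g x) = tmap f g (Ten.val k H W V x) := by
  rw [Ten.map_apply, Ten.val_pr, ← tmap_dact, Ten.dact_val]

theorem Ten.map_pr (f : W →ₗ[H] W') (g : V →ₗ[H] V') (x : W ⊗[k] V) :
    Ten.map f g (Ten.pr k H W V x) = Ten.pr k H W' V' (tmap f g x) := by
  apply Ten.val_inj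
  rw [Ten.val_map, Ten.val_pr, Ten.val_pr, tmap_dact]

theorem Ten.map_comp (f' : W' →ₗ[H] W'') (g' : V' →ₗ[H] V'') (f : W →ₗ[H] W')
    (g : V →ₗ[H] V') :
    (Ten.map f' g' : Ten k H W' V' →ₗ[H] _) ∘ₗ Ten.map f g = Ten.map (f' ∘ₗ f) (g' ∘ₗ g) := by
  ext x
  apply Ten.val_inj
  rw [LinearMap.comp_apply, Ten.val_map, Ten.val_map, Ten.val_map]
  have : ∀ y : W ⊗[k] V, tmap f' g' (tmap f g y) = tmap (k := k) (f' ∘ₗ f) (g' ∘ₗ g) y := by
    intro y
    induction y with
    | zero => simp
    | add x y hx hy => simp only [map_add, hx, hy]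
    | tmul w v => simp only [tmap_tmul, LinearMap.comp_apply]
  exact this _

end

/-! ### Statements -/

/-- the three identities of a weak Hopf algebra used in the module theory -/
structure WHId (k H : Type) [Field k] [Ring H] [Algebra k H] [Coalgebra k H]
    (S : H →ₗ[k] H) : Prop where
  S_one : S 1 = 1
  S_mul : ∀ x y : H, S (x * y) = S y * S x
  id1 : ∀ x : H, LinearMap.lTensor H (LinearMap.mul' k H ∘ₗ LinearMap.lTensor H S ∘ₗ
        CoalgebraStruct.comul (R := k) (A := H)) (CoalgebraStruct.comul (R := k) (A := H) x) =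
      CoalgebraStruct.comul (R := k) (A := H) (1 : H) * (x ⊗ₜ[k] 1)
  id2 : ∀ x : H, LinearMap.lTensor H (LinearMap.mul' k H ∘ₗ LinearMap.rTensor H S ∘ₗ
        CoalgebraStruct.comul (R := k) (A := H)) (CoalgebraStruct.comul (R := k) (A := H) x) =
      (x ⊗ₜ[k] 1) * LinearMap.lTensor H S (CoalgebraStruct.comul (R := k) (A := H) (1 : H))

/-- Task L2: the tensor product with a free module is projective. -/
def TaskL2 : Prop :=
  ∀ (k : Type) [Field k] (H : Type) [Ring H] [Algebra k H] [Coalgebra k H] [CM k H]
    (S : H →ₗ[k] H), WHId k H S →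
    ∀ (ι V : Type) [AddCommGroup V] [Module H V] [Module k V] [IsScalarTower k H V],
      Module.Projective H (Ten k H (ι →₀ H) V)

/-- Task L4: extension of homomorphisms. -/
def TaskL4 : Prop :=
  ∀ (k : Type) [Field k] (H : Type) [Ring H] [Algebra k H] [Coalgebra k H] [CM k H]
    (S : H →ₗ[k] H), WHId k H S →
    ∀ (V : Type) [AddCommGroup V] [Module H V] [Module k V] [IsScalarTower k H V]
      [Module.Finite k V]
      (V' : Type) [AddCommGroup V'] [Module H V'] [Module k V'] [IsScalarTower k H V']
      [Module.Finite k V']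
      (π : V' →ₗ[H] V), Function.Surjective π →
    ∀ (W : Type) [AddCommGroup W] [Module H W] [Module k W] [IsScalarTower k H W]
      (P : Type) [AddCommGroup P] [Module H P] [Module k P] [IsScalarTower k H P]
      (i : W →ₗ[H] P), Function.Injective i →
      ∀ (f : Ten k H W V →ₗ[H] H) (F' : Ten k H P V' →ₗ[H] H),
        F' ∘ₗ Ten.map i LinearMap.id = f ∘ₗ Ten.map LinearMap.id π →
        ∃ F : Ten k H P V →ₗ[H] H, F ∘ₗ Ten.map i LinearMap.id = f

/-- Task L5: every module is naturally a retract of a tensor product with a fixed module. -/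
def TaskL5 : Prop :=
  ∀ (k : Type) [Field k] (H : Type) [Ring H] [Algebra k H] [Coalgebra k H] [CM k H]
    (S : H →ₗ[k] H), IsWeakHopf k H S →
    ∃ (W₀ : Type) (_ : AddCommGroup W₀) (_ : Module H W₀) (_ : Module k W₀)
      (_ : IsScalarTower k H W₀)
      (r : ∀ (V : Type) [AddCommGroup V] [Module H V] [Module k V] [IsScalarTower k H V],
        Ten k H W₀ V →ₗ[H] V),
      (∀ (V : Type) [AddCommGroup V] [Module H V] [Module k V] [IsScalarTower k H V],
        ∃ s : V →ₗ[H] Ten k H W₀ V, r V ∘ₗ s = LinearMap.id) ∧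
      ∀ (V : Type) [AddCommGroup V] [Module H V] [Module k V] [IsScalarTower k H V]
        (V' : Type) [AddCommGroup V'] [Module H V'] [Module k V'] [IsScalarTower k H V']
        (π : V' →ₗ[H] V), π ∘ₗ r V' = r V ∘ₗ Ten.map LinearMap.id π

end Pool.Agent.Helper202_BG
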